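import Pool.Agent.Lib.MP_fc2ced_ag.T.Van
import Pool.Agent.Lib.MP_fc2ced_ag.K.Span

/-! Varieties with a family of polynomials, fibre products with spaces of parameters, roofs and
their products. -/

open CategoryTheory Function Polynomial

namespace Pool.Agent.Lib.MP_fc2ced_ag.T

open K

noncomputable section

variable {k : Type} [Field k] {F : Type} [Field F] {χ : Chr k F}

open Pt

open Classical in
variable (χ) in
/-- The morphism given by a map on points, or zero. -/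
def Pt.hm (S S' : Pt k) (e : ∀ ⦃K⦄, S.X K → S'.X K) : S.E χ ⟶ S'.E χ :=
  if h : IsMap S S' e then h.hom χ else 0

theorem Pt.IsMap.hm_eq {S S' : Pt k} {e : ∀ ⦃K⦄, S.X K → S'.X K} (h : IsMap S S' e) :
    hm χ S S' e = h.hom χ := dif_pos h

variable (k) in
/-- A variety with a regular family of polynomials. -/
structure PV where
  S : Pt k
  c : ∀ ⦃K⦄, S.X K → ℕ → K[X]
  hc : ∀ m, S.RegP fun _ x => c x m

/-- A locally closed condition on a family of polynomials and a parameter. -/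
structure PC (P : Pt k) where
  T : ∀ ⦃K : Fld k⦄, (ℕ → K[X]) → P.X K → Prop
  conv : ∀ ⦃K K' K'' : Fld k⦄ (φ : Place K K') (φ' : Place K' K'') (c : ℕ → K[X]) (c' : ℕ → K'[X])
    (c'' : ℕ → K''[X]) (p : P.X K) (p' : P.X K') (p'' : P.X K''), P.L p → P.L p' → P.L p'' →
    (∀ m, φ.PR (c m) (c' m)) → (∀ m, φ'.PR (c' m) (c'' m)) → P.R φ p p' → P.R φ' p' p'' →
    T c p → T c'' p'' → T c' p'

variable {P : Pt k} {V V' V'' W W' : PV k} {J J' : Set ℕ} {T : PC P}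

/-- The condition depends only on the polynomials with indices in `J`. -/
def PC.Dep (T : PC P) (J : Set ℕ) : Prop :=
  ∀ ⦃K : Fld k⦄ (c c' : ℕ → K[X]) (p : P.X K), (∀ m ∈ J, c m = c' m) → T.T c p → T.T c' p

theorem PC.Dep.mono (h : T.Dep J) (e : J ⊆ J') : T.Dep J' :=
  fun _ c c' p h' => h c c' p fun m hm => h' m (e hm)

/-- The fibre product. -/
@[reducible] def PV.over (V : PV k) (T : PC P) : Pt k :=
  (V.S.prod P).restr (fun _ x => T.T (V.c x.1) x.2) fun _ _ _ φ φ' x y z a b c r r' =>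
    T.conv φ φ' _ _ _ _ _ _ a.2 b.2 c.2 (fun m => V.hc m φ x.1 y.1 a.1 b.1 r.1)
      (fun m => V.hc m φ' y.1 z.1 b.1 c.1 r'.1) r.2 r'.2

variable (χ V V' T) in
/-- The morphism of fibre products given by a map on points. -/
def ov (e : ∀ ⦃K⦄, V.S.X K → V'.S.X K) : (V.over T).E χ ⟶ (V'.over T).E χ :=
  hm χ (V.over T) (V'.over T) fun _ x => (e x.1, x.2)

variable (V V' J) in
/-- Maps that keep the polynomials with indices in `J`. -/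
structure PMap (e : ∀ ⦃K⦄, V.S.X K → V'.S.X K) : Prop where
  map : IsMap V.S V'.S e
  c : ∀ ⦃K⦄ (x : V.S.X K), V.S.L x → V'.S.L (e x) → ∀ m ∈ J, V'.c (e x) m = V.c x m

variable {e : ∀ ⦃K⦄, V.S.X K → V'.S.X K} {e' : ∀ ⦃K⦄, V'.S.X K → V''.S.X K}

theorem PMap.mono (h : PMap V V' J' e) (hJ : J ⊆ J') : PMap V V' J e :=
  ⟨h.map, fun _ x a b m hm => h.c x a b m (hJ hm)⟩

theorem PMap.cond (h : PMap V V' J e) (hT : T.Dep J) {K : Fld k} {x : V.S.X K} {p : P.X K}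
    (a : V.S.L x) (b : V'.S.L (e x)) : T.T (V.c x) p ↔ T.T (V'.c (e x)) p :=
  ⟨hT _ _ _ fun m hm => (h.c x a b m hm).symm, hT _ _ _ (h.c x a b)⟩

theorem PMap.over (h : PMap V V' J e) (hT : T.Dep J) :
    IsMap (V.over T) (V'.over T) fun _ x => (e x.1, x.2) :=
  (h.map.prod isMap_id).restr _ _ fun _ _ a b => h.cond hT a.1 b.1

theorem PMap.ov_cl (h : PMap V V' J e) (hT : T.Dep J) {K : Fld k} {x : (V.over T).X K}
    (hx : (V.over T).L x) :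
    (ov χ V V' T e).1 K ((V.over T).cl F x) = (V'.over T).cl F (e x.1, x.2) := by
  rw [ov, (h.over hT).hm_eq]
  exact (h.over hT).hom_cl hx

theorem pmap_id : PMap V V J fun _ x => x := ⟨isMap_id, fun _ _ _ _ _ _ => rfl⟩

theorem ov_id {a : ∀ ⦃K⦄, V.S.X K → V.S.X K} (h : ∀ ⦃K⦄ (x : V.S.X K), V.S.L x → a x = x) :
    ov χ V V T a = 𝟙 _ := by
  have h1 : ∀ ⦃K⦄ (x : (V.over T).X K), (V.over T).L x → (a x.1, x.2) = x :=
    fun _ x hx => Prod.ext (h x.1 hx.1.1) rfl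
  rw [ov, (isMap_id.congr h1).hm_eq]
  exact IsMap.hom_id _ h1

theorem PMap.ov_comp (h : PMap V V' J e) (h' : PMap V' V'' J e') (hT : T.Dep J)
    {e'' : ∀ ⦃K⦄, V.S.X K → V''.S.X K} (h'' : PMap V V'' J e'')
    (d : ∀ ⦃K⦄ (x : V.S.X K), V.S.L x → V''.S.L (e'' x) → V'.S.L (e x))
    (he : ∀ ⦃K⦄ (x : V.S.X K), V.S.L x → V'.S.L (e x) → e' (e x) = e'' x) :
    ov χ V V' T e ≫ ov χ V' V'' T e' = ov χ V V'' T e'' := by
  rw [ov, ov, ov, (h.over hT).hm_eq, (h'.over hT).hm_eq, (h''.over hT).hm_eq]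
  exact IsMap.hom_comp _ _ _ (fun _ x a b => have l := d x.1 a.1.1 b.1.1
    ⟨⟨l, a.1.2⟩, (h.cond hT a.1.1 l).1 a.2⟩) fun _ x a b => Prod.ext (he x.1 a.1.1 b.1.1) rfl

theorem PMap.ov_comm {a : ∀ ⦃K⦄, V.S.X K → W.S.X K} {b : ∀ ⦃K⦄, W.S.X K → V''.S.X K}
    (h : PMap V V' J e) (h' : PMap V' V'' J e') (ha : PMap V W J a) (hb : PMap W V'' J b)
    (hT : T.Dep J) (d : ∀ ⦃K⦄ (x : V.S.X K), V.S.L x →
      (V'.S.L (e x) ∧ V''.S.L (e' (e x)) ↔ W.S.L (a x) ∧ V''.S.L (b (a x))))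
    (he : ∀ ⦃K⦄ (x : V.S.X K), V.S.L x → V'.S.L (e x) → W.S.L (a x) → e' (e x) = b (a x)) :
    ov χ V V' T e ≫ ov χ V' V'' T e' = ov χ V W T a ≫ ov χ W V'' T b := by
  rw [ov, ov, ov, ov, (h.over hT).hm_eq, (h'.over hT).hm_eq, (ha.over hT).hm_eq,
    (hb.over hT).hm_eq]
  refine IsMap.comm _ _ _ _ (fun _ x l => ⟨fun ⟨l1, l2⟩ => ?_, fun ⟨l1, l2⟩ => ?_⟩)
    fun _ x l l1 l2 => Prod.ext (he x.1 l.1.1 l1.1.1 l2.1.1) rfl
  · obtain ⟨m1, m2⟩ := (d x.1 l.1.1).1 ⟨l1.1.1, l2.1.1⟩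
    have t := (ha.cond hT l.1.1 m1).1 l.2
    exact ⟨⟨⟨m1, l.1.2⟩, t⟩, ⟨m2, l.1.2⟩, (hb.cond hT m1 m2).1 t⟩
  · obtain ⟨m1, m2⟩ := (d x.1 l.1.1).2 ⟨l1.1.1, l2.1.1⟩
    have t := (h.cond hT l.1.1 m1).1 l.2
    exact ⟨⟨⟨m1, l.1.2⟩, t⟩, ⟨m2, l.1.2⟩, (h'.cond hT m1 m2).1 t⟩

theorem PMap.ov_bij (h : PMap V V' J e) (hT : T.Dep J)
    (live : ∀ ⦃K⦄ (x : V.S.X K), V.S.L x → V'.S.L (e x))
    (inj : ∀ ⦃K⦄ (x x' : V.S.X K), V.S.L x → V.S.L x' → e x = e x' → x = x')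
    (surj : ∀ ⦃K⦄ (y : V'.S.X K), V'.S.L y → ∃ x, V.S.L x ∧ e x = y) : Bij (ov χ V V' T e) := by
  rw [ov, (h.over hT).hm_eq]
  refine IsMap.bij _ (fun _ x a => have l := live x.1 a.1.1
      ⟨⟨l, a.1.2⟩, (h.cond hT a.1.1 l).1 a.2⟩)
    (fun _ x y a b c => Prod.ext (inj _ _ a.1.1 b.1.1 (Prod.mk.inj c).1) (Prod.mk.inj c).2)
    fun _ y a => ?_
  obtain ⟨y, p⟩ := y
  obtain ⟨x, l, rfl⟩ := surj y a.1.1
  exact ⟨(x, p), ⟨⟨l, a.1.2⟩, (h.cond hT l a.1.1).2 a.2⟩, rfl⟩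

variable (V J) in
/-- Self-maps that are defined everywhere. -/
structure PEnd (a : ∀ ⦃K⦄, V.S.X K → V.S.X K) : Prop extends PMap V V J a where
  live : ∀ ⦃K⦄ (x : V.S.X K), V.S.L x → V.S.L (a x)

variable (χ V V' J) in
/-- Invertible over all spaces of parameters. -/
def UU (e : ∀ ⦃K⦄, V.S.X K → V'.S.X K) : Prop :=
  ∀ (P : Pt k) (T : PC P), T.Dep J → UIso (ov χ V V' T e)

section Roof
variable (χ J) (A Z B : PV k) (j : ∀ ⦃K⦄, Z.S.X K → A.S.X K) (q : ∀ ⦃K⦄, Z.S.X K → B.S.X K)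

/-- A roof. -/
structure IsRoof : Prop where
  pj : PMap Z A J j
  pq : PMap Z B J q
  live : ∀ ⦃K⦄ (x : Z.S.X K), Z.S.L x → B.S.L (q x)
  uiso : UU χ Z A J j

/-- The roof is an eigenvector for the self-map `a`. -/
def UKills (a : ∀ ⦃K⦄, A.S.X K → A.S.X K) (c : F) : Prop :=
  ∀ (P : Pt k) (T : PC P), T.Dep J →
    Kills (ov χ Z A T j) (ov χ Z B T q) (ov χ A A T a - c • 𝟙 _)

/-- The roof identifies its target with the image of an idempotent. -/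
def UQuo {G : Type} (s : Finset G) (r : G → F) (a : G → ∀ ⦃K⦄, A.S.X K → A.S.X K) : Prop :=
  ∀ (P : Pt k) (T : PC P), T.Dep J →
    Quo (ov χ Z A T j) (ov χ Z B T q) (∑ g ∈ s, r g • ov χ A A T (a g))

end Roof

/-- Two families of polynomials are glued at the index `j`. -/
def gl {K : Type} [Field K] (j : ℕ) (c c' : ℕ → K[X]) (m : ℕ) : K[X] :=
  if m ≤ j then c m else c j * c' (m - j)

theorem Place.rel_gl {K K' : Fld k} {φ : Place K K'} (j : ℕ) {c d : ℕ → K[X]} {c' d' : ℕ → K'[X]}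
    (h : ∀ m, φ.PR (c m) (c' m)) (h' : ∀ m, φ.PR (d m) (d' m)) (m : ℕ) :
    φ.PR (gl j c d m) (gl j c' d' m) := by
  unfold gl
  split_ifs
  exacts [h m, (h j).mul (h' _)]

/-- The product. -/
@[reducible] def PV.ten (V : PV k) (j : ℕ) (W : PV k) : PV k where
  S := V.S.prod W.S
  c _ x := gl j (V.c x.1) (W.c x.2)
  hc m _ _ φ x y a b r := Place.rel_gl j (fun m => V.hc m φ x.1 y.1 a.1 b.1 r.1)
    (fun m => W.hc m φ x.2 y.2 a.2 b.2 r.2) m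

/-- The set of indices for a product. -/
def addJ (j : ℕ) (J J' : Set ℕ) : Set ℕ := {m | m ≤ j ∧ m ∈ J ∨ j < m ∧ m - j ∈ J'}

end

end Pool.Agent.Lib.MP_fc2ced_ag.T
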