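import Pool.Agent.Lib.MP_fc2ced_ag.T.Cov
import Pool.Agent.Lib.MP_fc2ced_ag.T.Rat

/-! Abelian Kummer coverings. -/

open CategoryTheory Function

namespace Pool.Agent.Lib.MP_fc2ced_ag.T

open K

noncomputable section

variable {k : Type} [Field k] {F : Type} [Field F] [CharZero F]

open Ob MP_fc2ced_ag.T.Pt

variable {ρ : Type} [Fintype ρ] (S : Pt k) (g : ρ → ∀ ⦃K⦄, S.X K → K) (hg : ∀ j, S.RegF (g j))

/-- The covering given by roots of the functions `g j`, with the function one. -/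
@[reducible] def Pt.mcov (N : ℕ) : Pt k :=
  ((S.prod ((line k).pi ρ)).restr (fun _ x => ∀ j, x.2 j ^ N = g j x.1)
    (Closed.conv fun _ _ φ _ _ a b h e j =>
      ((h.2 j).pow N).eq_of (hg j φ _ _ a.1 b.1 h.1) (e j))).withF (fun _ _ => 1) regF_one
    fun _ _ _ => one_ne_zero

variable (h0 : ∀ j ⦃K⦄ (x : S.X K), S.L x → g j x ≠ 0)

/-- The base of the covering with a monomial in the functions `g j`. -/
@[reducible] def Pt.mono (t : ρ → ℕ) : Pt k :=
  S.withF (fun _ x => ∏ j, g j x ^ t j)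
    (fun _ _ φ _ _ a b r => Place.prod fun j _ => (hg j φ _ _ a b r).pow _)
    fun _ x a => Finset.prod_ne_zero_iff.2 fun j _ => pow_ne_zero _ (h0 j x a)

namespace MCovAux

variable (χ : Chr k F) {χ₀ : Chr k F} (h₀ : χ₀.ψ = 1) (t : ρ → ℕ)

omit [CharZero F] in
theorem pow_prod {K : Fld k} {y b : ρ → K} (h : ∀ j, y j ^ χ.N = b j) :
    (∏ j, y j ^ t j) ^ χ.N = ∏ j, b j ^ t j := by
  rw [← Finset.prod_pow]
  exact Finset.prod_congr rfl fun j _ => by rw [← pow_mul, mul_comm, pow_mul, h]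

omit [CharZero F] in
theorem rt_cst {K : Fld k} (b : K) (c : ZMod χ.N) : (χ.rt b * χ.cst K c) ^ χ.N = b := by
  rw [mul_pow, χ.cst_pow, χ.rt_spec, mul_one]

omit [CharZero F] in
theorem ev_div {K : Fld k} {u v w b : K} (hu : u ^ χ.N = b) (hv : v ^ χ.N = b) (hw : w ^ χ.N = b)
    (hb : b ≠ 0) : χ.ev (u / v) * χ.ev (v / w) = χ.ev (u / w) := by
  rw [← Chr.ev_mul (Chr.div_fix hu hv hb) (Chr.div_fix hv hw hb),
    div_mul_div_cancel₀ (Chr.ne_of_pow hv hb)]

omit [CharZero F] in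
theorem live {K : Fld k} {x : S.X K} (hx : S.L x) (c : ρ → ZMod χ.N) :
    (S.mcov g hg χ.N).L (x, fun j => χ.rt (g j x) * χ.cst K (c j)) :=
  ⟨⟨hx, fun _ => trivial⟩, fun j => rt_cst χ _ (c j)⟩

include h₀

omit [CharZero F] in
/-- The projection of the covering to an isotypic part. -/
theorem mdown : IsLift (S.mcov g hg χ.N) χ₀ ((S.mono g hg h0 t).E χ) fun _ z =>
    χ.ev ((∏ j, z.2 j ^ t j) / χ.rt (∏ j, g j z.1 ^ t j)) • (S.mono g hg h0 t).cl F z.1 := by
  refine ⟨fun _ _ φ x y hx hy r => ?_, fun _ _ φ x hx hd => ?_⟩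
  · have h := (S.mono g hg h0 t).reg φ _ _ hx.1.1 hy.1.1 r.1
    have a := (S.mono g hg h0 t).ne _ hx.1.1
    have b := (S.mono g hg h0 t).ne _ hy.1.1
    obtain ⟨w, h1, h2⟩ := Chr.exists_rel (χ.rt_spec _) h
    rw [map_smul, map_cl (S := S.mono g hg h0 t) (.of_R hx.1.1 hy.1.1 r.1), smul_smul,
      rat_cf h₀ φ.one one_ne_zero, one_smul, Chr.cf_eq h h1,
      ← Chr.ev_rel (Chr.div_fix (pow_prod χ t hx.2) (χ.rt_spec _) a)
        ((Place.prod fun j _ => (r.2 j).pow _).div h1 (Chr.ne_of_pow h2 b)),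
      ev_div χ (pow_prod χ t hy.2) h2 (χ.rt_spec _) b]
  · rw [map_smul, map_cl_Dd (S := S.mono g hg h0 t) fun _ y hy r => ?_, smul_zero]
    choose w h1 h2 using fun j => Chr.exists_rel (hx.2 j) (hg j φ _ _ hx.1.1 hy r)
    exact hd hx (y, w) ⟨⟨hy, fun _ => trivial⟩, h2⟩ ⟨r, h1⟩

variable [DecidableEq ρ]

omit [CharZero F] in
/-- The inclusion of an isotypic part in the covering. -/
theorem mup : IsLift (S.mono g hg h0 t) χ ((S.mcov g hg χ.N).E χ₀) fun K x =>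
    ∑ c : ρ → ZMod χ.N,
      χ.ev (χ.rt (∏ j, g j x ^ t j) / ∏ j, (χ.rt (g j x) * χ.cst K (c j)) ^ t j) •
        (S.mcov g hg χ.N).cl F (x, fun j => χ.rt (g j x) * χ.cst K (c j)) := by
  refine ⟨fun K K' φ x y hx hy r => ?_, fun K K' φ x hx hd => ?_⟩
  · have h := (S.mono g hg h0 t).reg φ _ _ hx hy r
    have a := (S.mono g hg h0 t).ne _ hx
    have b := (S.mono g hg h0 t).ne _ hy
    obtain ⟨w, h1, h2⟩ := Chr.exists_rel (χ.rt_spec _) h
    choose u u1 u2 using fun j => Chr.exists_rel (χ.rt_spec _) (hg j φ _ _ hx hy r)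
    choose d hd using fun j => χ.exists_cast (Chr.div_fix (u2 j) (χ.rt_spec _) (h0 j y hy))
    rw [Chr.cf_eq h h1, map_sum, Finset.smul_sum]
    refine Fintype.sum_equiv (Equiv.addLeft d) _ _ fun c => ?_
    have h3 (j : ρ) : φ (χ.rt (g j x) * χ.cst K (c j)) (χ.rt (g j y) * χ.cst K' ((d + c) j)) :=
      ((u1 j).mul (χ.rel_cast φ (c j))).congr rfl (by
        rw [Pi.add_apply, AddChar.map_add_eq_mul, ← hd, ← mul_assoc,
          mul_div_cancel₀ _ (χ.rt_ne (h0 j y hy))])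
    have h4 := pow_prod χ t fun j => rt_cst χ (g j y) ((d + c) j)
    rw [map_smul, map_cl (S := S.mcov g hg χ.N) (.of_R (live S g hg χ hx c)
      (live S g hg χ hy (d + c)) ⟨r, h3⟩), rat_cf h₀ φ.one one_ne_zero, one_smul, smul_smul,
      Equiv.coe_addLeft, ev_div χ h2 (χ.rt_spec _) h4 b,
      Chr.ev_rel (Chr.div_fix (χ.rt_spec _) (pow_prod χ t fun j => rt_cst χ (g j x) (c j)) a)
        (h1.div (Place.prod fun j _ => (h3 j).pow _) (Chr.ne_of_pow h4 b))]
  · rw [map_sum]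
    refine Finset.sum_eq_zero fun c _ => ?_
    rw [map_smul, map_cl_Dd (S := S.mcov g hg χ.N) fun _ z hz r => hd hx z.1 hz.1.1 r.1, smul_zero]

end MCovAux

open MCovAux in
/-- The decomposition of the covering by the characters of the Galois group. -/
theorem sf_mcov (χ : Chr k F) (hχ : χ.ψ.IsPrimitive) (χ₀ : Chr k F) (h₀ : χ₀.ψ = 1)
    (h : ∀ t : ρ → ZMod χ.N, SF ((S.mono g hg h0 fun j => (t j).val).E χ)) :
    SF ((S.mcov g hg χ.N).E χ₀) := by
  classical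
  refine SF.of_sum h (fun t => (mdown S g hg h0 χ h₀ _).hom)
    (fun t => (mup S g hg h0 χ h₀ _).hom) ?_
  have e : ∑ t : ρ → ZMod χ.N, (mdown S g hg h0 χ h₀ fun j => (t j).val).hom ≫
      (mup S g hg h0 χ h₀ fun j => (t j).val).hom =
      ((χ.N : F) ^ Fintype.card ρ) • 𝟙 ((S.mcov g hg χ.N).E χ₀) := by
    refine Pt.hom_ext fun K z hz => ?_
    choose d hd using fun j =>
      χ.exists_cast (Chr.div_fix (hz.2 j) (χ.rt_spec _) (h0 j z.1 hz.1.1))
    have e2 : z.2 = fun j => χ.rt (g j z.1) * χ.cst K (d j) := funext fun j => by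
      rw [← hd, mul_div_cancel₀ _ (χ.rt_ne (h0 j z.1 hz.1.1))]
    have h1 (t : ρ → ZMod χ.N) : ((mdown S g hg h0 χ h₀ fun j => (t j).val).hom ≫
        (mup S g hg h0 χ h₀ fun j => (t j).val).hom).1 K ((S.mcov g hg χ.N).cl F z) =
        ∑ c : ρ → ZMod χ.N, (∏ j, χ.ψ (t j * (d j - c j))) •
          (S.mcov g hg χ.N).cl F (z.1, fun j => χ.rt (g j z.1) * χ.cst K (c j)) := by
      rw [Ob.comp_apply, IsLift.hom_cl _ hz, map_smul,
        (mup S g hg h0 χ h₀ fun j => (t j).val).hom_cl hz.1.1, Finset.smul_sum]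
      refine Finset.sum_congr rfl fun c _ => ?_
      rw [smul_smul, ev_div χ (pow_prod χ _ hz.2) (χ.rt_spec _)
        (pow_prod χ _ fun j => rt_cst χ (g j z.1) (c j))
        ((S.mono g hg h0 fun j => (t j).val).ne _ hz.1.1), ← Finset.prod_div_distrib,
        Finset.prod_congr rfl fun j _ => show _ = χ.cst K (t j * (d j - c j)) from ?_,
        Chr.ev_prod _ fun j => χ.cst_pow _]
      · simp only [Chr.ev_cast]
      · rw [e2, ← div_pow, mul_div_mul_left _ _ (χ.rt_ne (h0 j z.1 hz.1.1)),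
          ← AddChar.map_sub_eq_div, ← AddChar.map_nsmul_eq_pow, nsmul_eq_mul, ZMod.natCast_zmod_val]
    rw [sum_app, LinearMap.sum_apply, Finset.sum_congr rfl fun t _ => h1 t, Finset.sum_comm]
    have h2 (c : ρ → ZMod χ.N) : ∑ t : ρ → ZMod χ.N, ∏ j, χ.ψ (t j * (d j - c j)) =
        ∏ j, ∑ s, χ.ψ (s * (d j - c j)) := (Fintype.prod_sum fun j s => χ.ψ (s * (d j - c j))).symm
    simp only [← Finset.sum_smul, h2, AddChar.sum_mulShift _ hχ, sub_eq_zero]
    rw [Finset.sum_eq_single d (fun c _ hc => ?_) fun h => absurd (Finset.mem_univ d) h, ← e2]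
    · simp only [if_true, ZMod.card, Finset.prod_const, Finset.card_univ]
      rfl
    · obtain ⟨j, hj⟩ := Function.ne_iff.1 hc
      rw [Finset.prod_eq_zero (Finset.mem_univ j) (by rw [if_neg hj.symm, Nat.cast_zero]), zero_smul]
  rw [e]
  exact UIso.id.smul (pow_ne_zero _ χ.ne)

end

end Pool.Agent.Lib.MP_fc2ced_ag.T
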