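import Pool.Agent.Lib.MP_fc2ced_ag.T.PV

/-! Change of the space of parameters of a roof: stratifications and transfers. -/

open CategoryTheory Function Polynomial

namespace Pool.Agent.Lib.MP_fc2ced_ag.T

open K

noncomputable section

variable {k : Type} [Field k] {F : Type} [Field F] {χ : Chr k F}

open Pt hiding X

/-- Monic polynomials of degree `w` with nonzero constant coefficient. -/
def GoodP {K : Type} [Field K] (w : ℕ) (c : K[X]) : Prop :=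
  c.Monic ∧ c.natDegree = w ∧ c.coeff 0 ≠ 0

variable (χ) in
/-- A roof with an idempotent that fixes it. -/
structure Sys (w : ℕ) where
  A : PV k
  Z : PV k
  B : PV k
  j : ∀ ⦃K⦄, Z.S.X K → A.S.X K
  q : ∀ ⦃K⦄, Z.S.X K → B.S.X K
  G : Type
  s : Finset G
  r : G → F
  a : G → ∀ ⦃K⦄, A.S.X K → A.S.X K
  roof : IsRoof χ {w} A Z B j q
  pa : ∀ g ∈ s, PEnd A {w} (a g)
  gA : ∀ ⦃K⦄ (x : A.S.X K), A.S.L x → GoodP w (A.c x w)
  gZ : ∀ ⦃K⦄ (x : Z.S.X K), Z.S.L x → GoodP w (Z.c x w)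
  gB : ∀ ⦃K⦄ (x : B.S.X K), B.S.L x → GoodP w (B.c x w)
  kills : ∀ (P : Pt k) (T : PC P), T.Dep {w} →
    Kills (ov χ Z A T j) (ov χ Z B T q) (∑ g ∈ s, r g • ov χ A A T (a g) - 𝟙 _)
  idem : ∀ (P : Pt k) (T : PC P), T.Dep {w} →
    (∑ g ∈ s, r g • ov χ A A T (a g)) ≫ (∑ g ∈ s, r g • ov χ A A T (a g)) =
      ∑ g ∈ s, r g • ov χ A A T (a g)

variable {w : ℕ} {P : Pt k}

/-- The roof identifies its target with the image of the idempotent. -/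
def Sys.At (D : Sys χ w) (T : PC P) : Prop :=
  Quo (ov χ D.Z D.A T D.j) (ov χ D.Z D.B T D.q) (∑ g ∈ D.s, D.r g • ov χ D.A D.A T (D.a g))

/-- The condition `T` is the disjoint union of a closed part `T₁` and an open part `T₂`. -/
structure PC.Split (w : ℕ) (T T₁ T₂ : PC P) : Prop where
  d : T.Dep {w}
  d₁ : T₁.Dep {w}
  d₂ : T₂.Dep {w}
  iff : ∀ ⦃K : Fld k⦄ (c : ℕ → K[X]) (p : P.X K), GoodP w (c w) → P.L p →
    (T.T c p ↔ T₁.T c p ∨ T₂.T c p) ∧ ¬ (T₁.T c p ∧ T₂.T c p)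
  closed : ∀ ⦃K K' : Fld k⦄ (φ : Place K K') (c : ℕ → K[X]) (c' : ℕ → K'[X]) (p : P.X K)
    (p' : P.X K'), GoodP w (c w) → GoodP w (c' w) → P.L p → P.L p' → (∀ m, φ.PR (c m) (c' m)) →
    P.R φ p p' → T₁.T c p → T.T c' p' → T₁.T c' p'

/-- A root of the polynomial with index `w` is added to the parameters. -/
def PC.root (T : PC P) (w : ℕ) : PC (P.prod (line k)) where
  T _ c p := T.T c p.1 ∧ (c w).IsRoot p.2
  conv _ _ _ φ φ' _ _ _ _ _ _ a b c h h' r r' t t' :=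
    ⟨T.conv φ φ' _ _ _ _ _ _ a.1 b.1 c.1 h h' r.1 r'.1 t.1 t'.1,
      ((h w).eval r.2).eq_of φ.zero t.2⟩

variable {D : Sys χ w} {T T₁ T₂ : PC P}

namespace SysA

variable {P' : Pt k} {T' : PC P'} {V V' : PV k} {e : ∀ ⦃K⦄, V.S.X K → V'.S.X K}

/-- The polynomial with index `w` is good at all points. -/
def Gd (V : PV k) (w : ℕ) : Prop := ∀ ⦃K⦄ (x : V.S.X K), V.S.L x → GoodP w (V.c x w)

theorem dep_of (hT : T.Dep {w}) {K : Fld k} {c c' : ℕ → K[X]} {p : P.X K} (h : c w = c' w) :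
    T.T c p → T.T c' p := hT c c' p fun _ hm => hm ▸ h

theorem ov_cl (h : PMap V V' {w} e) (hT : T.Dep {w}) {K : Fld k} {x : V.S.X K} (hx : V.S.L x)
    (p : P.X K) :
    (ov χ V V' T e).1 K ((V.over T).cl F (x, p)) = (V'.over T).cl F (e x, p) := by
  by_cases h1 : (V.over T).L (x, p)
  · exact h.ov_cl hT h1
  · rw [cl_dead h1, map_zero, cl_dead (S := V'.over T) fun h2 =>
      h1 ⟨⟨hx, h2.1.2⟩, dep_of hT (h.c x hx h2.1.1 w rfl) h2.2⟩]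

variable (w) in
/-- A morphism that is given by a multivalued map between the parameters. -/
def Ovr (m : ∀ ⦃K : Fld k⦄, K[X] → P.X K → Multiset (P'.X K))
    (β : (V.over T).E χ ⟶ (V.over T').E χ) : Prop :=
  ∀ ⦃K⦄ (x : V.S.X K) (p : P.X K), (V.over T).L (x, p) →
    β.1 K ((V.over T).cl F (x, p)) = ((m (V.c x w) p).map fun p' => (V.over T').cl F (x, p')).sum

variable {m : ∀ ⦃K : Fld k⦄, K[X] → P.X K → Multiset (P'.X K)}

theorem Ovr.nat {β : (V.over T).E χ ⟶ (V.over T').E χ} {β' : (V'.over T).E χ ⟶ (V'.over T').E χ}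
    (hβ : Ovr w m β) (hβ' : Ovr w m β') (h : PMap V V' {w} e) (hT : T.Dep {w})
    (hT' : T'.Dep {w}) : β ≫ ov χ V V' T' e = ov χ V V' T e ≫ β' :=
  Pt.hom_ext fun K x hx => by
    obtain ⟨x, p⟩ := x
    rw [Ob.comp_apply, Ob.comp_apply, hβ x p hx, map_multiset_sum, Multiset.map_map,
      ov_cl h hT hx.1.1]
    simp only [Function.comp_def, ov_cl h hT' hx.1.1]
    by_cases h1 : V'.S.L (e x)
    · rw [hβ' _ p ⟨⟨h1, hx.1.2⟩, dep_of hT (h.c x hx.1.1 h1 w rfl).symm hx.2⟩,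
        h.c x hx.1.1 h1 w rfl]
    · rw [cl_dead (S := V'.over T) fun h2 => h1 h2.1.1, map_zero]
      exact Multiset.sum_eq_zero fun v hv => by
        obtain ⟨p', -, rfl⟩ := Multiset.mem_map.1 hv
        exact cl_dead fun h2 => h1 h2.1.1

theorem ovr_of_isMap {u : ∀ ⦃K⦄, P.X K → P'.X K}
    (h : IsMap (V.over T) (V.over T') fun _ x => (x.1, u x.2)) :
    Ovr w (fun _ _ p => {u p}) (h.hom χ) := fun K x p hx => by
  rw [h.hom_cl hx]; simp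

theorem Ovr.comp_eq {β : (V.over T).E χ ⟶ (V.over T').E χ} {v : ∀ ⦃K⦄, P'.X K → P.X K}
    {β' : (V.over T').E χ ⟶ (V.over T).E χ} (hβ : Ovr w m β)
    (hβ' : Ovr w (fun _ _ p => {v p}) β') {N : ℕ} (hV : Gd V w)
    (h : ∀ ⦃K : Fld k⦄ (c : ℕ → K[X]) (p : P.X K), GoodP w (c w) → P.L p → T.T c p →
      (m (c w) p).card = N ∧ ∀ p' ∈ m (c w) p, P'.L p' ∧ T'.T c p' ∧ v p' = p) :
    β ≫ β' = (N : F) • 𝟙 _ :=
  Pt.hom_ext fun K x hx => by
    obtain ⟨x, p⟩ := x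
    obtain ⟨h1, h2⟩ := h _ p (hV x hx.1.1) hx.1.2 hx.2
    rw [Ob.comp_apply, hβ x p hx, map_multiset_sum, Multiset.map_map,
      Multiset.map_congr rfl (g := fun _ => (V.over T).cl F (x, p)) fun p' hp => by
        obtain ⟨a, b, c⟩ := h2 p' hp
        rw [Function.comp_apply, hβ' x p' ⟨⟨hx.1.1, a⟩, b⟩]
        simp [c]]
    rw [Multiset.map_const', Multiset.sum_replicate, h1, ← Nat.cast_smul_eq_nsmul F]
    rfl

theorem nat_e {β : (D.A.over T).E χ ⟶ (D.A.over T').E χ} (hβ : Ovr w m β) (hT : T.Dep {w})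
    (hT' : T'.Dep {w}) : β ≫ (∑ g ∈ D.s, D.r g • ov χ D.A D.A T' (D.a g)) =
      (∑ g ∈ D.s, D.r g • ov χ D.A D.A T (D.a g)) ≫ β := by
  rw [Preadditive.sum_comp, Preadditive.comp_sum]
  exact Finset.sum_congr rfl fun g hg => by
    rw [Linear.smul_comp, Linear.comp_smul, hβ.nat hβ (D.pa g hg).toPMap hT hT']

theorem retract {v : ∀ ⦃K⦄, P'.X K → P.X K} (hT : T.Dep {w}) (hT' : T'.Dep {w})
    (hm : ∀ V : PV k, Gd V w → ∃ β : (V.over T).E χ ⟶ (V.over T').E χ, Ovr w m β)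
    (hv : ∀ V : PV k, Gd V w → IsMap (V.over T') (V.over T) fun _ x => (x.1, v x.2))
    {N : ℕ} (hN : (N : F) ≠ 0)
    (h : ∀ ⦃K : Fld k⦄ (c : ℕ → K[X]) (p : P.X K), GoodP w (c w) → P.L p → T.T c p →
      (m (c w) p).card = N ∧ ∀ p' ∈ m (c w) p, P'.L p' ∧ T'.T c p' ∧ v p' = p) (H : D.At T') :
    D.At T := by
  obtain ⟨z, hz⟩ := hm _ D.gZ
  obtain ⟨a, ha⟩ := hm _ D.gA
  obtain ⟨b, hb⟩ := hm _ D.gB
  have hz' := ovr_of_isMap (χ := χ) (w := w) (hv _ D.gZ)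
  have ha' := ovr_of_isMap (χ := χ) (w := w) (hv _ D.gA)
  have hb' := ovr_of_isMap (χ := χ) (w := w) (hv _ D.gB)
  refine Quo.retract H (D.roof.uiso _ T hT) (D.roof.uiso _ T' hT') (hz.nat ha D.roof.pj hT hT')
    (hz.nat hb D.roof.pq hT hT') (hz'.nat ha' D.roof.pj hT' hT) (hz'.nat hb' D.roof.pq hT' hT) hN
    (hb.comp_eq hb' D.gB h) ?_
  rw [← nat_e ha' hT' hT, ← Category.assoc, ha.comp_eq ha' D.gA h, Linear.smul_comp,
    Category.id_comp]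

section Split
variable (h : T.Split w T₁ T₂) (hV : Gd V w)
include h hV

theorem live₁ {K : Fld k} {x : (V.over T).X K} (a : (V.over T₁).L x) : (V.over T).L x :=
  ⟨a.1, (h.iff _ _ (hV _ a.1.1) a.1.2).1.2 (.inl a.2)⟩

theorem live₂ {K : Fld k} {x : (V.over T).X K} (a : (V.over T₂).L x) : (V.over T).L x :=
  ⟨a.1, (h.iff _ _ (hV _ a.1.1) a.1.2).1.2 (.inr a.2)⟩

theorem spec₁ {K K' : Fld k} {φ : Place K K'} {x : (V.over T).X K} {y : (V.over T).X K'}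
    (a : (V.over T₁).L x) (b : (V.over T).L y) (r : (V.over T).R φ x y) : (V.over T₁).L y :=
  ⟨b.1, h.closed φ _ _ _ _ (hV _ a.1.1) (hV _ b.1.1) a.1.2 b.1.2
    (fun i => V.hc i φ _ _ a.1.1 b.1.1 r.1) r.2 a.2 b.2⟩

theorem not_iff {K : Fld k} {x : (V.over T).X K} (a : (V.over T).L x) :
    ¬ (V.over T₂).L x ↔ (V.over T₁).L x :=
  have := h.iff _ _ (hV _ a.1.1) a.1.2
  ⟨fun b => ⟨a.1, (this.1.1 a.2).resolve_right fun c => b ⟨a.1, c⟩⟩,
    fun b c => this.2 ⟨b.2, c.2⟩⟩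

theorem isMap_cl : IsMap (V.over T₁) (V.over T) fun _ x => (x.1, x.2) :=
  .of_proper ⟨fun _ _ a => live₁ h hV a, fun _ _ _ _ _ _ _ r => r⟩ (fun _ _ _ => rfl)
    fun _ _ _ _ z a b r => ⟨z, spec₁ h hV a b r, r⟩

theorem isMap_op : IsMap (V.over T) (V.over T₂) fun _ x => (x.1, x.2) :=
  .of_open (fun _ _ _ _ _ a b r c => not_not.1 fun d =>
      (not_iff h hV b).2 (spec₁ h hV ((not_iff h hV a).1 d) b r) c)
    (.of_proper ⟨fun _ _ a => a.2, fun _ _ _ _ _ _ _ r => r⟩ (fun _ _ _ => rfl)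
      fun _ _ _ _ z _ b r => ⟨z, ⟨live₂ h hV b, b⟩, r⟩)

theorem ses_split : Ses ((isMap_cl h hV).hom χ) ((isMap_op h hV).hom χ) :=
  ses _ _ (fun _ _ a => live₁ h hV a) (fun _ _ _ _ _ e => e)
    (fun _ y a => (not_iff h hV a).trans ⟨fun b => ⟨y, b, rfl⟩, fun ⟨_, b, c⟩ => c ▸ b⟩)
    (fun _ _ _ _ _ _ e => e) fun _ z a => ⟨z, live₂ h hV a, rfl⟩

end Split

variable (P) in
/-- Closed conditions on a polynomial and a parameter. -/
def Cl (U : ∀ ⦃K : Fld k⦄, K[X] → P.X K → Prop) : Prop :=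
  ∀ ⦃K K' : Fld k⦄ (φ : Place K K') (c : K[X]) (c' : K'[X]) (p : P.X K) (p' : P.X K'), P.L p →
    P.L p' → φ.PR c c' → P.R φ p p' → U c p → U c' p'

variable {U : ∀ ⦃K : Fld k⦄, K[X] → P.X K → Prop}

variable (T w) in
/-- The intersection with a closed condition. -/
def inter (h : Cl P U) : PC P where
  T _ c p := T.T c p ∧ U (c w) p
  conv _ _ _ φ φ' _ _ _ _ _ _ a b c r r' s s' t t' :=
    ⟨T.conv φ φ' _ _ _ _ _ _ a b c r r' s s' t.1 t'.1, h φ _ _ _ _ a b (r w) s t.2⟩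

variable (T w) in
/-- The complement of a closed condition. -/
def diff (h : Cl P U) : PC P where
  T _ c p := T.T c p ∧ ¬ U (c w) p
  conv _ _ _ φ φ' _ _ _ _ _ _ a b c r r' s s' t t' :=
    ⟨T.conv φ φ' _ _ _ _ _ _ a b c r r' s s' t.1 t'.1,
      fun u => t'.2 (h φ' _ _ _ _ b c (r' w) s' u)⟩

theorem dep_inter (hT : T.Dep {w}) (h : Cl P U) : (inter w T h).Dep {w} :=
  fun _ c c' p e t => ⟨hT c c' p e t.1, e w rfl ▸ t.2⟩

theorem dep_diff (hT : T.Dep {w}) (h : Cl P U) : (diff w T h).Dep {w} :=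
  fun _ c c' p e t => ⟨hT c c' p e t.1, e w rfl ▸ t.2⟩

theorem split (hT : T.Dep {w}) (h : Cl P U) : T.Split w (inter w T h) (diff w T h) :=
  ⟨hT, dep_inter hT h, dep_diff hT h, fun _ c p _ _ =>
    ⟨⟨fun t => (em (U (c w) p)).imp (⟨t, ·⟩) (⟨t, ·⟩), fun t => t.elim (·.1) (·.1)⟩,
      fun t => t.2.2 t.1.2⟩,
    fun _ _ φ _ _ _ _ _ _ a b r s t t' => ⟨t', h φ _ _ _ _ a b (r w) s t.2⟩⟩

theorem pr_lin {K K' : Fld k} {φ : Place K K'} {a : K} {b : K'} (h : φ a b) (w : ℕ) :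
    φ.PR ((X - C a) ^ w) ((X - C b) ^ w) := (Place.PR.X.sub (.C h)).pow w

theorem exists_lin {K K' : Fld k} {φ : Place K K'} {a : K} {c : K'[X]} {w : ℕ}
    (hw : 0 < w) (h : φ.PR ((X - C a) ^ w) c) : ∃ b, φ a b ∧ c = (X - C b) ^ w := by
  obtain ⟨b, hb⟩ := h.exists_root ((monic_X_sub_C a).pow w) (a := a) (by simp [hw.ne'])
  exact ⟨b, hb, h.func (pr_lin hb w)⟩

theorem eq_pow_of_mult {K : Type} [Field K] {c : K[X]} {a : K} (h : GoodP w c)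
    (e : c.rootMultiplicity a = w) : c = (X - C a) ^ w :=
  eq_of_monic_of_dvd_of_natDegree_le ((monic_X_sub_C a).pow w) h.1
    (e ▸ pow_rootMultiplicity_dvd c a) (by simp [h.2.1])

theorem coeff_lin {K : Type} [Field K] (a : K) : ((X - C a) ^ w).coeff 0 = (-a) ^ w := by
  rw [coeff_zero_eq_eval_zero]; simp

/-- The diagonal with given norm is a disjoint union of copies of the line. -/
theorem eq_of_norm {K K' : Fld k} {φ : Place K K'} (hw : 0 < w) {a t : K} {b : K'} (h : φ a b)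
    (hb : b ≠ 0) (e : (-t) ^ w = (-a) ^ w) (r : φ.PR ((X - C t) ^ w) ((X - C b) ^ w)) : t = a := by
  obtain ⟨t', h1, h2⟩ := exists_lin hw r
  have h4 : t' = b := by
    have := congrArg (Polynomial.eval t') h2
    simpa [hw.ne', zero_pow, sub_eq_zero] using this
  refine (div_eq_one_iff_eq (h.ne_zero hb)).1 (not_not.1 fun h5 => ?_)
  refine Place.ne_one_of_pow hw (h1.div h hb) ?_ h5 (by rw [h4, div_self hb])
  rw [← neg_div_neg_eq, div_pow, e, div_self (pow_ne_zero _ (neg_ne_zero.2 (h.ne_zero hb)))]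

end SysA

open SysA

theorem Sys.At.of_empty (h : ∀ ⦃K : Fld k⦄ (c : ℕ → K[X]) (p : P.X K), GoodP w (c w) → P.L p →
    ¬ T.T c p) : D.At T :=
  have z (V : PV k) (hV : Gd V w) : UZero ((V.over T).E χ) :=
    uzero_empty fun _ _ a => h _ _ (hV _ a.1.1) a.1.2 a.2
  Quo.of_uzero ((z _ D.gA).null_left _) (z _ D.gB)

theorem Sys.At.ses₂ (h : T.Split w T₁ T₂) (h₁ : D.At T₁) (h₂ : D.At T₂) : D.At T :=
  have i (V : PV k) (hV : Gd V w) := ovr_of_isMap (χ := χ) (w := w) (u := fun _ p => p)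
    (isMap_cl h hV)
  have p (V : PV k) (hV : Gd V w) := ovr_of_isMap (χ := χ) (w := w) (u := fun _ p => p)
    (isMap_op h hV)
  Quo.ses₂ (ses_split h D.gZ) (ses_split h D.gA) (ses_split h D.gB) (D.roof.uiso _ _ h.d₁)
    (D.roof.uiso _ _ h.d) (D.roof.uiso _ _ h.d₂)
    ((i _ D.gZ).nat (i _ D.gA) D.roof.pj h.d₁ h.d) ((p _ D.gZ).nat (p _ D.gA) D.roof.pj h.d h.d₂)
    ((i _ D.gZ).nat (i _ D.gB) D.roof.pq h.d₁ h.d) ((p _ D.gZ).nat (p _ D.gB) D.roof.pq h.d h.d₂)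
    (nat_e (i _ D.gA) h.d₁ h.d) (nat_e (p _ D.gA) h.d h.d₂) (D.idem _ _ h.d₁) (D.idem _ _ h.d)
    (D.idem _ _ h.d₂) (D.kills _ _ h.d₁) (D.kills _ _ h.d) (D.kills _ _ h.d₂) h₁ h₂

theorem Sys.At.ses₁ (h : T.Split w T₁ T₂) (h₀ : D.At T) (h₂ : D.At T₂) : D.At T₁ :=
  have i (V : PV k) (hV : Gd V w) := ovr_of_isMap (χ := χ) (w := w) (u := fun _ p => p)
    (isMap_cl h hV)
  have p (V : PV k) (hV : Gd V w) := ovr_of_isMap (χ := χ) (w := w) (u := fun _ p => p)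
    (isMap_op h hV)
  Quo.ses₁ (ses_split h D.gZ) (ses_split h D.gA) (ses_split h D.gB) (D.roof.uiso _ _ h.d₁)
    (D.roof.uiso _ _ h.d) (D.roof.uiso _ _ h.d₂)
    ((i _ D.gZ).nat (i _ D.gA) D.roof.pj h.d₁ h.d) ((p _ D.gZ).nat (p _ D.gA) D.roof.pj h.d h.d₂)
    ((i _ D.gZ).nat (i _ D.gB) D.roof.pq h.d₁ h.d) ((p _ D.gZ).nat (p _ D.gB) D.roof.pq h.d h.d₂)
    (nat_e (i _ D.gA) h.d₁ h.d) (nat_e (p _ D.gA) h.d h.d₂) (D.idem _ _ h.d₁) (D.idem _ _ h.d)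
    (D.idem _ _ h.d₂) (D.kills _ _ h.d₁) (D.kills _ _ h.d) (D.kills _ _ h.d₂) h₀ h₂

theorem Sys.At.clopen (h : T.Split w T₁ T₂) (h' : T.Split w T₂ T₁) (h₀ : D.At T) : D.At T₁ :=
  retract (m := fun _ _ p => {p}) (v := fun _ p => p) h.d₁ h.d
    (fun _ hV => ⟨_, ovr_of_isMap (u := fun _ p => p) (isMap_cl h hV)⟩)
    (fun _ hV => isMap_op h' hV) (N := 1) (by simp)
    (fun _ c p a b t => by simpa using ⟨b, (h.iff c p a b).1.2 (.inl t)⟩) h₀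

theorem Sys.At.of_root [CharZero F] (hw : 0 < w) (hT : T.Dep {w}) (h : D.At (T.root w)) :
    D.At T := by
  refine retract (T' := T.root w) (m := fun _ c p => c.roots.map fun a => (p, a))
    (v := fun _ p => p.1) hT
    (fun _ c c' p e t => ⟨hT c c' p.1 e t.1, e w rfl ▸ t.2⟩) (fun V hV => ?_) (fun V hV => ?_)
    (N := w) (Nat.cast_ne_zero.2 hw.ne') (fun K c p a b t => ⟨?_, fun p' hp => ?_⟩) h
  · have := isCor_root (S := V.over T) (S' := V.over (T.root w)) (c := fun _ x => V.c x.1 w)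
      (fun _ _ φ _ _ a b h => V.hc w φ _ _ a.1.1 b.1.1 h.1) (fun _ x a => (hV x.1 a.1.1).1)
      (e := fun _ x a => (x.1, (x.2, a)))
      (.of_inv ⟨fun _ _ a => ⟨⟨a.1.1.1.1, a.1.1.1.2, trivial⟩, a.1.1.2, a.2⟩,
          fun _ _ _ _ _ _ _ r => ⟨r.1.1, r.1.2, r.2⟩⟩
        (g := fun _ x => ((x.1, x.2.1), x.2.2))
        ⟨fun _ _ a => ⟨⟨⟨⟨a.1.1, a.1.2.1⟩, a.2.1⟩, trivial⟩, a.2.2⟩,
          fun _ _ _ _ _ _ _ r => ⟨⟨r.1, r.2.1⟩, r.2.2⟩⟩
        (fun _ _ _ => (mul_assoc _ _ _).symm) fun _ _ _ => rfl)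
    exact ⟨this.hom χ, fun K x p hx => by
      rw [IsCor.hom_cl _ hx, cls, Multiset.map_map, Multiset.map_map]; rfl⟩
  · refine .of_proper ⟨fun _ _ a => ⟨⟨a.1.1, a.1.2.1⟩, a.2.1⟩, fun _ _ _ _ _ _ _ r => ⟨r.1, r.2.1⟩⟩
      (fun _ x _ => congrArg (V.S.f x.1 * ·) (mul_one _).symm) fun _ _ φ x z a b r => ?_
    have h1 := V.hc w φ _ _ a.1.1 b.1.1 r.1
    obtain ⟨t, ht⟩ := h1.exists_root (hV x.1 a.1.1).1 a.2.2
    exact ⟨(z.1, z.2, t), ⟨⟨b.1.1, b.1.2, trivial⟩, b.2, (h1.eval ht).eq_of φ.zero a.2.2⟩,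
      r.1, r.2, ht⟩
  · rw [Multiset.card_map, IsAlgClosed.card_roots_eq_natDegree, a.2.1]
  · obtain ⟨s, hs, rfl⟩ := Multiset.mem_map.1 hp
    exact ⟨⟨b, trivial⟩, ⟨t, (mem_roots a.1.ne_zero).1 hs⟩, rfl⟩

/-- Stratification by the multiplicity of a root. -/
theorem Sys.At.of_mult [CharZero F] (hw : 0 < w) (hT : T.Dep {w})
    (h : ∀ (j : ℕ) (T' : PC (P.prod (line k))), 0 < j → j ≤ w → T'.Dep {w} →
      (∀ ⦃K : Fld k⦄ (c : ℕ → K[X]) (p : P.X K × K), GoodP w (c w) → P.L p.1 → T'.T c p →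
        T.T c p.1 ∧ (c w).rootMultiplicity p.2 = j) → D.At T') : D.At T := by
  have key (d : ℕ) : ∀ i, 0 < i → i + d = w + 1 → ∀ T' : PC (P.prod (line k)), T'.Dep {w} →
      (∀ ⦃K : Fld k⦄ (c : ℕ → K[X]) (p : P.X K × K), T'.T c p →
        T.T c p.1 ∧ (X - C p.2) ^ i ∣ c w) → D.At T' := by
    induction d with
    | zero =>
      intro i _ e T' _ h'
      refine .of_empty fun _ c p a _ t => ?_
      have := natDegree_le_of_dvd (h' c p t).2 a.1.ne_zero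
      simp [a.2.1] at this
      omega
    | succ d ih =>
      intro i hi e T' hT' h'
      have cl : Cl (P.prod (line k)) fun _ c p => (X - C p.2) ^ (i + 1) ∣ c :=
        fun _ _ φ _ _ _ _ _ _ r s => (pr_lin s.2 _).dvd r ((monic_X_sub_C _).pow _)
      refine .ses₂ (split hT' cl)
        (ih (i + 1) i.succ_pos (by omega) _ (dep_inter hT' cl) fun _ c p t => ⟨(h' c p t.1).1, t.2⟩)
        (h i _ hi (by omega) (dep_diff hT' cl) fun _ c p a _ t => ⟨(h' c p t.1).1, ?_⟩)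
      exact le_antisymm ((rootMultiplicity_le_iff a.1.ne_zero _ _).2 t.2)
        ((le_rootMultiplicity_iff a.1.ne_zero).2 (h' c p t.1).2)
  exact .of_root hw hT (key w 1 one_pos (add_comm _ _) _
    (fun _ c c' p e t => ⟨hT c c' p.1 e t.1, e w rfl ▸ t.2⟩) fun _ c p t =>
      ⟨t.1, by rw [pow_one]; exact dvd_iff_isRoot.2 t.2⟩)

/-- The norm trick. -/
theorem Sys.At.of_norm [CharZero F] (hw : 0 < w)
    (h₁ : ∀ (P : Pt k) (T : PC P) (l : ∀ ⦃K⦄, P.X K → K) (j : ℕ), P.RegF l → 0 < j → j < w →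
      T.Dep {w} → (∀ ⦃K : Fld k⦄ (c : ℕ → K[X]) (p : P.X K), GoodP w (c w) → P.L p → T.T c p →
        (c w).rootMultiplicity (l p) = j) → D.At T)
    (h₂ : ∀ (P : Pt k) (T : PC P), (∀ ⦃K : Fld k⦄ (c c' : ℕ → K[X]) (p : P.X K),
      (c w).coeff 0 = (c' w).coeff 0 → T.T c p → T.T c' p) → D.At T)
    (hT : T.Dep {w}) : D.At T := by
  have low {P : Pt k} (T' : PC (P.prod (line k))) (j : ℕ) (h0 : 0 < j) (hj : j < w)
      (d : T'.Dep {w}) (h : ∀ ⦃K : Fld k⦄ (c : ℕ → K[X]) (p : P.X K × K), GoodP w (c w) →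
        P.L p.1 → T'.T c p → (c w).rootMultiplicity p.2 = j) : D.At T' :=
    h₁ _ T' (fun _ p => p.2) j (fun _ _ _ _ _ _ _ r => r.2) h0 hj d fun _ c p a b => h c p a b.1
  refine .of_mult hw hT fun j T' h0 hj d h => ?_
  rcases hj.lt_or_eq with hj | rfl
  · exact low T' j h0 hj d fun _ c p a b t => (h c p a b t).2
  replace h := fun K c p a b t => eq_pow_of_mult a (@h K c p a b t).2
  let N : PC (P.prod (line k)) :=
    { T _ c p := T'.T (fun _ => (X - C p.2) ^ j) p ∧ (c j).coeff 0 = (-p.2) ^ j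
      conv _ _ _ φ φ' _ _ _ _ _ _ a b c r r' s s' t t' :=
        ⟨T'.conv φ φ' _ _ _ _ _ _ a b c (fun _ => pr_lin s.2 j) (fun _ => pr_lin s'.2 j) s s'
          t.1 t'.1, (r j 0).eq_of (s.2.neg.pow j) t.2⟩ }
  have dN : N.Dep {j} := fun _ c c' p e t => ⟨t.1, e j rfl ▸ t.2⟩
  have cD : Cl (P.prod (line k)) fun _ c _ => ∃ a, c = (X - C a) ^ j :=
    fun _ _ _ _ _ _ _ _ _ r _ ⟨_, e⟩ => (exists_lin hw (e ▸ r)).imp fun _ h => h.2
  have cE : Cl (P.prod (line k)) fun _ c p => c = (X - C p.2) ^ j :=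
    fun _ _ _ _ _ _ _ _ _ r s e => (e ▸ r).func (pr_lin s.2 j)
  have H : D.At (inter j N cD) := by
    refine .ses₁ (split dN cD) (h₂ _ N fun _ c c' p e t => ⟨t.1, e ▸ t.2⟩)
      (.of_mult hw (dep_diff dN cD) fun i T'' h0 hi d h => ?_)
    rcases hi.lt_or_eq with hi | rfl
    · exact low T'' i h0 hi d fun _ c p a b t => (h c p a b t).2
    · exact .of_empty fun _ c p a b t =>
        (h c p a b.1 t).1.2 ⟨_, eq_pow_of_mult a (h c p a b.1 t).2⟩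
  have dI := dep_inter dN cD
  have e1 ⦃K : Fld k⦄ (c : ℕ → K[X]) (p : P.X K × K) (a : GoodP j (c j)) (b : P.L p.1) :
      T'.T c p ↔ (inter j N cD).T c p ∧ c j = (X - C p.2) ^ j :=
    ⟨fun t => have e := h K c p a b t
      ⟨⟨⟨dep_of d e t, e ▸ coeff_lin _⟩, _, e⟩, e⟩, fun t => dep_of (c := fun _ => (X - C p.2) ^ j) d t.2.symm t.1.1.1⟩
  refine .clopen (T₂ := diff j (inter j N cD) cE)
    ⟨dI, d, dep_diff dI cE, fun _ c p a b => ?_, fun _ _ φ c c' p p' a a' b b' r s t t' => ?_⟩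
    ⟨dI, dep_diff dI cE, d, fun _ c p a b => ?_, fun _ _ φ c c' p p' a a' b b' r s t t' => ?_⟩ H
  · rw [e1 c p a b.1]
    exact ((split dI cE).iff c p a b)
  · exact (e1 c' p' a' b'.1).2 ⟨t', cE φ _ _ _ _ b b' (r j) s (h _ c p a b.1 t)⟩
  · rw [e1 c p a b.1]
    exact ⟨((split dI cE).iff c p a b).1.trans or_comm,
      fun t => ((split dI cE).iff c p a b).2 t.symm⟩
  · refine ⟨t', fun e => t.2 ?_⟩
    obtain ⟨u, hu⟩ := t.1.2
    rw [hu, eq_of_norm hw s.2 (fun e' => a'.2.2 (by rw [e, coeff_lin, e', neg_zero, zero_pow hw.ne']))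
      ((coeff_lin u).symm.trans (hu ▸ t.1.1.2)) (hu ▸ e ▸ r j)]

end

end Pool.Agent.Lib.MP_fc2ced_ag.T
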