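import Pool.Agent.Lib.MP_fc2ced_ag.T.Van
import Pool.Agent.Lib.MP_fc2ced_ag.K.Cov

/-! Tori with the coordinate subtori removed; Kummer coverings. -/

open CategoryTheory Function

namespace Pool.Agent.Lib.MP_fc2ced_ag.T

open K

noncomputable section

variable {k : Type} [Field k] {F : Type} [Field F] [CharZero F]

open Ob Pt

/-- The vectors of the box with given product. -/
@[reducible] def tor {α : Type} [Fintype α] (b : α → ℤ) (a : k) : Pt k :=
  (box k b).restr (fun K x => ∏ i, x i = algebraMap k K a)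
    (Closed.conv fun _ _ φ _ _ _ _ h e => (Place.prod fun i _ => h i).eq_of (φ.alg a) e)

/-- The Kummer covering, with the function one. -/
@[reducible] def Pt.cover (S : Pt k) (N : ℕ) : Pt k :=
  ((S.prod (line k)).restr (fun _ x => x.2 ^ N = S.f x.1)
    (Closed.conv fun _ _ φ _ _ a b h e =>
      (h.2.pow N).eq_of (S.reg φ _ _ a.1 b.1 h.1) e)).withF (fun _ _ => 1) regF_one
    fun _ _ _ => one_ne_zero

/-- The multiples of a character. -/
@[reducible] def Chr.shift (χ : Chr k F) (j : ZMod χ.N) : Chr k F :=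
  { χ with ψ := χ.ψ.mulShift j }

omit [CharZero F] in
theorem Chr.ev_zpow_triv {χ : Chr k F} {t : ℤ} (ht : χ.ψ t = 1) {K : Fld k} {z : K}
    (hz : z ^ χ.N = 1) : χ.ev (z ^ t) = 1 := by
  obtain ⟨c, rfl⟩ := χ.exists_cast hz
  rw [← AddChar.map_zsmul_eq_zpow, Chr.ev_cast, zsmul_eq_mul, mul_comm,
    ← ZMod.natCast_zmod_val c, ← nsmul_eq_mul, AddChar.map_nsmul_eq_pow, ht, one_pow]

omit [CharZero F] in
theorem Chr.tw_fix {χ : Chr k F} {K : Fld k} {a b c A B C : K} {t : ℤ} (ha : a ^ χ.N = A)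
    (hb : b ^ χ.N = B) (hc : c ^ χ.N = C) (e : C = A * B ^ t) (h0 : C ≠ 0) :
    (a * b ^ t / c) ^ χ.N = 1 :=
  Chr.div_fix ((χ.mul_rt ha b t).trans (by rw [hb, e])) hc h0

omit [CharZero F] in
/-- A factor of the function whose exponent is killed by the character does not matter. -/
theorem exists_bij_twist (χ : Chr k F) {t : ℤ} (ht : χ.ψ t = 1) (S : Pt k)
    (g g' : ∀ ⦃K⦄, S.X K → K) (hg : S.RegF g) (h0 : ∀ ⦃K⦄ (x : S.X K), S.L x → g x ≠ 0)
    (hg' : S.RegF g') (h0' : ∀ ⦃K⦄ (x : S.X K), S.L x → g' x ≠ 0)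
    (e : ∀ ⦃K⦄ (x : S.X K), S.L x → g' x = S.f x * g x ^ t) :
    ∃ u : S.E χ ⟶ (S.withF g' hg' h0').E χ, Bij u := by
  have fx {K : Fld k} (x : S.X K) (hx : S.L x) :
      (χ.rt (S.f x) * χ.rt (g x) ^ t / χ.rt (g' x)) ^ χ.N = 1 :=
    Chr.tw_fix (χ.rt_spec _) (χ.rt_spec _) (χ.rt_spec _) (e x hx) (h0' x hx)
  have h : Pt.IsLift S χ ((S.withF g' hg' h0').E χ) fun _ x =>
      χ.ev (χ.rt (S.f x) * χ.rt (g x) ^ t / χ.rt (g' x)) • (S.withF g' hg' h0').cl F x := by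
    refine ⟨fun _ _ φ x y hx hy r => ?_, fun _ _ φ x hx hd => ?_⟩
    · obtain ⟨a, a1, a2⟩ := Chr.exists_rel (χ.rt_spec _) (S.reg φ x y hx hy r)
      obtain ⟨b, b1, b2⟩ := Chr.exists_rel (χ.rt_spec _) (hg φ x y hx hy r)
      obtain ⟨c, c1, c2⟩ := Chr.exists_rel (χ.rt_spec _) (hg' φ x y hx hy r)
      have b0 := Chr.ne_of_pow b2 (h0 y hy)
      have c0 := Chr.ne_of_pow c2 (h0' y hy)
      have f0 := χ.rt_ne (S.ne y hy)
      have g0 := zpow_ne_zero t (χ.rt_ne (h0 y hy))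
      have z1 := Chr.div_fix a2 (χ.rt_spec _) (S.ne y hy)
      have z2 := Chr.div_fix b2 (χ.rt_spec _) (h0 y hy)
      have z3 : ((b / χ.rt (g y)) ^ t) ^ χ.N = 1 := by
        rw [← zpow_natCast, ← zpow_mul, mul_comm, zpow_mul, zpow_natCast, z2, one_zpow]
      rw [map_smul, Pt.map_cl (S := S.withF g' hg' h0') (.of_R hx hy r), smul_smul, smul_smul,
        Chr.cf_eq (S.reg φ x y hx hy r) a1, Chr.cf_eq (hg' φ x y hx hy r) c1,
        ← Chr.ev_rel (fx x hx) ((a1.mul (rel_zpow b1 b0 t)).div c1 c0),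
        ← Chr.ev_mul (Chr.tw_fix a2 b2 c2 (e y hy) (h0' y hy))
          (Chr.div_fix c2 (χ.rt_spec _) (h0' y hy)),
        ← mul_one (χ.ev (a / _) * _), ← Chr.ev_zpow_triv ht z2, ← Chr.ev_mul z1 (fx y hy),
        ← Chr.ev_mul (by rw [mul_pow, z1, fx y hy, one_mul]) z3]
      congr 2
      rw [div_zpow]
      field_simp
    · rw [map_smul, Pt.map_cl_Dd (S := S.withF g' hg' h0') hd, smul_zero]
  exact ⟨h.hom, fun K => bij_of_basis' Finsupp.basisSingleOne Finsupp.basisSingleOne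
    (Equiv.refl _) _ fun x => ⟨_, Chr.ev_ne_zero (fx x.1 x.2), by
      rw [← Pt.basis_cl (S := S), Pt.IsLift.hom_cl _ x.2,
        (S.withF g' hg' h0').cl_live ⟨x.1, x.2⟩]
      rfl⟩⟩

section Tools

omit [CharZero F]

variable {χ : Chr k F} {S S' : Pt k} {e : ∀ ⦃K⦄, S.X K → S'.X K} {g : ∀ ⦃K⦄, S'.X K → S.X K}

theorem eqv_of_inv (h : S.Reg S' e) (h' : S'.Reg S g)
    (f : ∀ ⦃K⦄ (x : S.X K), S.L x → S'.f (e x) = S.f x)
    (l : ∀ ⦃K⦄ (x : S.X K), S.L x → g (e x) = x) (r : ∀ ⦃K⦄ (y : S'.X K), S'.L y → e (g y) = y) :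
    Eqv (S.E χ) (S'.E χ) :=
  ⟨_, (Pt.IsMap.of_inv h h' f l).bij h.live
    (fun _ x x' hx hx' e => by rw [← l x hx, e, l x' hx']) fun _ y hy => ⟨_, h'.live y hy, r y hy⟩⟩

theorem eqv_twist {t : ℤ} (ht : χ.ψ t = 1) (h : S.Reg S' e) (h' : S'.Reg S g)
    {w : ∀ ⦃K⦄, S.X K → K} (hw : S.RegF w) (h0 : ∀ ⦃K⦄ (x : S.X K), S.L x → w x ≠ 0)
    (f : ∀ ⦃K⦄ (x : S.X K), S.L x → S'.f (e x) = S.f x * w x ^ t)
    (l : ∀ ⦃K⦄ (x : S.X K), S.L x → g (e x) = x) (r : ∀ ⦃K⦄ (y : S'.X K), S'.L y → e (g y) = y) :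
    Eqv (S.E χ) (S'.E χ) :=
  Eqv.trans (exists_bij_twist χ ht S w _ hw h0 (h.regF Pt.regF_f)
    (fun _ x hx => S'.ne _ (h.live x hx)) f)
    (eqv_of_inv ⟨h.live, h.reg⟩ ⟨h'.live, h'.reg⟩ (fun _ _ _ => rfl) l r)

/-- A rational point where the function is one. -/
theorem eqv_point (p : ∀ K, S.X K) (live : ∀ K, S.L (p K))
    (reg : ∀ ⦃K K'⦄ (φ : Place K K'), S.R φ (p K) (p K'))
    (un : ∀ ⦃K⦄ (x : S.X K), S.L x → x = p K) (f : ∀ K, S.f (p K) = 1) :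
    Eqv (S.E χ) (one k F) :=
  ((eqv_of_inv (S := (Pt.line k).pi Empty) (e := fun K _ => p K) (g := fun _ _ a => a.elim)
    ⟨fun K _ _ => live K, fun _ _ φ _ _ _ _ _ => reg φ⟩
    ⟨fun _ _ _ a => a.elim, fun _ _ _ _ _ _ _ _ a => a.elim⟩ (fun K _ _ => by simp [f K])
    (fun _ _ _ => Subsingleton.elim _ _) fun _ y hy => (un y hy).symm).symm.trans
      ⟨_, Pt.bij_pow Empty⟩).trans (Eqv.empty _ _)

theorem sf_of_acts {c : F} {e : ∀ ⦃K⦄, (S.pi (Fin 2)).X K → (S.pi (Fin 2)).X K}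
    (h : (S.pi (Fin 2)).Acts χ e c)
    (he : ∀ ⦃K⦄ (x : (S.pi (Fin 2)).X K), e x = fun a => x ((Equiv.swap 0 1).symm a)) :
    SF (S.E χ) := by
  obtain ⟨m, n⟩ := h
  rw [m.hom_congr (S.isMap_perm (Equiv.swap 0 1)) fun _ x _ => by rw [he]] at n
  refine SF.of_swap' (c := c) (.of_uiso_comp (Pt.bij_pow (Fin 2)).uiso ?_)
  rw [Preadditive.comp_sub, ← Pt.pow_perm]
  simpa using n.comp (Pt.isLift_pow χ S (Fin 2)).hom

end Tools

variable (k) in
/-- The multiplicative group with the coordinate function. -/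
@[reducible] def gmX : Pt k :=
  (Pt.gm k).withF (fun _ x => x) (fun _ _ _ _ _ _ _ h => h) fun _ _ h => h.2

theorem closed_one : (gmX k).Closed fun _ x => x = 1 :=
  fun _ _ φ _ _ _ _ h e => h.eq_of φ.one e

omit [CharZero F] in
theorem sf_susp (χ : Chr k F) (hχ : χ.ψ (1 : ℤ) ≠ 1) :
    SF (((gmX k).restr _ closed_one.not.conv).E χ) := by
  have h : (((gmX k).restr _ closed_one.not.conv).pi (Fin 2)).Swap 1 (fun _ x => x 0)
      (fun _ x => x 1) (fun _ _ => -1) fun _ _ s u => ![s, u] := by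
    refine ⟨fun _ _ _ _ _ _ _ r => r 0, fun _ _ _ _ _ _ _ r => r 1, Pt.regF_one.neg,
      fun _ x hx => mul_ne_zero (hx 0).1.2 (hx 1).1.2, fun _ x _ => ?_, fun _ x s u hx h0 e => ?_,
      fun _ _ _ _ _ _ _ _ _ _ _ _ hs hu _ _ => Fin.forall_fin_two.2 ⟨hs, hu⟩⟩
    · exact funext (Fin.forall_fin_two.2 ⟨rfl, rfl⟩)
    · have h1 : (1 - s) * (1 - u) ≠ 0 := by
        rw [show (1 - s) * (1 - u) = (1 - x 0) * (1 - x 1) by linear_combination -e]
        exact mul_ne_zero (sub_ne_zero.2 (Ne.symm (hx 0).2)) (sub_ne_zero.2 (Ne.symm (hx 1).2))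
      refine ⟨Fin.forall_fin_two.2
        ⟨⟨⟨trivial, left_ne_zero_of_mul h0⟩, (sub_ne_zero.1 (left_ne_zero_of_mul h1)).symm⟩,
          ⟨trivial, right_ne_zero_of_mul h0⟩, (sub_ne_zero.1 (right_ne_zero_of_mul h1)).symm⟩,
        rfl, rfl, rfl, ?_, funext (Fin.forall_fin_two.2 ⟨rfl, rfl⟩)⟩
      simp only [Fin.prod_univ_two, Matrix.cons_val_zero, Matrix.cons_val_one, zpow_one]
      exact (mul_div_cancel₀ _ (mul_ne_zero (hx 0).1.2 (hx 1).1.2)).symm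
  exact sf_of_acts (h.acts hχ) fun _ x => funext (Fin.forall_fin_two.2 ⟨rfl, rfl⟩)

/-- Quotients of Schur-finite objects. -/
theorem sf_ses₃ (χ : Chr k F) (hχ : χ.ψ (1 : ℤ) ≠ 1) {M₁ M₂ M₃ : Ob k F} {i : M₁ ⟶ M₂}
    {p : M₂ ⟶ M₃} (T : Ses i p) (h₁ : SF M₁) (h₂ : SF M₂) : SF M₃ := by
  have hC : UZero ((gmX k).E χ) :=
    Pt.Flow.uzero (τ := fun _ r x => x * r) hχ ⟨fun _ _ _ h hx => ⟨trivial, mul_ne_zero hx.2 h⟩,
      fun _ x _ => mul_one x, fun _ _ x h _ => mul_inv_cancel_right₀ h x,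
      fun _ r x _ _ => by rw [zpow_one], fun _ _ _ _ _ _ _ h _ _ _ h' => h'.mul h⟩
  obtain ⟨j, S⟩ := (Pt.ses_closed (χ := χ) closed_one).of_eqv
    (eqv_point (S := (gmX k).restr _ closed_one.conv) (fun _ => 1)
      (fun _ => ⟨⟨trivial, one_ne_zero⟩, rfl⟩) (fun _ _ φ => φ.one) (fun _ _ h => h.2)
      fun _ => rfl).symm
  obtain ⟨j', S'⟩ := (S.ten_left M₁).of_eqv (Eqv.rid M₁).symm
  obtain ⟨P, a, a', b, b', T₁, T₂⟩ := T.pushout S'
  exact (SF.uiso_iff (T₂.uzero₁_iff.1 (hC.ten_left (con _))) (con _)).1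
    (SF.ses₂ T₁ (con _) (con _) h₂ (SF.ten (con _) (con _) h₁ (sf_susp χ hχ)))

theorem sf_line (χ : Chr k F) : SF ((Pt.line k).E χ) := by
  have h : ((Pt.line k).pi (Fin 2)).Free (fun _ x => x 0) (fun _ x => x 0 + x 1)
      fun _ x t => ![t, x 0 + x 1 - t] := by
    refine ⟨fun _ _ _ _ _ _ _ r => r 0, fun _ _ _ _ _ _ _ r => (r 0).add (r 1),
      fun _ x _ => ?_, fun _ x t _ => ⟨fun _ => trivial, rfl, ?_, rfl, ?_⟩,
      fun _ _ _ _ _ _ _ _ _ r ht => Fin.forall_fin_two.2 ⟨ht, ((r 0).add (r 1)).sub ht⟩⟩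
    · exact funext (Fin.forall_fin_two.2 ⟨rfl, by simp⟩)
    · simp
    · exact funext (Fin.forall_fin_two.2 ⟨rfl, by simp⟩)
  exact sf_of_acts h.acts fun _ x => funext (Fin.forall_fin_two.2 ⟨by simp, by simp⟩)

theorem closed_one' : (Pt.line k).Closed fun _ x => x = 1 :=
  fun _ _ φ _ _ _ _ h e => h.eq_of φ.one e

variable (k) in
/-- The line without the point one, with the function `(1 - x) ^ t`. -/
@[reducible] def pun (t : ℤ) : Pt k :=
  ((Pt.line k).restr _ closed_one'.not.conv).withF (fun _ x => (1 - x) ^ t)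
    (fun _ _ φ _ _ _ h r => rel_zpow (φ.one.sub r) (sub_ne_zero.2 (Ne.symm h.2)) t)
    fun _ _ h => zpow_ne_zero t (sub_ne_zero.2 (Ne.symm h.2))

theorem sf_pun (χ₁ : Chr k F) (h₁ : χ₁.ψ (1 : ℤ) ≠ 1) (χ : Chr k F) (t : ℤ) :
    SF ((pun k t).E χ) := by
  by_cases ht : χ.ψ t = 1
  · refine SF.of_eqv (Eqv.symm (exists_bij_twist χ ht ((Pt.line k).restr _ closed_one'.not.conv)
      (fun _ x => 1 - x) _ (fun _ _ φ _ _ _ _ r => φ.one.sub r)
      (fun _ _ h => sub_ne_zero.2 (Ne.symm h.2)) _ _ fun _ _ _ => (one_mul _).symm)) ?_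
    exact sf_ses₃ χ₁ h₁ (Pt.ses_closed closed_one') (SF.of_eqv
      (eqv_point (S := (Pt.line k).restr _ closed_one'.conv) (fun _ => 1)
        (fun _ => ⟨trivial, rfl⟩) (fun _ _ φ => φ.one) (fun _ _ h => h.2) fun _ => rfl) SF.one)
      (sf_line χ)
  · refine SF.of_uzero (Pt.Flow.uzero (τ := fun _ r x => 1 - (1 - x) * r) ht
      ⟨fun _ _ _ h hx => ⟨trivial, fun e => mul_ne_zero (sub_ne_zero.2 (Ne.symm hx.2)) h
        (sub_eq_self.1 e)⟩, fun _ x _ => by simp, fun _ _ x h _ => by simp [h],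
        fun _ r x _ _ => ?_, fun _ _ φ _ _ _ _ h _ _ _ h' => φ.one.sub ((φ.one.sub h').mul h)⟩)
    change (1 - (1 - (1 - x) * r)) ^ t = (1 - x) ^ t * r ^ t
    rw [sub_sub_cancel, mul_zpow]

theorem closed_zero (t : ℤ) : (pun k t).Closed fun _ x => x = 0 :=
  fun _ _ φ _ _ _ _ h e => h.eq_of φ.zero e

theorem sf_pun₂ (χ₁ : Chr k F) (h₁ : χ₁.ψ (1 : ℤ) ≠ 1) (χ : Chr k F) (t : ℤ) :
    SF (((pun k t).restr _ (closed_zero t).not.conv).E χ) :=
  sf_ses₃ χ₁ h₁ (Pt.ses_closed (closed_zero t)) (SF.of_eqv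
    (eqv_point (S := (pun k t).restr _ (closed_zero t).conv) (fun _ => 0)
      (fun _ => ⟨⟨trivial, zero_ne_one⟩, rfl⟩) (fun _ _ φ => φ.zero) (fun _ _ h => h.2)
      fun _ => by simp) SF.one) (sf_pun χ₁ h₁ χ t)

theorem sf_box (χ₁ : Chr k F) (h₁ : χ₁.ψ (1 : ℤ) ≠ 1) (χ : Chr k F) {α : Type} [Fintype α]
    (b : α → ℤ) : SF ((box k b).E χ) := by
  refine Fintype.induction_empty_option (P := fun α _ => ∀ b : α → ℤ, SF ((box k b).E χ))
    (fun α β _ e ih b => ?_) (fun b => ?_) (fun α _ ih b => ?_) α b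
  · let _ : Fintype α := Fintype.ofEquiv β e.symm
    refine SF.of_eqv (eqv_of_inv (S' := box k (b ∘ e)) (e := fun _ x => x ∘ e)
      (g := fun _ y => y ∘ e.symm)
      ⟨fun _ _ h => ⟨fun _ => trivial, fun _ => h.2 _⟩, fun _ _ _ _ _ _ _ r _ => r _⟩
      ⟨fun _ _ h => ⟨fun _ => trivial, fun _ => h.2 _⟩, fun _ _ _ _ _ _ _ r _ => r _⟩
      (fun _ x _ => e.prod_comp fun i => (1 - x i) ^ (-b i)) (fun _ _ _ => by ext; simp)
      fun _ _ _ => by ext; simp) (ih _)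
  · exact SF.of_eqv (eqv_point (S := box k b) (fun _ a => a.elim)
      (fun _ => ⟨fun a => a.elim, fun a => a.elim⟩) (fun _ _ _ a => a.elim)
      (fun _ _ _ => Subsingleton.elim _ _) fun _ => by simp) SF.one
  · refine SF.of_eqv (Eqv.trans (eqv_of_inv (S' := (box k (b ∘ some)).prod
      ((pun k (-b none)).restr _ (closed_zero _).not.conv)) (e := fun _ x => (x ∘ some, x none))
      (g := fun _ y i => i.elim y.2 y.1)
      ⟨fun _ _ h => ⟨⟨fun _ => trivial, fun _ => h.2 _⟩, ⟨trivial, (h.2 _).2⟩, (h.2 _).1⟩,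
        fun _ _ _ _ _ _ _ r => ⟨fun _ => r _, r _⟩⟩
      ⟨fun _ _ h => ⟨fun _ => trivial, Option.rec ⟨h.2.2, h.2.1.2⟩ h.1.2⟩,
        fun _ _ _ _ _ _ _ r => Option.rec r.2 r.1⟩
      (fun _ x _ => (mul_comm _ _).trans (Fintype.prod_option fun i => (1 - x i) ^ (-b i)).symm)
      (fun _ _ _ => funext (Option.rec rfl fun _ => rfl)) fun _ _ _ => rfl) ⟨_, Pt.bij_ten⟩)
      (SF.ten (con _) (con _) (ih _) (sf_pun₂ χ₁ h₁ χ _))

theorem conj_invol {α : Type} [Fintype α] {σ τ : α → α} (hσ : Involutive σ) (hτ : Involutive τ)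
    (s1 : ∃ x, σ x = x) (t1 : ∃ x, τ x = x)
    (s2 : ∀ x y z, σ x = x → σ y = y → σ z = z → x = y ∨ y = z ∨ z = x)
    (t2 : ∀ x y z, τ x = x → τ y = y → τ z = z → x = y ∨ y = z ∨ z = x) :
    ∃ c : α ≃ α, ∀ x, c (σ x) = τ (c x) := by
  classical
  have key {σ : α → α} (hσ : Involutive σ) (s1 : ∃ x, σ x = x)
      (s2 : ∀ x y z, σ x = x → σ y = y → σ z = z → x = y ∨ y = z ∨ z = x) : ∃ m : ℕ,
      hσ.toPerm.cycleType = Multiset.replicate m 2 ∧ 2 * m + 1 ≤ Fintype.card α ∧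
        Fintype.card α ≤ 2 * m + 2 := by
    have h2 : hσ.toPerm ^ 2 = 1 := Equiv.ext fun x => hσ x
    have h3 := Multiset.eq_replicate_card.2 (Equiv.Perm.pow_prime_eq_one_iff.1 h2)
    have h4 := hσ.toPerm.sum_cycleType
    rw [h3, Multiset.sum_replicate, smul_eq_mul] at h4
    have h5 := Finset.card_add_card_compl hσ.toPerm.support
    have h6 : 0 < hσ.toPerm.supportᶜ.card :=
      s1.elim fun x hx => Finset.card_pos.2 ⟨x, by simpa using hx⟩
    have h7 : ¬ 2 < hσ.toPerm.supportᶜ.card := fun h => by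
      obtain ⟨x, y, z, hx, hy, hz, a, b, c⟩ := Finset.two_lt_card_iff.1 h
      rcases s2 x y z (by simpa using hx) (by simpa using hy) (by simpa using hz) with e | e | e
      exacts [a e, c e, b e.symm]
    exact ⟨_, h3, by omega, by omega⟩
  obtain ⟨m, a1, a2, a3⟩ := key hσ s1 s2
  obtain ⟨m', b1, b2, b3⟩ := key hτ t1 t2
  obtain ⟨c, hc⟩ := isConj_iff.1 (Equiv.Perm.isConj_iff_cycleType_eq.2
    (a1.trans ((show m = m' by omega) ▸ b1.symm)))
  exact ⟨c, fun x => by simpa using congr($hc (c x))⟩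

/-- An involution with at most two fixed points is a reflection of a polygon, up to the fixed
points of the reflection. -/
theorem exists_polygon {α : Type} [Fintype α] [Nonempty α] (τ : α → α) (hτ : Involutive τ)
    (h2 : ∀ x y z, τ x = x → τ y = y → τ z = z → x = y ∨ y = z ∨ z = x) :
    ∃ (m : ℕ) (e : Fin (m + 1) ≃ α), ∀ i, e (-i) = τ (e i) ∨ -i = i := by
  classical
  obtain ⟨ρ, r0, r1, r2, r3⟩ : ∃ ρ : α → α, Involutive ρ ∧ (∃ x, ρ x = x) ∧
      (∀ x y z, ρ x = x → ρ y = y → ρ z = z → x = y ∨ y = z ∨ z = x) ∧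
      ∀ x, ρ x = τ x ∨ ρ x = x := by
    by_cases h : ∃ x, τ x = x
    · exact ⟨τ, hτ, h, h2, fun _ => .inl rfl⟩
    obtain ⟨a⟩ := ‹Nonempty α›
    have f (x : α) (hx : (if x = a ∨ x = τ a then x else τ x) = x) : x = a ∨ x = τ a := by
      by_contra n
      exact h ⟨x, by rwa [if_neg n] at hx⟩
    refine ⟨fun x => if x = a ∨ x = τ a then x else τ x, fun x => ?_, ⟨a, if_pos (.inl rfl)⟩,
      fun x y z hx hy hz => ?_, fun x => ?_⟩
    · by_cases n : x = a ∨ x = τ a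
      · simp only [if_pos n]
      · have n' : ¬ (τ x = a ∨ τ x = τ a) := fun e =>
          n (e.elim (fun e => .inr (by rw [← e, hτ x])) fun e => .inl (hτ.injective e))
        simp only [if_neg n, if_neg n', hτ x]
    · rcases f x hx with rfl | rfl <;> rcases f y hy with e | e <;> rcases f z hz with e' | e' <;>
        simp [e, e']
    · by_cases n : x = a ∨ x = τ a
      · exact .inr (if_pos n)
      · exact .inl (if_neg n)
  obtain ⟨m, hm⟩ := Nat.exists_eq_succ_of_ne_zero (Fintype.card_ne_zero (α := α))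
  have e := (Fintype.equivFinOfCardEq hm).symm
  have v (i : Fin (m + 1)) (h : e (-i) = e i) : i.val = 0 ∨ 2 * i.val = m + 1 := by
    have h1 := congrArg Fin.val (e.injective h)
    have h2 := i.2
    rw [Fin.val_neg] at h1
    split_ifs at h1 <;> omega
  obtain ⟨c, hc⟩ := conj_invol (σ := fun x => e (-e.symm x)) (fun x => by simp) r0
    ⟨e 0, by simp⟩ r1 (fun x y z hx hy hz => by
      obtain ⟨x, rfl⟩ := e.surjective x
      obtain ⟨y, rfl⟩ := e.surjective y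
      obtain ⟨z, rfl⟩ := e.surjective z
      simp only [e.symm_apply_apply] at hx hy hz
      have := v x hx
      have := v y hy
      have := v z hz
      simp only [e.apply_eq_iff_eq, Fin.ext_iff]
      omega) r2
  refine ⟨m, e.trans c, fun i => ?_⟩
  have h := hc (e i)
  rw [e.symm_apply_apply] at h
  exact (r3 (c (e i))).imp h.trans fun h' => e.injective (c.injective (h.trans h'))

omit [CharZero F] in
theorem sf_tor_equiv {χ : Chr k F} {a : k} {α β : Type} [Fintype α] [Fintype β] (e : β ≃ α)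
    {b : α → ℤ} {c : β → ℤ} (hc : ∀ j, c j = b (e j)) (h : SF ((tor c a).E χ)) :
    SF ((tor b a).E χ) := by
  obtain rfl : c = b ∘ e := funext hc
  exact SF.of_eqv (eqv_of_inv (S' := tor (b ∘ e) a) (e := fun _ x => x ∘ e)
    (g := fun _ y => y ∘ e.symm)
    ⟨fun _ x h => ⟨⟨fun _ => trivial, fun _ => h.1.2 _⟩, (e.prod_comp x).trans h.2⟩,
      fun _ _ _ _ _ _ _ r _ => r _⟩
    ⟨fun _ x h => ⟨⟨fun _ => trivial, fun _ => h.1.2 _⟩, (e.symm.prod_comp x).trans h.2⟩,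
      fun _ _ _ _ _ _ _ r _ => r _⟩
    (fun _ x _ => e.prod_comp fun i => (1 - x i) ^ (-b i)) (fun _ _ _ => by ext; simp)
    fun _ _ _ => by ext; simp) h

theorem sf_tor_empty {χ : Chr k F} {a : k} {α : Type} [Fintype α] [IsEmpty α] (b : α → ℤ) :
    SF ((tor b a).E χ) := by
  by_cases h : a = 1
  · exact SF.of_eqv (eqv_point (S := tor b a) (fun _ => isEmptyElim)
      (fun _ => ⟨⟨isEmptyElim, isEmptyElim⟩, by simp [h]⟩) (fun _ _ _ => isEmptyElim)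
      (fun _ _ _ => Subsingleton.elim _ _) fun _ => by simp) SF.one
  · refine SF.of_uzero (Pt.uzero_empty fun K x hx => h ((algebraMap k K).injective ?_))
    simpa using hx.2.symm

/-- An index on which the character is trivial is added. -/
theorem sf_tor_option (χ₁ : Chr k F) (h₁ : χ₁.ψ (1 : ℤ) ≠ 1) {χ : Chr k F} {a : k} (ha : a ≠ 0)
    {α : Type} [Fintype α] {b : Option α → ℤ} (hb : χ.ψ (b none) = 1)
    (h : SF ((tor (b ∘ some) a).E χ)) : SF ((tor b a).E χ) := by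
  have cl : (box k (b ∘ some)).Closed fun K x => ∏ i, x i = algebraMap k K a :=
    fun _ _ φ _ _ _ _ h e => (Place.prod fun i _ => h i).eq_of (φ.alg a) e
  have h0 {K : Fld k} {y : α → K} (hy : ∀ i, y i ≠ 0 ∧ y i ≠ 1) : ∏ i, y i ≠ 0 :=
    Finset.prod_ne_zero_iff.2 fun i _ => (hy i).1
  refine SF.of_eqv (eqv_twist (S' := (box k (b ∘ some)).restr _ cl.not.conv) hb
    (e := fun _ x => x ∘ some) (g := fun K y i => i.elim (algebraMap k K a / ∏ i, y i) y)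
    ⟨fun _ x h => ⟨⟨fun _ => trivial, fun _ => h.1.2 _⟩, fun e => (h.1.2 none).2 ?_⟩,
      fun _ _ _ _ _ _ _ r _ => r _⟩
    ⟨fun _ y h => ⟨⟨fun _ => trivial, Option.rec ⟨div_ne_zero ((map_ne_zero _).2 ha) (h0 h.1.2),
        fun e => h.2 ((div_eq_one_iff_eq (h0 h.1.2)).1 e).symm⟩ h.1.2⟩,
        (Fintype.prod_option _).trans (div_mul_cancel₀ _ (h0 h.1.2))⟩,
      fun _ _ φ _ _ _ h r => Option.rec ((φ.alg a).div (Place.prod fun i _ => r i) (h0 h.1.2)) r⟩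
    (w := fun _ x => 1 - x none) (fun _ _ φ _ _ _ _ r => φ.one.sub (r none))
    (fun _ _ h => sub_ne_zero.2 (h.1.2 none).2.symm) (fun _ x h => ?_) (fun _ x h => ?_)
    fun _ _ _ => rfl) (sf_ses₃ χ₁ h₁ (Pt.ses_closed cl) h (sf_box χ₁ h₁ χ _))
  · exact mul_right_cancel₀ (h0 fun i => h.1.2 (some i))
      (((Fintype.prod_option x).symm.trans (h.2.trans e.symm)).trans (one_mul _).symm)
  · change ∏ i, (1 - x (some i)) ^ (-b (some i)) =
      (∏ i, (1 - x i) ^ (-b i)) * (1 - x none) ^ b none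
    rw [Fintype.prod_option, mul_right_comm, zpow_neg (1 - x none),
      inv_mul_cancel₀ (zpow_ne_zero _ (sub_ne_zero.2 (h.1.2 none).2.symm)), one_mul]
  · refine funext (Option.rec ?_ fun _ => rfl)
    exact (div_eq_iff (h0 fun i => h.1.2 (some i))).2
      (h.2.symm.trans (Fintype.prod_option x))

theorem sf_tor_sum (χ₁ : Chr k F) (h₁ : χ₁.ψ (1 : ℤ) ≠ 1) {χ : Chr k F} {a : k} (ha : a ≠ 0)
    {α : Type} [Fintype α] {b : α → ℤ} (h : SF ((tor b a).E χ)) {β : Type} [Fintype β]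
    (c : β → ℤ) (hc : ∀ j, χ.ψ (c j) = 1) : SF ((tor (Sum.elim b c) a).E χ) := by
  refine Fintype.induction_empty_option (P := fun β _ => ∀ c : β → ℤ, (∀ j, χ.ψ (c j) = 1) →
    SF ((tor (Sum.elim b c) a).E χ)) (fun β γ _ e ih c hc => ?_) (fun c _ => ?_)
    (fun β _ ih c hc => ?_) β c hc
  · let _ : Fintype β := Fintype.ofEquiv γ e.symm
    exact sf_tor_equiv ((Equiv.refl α).sumCongr e) (Sum.rec (fun _ => rfl) fun _ => rfl)
      (ih (c ∘ e) fun _ => hc _)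
  · exact sf_tor_equiv (Equiv.sumEmpty α _).symm (fun _ => rfl) h
  · let e : Option (α ⊕ β) ≃ α ⊕ Option β :=
      ⟨fun o => o.elim (.inr none) (Sum.map id some),
        Sum.elim (fun x => some (.inl x)) (Option.map .inr),
        by rintro (_ | _ | _) <;> rfl, by rintro (_ | _ | _) <;> rfl⟩
    exact sf_tor_equiv e (fun _ => rfl) (sf_tor_option χ₁ h₁ ha (hc none)
      (sf_tor_equiv (Equiv.refl _) (Sum.rec (fun _ => rfl) fun _ => rfl)
        (ih (c ∘ some) fun _ => hc _)))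

/-- Reduction to the case where the character is nontrivial on all exponents. -/
theorem sf_tor_of (χ₁ : Chr k F) (h₁ : χ₁.ψ (1 : ℤ) ≠ 1) (χ : Chr k F) {a : k} (ha : a ≠ 0)
    (H : ∀ (m : ℕ) (b : Fin (m + 1) → ℤ), (∀ i, b (-i) = b i) → (∀ i, χ.ψ (b i) ≠ 1) →
      SF ((tor b a).E χ))
    {n : ℕ} [NeZero n] (b : Fin n → ℤ) (hb : ∀ i, b (-i) = b i) : SF ((tor b a).E χ) := by
  classical
  refine sf_tor_equiv (Equiv.sumCompl fun i => χ.ψ (b i) ≠ 1) (Sum.rec (fun _ => rfl) fun _ => rfl)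
    (sf_tor_sum χ₁ h₁ ha (b := fun i => b i.1) ?_ (fun i => b i.1) fun i => not_not.1 i.2)
  rcases isEmpty_or_nonempty {i // χ.ψ (b i) ≠ 1} with _ | _
  · exact sf_tor_empty _
  have v (i : Fin n) (h : -i = i) : i.val = 0 ∨ 2 * i.val = n := by
    have h1 := congrArg Fin.val h
    have h2 := i.2
    rw [Fin.val_neg] at h1
    split_ifs at h1 <;> omega
  obtain ⟨m, e, he⟩ := exists_polygon (α := {i // χ.ψ (b i) ≠ 1})
    (fun i => ⟨-i.1, (hb i.1).symm ▸ i.2⟩) (fun i => Subtype.ext (neg_neg i.1))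
    fun x y z hx hy hz => by
      have := v x.1 (congrArg Subtype.val hx)
      have := v y.1 (congrArg Subtype.val hy)
      have := v z.1 (congrArg Subtype.val hz)
      simp only [Subtype.ext_iff, Fin.ext_iff]
      omega
  refine sf_tor_equiv e (fun _ => rfl) (H m _ (fun i => ?_) fun i => (e i).2)
  rcases he i with h | h
  · rw [h]
    exact hb _
  · rw [h]

section Cover

omit [CharZero F]

theorem Chr.cf_trivC {χ : Chr k F} (hχ : χ.ψ = 1) {K K' : Fld k} (φ : Place K K') :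
    χ.cf φ 1 = 1 := by
  obtain ⟨y, h1, h2⟩ := Chr.exists_rel (χ.rt_spec 1) φ.one
  obtain ⟨c, hc⟩ := χ.exists_cast (Chr.div_fix h2 (χ.rt_spec 1) one_ne_zero)
  rw [Chr.cf_eq φ.one h1, hc, Chr.ev_cast, hχ, AddChar.one_apply]

variable (χ : Chr k F) {χ₀ : Chr k F} (h₀ : χ₀.ψ = 1) (S : Pt k)

theorem live_cover {K : Fld k} {x : S.X K} (hx : S.L x) (c : ZMod χ.N) :
    (S.cover χ.N).L (x, χ.rt (S.f x) * χ.cst K c) :=
  ⟨⟨hx, trivial⟩, (mul_pow _ _ _).trans (by rw [χ.rt_spec, χ.cst_pow, mul_one])⟩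

include h₀

/-- The projection of the covering to an isotypic part. -/
theorem isLift_down : Pt.IsLift (S.cover χ.N) χ₀ (S.E χ)
    fun _ z => χ.ev (z.2 / χ.rt (S.f z.1)) • S.cl F z.1 := by
  refine ⟨fun _ _ φ x y hx hy r => ?_, fun _ _ φ x hx hd => ?_⟩
  · have h := S.reg φ _ _ hx.1.1 hy.1.1 r.1
    have h0 := S.ne _ hy.1.1
    obtain ⟨w, h1, h2⟩ := Chr.exists_rel (χ.rt_spec _) h
    rw [map_smul, Pt.map_cl (.of_R hx.1.1 hy.1.1 r.1), smul_smul, Chr.cf_trivC h₀ φ, one_smul,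
      Chr.cf_eq h h1, ← Chr.ev_rel (Chr.div_fix hx.2 (χ.rt_spec _) (S.ne _ hx.1.1))
        (r.2.div h1 (Chr.ne_of_pow h2 h0)),
      ← Chr.ev_mul (Chr.div_fix hy.2 h2 h0) (Chr.div_fix h2 (χ.rt_spec _) h0),
      div_mul_div_cancel₀ (Chr.ne_of_pow h2 h0)]
  · rw [map_smul, Pt.map_cl_Dd fun _ y hy r => ?_, smul_zero]
    obtain ⟨w, h1, h2⟩ := Chr.exists_rel hx.2 (S.reg φ _ _ hx.1.1 hy r)
    exact hd hx (y, w) ⟨⟨hy, trivial⟩, h2⟩ ⟨r, h1⟩

/-- The inclusion of an isotypic part in the covering. -/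
theorem isLift_up : Pt.IsLift S χ ((S.cover χ.N).E χ₀) fun K x =>
    ∑ c : ZMod χ.N, χ.ψ (-c) • (S.cover χ.N).cl F (x, χ.rt (S.f x) * χ.cst K c) := by
  refine ⟨fun K K' φ x y hx hy r => ?_, fun K K' φ x hx hd => ?_⟩
  · have h := S.reg φ _ _ hx hy r
    obtain ⟨w, h1, h2⟩ := Chr.exists_rel (χ.rt_spec _) h
    obtain ⟨d, hd⟩ := χ.exists_cast (Chr.div_fix h2 (χ.rt_spec _) (S.ne y hy))
    rw [Chr.cf_eq h h1, hd, Chr.ev_cast, map_sum, Finset.smul_sum]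
    refine Fintype.sum_equiv (Equiv.addLeft d) _ _ fun c => ?_
    have h3 : φ (χ.rt (S.f x) * χ.cst K c) (χ.rt (S.f y) * χ.cst K' (d + c)) :=
      (h1.mul (χ.rel_cast φ c)).congr rfl (by
        rw [AddChar.map_add_eq_mul, ← hd, ← mul_assoc, mul_div_cancel₀ _ (χ.rt_ne (S.ne y hy))])
    rw [map_smul, Pt.map_cl (S := S.cover χ.N) (.of_R (live_cover χ S hx c)
      (live_cover χ S hy (d + c)) ⟨r, h3⟩), Chr.cf_trivC h₀ φ, one_smul, smul_smul,
      ← AddChar.map_add_eq_mul, Equiv.coe_addLeft, neg_add, add_neg_cancel_left]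
  · rw [map_sum]
    refine Finset.sum_eq_zero fun c _ => ?_
    rw [map_smul, Pt.map_cl_Dd (S := S.cover χ.N) fun _ z hz r => hd hx z.1 hz.1.1 r.1, smul_zero]

end Cover

/-- The decomposition of the covering by the characters of the Galois group. -/
theorem sf_cover (χ : Chr k F) (hχ : χ.ψ.IsPrimitive) (χ₀ : Chr k F) (h₀ : χ₀.ψ = 1) (S : Pt k)
    (h : ∀ j, SF (S.E (χ.shift j))) : SF ((S.cover χ.N).E χ₀) := by
  classical
  refine SF.of_sum h (fun j => (isLift_down (χ.shift j) h₀ S).hom)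
    (fun j => (isLift_up (χ.shift j) h₀ S).hom) ?_
  have e : ∑ j, (isLift_down (χ.shift j) h₀ S).hom ≫ (isLift_up (χ.shift j) h₀ S).hom =
      (χ.N : F) • 𝟙 ((S.cover χ.N).E χ₀) := by
    refine Pt.hom_ext fun K z hz => ?_
    obtain ⟨d, hd⟩ := χ.exists_cast (Chr.div_fix hz.2 (χ.rt_spec _) (S.ne _ hz.1.1))
    have h1 (j : ZMod χ.N) : ((isLift_down (χ.shift j) h₀ S).hom ≫
        (isLift_up (χ.shift j) h₀ S).hom).1 K ((S.cover χ.N).cl F z) =
        ∑ c : ZMod χ.N, χ.ψ (j * (d - c)) •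
          (S.cover χ.N).cl F (z.1, χ.rt (S.f z.1) * χ.cst K c) := by
      rw [Ob.comp_apply, Pt.IsLift.hom_cl _ hz, map_smul, Pt.IsLift.hom_cl _ hz.1.1,
        Finset.smul_sum]
      refine Finset.sum_congr rfl fun c _ => ?_
      have h2 : (χ.shift j).ev (z.2 / (χ.shift j).rt (S.f z.1)) = χ.ψ (j * d) :=
        (congrArg (χ.shift j).ev hd).trans ((χ.shift j).ev_cast d)
      rw [h2, smul_smul, sub_eq_add_neg, mul_add, AddChar.map_add_eq_mul]
      rfl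
    rw [sum_app, LinearMap.sum_apply, Finset.sum_congr rfl fun j _ => h1 j, Finset.sum_comm]
    simp only [← Finset.sum_smul, AddChar.sum_mulShift _ hχ, sub_eq_zero]
    rw [Finset.sum_eq_single d (fun c _ hc => by rw [if_neg hc.symm, Nat.cast_zero, zero_smul])
      (fun h => absurd (Finset.mem_univ d) h), if_pos rfl, ZMod.card, ← hd,
      mul_div_cancel₀ _ (χ.rt_ne (S.ne _ hz.1.1))]
    rfl
  rw [e]
  exact UIso.id.smul χ.ne

end

end Pool.Agent.Lib.MP_fc2ced_ag.T
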