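import Pool.Agent.Lib.MP_fc2ced_ag.T.Ha

/-! Induction from a generalized eigenspace. -/

open CategoryTheory hiding forget
open Function Polynomial

namespace Pool.Agent.Lib.MP_fc2ced_ag.T

open K

noncomputable section

variable {k : Type} [Field k] {F : Type} [Field F] {χ : Chr k F} {n : ℕ} [Ex n] {w j l : ℕ}
  {I : Finset ℕ} {P : Pt k} {T : PC P}

namespace EigA

open Pt hiding X
open Place

section
variable {K : Type} [Field K] {x : Fin w → Fin n → K} {s : K}

omit [Ex n]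

theorem card_lt (hj : j ≤ w) : (Finset.univ.filter fun a : Fin w => (a : ℕ) < j).card = j := by
  rw [Fin.card_filter_val_lt]; omega

open Classical in
theorem card_eq (h : (chiA x w).rootMultiplicity s = j) :
    (Finset.univ.filter fun a : Fin w => ∏ i, x a i = s).card = j := by
  have : chiA x w = ((Finset.univ.val.map fun a => ∏ i, x a i).map fun t => X - C t).prod := by
    rw [chiA_top, Multiset.map_map]; rfl
  rw [← h, ← count_roots, this, roots_multiset_prod_X_sub_C, Multiset.count_map]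
  simp only [eq_comm (a := s)]
  rfl

theorem chiA_iff (hj : j ≤ w) :
    chiA x j = (X - C s) ^ j ↔ ∀ a : Fin w, (a : ℕ) < j → ∏ i, x a i = s := by
  refine ⟨fun h a ha => ?_, fun h => ?_⟩
  · have := congrArg (Polynomial.eval (∏ i, x a i)) h
    rw [chiA, eval_prod, Finset.prod_eq_zero (i := a) (by simpa using ha)
      (by rw [eval_sub, eval_X, eval_C, sub_self])] at this
    simp only [eval_pow, eval_sub, eval_X, eval_C] at this
    exact sub_eq_zero.1 (eq_zero_of_pow_eq_zero this.symm)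
  · rw [chiA, Finset.prod_congr rfl fun a ha => by rw [h a (by simpa using ha)],
      Finset.prod_const, card_lt hj]

theorem iff_of_le (hj : j ≤ w) (h : (chiA x w).rootMultiplicity s = j)
    (e : ∀ a : Fin w, (a : ℕ) < j → ∏ i, x a i = s) (a : Fin w) :
    (a : ℕ) < j ↔ ∏ i, x a i = s := by
  classical
  have := Finset.eq_of_subset_of_card_le (s := Finset.univ.filter fun a : Fin w => (a : ℕ) < j)
    (t := Finset.univ.filter fun a : Fin w => ∏ i, x a i = s)
    (fun a => by simpa using e a) (by rw [card_eq h, card_lt hj])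
  simpa using Finset.ext_iff.1 this a

theorem iff_of_ge (hj : j ≤ w) (h : (chiA x w).rootMultiplicity s = j)
    (e : ∀ a : Fin w, ∏ i, x a i = s → (a : ℕ) < j) (a : Fin w) :
    (a : ℕ) < j ↔ ∏ i, x a i = s := by
  classical
  have := Finset.eq_of_subset_of_card_le (t := Finset.univ.filter fun a : Fin w => (a : ℕ) < j)
    (s := Finset.univ.filter fun a : Fin w => ∏ i, x a i = s)
    (fun a => by simpa using e a) (by rw [card_eq h, card_lt hj])
  simpa using (Finset.ext_iff.1 this a).symm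

theorem chiA_good (h : ∀ a i, x a i ≠ 0) :
    (chiA x w).Monic ∧ (chiA x w).natDegree = w ∧ (chiA x w).coeff 0 ≠ 0 := by
  refine ⟨chiA_top x ▸ monic_prod_of_monic _ _ fun _ _ => monic_X_sub_C _, ?_, ?_⟩
  · rw [chiA_top, natDegree_prod_of_monic _ _ fun _ _ => monic_X_sub_C _]
    simp only [natDegree_X_sub_C, Finset.sum_const, Finset.card_univ, Fintype.card_fin, smul_eq_mul,
      mul_one]
  · rw [chiA_coeff]
    exact mul_ne_zero (pow_ne_zero _ (by simp)) (Finset.prod_ne_zero_iff.2 fun _ _ => h _ _)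

end

open Classical in
omit [Ex n] in
theorem card_sort {K : Fld k} {x : Fin w → Fin n → K} {s : K} (hj : j ≤ w)
    (h : (chiA x w).rootMultiplicity s = j) :
    (Finset.univ.filter fun σ : Equiv.Perm (Fin w) => chiA (pm σ x) j = (X - C s) ^ j).card =
      Nat.card (Young w {j}) := by
  obtain ⟨e⟩ : Nonempty ({a : Fin w // ∏ i, x a i = s} ≃ {a : Fin w // (a : ℕ) < j}) :=
    Fintype.card_eq.1 (by rw [Fintype.card_subtype, Fintype.card_subtype, card_eq h, card_lt hj])
  have h0 (a : Fin w) : ((e.extendSubtype a : Fin w) : ℕ) < j ↔ ∏ i, x a i = s :=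
    ⟨fun h1 => not_not.1 fun h2 => e.extendSubtype_not_mem a h2 h1, e.extendSubtype_mem a⟩
  have h1 (σ : Equiv.Perm (Fin w)) : (chiA (pm σ x) w).rootMultiplicity s = j := by
    rw [chiA_top, ← h, chiA_top, ← Equiv.prod_comp σ.symm fun a => X - C (∏ i, x a i)]; rfl
  rw [Nat.card_eq_fintype_card, Fintype.card_subtype]
  refine Finset.card_bij (fun σ _ => σ * e.extendSubtype⁻¹) (fun σ hσ => ?_)
    (fun _ _ _ _ => mul_right_cancel) fun τ hτ => ⟨τ * e.extendSubtype, ?_, by simp⟩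
  · have h2 := iff_of_le hj (h1 σ) ((chiA_iff hj).1 (Finset.mem_filter.1 hσ).2)
    refine Finset.mem_filter.2 ⟨Finset.mem_univ _, fun i hi a => ?_⟩
    obtain ⟨a, rfl⟩ := e.extendSubtype.surjective a
    rw [Finset.mem_singleton.1 hi, h0, h2]
    simp [pm]
  · refine Finset.mem_filter.2 ⟨Finset.mem_univ _, (chiA_iff hj).2 fun a ha => ?_⟩
    obtain ⟨a, rfl⟩ := (τ * e.extendSubtype).surjective a
    have := ((Finset.mem_filter.1 hτ).2 j (Finset.mem_singleton_self j) _).1 ha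
    simpa only [pm, Equiv.symm_apply_apply] using (h0 a).1 this

variable {s : ∀ ⦃K⦄, P.X K → K}

variable (T j) in
/-- The member of dimension `j` is the generalized eigenspace. -/
def gen (hs : P.RegF s) : PC P where
  T _ c p := T.T c p ∧ c j = (X - C (s p)) ^ j
  conv _ _ _ φ φ' _ _ _ _ _ _ a b c r r' u u' t t' :=
    ⟨T.conv φ φ' _ _ _ _ _ _ a b c r r' u u' t.1 t'.1,
      (t.2 ▸ r j).func ((PR.X.sub (.C (hs φ _ _ a b u))).pow j)⟩

variable (T j) in
theorem isMap_gen (hs : P.RegF s) (V : PV k) :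
    IsMap (V.over (gen j T hs)) (V.over T) fun _ x => x :=
  .of_proper ⟨fun _ _ a => ⟨a.1, a.2.1⟩, fun _ _ _ _ _ _ _ r => r⟩ (fun _ _ _ => rfl)
    fun _ _ φ _ z a b r => ⟨z, ⟨b.1, b.2, (V.hc j φ _ _ a.1.1 b.1.1 r.1).func
      (a.2.2.symm ▸ (PR.X.sub (.C (hs φ _ _ a.1.2 b.1.2 r.2))).pow j :)⟩, r⟩

theorem gen_nat (hs : P.RegF s) {V V' : PV k} {J : Set ℕ} {e : ∀ ⦃K⦄, V.S.X K → V'.S.X K}
    (h : PMap V V' J e) (hT : T.Dep J) (hT' : (gen j T hs).Dep J) :
    (isMap_gen j T hs V).hom χ ≫ ov χ V V' T e =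
      ov χ V V' (gen j T hs) e ≫ (isMap_gen j T hs V').hom χ := by
  rw [ov, ov, (h.over hT).hm_eq, (h.over hT').hm_eq]
  exact IsMap.comm _ _ _ _ (fun _ x a => and_congr_left fun b => ⟨fun _ => ⟨b.1, hT' _ _ _
    (fun m hm => (h.c x.1 a.1.1 b.1.1 m hm).symm) a.2⟩, fun _ => ⟨a.1, a.2.1⟩⟩) fun _ _ _ _ _ => rfl

end EigA

open Pt Place EigA

theorem quo_gen [CharZero F] (hχ : χ.Gen n) (hw : w ≤ n + 1) (h0 : 0 < j) (hj : j < w)
    (H : Hb χ n w {j}) {s : ∀ ⦃K⦄, P.X K → K} (hs : P.RegF s) (hT : T.Dep {w})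
    (h : ∀ ⦃K : Fld k⦄ (c : ℕ → K[X]) (p : P.X K), (c w).Monic → (c w).natDegree = w →
      (c w).coeff 0 ≠ 0 → P.L p → T.T c p → (c w).rootMultiplicity (s p) = j) :
    Quo (ov χ (Zv k n w (Finset.Ioo 0 w)) (Av k n w) T fun _ x => jmap n w x)
      (ov χ (Zv k n w (Finset.Ioo 0 w)) (Zv k n w ∅) T fun _ x => forget w ∅ x)
      (eI χ n w ∅ T) := by
  classical
  have hI : ({j} : Finset ℕ) ⊆ Finset.Ioo 0 w := by simp [h0, hj]
  have d₀ : T.Dep (JI w ∅) := hT.mono fun _ hm => .inr hm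
  have d₁ : T.Dep (JI w {j}) := hT.mono fun _ hm => .inr hm
  have d' : (gen j T hs).Dep (JI w {j}) := fun _ c c' p e t =>
    ⟨d₁ c c' p e t.1, e j (.inl (Finset.mem_singleton_self j)) ▸ t.2⟩
  have R₀ := isRoof (k := k) hχ hw (Finset.empty_subset _)
  have R₁ := isRoof (k := k) hχ hw hI
  have f₀ := pmap_forget (k := k) (n := n) (w := w) (Finset.empty_subset {j})
  have mult ⦃K : Fld k⦄ (x : ℕ → Sp K) (p : P.X K) (a : Rel n w (x w)) (b : P.L p)
      (t : T.T (fun m => chi n (x m)) p) : (chi n (x w)).rootMultiplicity (s p) = j :=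
    h _ p (chi_monic _) (a.stab.natDegree_chi.trans a.finrank_eq) (chi_coeff_zero _) b t
  have multA ⦃K : Fld k⦄ (x : ((Av k n w).over T).X K) (a : ((Av k n w).over T).L x) :
      (chiA x.1 w).rootMultiplicity (s x.2) = j :=
    have := chiA_good fun b i => ((a.1.1 b).2 i).1
    h _ x.2 this.1 this.2.1 this.2.2 a.1.2 a.2
  have lv ⦃K : Fld k⦄ (x : ((Zv k n w {j}).over T).X K) (a : ((Zv k n w {j}).over T).L x) :
      ((Zv k n w ∅).over T).L (forget w ∅ x.1, x.2) :=
    have := a.1.1.forget_flag (Finset.empty_subset _)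
    ⟨⟨this, a.1.2⟩, d₀ _ _ _ (fun m hm => (f₀.c x.1 a.1.1 this m hm).symm) a.2⟩
  have hb : IsMap ((Zv k n w {j}).over (gen j T hs)) ((Zv k n w ∅).over T)
      fun _ x => (forget w ∅ x.1, x.2) :=
    (isMap_gen j T hs _).comp (f₀.over d₀) fun _ _ a _ => ⟨a.1, a.2.1⟩
  have eb : (isMap_gen j T hs _).hom χ ≫ ov χ (Zv k n w {j}) (Zv k n w ∅) T
      (fun _ x => forget w ∅ x) = hb.hom χ := by
    rw [ov, (f₀.over d₀).hm_eq]
    exact IsMap.hom_comp _ _ _ (fun _ _ a _ => ⟨a.1, a.2.1⟩) fun _ _ _ _ => rfl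
  have bij : Bij (hb.hom χ) := by
    refine hb.bij (fun _ x a => lv x ⟨a.1, a.2.1⟩) (fun K x x' a a' e => ?_) fun K y a => ?_
    · have e1 : x.1 w = x'.1 w := by simpa [forget] using congrFun (congrArg Prod.fst e) w
      have e2 : x.2 = x'.2 := (congrArg Prod.snd e :)
      refine Prod.ext (funext fun i => ?_) e2
      by_cases h1 : i = j
      · subst h1
        exact (a.1.1.rel.stab.existsUnique_gen _ (mult _ _ a.1.1.rel a.1.2 a.2.1)).unique
          ⟨a.1.1.le_top i (by simp), a.1.1.stab i (by simp), a.1.1.rank i (by simp), a.2.2⟩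
          ⟨e1 ▸ a'.1.1.le_top i (by simp), a'.1.1.stab i (by simp), a'.1.1.rank i (by simp),
            e2 ▸ a'.2.2⟩
      · by_cases h2 : i = w
        · rw [h2, e1]
        · rw [a.1.1.bot i (by simpa using h1) h2, a'.1.1.bot i (by simpa using h1) h2]
    · obtain ⟨W, ⟨h1, h2, h3, h4⟩, -⟩ :=
        a.1.1.rel.stab.existsUnique_gen _ (mult _ _ a.1.1.rel a.1.2 a.2)
      have e1 : update y.1 j W w = y.1 w := update_of_ne hj.ne' _ _
      have e2 : update y.1 j W j = W := update_self _ _ _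
      have fl : Flag n w {j} (update y.1 j W) := by
        refine ⟨e1.symm ▸ a.1.1.trel, ?_, ?_, ?_, by simp, fun i hi hi' => ?_⟩
        iterate 3 intro i hi; rw [Finset.mem_singleton.1 hi, e2]; rotate_left
        · rw [update_of_ne (by simpa using hi), a.1.1.bot i (by simp) hi']
        exacts [h2, h3, e1.symm ▸ h1]
      refine ⟨(update y.1 j W, y.2), ⟨⟨fl, a.1.2⟩, hT _ _ _ (fun m hm => ?_) a.2,
        (congrArg (chi n) e2).trans h4⟩, Prod.ext (funext fun i => ?_) rfl⟩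
      · rw [Set.mem_singleton_iff.1 hm]
        exact congrArg (chi n) e1.symm
      · simp only [forget, Finset.notMem_empty, false_or]
        split_ifs with hi
        · rw [hi, e1]
        · exact (a.1.1.bot i (by simp) hi).symm
  have res : IsMap ((Av k n w).over T) ((Av k n w).over (gen j T hs)) fun _ x => x := by
    refine .of_open (fun K K' φ x y a b r c => ⟨a.1, a.2, (chiA_iff hj.le).2 fun i =>
      (iff_of_ge hj.le (multA x a) (fun i e => ?_) i).1⟩)
      (.of_proper ⟨fun _ _ a => a.2, fun _ _ _ _ _ _ _ r => r⟩ (fun _ _ _ => rfl)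
        fun _ _ _ _ z _ b r => ⟨z, ⟨⟨b.1, b.2.1⟩, b⟩, r⟩)
    exact (iff_of_le hj.le (multA y b) ((chiA_iff hj.le).1 c.2.2) i).2
      ((Place.prod fun l _ => r.1 i l).eq_of (hs φ _ _ a.1.2 b.1.2 r.2) e)
  have top (σ : Equiv.Perm (Fin w)) : σ ∈ Young w ∅ := young_empty w ▸ Subgroup.mem_top _
  have hY : (Nat.card (Young w {j}) : F) ≠ 0 := Nat.cast_ne_zero.2 Nat.card_pos.ne'
  refine Quo.induce (H P _ d') (R₀.uiso P T d₀) (R₁.uiso P _ d') (gen_nat hs R₁.pj d₁ d')
    (b := hb.hom χ) ?_ bij.uiso (kills_eI (ha hχ hw (Finset.empty_subset _)) d₀)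
    (π := (Nat.card (Young w {j}) : F)⁻¹ • ∑ σ, eps F n w σ •
      ov χ (Av k n w) (Av k n w) T (pm σ) ≫ res.hom χ) ?_ ?_
  · rw [← eb, ← Category.assoc, ← gen_nat hs R₁.pq d₁ d', Category.assoc,
      (R₁.pq.mono (JI_mono (Finset.empty_subset _))).ov_comp f₀ d₀ R₀.pq
        (fun _ x a _ => R₁.live x a) fun _ _ _ _ => forget_forget (Finset.empty_subset _)]
  · rw [Preadditive.sum_comp, Finset.sum_congr rfl (g := fun _ => (Nat.card (Young w {j}) : F)⁻¹ •
      (isMap_gen j T hs _).hom χ ≫ eI χ n w ∅ T) fun σ hσ => ?_, Finset.sum_const,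
      ← Nat.cast_smul_eq_nsmul F, smul_smul, yS, ← Fintype.card_subtype,
      ← Nat.card_eq_fintype_card, mul_inv_cancel₀ hY, one_smul]
    rw [Linear.smul_comp, ← Category.assoc,
      ← gen_nat hs (pend_pm (Finset.mem_filter.1 hσ).2).toPMap d₁ d', Category.assoc,
      pm_eI d₀ (top σ), Linear.comp_smul, smul_smul, yR, mul_assoc, eps_mul_self, mul_one]
  · have hE (σ : Equiv.Perm (Fin w)) := pm_eI (χ := χ) (n := n) d₀ (top σ)
    generalize eI χ n w ∅ T = E at hE ⊢
    refine Pt.hom_ext fun K x a => ?_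
    have e (σ : Equiv.Perm (Fin w)) : ((eps F n w σ • ov χ (Av k n w) (Av k n w) T (pm σ) ≫
        res.hom χ) ≫ (isMap_gen j T hs _).hom χ ≫ E).1 K (cl F _ x) =
        if chiA (pm σ x.1) j = (Polynomial.X - C (s x.2)) ^ j then E.1 K (cl F _ x) else 0 := by
      have h1 := pend_pm (k := k) (n := n) (top σ)
      have h2 : ((Av k n w).over T).L (pm σ x.1, x.2) := ⟨⟨h1.live x.1 a.1.1, a.1.2⟩, d₀ _ _ _
        (fun m hm => (h1.c x.1 a.1.1 (h1.live x.1 a.1.1) m hm).symm) a.2⟩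
      rw [Linear.smul_comp, Ob.smul_app, LinearMap.smul_apply, Ob.comp_apply, Ob.comp_apply,
        Ob.comp_apply, h1.toPMap.ov_cl d₀ a, res.hom_cl h2]
      split_ifs with h3
      · rw [(isMap_gen j T hs (Av k n w)).hom_cl (x := (pm σ x.1, x.2)) ⟨h2.1, h2.2, h3⟩,
          ← h1.toPMap.ov_cl d₀ a, ← Ob.comp_apply _ E, hE, Ob.smul_app, LinearMap.smul_apply,
          smul_smul, eps_mul_self, one_smul]
      · have h4 : ¬ ((Av k n w).over (gen j T hs)).L (pm σ x.1, x.2) := fun h4 => h3 h4.2.2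
        rw [cl_dead h4, LinearMap.map_zero, LinearMap.map_zero, smul_zero]
    rw [Linear.smul_comp, Preadditive.sum_comp, Ob.smul_app, Ob.sum_app, LinearMap.smul_apply,
      LinearMap.sum_apply, Finset.sum_congr rfl fun σ _ => e σ, ← Finset.sum_filter,
      Finset.sum_const, card_sort hj.le (multA x a), ← Nat.cast_smul_eq_nsmul F, smul_smul,
      inv_mul_cancel₀ hY, one_smul]

end

end Pool.Agent.Lib.MP_fc2ced_ag.T
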