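import Pool.Agent.Lib.MP_fc2ced_ag.T.Eig
import Pool.Agent.Lib.MP_fc2ced_ag.T.Sys

/-! The flags of type `I` are the parabolic parts of the tensor power. -/

open CategoryTheory hiding forget
open Function Polynomial

namespace Pool.Agent.Lib.MP_fc2ced_ag.T

open K

noncomputable section

variable {k : Type} [Field k] {F : Type} [Field F] {χ : Chr k F} {n : ℕ} [Ex n] {w j l : ℕ}
  {I : Finset ℕ} {P : Pt k} {T : PC P}

open Pt Place

namespace HbAux

theorem hb_full (hχ : χ.Gen n) (hw : w ≤ n + 1) : Hb χ n w (Finset.Ioo 0 w) := by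
  intro P T hT
  have e : yS w (Finset.Ioo 0 w) = {1} := by
    ext σ
    simp [yS, young_full]
  rw [e, Finset.sum_singleton, yR, young_full, Subgroup.card_bot, Nat.cast_one, inv_one, map_one,
    one_mul, one_smul, ov_pm_one,
    ov_id (V := Zv k n w (Finset.Ioo 0 w)) fun _ _ hx => Flag.forget_self hx]
  exact .of_uiso ((isRoof hχ hw (Finset.Subset.refl _)).uiso P T hT) .id

omit [Ex n] in
theorem good_chi {K : Type} [Field K] {x : ℕ → Sp K} (h : Flag n w I x) :
    GoodP w (chi n (x w)) :=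
  ⟨chi_monic _, h.rel.stab.natDegree_chi.trans h.rel.finrank_eq, chi_coeff_zero _⟩

omit [Ex n] in
theorem good_chiA {K : Type} [Field K] {x : Fin w → Fin n → K} (h : ∀ a i, x a i ≠ 0) :
    GoodP w (chiA x w) := by
  refine ⟨?_, ?_, ?_⟩
  · rw [chiA_top]
    exact monic_prod_X_sub_C _ _
  · rw [chiA_top, natDegree_finsetProd_X_sub_C_eq_card, Finset.card_univ, Fintype.card_fin]
  · rw [chiA_coeff]
    exact mul_ne_zero (pow_ne_zero _ (neg_ne_zero.2 one_ne_zero))
      (Finset.prod_ne_zero_iff.2 fun y _ => h _ _)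

/-- The roof from the operators to the spaces of solutions. -/
def sys [CharZero F] (hχ : χ.Gen n) (hw : w ≤ n + 1) : Sys χ w where
  A := Av k n w
  Z := Zv k n w (Finset.Ioo 0 w)
  B := Zv k n w ∅
  j _ x := jmap n w x
  q _ x := forget w ∅ x
  G := Equiv.Perm (Fin w)
  s := yS w ∅
  r := yR F n w ∅
  a := pm
  roof := HaAux.JI_empty (w := w) ▸ isRoof hχ hw (Finset.empty_subset _)
  pa _ _ := HaAux.JI_empty (w := w) ▸ pend_pm (young_empty w ▸ Subgroup.mem_top _)
  gA _ _ h := good_chiA fun a i => ((h a).2 i).1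
  gZ _ _ h := good_chi h
  gB _ _ h := good_chi h
  kills _ _ hT := kills_eI (ha hχ hw (Finset.empty_subset _)) (HaAux.JI_empty (w := w) ▸ hT)
  idem _ _ hT := eI_idem (HaAux.JI_empty (w := w) ▸ hT)

theorem hb_empty [CharZero F] (hχ : χ.Gen n) (hw : w ≤ n + 1) (h2 : 2 ≤ w)
    (H : ∀ j, 0 < j → j < w → Hb χ n w {j}) : Hb χ n w ∅ := fun _ _ hT =>
  Sys.At.of_norm (D := sys hχ hw) (by omega)
    (fun _ _ _ j hs h0 hj d h => quo_gen hχ hw h0 hj (H j h0 hj) hs d
      fun _ c p a b e => h c p ⟨a, b, e⟩)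
    (fun _ _ h => .of_uzero (null_eI hχ h h2) (uzero_norm hχ h h2))
    (HaAux.JI_empty (w := w) ▸ hT)

end HbAux

open HbAux

theorem hb [CharZero F] (hχ : χ.Gen n) (hw : w ≤ n + 1) (hI : I ⊆ Finset.Ioo 0 w) :
    Hb χ n w I := by
  induction w using Nat.strong_induction_on generalizing I with
  | _ w ih =>
  have key (I : Finset ℕ) (hI : I ⊆ Finset.Ioo 0 w) (j : ℕ) (hj : j ∈ I) : Hb χ n w I := by
    obtain ⟨h0, h1⟩ := Finset.mem_Ioo.1 (hI hj)
    obtain ⟨l, rfl⟩ : ∃ l, w = j + l := ⟨w - j, by omega⟩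
    exact Hb.prod hχ hw hI hj (ih j h1 (by omega) (lowI_subset hI))
      (ih l (by omega) (by omega) (uppI_subset hI))
  rcases I.eq_empty_or_nonempty with rfl | ⟨j, hj⟩
  · by_cases h2 : 2 ≤ w
    · exact hb_empty hχ hw h2 fun j h0 hj => key _ (Finset.singleton_subset_iff.2
        (Finset.mem_Ioo.2 ⟨h0, hj⟩)) j (Finset.mem_singleton_self j)
    · have e : Finset.Ioo 0 w = ∅ := Finset.eq_empty_of_forall_notMem fun i hi => by
        have := Finset.mem_Ioo.1 hi
        omega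
      have h := hb_full (n := n) hχ hw
      generalize hJ : (∅ : Finset ℕ) = J
      obtain rfl : J = Finset.Ioo 0 w := hJ.symm.trans e.symm
      exact h
  · exact key I hI j hj

end

end Pool.Agent.Lib.MP_fc2ced_ag.T
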