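import Pool.Agent.Lib.MP_fc2ced_ag.T.CubeG
import Pool.Agent.Lib.MP_fc2ced_ag.T.Hb
import Pool.Agent.Lib.MP_fc2ced_ag.T.MCov

/-! The motives with compact support of hypergeometric Kummer coverings are Schur-finite. -/

open CategoryTheory hiding forget
open Function

namespace Pool.Agent.Lib.MP_fc2ced_ag.T

open K

noncomputable section

variable {k : Type} [Field k] {F : Type} [Field F] {χ : Chr k F} {n w : ℕ}

open MP_fc2ced_ag.T.Pt Place

namespace MainAux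

open Polynomial in
theorem chiA_iff {K : Type} [Field K] {x : Fin w → Fin n → K} {a : K} :
    chiA x w = (Polynomial.X - C a) ^ w ↔ ∀ b, ∏ i, x b i = a := by
  have e : chiA x w = ∏ b, (Polynomial.X - C (∏ i, x b i)) := by
    rw [chiA, Finset.filter_true_of_mem fun b _ => b.2]
  rw [e]
  refine ⟨fun h b => ?_, fun h => by simp [h]⟩
  have h1 := congrArg (Polynomial.eval (∏ i, x b i)) h
  rw [eval_prod, Finset.prod_eq_zero (Finset.mem_univ b)
    (by rw [eval_sub, eval_X, eval_C, sub_self]), eval_pow, eval_sub, eval_X, eval_C] at h1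
  exact sub_eq_zero.1 (pow_eq_zero_iff (Fin.pos b).ne' |>.1 h1.symm)

theorem dep (a : k) (I : Finset ℕ) : (oneEig n a).Dep (JI (n + 1) I) :=
  fun _ _ _ _ h t => (h (n + 1) (.inr rfl)).symm.trans t

theorem isMap_tor [Ex n] (a : k) : IsMap ((Av k n (n + 1)).over (oneEig n a))
    ((tor (Ex.b (n := n)) a).pi (Fin (n + 1))) fun _ x => x.1 :=
  .of_inv (g := fun _ x => (x, ()))
    ⟨fun _ _ h b => ⟨h.1.1 b, chiA_iff.1 h.2 b⟩, fun _ _ _ _ _ _ _ h => h.1⟩
    ⟨fun _ _ h => ⟨⟨fun b => (h b).1, trivial⟩, chiA_iff.2 fun b => (h b).2⟩,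
      fun _ _ _ _ _ _ _ h => ⟨h, trivial⟩⟩ (fun _ _ _ => (mul_one _).symm) fun _ _ _ => rfl

theorem exists_rev (δ : Type) [Finite δ] : ∃ ρ : δ → δ, Involutive ρ ∧
    (∀ x, ρ x = x → Odd (Nat.card δ)) ∧ ∀ x y, ρ x = x → ρ y = y → x = y := by
  let e := Finite.equivFin δ
  have h (x : δ) (hx : e.symm (e x).rev = x) : Nat.card δ = 2 * e x + 1 := by
    have h1 := congrArg Fin.val (e.symm_apply_eq.1 hx)
    have h2 := (e x).2
    rw [Fin.val_rev] at h1
    omega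
  exact ⟨fun x => e.symm (e x).rev, fun x => by simp, fun x hx => ⟨_, h x hx⟩,
    fun x y hx hy => e.injective (Fin.ext (by have := h x hx; have := h y hy; omega))⟩

theorem exists_invol {α γ : Type} [Finite α] (c : α → γ) : ∃ τ : α → α, Involutive τ ∧
    (∀ i, c (τ i) = c i) ∧ (∀ i, τ i = i → Odd {j | c j = c i}.ncard) ∧
    ∀ i j, τ i = i → τ j = j → c i = c j → i = j := by
  choose ρ h1 h2 h3 using fun v => exists_rev {i // c i = v}
  have e (v : γ) (i : α) (h : c i = v) : (ρ (c i) ⟨i, rfl⟩).1 = (ρ v ⟨i, h⟩).1 := by subst h; rfl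
  refine ⟨fun i => (ρ (c i) ⟨i, rfl⟩).1, fun i => ?_, fun i => (ρ (c i) ⟨i, rfl⟩).2,
    fun i hi => h2 (c i) ⟨i, rfl⟩ (Subtype.ext hi), fun i j hi hj h => congrArg Subtype.val
      (h3 (c j) ⟨i, h⟩ ⟨j, rfl⟩ (Subtype.ext ((e _ i h).symm.trans hi)) (Subtype.ext hj))⟩
  exact (e (c i) _ (ρ (c i) ⟨i, rfl⟩).2).trans (congrArg Subtype.val (h1 (c i) ⟨i, rfl⟩))

end MainAux

open MainAux

theorem sf_tor [Ex n] [CharZero F] (hχ : χ.Gen n) (a : k) :
    SF ((tor (Ex.b (n := n)) a).E χ) := by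
  classical
  have y (σ : Equiv.Perm (Fin (n + 1))) : σ ∈ Young (n + 1) ∅ := by simp [young_empty]
  let ρ : MonoidAlgebra F (Equiv.Perm (Fin (n + 1))) →ₐ[F]
      End (((Av k n (n + 1)).over (oneEig n a)).E χ) := MonoidAlgebra.lift F _ _
    ⟨⟨fun σ => ov χ _ _ (oneEig n a) (pm σ), ov_pm_one⟩, fun σ τ => ov_pm_mul (dep a ∅) (y σ) (y τ)⟩
  obtain ⟨r, hr, h⟩ := null_of_cube (B := cuB χ n a) (dd := cuD χ n a) ρ (eps F n (n + 1))
    eps_mul_self ((isRoof hχ le_rfl subset_rfl).uiso _ _ (dep a _))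
    (fun I => ov χ (Zv k n (n + 1) (Finset.Ioo 0 (n + 1))) (Zv k n (n + 1) I) (oneEig n a)
      fun _ x => forget (n + 1) I x)
    (fun I J hI hJ => ((pmap_forget hI).mono (JI_mono hJ)).ov_comp (pmap_forget hJ) (dep a J)
      (pmap_forget (hJ.trans hI)) (fun _ _ h _ => h.forget_flag hI) fun _ _ _ _ => forget_forget hJ)
    (fun I hI => by
      convert hb hχ le_rfl hI _ _ (dep a I) using 1
      simp only [idem, map_smul, map_sum, Finset.smul_sum, yS, yR, mul_smul, ρ,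
        MonoidAlgebra.lift_single]
      rfl) (cube_exact a).1 (cube_exact a).2
  have hb : Bij ((isMap_tor a).hom χ ≫
      (isLift_pow χ (tor (Ex.b (n := n)) a) (Fin (n + 1))).hom) :=
    ((isMap_tor a).bij (fun _ _ h b => ⟨h.1.1 b, chiA_iff.1 h.2 b⟩)
      (fun _ _ _ _ _ h => Prod.ext h rfl) fun _ x h =>
        ⟨(x, ()), ⟨⟨fun b => (h b).1, trivial⟩, chiA_iff.2 fun b => (h b).2⟩, rfl⟩).comp (bij_pow _)
  refine ⟨n + 1, r.coeff, fun h0 => hr (MonoidAlgebra.coeff_injective (DFunLike.coe_injective h0)),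
    .of_uiso_comp hb.uiso ?_⟩
  convert h.comp ((isMap_tor a).hom χ ≫
    (isLift_pow χ (tor (Ex.b (n := n)) a) (Fin (n + 1))).hom) using 1
  have e : (ρ r : _ ⟶ _) = ∑ σ, r.coeff σ • ov χ _ _ (oneEig n a) (pm σ) := by
    rw [MonoidAlgebra.lift_apply]
    exact Finsupp.sum_fintype _ _ fun _ => zero_smul _ _
  rw [e, act, Preadditive.comp_sum, Preadditive.sum_comp]
  refine Finset.sum_congr rfl fun σ _ => ?_
  have h1 := ((pend_pm (k := k) (n := n) (y σ)).toPMap.over (dep a ∅))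
  have h2 : ov χ _ _ (oneEig n a) (pm σ) ≫ (isMap_tor a).hom χ =
      (isMap_tor a).hom χ ≫ ((tor (Ex.b (n := n)) a).isMap_perm σ).hom χ := by
    rw [ov, h1.hm_eq]
    refine h1.comm _ _ _ (fun _ x hx => ?_) fun _ _ _ _ _ => rfl
    have h3 := fun b => chiA_iff.1 hx.2 b
    exact iff_of_true ⟨⟨⟨fun b => hx.1.1 _, trivial⟩, chiA_iff.2 fun b => h3 _⟩,
      fun b => ⟨hx.1.1 _, h3 _⟩⟩ ⟨fun b => ⟨hx.1.1 _, h3 _⟩, fun b => ⟨hx.1.1 _, h3 _⟩⟩
  rw [Linear.comp_smul, Category.assoc, ← pow_perm, ← Category.assoc, ← h2, Category.assoc]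
  exact (Linear.smul_comp _ _ _ _ _ _).symm

/-- At most two nonzero exponents occur an odd number of times. -/
theorem sf_tor_odd [CharZero F] (h₁ : χ.ψ (1 : ℤ) ≠ 1) {a : k} (ha : a ≠ 0) {α : Type} [Fintype α]
    (c : α → ZMod χ.N) (hc : {v | v ≠ 0 ∧ Odd {i | c i = v}.ncard}.ncard ≤ 2) :
    SF ((tor (fun i => ((c i).val : ℤ)) a).E χ) := by
  classical
  obtain ⟨τ, t1, t2, t3, t4⟩ := exists_invol c
  refine sf_tor_equiv (Equiv.sumCompl fun i => χ.ψ ((c i).val : ℤ) ≠ 1)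
    (Sum.rec (fun _ => rfl) fun _ => rfl)
    (sf_tor_sum χ h₁ ha (b := fun i => (c i.1).val) ?_ (fun i => (c i.1).val)
      fun i => not_not.1 i.2)
  rcases isEmpty_or_nonempty {i // χ.ψ ((c i).val : ℤ) ≠ 1} with _ | _
  · exact sf_tor_empty _
  obtain ⟨m, e, he⟩ := exists_polygon (α := {i // χ.ψ ((c i).val : ℤ) ≠ 1})
    (fun i => ⟨τ i.1, (t2 i.1).symm ▸ i.2⟩) (fun i => Subtype.ext (t1 i.1))
    fun x y z hx hy hz => by
      have v (i : {i // χ.ψ ((c i).val : ℤ) ≠ 1}) (h : τ i.1 = i.1) :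
          c i.1 ∈ {v | v ≠ 0 ∧ Odd {i | c i = v}.ncard} :=
        ⟨fun e => i.2 (by simp [e]), t3 _ h⟩
      replace hx : τ x.1 = x.1 := congrArg Subtype.val hx
      replace hy : τ y.1 = y.1 := congrArg Subtype.val hy
      replace hz : τ z.1 = z.1 := congrArg Subtype.val hz
      by_contra h
      simp only [not_or, Subtype.ext_iff] at h
      have h3 : ({c x.1, c y.1, c z.1} : Set (ZMod χ.N)).ncard = 3 := Set.ncard_eq_three.2
        ⟨_, _, _, fun e => h.1 (t4 _ _ hx hy e), fun e => h.2.2 (t4 _ _ hz hx e.symm),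
          fun e => h.2.1 (t4 _ _ hy hz e), rfl⟩
      have h4 := Set.ncard_le_ncard (Set.insert_subset (v x hx) (Set.insert_subset (v y hy)
        (Set.singleton_subset_iff.2 (v z hz))))
      omega
  let _ : Ex (m + 1) := ⟨fun i => (c (e i).1).val, fun i => by
    rcases he i with h | h
    · rw [h, t2]
    · rw [h]⟩
  exact sf_tor_equiv e (fun _ => rfl) (sf_tor (n := m + 1) (fun i => (e i).2) a)

open MvPolynomial in
theorem main {N : ℕ} (hN : 1 < N) {ζ : k} (hζ : IsPrimitiveRoot ζ N) {r : ℕ}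
    (b : Fin r → Fin n → ℕ) (h0 : ∀ i, ∃ j, b j i ≠ 0)
    (hb : ∀ t : Fin r → ZMod N,
      {v : ZMod N | v ≠ 0 ∧ Odd {i | ∑ j, t j * b j i = v}.ncard}.ncard ≤ 2) {a : k} (ha : a ≠ 0) :
    SchurFinite (k := k) (σ := Fin n ⊕ Fin r) fun o : Option (Fin r) =>
      o.elim (∏ i, X (some (.inl i)) - C a * X none ^ n) fun j =>
        X (some (.inr j)) ^ N * ∏ i, (X none - X (some (.inl i))) ^ b j i -
          X none ^ (N + ∑ i, b j i) := by
  have : NeZero N := ⟨by omega⟩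
  let χ : Chr k ℂ := ⟨N, ζ, hζ, Nat.cast_ne_zero.2 (NeZero.ne N), ZMod.stdAddChar⟩
  let χ₀ : Chr k ℂ := ⟨N, ζ, hζ, Nat.cast_ne_zero.2 (NeZero.ne N), 1⟩
  have hχ : χ.ψ (1 : ℤ) ≠ 1 := fun h => by
    have : Fact (1 < N) := ⟨hN⟩
    have h1 := ((ZMod.isPrimitive_stdAddChar N).zmod_char_eq_one_iff N _).1 h
    rw [Int.cast_one] at h1
    exact one_ne_zero h1
  have ne {K : Fld k} {x : Fin n → K} (h : ∀ i, x i ≠ 0 ∧ x i ≠ 1) (i : Fin n) : 1 - x i ≠ 0 :=
    sub_ne_zero.2 (h i).2.symm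
  have np {K : Fld k} {x : Fin n → K} (h : ∀ i, x i ≠ 0 ∧ x i ≠ 1) (m : Fin n → ℕ) :
      ∏ i, (1 - x i) ^ m i ≠ 0 := Finset.prod_ne_zero_iff.2 fun i _ => pow_ne_zero _ (ne h i)
  have rg (c : Fin n → ℤ) (m : Fin n → ℕ) : (tor c a).RegF fun _ x => (∏ i, (1 - x i) ^ m i)⁻¹ :=
    fun _ _ φ _ _ _ h s => (Place.prod fun i _ => (φ.one.sub (s i)).pow _).inv (np h.1.2 m)
  have hs : SF (((tor 0 a).mcov (fun j _ x => (∏ i, (1 - x i) ^ b j i)⁻¹) (fun j => rg 0 (b j))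
      N).E χ₀) := by
    refine sf_mcov (tor 0 a) _ _ (fun j _ x h => inv_ne_zero (np h.1.2 _)) χ
      (ZMod.isPrimitive_stdAddChar N) χ₀ rfl fun t => SF.of_eqv (Eqv.symm (eqv_twist (t := N)
        (S := tor (fun i => ((∑ j, t j * b j i : ZMod N).val : ℤ)) a) (e := fun _ x => x)
        (g := fun _ x => x) (by simp) ⟨fun _ _ h => h, fun _ _ _ _ _ _ _ h => h⟩
        ⟨fun _ _ h => h, fun _ _ _ _ _ _ _ h => h⟩ (rg _ fun i => (∑ j, (t j).val * b j i) / N)
        (fun _ x h => inv_ne_zero (np h.1.2 _)) (fun _ x h => ?_) (fun _ _ _ => rfl)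
        fun _ _ _ => rfl)) (sf_tor_odd hχ ha _ (hb t))
    change ∏ j, (∏ i, (1 - x i) ^ b j i)⁻¹ ^ (t j).val =
      (∏ i, (1 - x i) ^ (-((∑ j, t j * b j i : ZMod N).val : ℤ))) *
        (∏ i, (1 - x i) ^ ((∑ j, (t j).val * b j i) / N))⁻¹ ^ (N : ℤ)
    simp only [zpow_neg, zpow_natCast, inv_pow, Finset.prod_inv_distrib, ← mul_inv,
      ← Finset.prod_pow, ← pow_mul, ← Finset.prod_mul_distrib, ← pow_add]
    rw [Finset.prod_comm]
    refine congrArg _ (Finset.prod_congr rfl fun i _ => ?_)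
    rw [Finset.prod_pow_eq_pow_sum]
    congr 1
    have e : (∑ j, t j * b j i : ZMod N) = ((∑ j, (t j).val * b j i : ℕ) : ZMod N) := by simp
    rw [e, ZMod.val_natCast, Nat.mod_add_div']
    simp only [mul_comm]
  refine schurFinite_of_sf _ (fun j => ?_) χ₀ rfl ?_
  · rcases j with _ | j
    · refine ⟨n, IsHomogeneous.sub ?_ ?_⟩
      · simpa using IsHomogeneous.prod Finset.univ _ (fun _ : Fin n => 1) fun i _ =>
          isHomogeneous_X k (some (Sum.inl i))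
      · simpa using (isHomogeneous_C _ a).mul (isHomogeneous_X_pow none n)
    · refine ⟨_, IsHomogeneous.sub ((isHomogeneous_X_pow _ _).mul (IsHomogeneous.prod Finset.univ _
        (b j) fun i _ => ?_)) (isHomogeneous_X_pow _ _)⟩
      simpa using ((isHomogeneous_X k none).sub (isHomogeneous_X k (some (Sum.inl i)))).pow (b j i)
  · have hl {K : Fld k} (x : Fin n ⊕ Fin r → K) : (∀ o : Option (Fin r),
        aeval (fun o => Option.elim o 1 x) (o.elim
          (∏ i, X (some (.inl i)) - C a * X none ^ n : MvPolynomial (Option (Fin n ⊕ Fin r)) k)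
          fun j => X (some (.inr j)) ^ N * ∏ i, (X none - X (some (.inl i))) ^ b j i -
            X none ^ (N + ∑ i, b j i)) = 0) ↔ ∏ i, x (.inl i) = algebraMap k K a ∧
          ∀ j, x (.inr j) ^ N * ∏ i, (1 - x (.inl i)) ^ b j i = 1 := by
      simp [Option.forall, sub_eq_zero]
    refine .of_eqv (eqv_of_inv (S := aff _) (S' := (tor 0 a).mcov
        (fun j _ x => (∏ i, (1 - x i) ^ b j i)⁻¹) (fun j => rg 0 (b j)) N)
      (e := fun _ x => (fun i => x (.inl i), fun j => x (.inr j)))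
      (g := fun _ x => Sum.elim x.1 x.2)
      ⟨fun _ x h => ?_, fun _ _ _ _ _ _ _ h => ⟨fun _ => h _, fun _ => h _⟩⟩
      ⟨fun _ x h => ⟨fun _ => trivial, (hl _).2 ⟨h.1.1.2, fun j => ?_⟩⟩, fun _ _ _ _ _ _ _ h o => ?_⟩
      (fun _ _ _ => by simp) (fun _ x _ => funext fun o => by cases o <;> rfl) fun _ _ _ => rfl) hs
    · obtain ⟨h1, h2⟩ := (hl x).1 h.2
      refine ⟨⟨⟨⟨fun _ => trivial, fun i => ⟨Finset.prod_ne_zero_iff.1
        (h1.trans_ne (by simpa using ha)) i (Finset.mem_univ i), fun e => ?_⟩⟩, h1⟩,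
        fun _ => trivial⟩, fun j => eq_inv_of_mul_eq_one_left (h2 j)⟩
      obtain ⟨j, hj⟩ := h0 i
      have h3 := h2 j
      rw [Finset.prod_eq_zero (Finset.mem_univ i) 
        (by rw [show x (.inl i) = 1 from e, sub_self, zero_pow hj]), mul_zero] at h3
      exact zero_ne_one h3
    · exact (congrArg (· * _) (h.2 j)).trans (inv_mul_cancel₀ (np h.1.1.1.2 _))
    · cases o
      exacts [h.1 _, h.2 _]

end

end Pool.Agent.Lib.MP_fc2ced_ag.T
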