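import Pool.Agent.Lib.MP_fc2ced_ag.T.SeqA
import Pool.Agent.Lib.MP_fc2ced_ag.K.SeqC

/-! Subspaces that are not tamely relevant: the action of the multiplicative group that fixes such
a subspace and scales the function `fU`. -/

open Module Polynomial

namespace Pool.Agent.Lib.MP_fc2ced_ag.T

open K

variable {K : Type} [Field K] {n w m : ℕ} {U V W : Sp K} {a e : ℤ} {c : ℤ → K} {μ : Sq K}

namespace SeqC

/-- The translate of a sequence by a multiple of the period. -/
def tr (n : ℕ) (q : ℤ) (y : Sq K) : Sq K := fun t => y (t + q * n)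

omit [Field K] in
theorem tr_zero (y : Sq K) : tr n 0 y = y := funext fun t => by simp [tr]

theorem tr_symm (q : ℤ) (y : Sq K) : tr n q ((sh K n).symm y) = tr n (q + 1) y :=
  funext fun t => by simp only [tr, sh_symm_apply]; congr 1; ring

theorem tr_sh (q : ℤ) (y : Sq K) : tr n q (sh K n y) = tr n (q - 1) y :=
  funext fun t => by simp only [tr, sh_apply]; congr 1; ring

theorem tr_mem (h : Stab n W) (q : ℤ) (y : Sq K) (hy : y ∈ W) : tr n q y ∈ W := h.shift_mem hy q

/-- The vectors that vanish on an interval. -/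
def van (W : Sp K) (l e : ℤ) : Sp K where
  carrier := {y | y ∈ W ∧ ∀ t, l ≤ t → t ≤ e → y t = 0}
  add_mem' := fun ha hb => ⟨W.add_mem ha.1 hb.1, fun t h1 h2 => by
    simp [ha.2 t h1 h2, hb.2 t h1 h2]⟩
  zero_mem' := ⟨W.zero_mem, fun _ _ _ => rfl⟩
  smul_mem' := fun a _ hy => ⟨W.smul_mem a hy.1, fun t h1 h2 => by simp [hy.2 t h1 h2]⟩

theorem exists_det [FiniteDimensional K W] (e : ℤ) (s : ℕ)
    (h : ∀ l, e - s < l → l ≤ e → ∃ y ∈ W, (∀ t, l < t → t ≤ e → y t = 0) ∧ y l ≠ 0) :
    finrank K (van W (e + 1 - s) e) + s ≤ finrank K W := by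
  have hf (l : ℤ) : FiniteDimensional K (van W l e) :=
    Submodule.finiteDimensional_of_le (S₂ := W) fun _ hy => hy.1
  induction s with
  | zero => exact Submodule.finrank_mono (fun _ hy => hy.1)
  | succ s ih =>
    have h1 := ih fun l h1 h2 => h l (by push_cast; omega) h2
    obtain ⟨y, hy, h2, h3⟩ := h (e - s) (by push_cast; omega) (by omega)
    have h4 : van W (e + 1 - (s + 1 : ℕ)) e < van W (e + 1 - s) e := by
      refine lt_of_le_of_ne (fun z hz => ⟨hz.1, fun t h5 h6 => hz.2 t (by push_cast; omega) h6⟩)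
        fun h5 => h3 ?_
      have : y ∈ van W (e + 1 - s) e := ⟨hy, fun t h6 h7 => h2 t (by omega) h7⟩
      rw [← h5] at this
      exact this.2 _ (by push_cast; omega) (by omega)
    have := Submodule.finrank_lt_finrank_of_lt h4
    omega

/-- The value at `i` is determined by the values on `(i, e]`. -/
def Det (V : Sp K) (i e : ℤ) : Prop := ∀ y ∈ V, (∀ t, i < t → t ≤ e → y t = 0) → y i = 0

theorem Det.tr {i : ℤ} (h : Det V i e) (hV : ∀ q, ∀ y ∈ V, tr n q y ∈ V) (q : ℤ) :
    Det V (i + q * n) (e + q * n) := fun y hy k =>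
  h _ (hV q y hy) fun t h1 h2 => k _ (by omega) (by omega)

theorem sup_tr (hW : Stab n W) (q : ℤ) (y : Sq K) (hy : y ∈ W ⊔ Submodule.span K {1}) :
    tr n q y ∈ W ⊔ Submodule.span K {1} := by
  obtain ⟨u, hu, v, hv, rfl⟩ := Submodule.mem_sup.1 hy
  obtain ⟨b, rfl⟩ := Submodule.mem_span_singleton.1 hv
  exact Submodule.add_mem_sup (tr_mem hW q u hu) (Submodule.mem_span_singleton.2 ⟨b, rfl⟩)

theorem op_at {g : ℤ → ℕ → K} (h : Band n w g) {y : Sq K} {i : ℤ}
    (h0 : ∀ t, i < t → t ≤ i + w → y t = 0) : op w g y i = y i := by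
  rw [op_apply, Finset.sum_range_succ', h.one, Finset.sum_eq_zero fun l hl => by
    rw [h0 _ (by omega) (by have := Finset.mem_range.1 hl; omega), mul_zero]]
  simp

theorem dU_eq (hU : Rel n w U) {z : Sq K} (hz : z ∈ U) {i : ℤ}
    (h0 : ∀ t, i < t → t ≤ i + w → (1 - z) t = 0) : dU n w U i = (1 - z) i := by
  rw [← op_at hU.band h0, map_sub, LinearMap.mem_ker.1 (hU.eq_sol.le hz), sub_zero, dU]

end SeqC

open SeqC

/-- An invariant subspace that is not tamely relevant has a descent. -/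
theorem exists_descent (hn : 0 < n) (hU : Rel n w U) (hW : Stab n W) (le : W ≤ U)
    (hm : finrank K W = m) (h : ¬ TRel n m W) : ∃ a e : ℤ, 0 ≤ a ∧ a < n ∧ a + 1 < e ∧
      e ≤ a + 1 + w ∧ (∃ μ ∈ W, μ (a + 1) = 1 ∧ ∀ t, a + 1 < t → t < e → μ t = 0) ∧
      ∀ y ∈ W ⊔ Submodule.span K {1}, (∀ t, a + 1 < t → t ≤ e → y t = 0) → y (a + 1) = 0 := by
  classical
  have := hW.fin
  have top (i : ℤ) : Det W i (i + w) := fun y hy k =>
    congrFun (hU.eq_zero (le hy) (i + 1) fun t h1 h2 => k t (by omega) (by omega)) i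
  choose f hf hf' using fun i : ℤ => Int.exists_least_of_bdd (P := fun e => i ≤ e ∧ Det W i e)
    ⟨i, fun _ k => k.1⟩ ⟨i + w, by omega, top i⟩
  have low {i l : ℤ} (h1 : i ≤ l) (h2 : l < f i) :
      ∃ y ∈ W, (∀ t, i < t → t ≤ l → y t = 0) ∧ y i ≠ 0 := by
    by_contra! hc
    have := hf' i l ⟨h1, hc⟩
    omega
  by_cases hg : ∃ i, Det (W ⊔ Submodule.span K {1}) i (f i)
  · obtain ⟨i, hi⟩ := hg
    have h1 : i < f i := (hf i).1.lt_of_ne fun k => one_ne_zero (α := K)
      (hi 1 (Submodule.mem_sup_right (Submodule.mem_span_singleton_self _))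
        fun t h1 h2 => by omega)
    have h2 := hf' i (i + w) ⟨by omega, top i⟩
    obtain ⟨y, hy, h3, h4⟩ := low (i := i) (l := f i - 1) (by omega) (by omega)
    obtain ⟨s, q, h5, h6, h7⟩ := exists_res hn 0 i
    have h8 := hi.tr (sup_tr hW) (-q)
    rw [neg_mul, show i + -(q * n) = s - 1 + 1 by omega] at h8
    refine ⟨s - 1, f i + -(q * n), by omega, by omega, by omega, by omega,
      ⟨tr n q ((y i)⁻¹ • y), tr_mem hW q _ (W.smul_mem _ hy), ?_, fun t h9 h10 => ?_⟩, h8⟩
    · simp [tr, ← h7, h4]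
    · simp [tr, h3 (t + q * n) (by omega) (by omega)]
  push Not at hg
  refine absurd ?_ h
  have hz (i : ℤ) : ∃ z ∈ W, (∀ t, i < t → t ≤ f i → (1 - z) t = 0) ∧ (1 - z) i ≠ 0 := by
    obtain ⟨y, hy, h1, h2⟩ : ∃ y ∈ W ⊔ Submodule.span K {1},
        (∀ t, i < t → t ≤ f i → y t = 0) ∧ y i ≠ 0 := by
      by_contra! hc
      exact hg i hc
    obtain ⟨u, hu, v, hv, rfl⟩ := Submodule.mem_sup.1 hy
    obtain ⟨b, rfl⟩ := Submodule.mem_span_singleton.1 hv
    have hb : b ≠ 0 := by
      rintro rfl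
      rw [zero_smul, add_zero] at h1 h2
      exact h2 ((hf i).2 u hu h1)
    have k (t : ℤ) : (1 - -(b⁻¹ • u)) t = b⁻¹ * (u + b • (1 : Sq K)) t := by
      simp [mul_add, hb, add_comm]
    exact ⟨-(b⁻¹ • u), W.neg_mem (W.smul_mem _ hu), fun t h3 h4 => by rw [k, h1 t h3 h4, mul_zero],
      by rw [k]; exact mul_ne_zero (inv_ne_zero hb) h2⟩
  choose z hz1 hz2 hz3 using hz
  have mono {i k : ℤ} (hik : i < k) : f i < f k := by
    by_contra! hc
    have h1 := (hf k).1
    have h2 := (hf k).2 (z i - z k) (W.sub_mem (hz1 i) (hz1 k)) fun t h2 h3 => by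
      have h4 := hz2 i t (by omega) (by omega)
      have h5 := hz2 k t h2 h3
      rw [Pi.sub_apply] at h4 h5 ⊢
      linear_combination h5 - h4
    have h3 := hz2 i k hik (by omega)
    refine hz3 k ?_
    rw [Pi.sub_apply] at h2 h3 ⊢
    linear_combination h2 + h3
  have step (i : ℤ) (s : ℕ) : f i + s ≤ f (i + s) := by
    induction s with
    | zero => simp
    | succ s ih =>
      have := mono (i := i + s) (k := i + (s + 1 : ℕ)) (by omega)
      omega
  have succ (i : ℤ) : f (i + 1) = f i + 1 := by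
    have h1 := hf' (i + 1 * n) (f i + 1 * n)
      ⟨by have := (hf i).1; omega, (hf i).2.tr (fun q => tr_mem hW q) 1⟩
    have h2 := step (i + 1) (n - 1)
    rw [show i + 1 + (n - 1 : ℕ) = i + 1 * n by omega] at h2
    have h3 := mono (lt_add_one i)
    omega
  obtain ⟨d, hd⟩ : ∃ d : ℕ, ∀ i, f i = i + d := by
    refine ⟨(f 0).toNat, fun i => ?_⟩
    have := (hf 0).1
    induction i using Int.induction_on with
    | zero => omega
    | succ i ih => rw [succ, ih]; ring
    | pred i ih =>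
      have := succ (-i - 1)
      rw [sub_add_cancel] at this
      omega
  have h1 : d ≤ m := by
    have := exists_det (W := W) 0 d fun l h1 h2 => low h2 (by rw [hd]; omega)
    omega
  have h2 : Rel n m W := by
    refine rel_iff.2 ⟨hW, hm, fun y hy i k => ?_⟩
    have key (s : ℕ) : ∀ t, i - s ≤ t → t < i + m → y t = 0 := by
      induction s with
      | zero => exact fun t h1 h2 => k t (by omega) h2
      | succ s ih =>
        intro t h2 h3
        by_cases h4 : i - s ≤ t
        · exact ih t h4 h3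
        · exact (hf t).2 y hy fun u h5 h6 => ih u (by omega) (by rw [hd] at h6; omega)
    exact hU.eq_zero (le hy) (i - w) fun t h2 h3 => key w t h2 (by omega)
  have h3 : m ≤ d := by
    by_contra! hc
    obtain ⟨y, hy, k⟩ := h2.band.su (fun t => if t = 0 then 1 else 0) 0
    have := (hf 0).2 y (h2.eq_sol.ge hy) fun t h3 h4 => by
      rw [k t h3.le (by rw [hd] at h4; omega), if_neg h3.ne']
    rw [k 0 le_rfl (by omega), if_pos rfl] at this
    exact one_ne_zero this
  exact ⟨h2, fun i => by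
    rw [dU_eq h2 (hz1 i) fun t h4 h5 => hz2 i t h4 (by rw [hd]; omega)]
    exact hz3 i⟩

/-- The data that define the transformations. -/
structure Desc (n : ℕ) (W : Sp K) (a e : ℤ) (c : ℤ → K) (μ : Sq K) : Prop where
  pos : 0 < n
  stab : Stab n W
  mem : μ ∈ W
  one : μ (a + 1) = 1
  zero : ∀ t, a + 1 < t → t < e → μ t = 0
  ker : ∀ y ∈ W, theta a e c y = 0
  cst : theta a e c 1 = 0

variable (D : Desc n W a e c μ) (r : K)

/-- The transformation attached to a descent. -/
noncomputable def Desc.psi : Sq K →ₗ[K] Sq K :=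
  Psi n (a + 1) (theta a e c) μ (D.ker μ D.mem) (1 - r)

namespace SeqC

theorem theta_congr {y z : Sq K} (h : ∀ t, a + 1 < t → t ≤ e → y t = z t) :
    theta a e c y = theta a e c z + (y (a + 1) - z (a + 1)) := by
  change y (a + 1) + _ = z (a + 1) + _ + _
  rw [Finset.sum_congr rfl fun l hl => by
    rw [h l (by have := Finset.mem_Icc.1 hl; omega) (Finset.mem_Icc.1 hl).2]]
  ring

theorem theta_of_van {y : Sq K} (h : ∀ t, a + 1 < t → t ≤ e → y t = 0) :
    theta a e c y = y (a + 1) := by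
  rw [theta_congr (z := 0) h]
  simp

include D in
theorem lt : a + 1 < e := by
  by_contra! hc
  have := D.ker μ D.mem
  rw [theta_of_van fun t h1 h2 => by omega, D.one] at this
  exact one_ne_zero this

/-- One step: the translation followed by the transvection. -/
noncomputable def st : Sq K ≃ₗ[K] Sq K :=
  tv (theta a e c) μ (D.ker μ D.mem) (1 - r) * (sh K n).symm

theorem st_apply (y : Sq K) :
    st D r y = (sh K n).symm y + ((1 - r) * theta a e c ((sh K n).symm y)) • μ := by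
  simp [st, tv, mul_smul]

theorem st_inv (y : Sq K) : (st D r)⁻¹ y = sh K n (y - ((1 - r) * theta a e c y) • μ) := by
  have : st D r (sh K n (y - ((1 - r) * theta a e c y) • μ)) = y := by
    rw [st_apply, LinearEquiv.symm_apply_apply, map_sub, map_smul, D.ker μ D.mem]; simp
  conv_lhs => rw [← this]
  exact (st D r).symm_apply_apply _

theorem psi_eq (y : Sq K) (q : ℤ) {t : ℤ} (h1 : a + 1 < t) (h2 : t ≤ a + 1 + n) :
    D.psi r y (t + q * n) = (st D r ^ q) y t := by
  have h0 : (0 : ℤ) < n := by exact_mod_cast D.pos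
  have e1 : t + q * n - (a + 1) - 1 = t - (a + 1) - 1 + q * n := by ring
  have e2 : (t + q * n - (a + 1) - 1) / n = q := by
    rw [e1, Int.add_mul_ediv_right _ _ h0.ne', Int.ediv_eq_zero_of_lt (by omega) (by omega),
      zero_add]
  have e3 : (t + q * n - (a + 1) - 1) % n + (a + 1) + 1 = t := by
    rw [e1, Int.add_mul_emod_self_right, Int.emod_eq_of_lt (by omega) (by omega)]; ring
  change (st D r ^ ((t + q * n - (a + 1) - 1) / n)) y
    ((t + q * n - (a + 1) - 1) % n + (a + 1) + 1) = _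
  rw [e2, e3]

theorem symm_psi (y : Sq K) : (sh K n).symm (D.psi r y) = D.psi r (st D r y) := by
  funext t
  obtain ⟨s, q, h1, h2, rfl⟩ := exists_res D.pos (a + 1) t
  rw [sh_symm_apply, psi_eq D r _ q h1 h2, show s + q * n + n = s + (q + 1) * n by ring,
    psi_eq D r _ _ h1 h2, zpow_add_one]
  rfl

theorem sh_psi (y : Sq K) : sh K n (D.psi r y) = D.psi r ((st D r)⁻¹ y) := by
  have h := symm_psi D r ((st D r)⁻¹ y)
  rw [show st D r ((st D r)⁻¹ y) = y from (st D r).apply_symm_apply y] at h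
  exact ((sh K n).symm_apply_eq.1 h).symm

theorem psi_of_stable (p : Sq K → Prop) (h1 : ∀ y, p y → p (sh K n y))
    (h2 : ∀ y, p y → p ((sh K n).symm y)) (h3 : ∀ y, p y → (1 - r) * theta a e c y = 0)
    {y : Sq K} (hy : p y) : D.psi r y = y := by
  have key (q : ℤ) : ∀ y, p y → (st D r ^ q) y = tr n q y := by
    induction q using Int.induction_on with
    | zero => intro y _; rw [tr_zero]; rfl
    | succ q ih =>
      intro y hy
      rw [zpow_add_one, LinearEquiv.mul_apply, st_apply, h3 _ (h2 y hy), zero_smul, add_zero,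
        ih _ (h2 y hy), tr_symm]
    | pred q ih =>
      intro y hy
      rw [zpow_sub_one, LinearEquiv.mul_apply, st_inv, h3 _ hy, zero_smul, sub_zero,
        ih _ (h1 y hy), tr_sh]
  funext t
  obtain ⟨s, q, h4, h5, rfl⟩ := exists_res D.pos (a + 1) t
  rw [psi_eq D r _ q h4 h5, key q y hy, tr]

theorem theta_tr_st (q : ℤ) (y : Sq K) :
    theta a e c (tr n q (st D r y)) = theta a e c (tr n (q + 1) y) := by
  have : tr n q (st D r y) =
      tr n (q + 1) y + ((1 - r) * theta a e c ((sh K n).symm y)) • tr n q μ := by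
    rw [st_apply, ← tr_symm]; rfl
  rw [this, map_add, map_smul, D.ker _ (tr_mem D.stab q μ D.mem), smul_zero, add_zero]

theorem pow_apply (q : ℕ) : ∀ (y : Sq K) (t : ℤ), a + 1 < t →
    (∀ b : ℕ, 1 ≤ b → e + b * n ≤ t + q * n → theta a e c (tr n b y) = 0) →
    (st D r ^ (q : ℤ)) y t = y (t + q * n) := by
  induction q with
  | zero => intro y t _ _; simp
  | succ q ih =>
    intro y t ht h
    have hq : (0 : ℤ) ≤ q * n := by positivity
    push_cast at h ⊢
    rw [zpow_add_one, LinearEquiv.mul_apply, ih _ t ht fun b h1 h2 => ?_, st_apply, Pi.add_apply,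
      sh_symm_apply, Pi.smul_apply, show t + q * n + n = t + (q + 1) * n by ring, add_eq_left]
    · by_cases h3 : t + q * n < e
      · rw [D.zero _ (by omega) h3, smul_zero]
      · have := h 1 le_rfl (by push_cast; linarith [not_lt.1 h3])
        rw [Nat.cast_one, ← zero_add (1 : ℤ), ← tr_symm, tr_zero] at this
        rw [this, mul_zero, zero_smul]
    · rw [theta_tr_st]
      exact_mod_cast h (b + 1) (by omega) (by push_cast; linarith)

theorem psi_right (y : Sq K) {t : ℤ} (ht : a + 1 < t)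
    (h : ∀ b : ℕ, 1 ≤ b → e + b * n ≤ t → theta a e c (tr n b y) = 0) : D.psi r y t = y t := by
  obtain ⟨s, q, h4, h5, rfl⟩ := exists_res D.pos (a + 1) t
  have hq : 0 ≤ q := by
    by_contra hc
    have h0 : (0 : ℤ) < n := by exact_mod_cast D.pos
    nlinarith
  lift q to ℕ using hq
  rw [psi_eq D r _ q h4 h5, pow_apply D r q y s h4 h]

theorem psi_left (y : Sq K) {t : ℤ} (h1 : a + 1 - n < t) (h2 : t ≤ a + 1) :
    D.psi r y t = y t - (1 - r) * theta a e c y * μ t := by
  have := psi_eq D r y (-1) (t := t + n) (by omega) (by omega)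
  rw [show t + n + -1 * n = t by ring] at this
  rw [this, zpow_neg_one, st_inv, sh_apply, add_sub_cancel_right]
  rfl

theorem theta_psi (y : Sq K) : theta a e c (D.psi r y) = r * theta a e c y := by
  have := D.pos
  rw [theta_congr (z := y) fun t h1 h2 => psi_right D r y h1 fun b h3 h4 => by
    have : (1 : ℤ) ≤ b * n := by exact_mod_cast Nat.mul_pos h3 this
    omega, psi_left D r y (by omega) le_rfl, D.one]
  ring

theorem theta_tr_psi (b : ℕ) : ∀ y : Sq K,
    theta a e c (tr n b (D.psi r y)) = r * theta a e c (tr n b y) := by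
  induction b with
  | zero => intro y; simp only [Nat.cast_zero, tr_zero, theta_psi D r]
  | succ b ih => intro y; push_cast; rw [← tr_symm, symm_psi, ih, theta_tr_st]

theorem psi_of_van (hr : r ≠ 0) (y : Sq K) {M : ℤ}
    (h : ∀ t, a + 1 < t → t ≤ M → D.psi r y t = 0) {t : ℤ} (h1 : a + 1 < t) (h2 : t ≤ M) :
    y t = 0 := by
  rw [← psi_right D r y h1 fun b h3 h4 => ?_, h t h1 h2]
  have h6 : (1 : ℤ) ≤ b * n := by exact_mod_cast Nat.mul_pos h3 D.pos
  have := lt D
  refine (mul_eq_zero.1 ?_).resolve_left hr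
  rw [← theta_tr_psi D r, theta_of_van (y := tr n b (D.psi r y))
    fun s h7 h8 => h (s + b * n) (by omega) (by omega)]
  exact h (a + 1 + b * n) (by omega) (by omega)

end SeqC

theorem Desc.psi_one (y : Sq K) : D.psi 1 y = y :=
  psi_of_stable D 1 (fun _ => True) (fun _ _ => trivial) (fun _ _ => trivial)
    (fun _ _ => by rw [sub_self, zero_mul]) trivial

theorem Desc.psi_mem {y : Sq K} (hy : y ∈ W) : D.psi r y = y :=
  psi_of_stable D r (· ∈ W) D.stab.mem (fun _ => D.stab.symm_mem)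
    (fun y hy => by rw [D.ker y hy, mul_zero]) hy

theorem Desc.psi_cst : D.psi r 1 = 1 :=
  psi_of_stable D r (· = 1) (fun _ h => by rw [h]; rfl) (fun _ h => by rw [h]; rfl)
    (fun y hy => by rw [hy, D.cst, mul_zero]) rfl

variable {r}

theorem Desc.psi_inv (hr : r ≠ 0) (y : Sq K) : D.psi r⁻¹ (D.psi r y) = y := by
  have h1 (y : Sq K) : (sh K n).symm (D.psi r⁻¹ (D.psi r y)) =
      D.psi r⁻¹ (D.psi r ((sh K n).symm y)) := by
    rw [symm_psi, st_apply, symm_psi, theta_psi D r, st_apply, map_add (D.psi r),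
      map_add (theta a e c), map_smul, map_smul, D.psi_mem r D.mem, D.ker μ D.mem, add_assoc,
      ← add_smul]
    congr 1
    rw [add_eq_left, smul_eq_zero]
    exact .inl (by simp; field_simp; ring)
  have h2 (y : Sq K) : D.psi r⁻¹ (D.psi r (sh K n y)) = sh K n (D.psi r⁻¹ (D.psi r y)) := by
    rw [← (sh K n).symm_apply_eq, h1, LinearEquiv.symm_apply_apply]
  funext t
  obtain ⟨s, q, h4, h5, rfl⟩ := exists_res D.pos (a + 1) t
  induction q using Int.induction_on generalizing y with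
  | zero =>
    have (r : K) (y : Sq K) : D.psi r y s = y s := by simpa using psi_eq D r y 0 h4 h5
    simp [this]
  | succ q ih =>
    have := ih ((sh K n).symm y)
    rwa [← h1, sh_symm_apply, sh_symm_apply, show s + q * n + n = s + (q + 1) * n by ring] at this
  | pred q ih =>
    have := ih (sh K n y)
    rwa [h2, sh_apply, sh_apply, show s + -q * n - n = s + (-q - 1) * n by ring] at this

theorem Desc.psi_inj (hr : r ≠ 0) : Function.Injective (D.psi r) :=
  Function.LeftInverse.injective (D.psi_inv hr)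

theorem Desc.map_of_le (r : K) (h : V ≤ W) : V.map (D.psi r) = V := by
  ext y
  exact ⟨fun ⟨z, hz, e⟩ => by rwa [← e, D.psi_mem r (h hz)], fun hy => ⟨y, hy, D.psi_mem r (h hy)⟩⟩

theorem Desc.stab_map (hr : r ≠ 0) (hV : Stab n V) (h : W ≤ V) :
    Stab n (V.map (D.psi r)) ∧ chi n (V.map (D.psi r)) = chi n V := by
  have := hV.fin
  have := D.stab.fin
  have h1 : ∀ y ∈ V, (st D r)⁻¹.toLinearMap y ∈ V := fun y hy => by
    change (st D r)⁻¹ y ∈ V
    rw [st_inv]
    exact hV.mem _ (V.sub_mem hy (V.smul_mem _ (h D.mem)))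
  have hs : Stab n (V.map (D.psi r)) := ⟨inferInstance, by
    rintro _ ⟨y, hy, rfl⟩
    exact ⟨_, h1 y hy, (sh_psi D r y).symm⟩⟩
  refine ⟨hs, ?_⟩
  let W' : Submodule K V := W.comap V.subtype
  have h2 : W' ≤ W'.comap ((sh K n).toLinearMap.restrict hV.mem) := fun y hy => D.stab.mem _ hy
  have he : Function.Exact (Submodule.inclusion h) W'.mkQ := fun y => by
    rw [Submodule.mkQ_apply, Submodule.Quotient.mk_eq_zero]
    exact ⟨fun hy => ⟨⟨y, hy⟩, rfl⟩, fun ⟨z, hz⟩ => hz ▸ z.2⟩
  have key (b : V →ₗ[K] V) (h3 : ∀ y : V, y.1 ∈ W → (b y).1 = sh K n y)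
      (h4 : ∀ y : V, (b y).1 - sh K n y ∈ W) :=
    charpoly_exact (Submodule.inclusion h) W'.mkQ (Submodule.inclusion_injective h) he
      W'.mkQ_surjective ((sh K n).toLinearMap.restrict D.stab.mem) b (W'.mapQ W' _ h2)
      (LinearMap.ext fun y => Subtype.ext (h3 _ y.2))
      (LinearMap.ext fun y => ((Submodule.Quotient.eq W').2 (h4 y)).symm)
  rw [hs.chi_eq, hV.chi_eq, key _ (fun _ _ => rfl) (fun y => by simp),
    ← key ((st D r)⁻¹.toLinearMap.restrict h1) (fun y hy => ?_) (fun y => ?_),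
    ← (Submodule.equivMapOfInjective _ (D.psi_inj hr) V).charpoly_conj]
  · congr 1
    refine LinearMap.ext fun y => ?_
    obtain ⟨y, rfl⟩ := (Submodule.equivMapOfInjective _ (D.psi_inj hr) V).surjective y
    rw [LinearEquiv.conj_apply_apply, LinearEquiv.symm_apply_apply]
    exact Subtype.ext (sh_psi D r y)
  · change (st D r)⁻¹ y.1 = _
    rw [st_inv, D.ker _ hy, mul_zero, zero_smul, sub_zero]
  · change (st D r)⁻¹ y.1 - _ ∈ W
    rw [st_inv, ← map_sub, sub_sub_cancel_left]
    exact D.stab.mem _ (W.neg_mem (W.smul_mem _ D.mem))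

namespace SeqC

theorem psi_win (hr : r ≠ 0) (y : Sq K) {i M : ℤ} (h1 : a + 1 - n < i)
    (h2 : ∀ t, a + 1 ≤ t → t ≤ M → D.psi r y t = 0) (t : ℤ) (h3 : i ≤ t) (h4 : t ≤ M) :
    (y - ((1 - r) * theta a e c y) • μ) t = D.psi r y t := by
  by_cases h5 : t ≤ a + 1
  · rw [psi_left D r y (by omega) h5]; rfl
  rw [h2 t (by omega) h4, Pi.sub_apply, Pi.smul_apply,
    psi_of_van D r hr y (fun s h6 h7 => h2 s h6.le h7) (by omega) h4, zero_sub, neg_eq_zero]
  by_cases h6 : t < e
  · rw [D.zero t (by omega) h6, smul_zero]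
  · have := theta_psi D r y
    rw [theta_of_van fun s h7 h8 => h2 s h7.le (by omega), h2 _ le_rfl (by omega)] at this
    rw [(mul_eq_zero.1 this.symm).resolve_left hr, mul_zero, zero_smul]

include D in
theorem le (hU : Rel n w U) (h : W ≤ U) : e ≤ a + 1 + w := by
  by_contra! hc
  have := op_at hU.band (y := μ) (i := a + 1) fun t h6 h7 => D.zero t h6 (by omega)
  rw [LinearMap.mem_ker.1 (hU.eq_sol.le (h D.mem)), D.one] at this
  exact zero_ne_one this

end SeqC

theorem Desc.rel_dU (hr : r ≠ 0) (hU : Rel n w U) (h : W ≤ U) :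
    Rel n w (U.map (D.psi r)) ∧ ∀ i, a + 1 - n < i → i ≤ a + 1 →
      dU n w (U.map (D.psi r)) i = (if i = a + 1 then r else 1) * dU n w U i := by
  have := hU.stab.fin
  have hs := (D.stab_map hr hU.stab h).1
  have hmem {y : Sq K} (hy : y ∈ U) (b : K) : y - b • μ ∈ U :=
    U.sub_mem hy (U.smul_mem _ (h D.mem))
  have hR : Rel n w (U.map (D.psi r)) := by
    refine rel_iff.2 ⟨hs, ?_, fun y hy i h0 => ?_⟩
    · rw [← (Submodule.equivMapOfInjective _ (D.psi_inj hr) U).finrank_eq, hU.finrank_eq]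
    obtain ⟨s, q, h1, h2, rfl⟩ := exists_res D.pos (a + 1 - n) i
    obtain ⟨z, hz, hz'⟩ := tr_mem hs q y hy
    have h3 : ∀ t, s ≤ t → t < s + w → D.psi r z t = 0 := fun t a b => by
      rw [hz']; exact h0 _ (by omega) (by omega)
    have h4 := hU.eq_zero (hmem hz _) s fun t h4 h5 => by
      rw [psi_win D hr z (M := s + w - 1) h1 (fun t h6 h7 => h3 t (by omega) (by omega)) t h4
        (by omega), h3 t h4 h5]
    have h5 : D.psi r z = z := D.psi_mem r (sub_eq_zero.1 h4 ▸ W.smul_mem _ D.mem)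
    have h6 : tr n q y = 0 := by rw [← hz', h5]; exact hU.eq_zero hz s (h5 ▸ h3)
    funext t
    simpa [tr] using congrFun h6 (t - q * n)
  refine ⟨hR, fun i h1 h2 => ?_⟩
  obtain ⟨y, hy, hy1⟩ := hR.band.exists_sol 0 1 (i + 1)
  obtain ⟨z, hz, rfl⟩ : y ∈ U.map (D.psi r) := hR.eq_sol.ge hy
  have h3 : 1 - D.psi r z = D.psi r (1 - z) := by rw [map_sub, D.psi_cst]
  have h4 : ∀ t, i < t → t ≤ i + w → D.psi r (1 - z) t = 0 := fun t h4 h5 => by
    rw [← h3, Pi.sub_apply, hy1 t (by omega) (by omega), sub_self]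
  rw [dU_eq hR ⟨z, hz, rfl⟩ (h3 ▸ h4), h3]
  split_ifs with h5
  · subst h5
    have h5 := fun t h5 h6 => psi_of_van D r hr (1 - z) h4 (t := t) h5 h6
    have h6 := le D hU h
    rw [dU_eq hU hz h5, psi_left D r _ h1 h2, theta_of_van fun t h7 h8 => h5 t h7 (by omega), D.one]
    ring
  · have h6 := psi_win D hr (1 - z) (M := i + w) h1 fun t h6 h7 => h4 t (by omega) h7
    have h7 : ∀ b : K, 1 - z - b • μ = 1 - (z - (-b) • μ) := fun b => by
      rw [neg_smul, sub_neg_eq_add, sub_sub]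
    rw [h7] at h6
    rw [dU_eq hU (hmem hz _) fun t h8 h9 => (h6 t h8.le h9).trans (h4 t h8 h9),
      h6 i le_rfl (by omega), one_mul]

theorem Desc.dU_map (hr : r ≠ 0) (hU : Rel n w U) (h : W ≤ U) (i : ℤ) :
    dU n w (U.map (D.psi r)) i = (if (n : ℤ) ∣ i - (a + 1) then r else 1) * dU n w U i := by
  obtain ⟨hR, h7⟩ := D.rel_dU hr hU h
  obtain ⟨s, q, h1, h2, rfl⟩ := exists_res D.pos (a + 1 - n) i
  rw [dU_per hR, dU_per hU, h7 s h1 (by omega)]
  congr 1
  refine if_congr ⟨fun k => ⟨q, by rw [k]; ring⟩, fun k => ?_⟩ rfl rfl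
  rw [add_sub_right_comm, ← Int.dvd_iff_dvd_of_dvd_sub (b := s - (a + 1) + q * n)
    (c := s - (a + 1)) ⟨q, by ring⟩ |>.symm, ← dvd_neg] at k
  have := Int.eq_zero_of_dvd_of_nonneg_of_lt (by omega) (by omega) k
  omega

theorem Desc.rel_map [Ex n] (hr : r ≠ 0) (hU : TRel n w U) (h : W ≤ U) :
    TRel n w (U.map (D.psi r)) ∧
      fU n w (U.map (D.psi r)) = fU n w U * r ^ (-Ex.b (Fin.intCast (a + 1) : Fin n)) := by
  refine ⟨⟨(D.rel_dU hr hU.1 h).1, fun i => ?_⟩, ?_⟩
  · rw [D.dU_map hr hU.1 h]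
    exact mul_ne_zero (by split_ifs; exacts [hr, one_ne_zero]) (hU.2 i)
  have h1 (i : Fin n) : (n : ℤ) ∣ (i : ℕ) - (a + 1) ↔ i = Fin.intCast (a + 1) := by
    rw [Fin.ext_iff, ← Nat.cast_inj (R := ℤ), val_intCast', ← Int.modEq_iff_dvd, Int.ModEq,
      Int.emod_eq_of_lt (a := (i : ℕ)) (by positivity) (by exact_mod_cast i.2), eq_comm]
  simp only [fU, D.dU_map hr hU.1 h, h1, mul_zpow, Finset.prod_mul_distrib]
  rw [Finset.prod_eq_single (Fin.intCast (a + 1))
    (fun i _ hi => by rw [if_neg hi, one_zpow]) (by simp), if_pos rfl, mul_comm]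

end Pool.Agent.Lib.MP_fc2ced_ag.T
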