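import Pool.Agent.Lib.MP_fc2ced_ag.T.SeqA

/-! Flags: forgetting, splitting and gluing; full flags of tamely relevant spaces. -/

open Module Polynomial

namespace Pool.Agent.Lib.MP_fc2ced_ag.T

open K

variable {K : Type} [Field K] {n w j l : ℕ} {I I' : Finset ℕ} {F F' G : ℕ → Sp K}

theorem Flag.rel (h : Flag n w I F) : Rel n w (F w) := h.trel.1

theorem Flag.toK (h : Flag n w I F) : MP_fc2ced_ag.K.Flag n w I F :=
  ⟨h.rel, h.stab, h.rank, h.le_top, h.mono, h.bot⟩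

theorem Flag.ofK (h : MP_fc2ced_ag.K.Flag n w I F) (h' : TRel n w (F w)) : Flag n w I F :=
  ⟨h', h.stab, h.rank, h.le_top, h.mono, h.bot⟩

theorem AllRel.toK (h : AllRel n w F) : MP_fc2ced_ag.K.AllRel n w F := fun i hi => (h i hi).1

theorem upp_zero : upp n j F 0 = ⊥ := map_nop_self _

theorem Flag.le_of (h : Flag n w I F) {a b : ℕ} (ha : a ∈ I) (hb : b ∈ I ∨ b = w) (e : a ≤ b) :
    F a ≤ F b := h.toK.le_of ha hb e

theorem Flag.stab_of (h : Flag n w I F) {b : ℕ} (hb : b ∈ I ∨ b = w) : Stab n (F b) :=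
  h.toK.stab_of hb

theorem Flag.forget_flag (h : Flag n w I F) (hI : I' ⊆ I) : Flag n w I' (forget w I' F) :=
  .ofK (h.toK.forget_flag hI) (by rw [forget_top]; exact h.trel)

theorem Flag.forget_self (h : Flag n w I F) : forget w I F = F := h.toK.forget_self

theorem Flag.le_full (h : Flag n w (Finset.Ioo 0 w) F) {a b : ℕ} (e : a ≤ b) (hb : b ≤ w) :
    F a ≤ F b := h.toK.le_full e hb

section Split
variable (hI : I ⊆ Finset.Ioo 0 (j + l)) (hj : j ∈ I)
include hI hj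

theorem Flag.low_iff (h : Flag n (j + l) I F) :
    Flag n j (lowI j I) (low j F) ↔ TRel n j (F j) :=
  ⟨fun h1 => by simpa only [low_of_le le_rfl] using h1.trel, fun hr =>
    .ofK ((h.toK.low_iff hI hj).2 hr.1) (by rw [low_of_le le_rfl]; exact hr)⟩

theorem Flag.upp_flag (h : Flag n (j + l) I F) (hr : TRel n j (F j)) :
    Flag n l (uppI j I) (upp n j F) := by
  refine ⟨h.trel.rel_map hr (h.le_top j hj), fun i hi => ?_, fun i hi => ?_, fun i hi => ?_,
    fun i hi a ha e => ?_, fun i h1 h2 => ?_⟩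
  · rw [mem_uppI] at hi
    exact (hr.stab_map (h.stab _ hi.1) (h.mono j hj _ hi.1 (by omega))).1
  · rw [mem_uppI] at hi
    have h3 := (hr.stab_map (h.stab _ hi.1) (h.mono j hj _ hi.1 (by omega))).2
    rw [h.rank _ hi.1] at h3
    exact (Nat.add_left_cancel h3).symm
  · rw [mem_uppI] at hi
    exact Submodule.map_mono (h.le_top _ hi.1)
  · rw [mem_uppI] at hi ha
    exact Submodule.map_mono (h.mono _ hi.1 _ ha.1 (by omega))
  · rcases Nat.eq_zero_or_pos i with rfl | h3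
    · exact upp_zero
    · unfold upp
      rw [h.bot (j + i) (fun h4 => h1 (mem_uppI.2 ⟨h4, h3⟩)) (by omega), Submodule.map_bot]

theorem Flag.glue_flag (h : Flag n j (lowI j I) F) (h' : Flag n l (uppI j I) G) :
    Flag n (j + l) I (glue n j l I F G) ∧ low j (glue n j l I F G) = F ∧
      upp n j (glue n j l I F G) = G := by
  have h0 := Finset.mem_Ioo.1 (hI hj)
  have e1 : ∀ i ≤ j, glue n j l I F G i = F i := fun i hi => if_pos hi
  have e2 : ∀ m, 0 < m → j + m ∈ I ∨ m = l →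
      glue n j l I F G (j + m) = (G m).comap (nop n j (F j)) := by
    intro m hm h1
    unfold glue
    rw [if_neg (by omega), if_pos (h1.imp_right fun h2 => by rw [h2]), Nat.add_sub_cancel_left]
  have e3 : ∀ m, 0 < m → j + m ∈ I ∨ m = l → m ∈ uppI j I ∨ m = l := fun m hm h1 =>
    h1.imp_left fun h2 => mem_uppI.2 ⟨h2, hm⟩
  have e4 : ∀ i ∈ I, i ≤ j → i ∈ lowI j I ∨ i = j := fun i hi h1 =>
    (h1.lt_or_eq).imp_left fun h2 => mem_lowI.2 ⟨hi, h2⟩
  have e5 : ∀ i ∈ I, i ≤ j → F i ≤ F j := fun i hi h1 => by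
    rcases e4 i hi h1 with h2 | rfl
    · exact h.le_top i h2
    · exact le_rfl
  have e6 : ∀ i : ℕ, i ≤ j ∨ ∃ m, 0 < m ∧ i = j + m := fun i => by
    by_cases h1 : i ≤ j
    · exact Or.inl h1
    · exact Or.inr ⟨i - j, by omega, by omega⟩
  have e7 : ∀ i ∈ I, ∀ m, 0 < m → j + m ∈ I ∨ m = l → i ≤ j + m →
      glue n j l I F G i ≤ glue n j l I F G (j + m) := by
    intro i hi m hm h1 h2
    rw [e2 m hm h1]
    rcases e6 i with h3 | ⟨a, ha, rfl⟩
    · rw [e1 i h3]
      exact (e5 i hi h3).trans (h.trel.stab_comap (h'.stab_of (e3 m hm h1))).2.1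
    · rw [e2 a ha (Or.inl hi)]
      exact Submodule.comap_mono (h'.le_of (mem_uppI.2 ⟨hi, ha⟩) (e3 m hm h1) (by omega))
  refine ⟨⟨?_, fun i hi => ?_, fun i hi => ?_, fun i hi => ?_, fun i hi a ha e => ?_,
    fun i h1 h2 => ?_⟩, funext fun i => ?_, funext fun m => ?_⟩
  · rw [e2 l (by omega) (Or.inr rfl)]
    exact h'.trel.rel_comap h.trel
  · rcases e6 i with h3 | ⟨a, ha, rfl⟩
    · rw [e1 i h3]
      exact h.stab_of (e4 i hi h3)
    · rw [e2 a ha (Or.inl hi)]
      exact (h.trel.stab_comap (h'.stab a (mem_uppI.2 ⟨hi, ha⟩))).1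
  · rcases e6 i with h3 | ⟨a, ha, rfl⟩
    · rw [e1 i h3]
      rcases e4 i hi h3 with h2 | rfl
      · exact h.rank i h2
      · exact h.rel.finrank_eq
    · rw [e2 a ha (Or.inl hi)]
      obtain ⟨h4, h5, h6⟩ := h.trel.stab_comap (h'.stab a (mem_uppI.2 ⟨hi, ha⟩))
      rw [(h.trel.stab_map h4 h5).2, h6, h'.rank a (mem_uppI.2 ⟨hi, ha⟩)]
  · exact e7 i hi l (by omega) (Or.inr rfl) (Finset.mem_Ioo.1 (hI hi)).2.le
  · rcases e6 a with h3 | ⟨m, hm, rfl⟩
    · rw [e1 a h3, e1 i (e.trans h3)]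
      rcases e.lt_or_eq with h4 | rfl
      · exact h.le_of (mem_lowI.2 ⟨hi, by omega⟩) (e4 a ha h3) e
      · exact le_rfl
    · exact e7 i hi m hm (Or.inl ha) e
  · by_cases h3 : i ≤ j
    · rw [e1 i h3]
      exact h.bot i (fun h4 => h1 (mem_lowI.1 h4).1) fun h4 => h1 (h4 ▸ hj)
    · unfold glue
      rw [if_neg h3, if_neg (not_or.2 ⟨h1, h2⟩)]
  · by_cases h3 : i ≤ j
    · rw [low_of_le h3, e1 i h3]
    · rw [low_of_lt (not_le.1 h3), h.bot i (fun h4 => h3 (mem_lowI.1 h4).2.le) (by omega)]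
  · rcases Nat.eq_zero_or_pos m with rfl | hm
    · rw [upp_zero, h'.bot 0 (fun h4 => (mem_uppI.1 h4).2.false) (by omega)]
    · unfold upp
      rw [e1 j le_rfl]
      by_cases h1 : j + m ∈ I ∨ m = l
      · rw [e2 m hm h1]
        exact (h.trel.stab_comap (h'.stab_of (e3 m hm h1))).2.2
      · obtain ⟨h2, h3⟩ := not_or.1 h1
        unfold glue
        rw [if_neg (by omega), if_neg (not_or.2 ⟨h2, by omega⟩), Submodule.map_bot,
          h'.bot m (fun h4 => h2 (mem_uppI.1 h4).1) h3]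

theorem Flag.glue_split (h : Flag n (j + l) I F) (hr : TRel n j (F j)) :
    glue n j l I (low j F) (upp n j F) = F := by
  funext i
  unfold glue
  by_cases h1 : i ≤ j
  · rw [if_pos h1, low_of_le h1]
  · rw [if_neg h1]
    by_cases h2 : i ∈ I ∨ i = j + l
    · rw [if_pos h2, low_of_le le_rfl]
      unfold upp
      rw [Nat.add_sub_cancel' (not_le.1 h1).le]
      exact hr.comap_map (h.le_of hj h2 (not_le.1 h1).le)
    · rw [if_neg h2, h.bot i (not_or.1 h2).1 (not_or.1 h2).2]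

theorem Flag.fU_split [Ex n] (h : Flag n (j + l) I F) (hr : TRel n j (F j)) :
    fU n (j + l) (F (j + l)) = fU n j (low j F j) * fU n l (upp n j F l) := by
  rw [low_of_le le_rfl]
  exact h.trel.fU_map hr (h.le_top j hj)

theorem Flag.chi_split (h : Flag n (j + l) I F) (hr : TRel n j (F j)) :
    chi n (F (j + l)) = chi n (low j F j) * chi n (upp n j F l) := by
  rw [low_of_le le_rfl]
  exact hr.chi_map h.rel.stab (h.le_top j hj)

theorem upp_forget : upp n j (forget (j + l) I F) = forget l (uppI j I) (upp n j F) := by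
  have h0 := Finset.mem_Ioo.1 (hI hj)
  funext m
  rcases Nat.eq_zero_or_pos m with rfl | hm
  · rw [upp_zero]
    unfold forget
    rw [upp_zero, ite_self]
  · unfold upp
    rw [forget_of_mem hj]
    unfold forget
    by_cases h1 : j + m ∈ I ∨ j + m = j + l
    · rw [if_pos h1, if_pos (h1.imp (fun h2 => mem_uppI.2 ⟨h2, hm⟩) Nat.add_left_cancel)]
    · rw [if_neg h1, if_neg fun h2 : m ∈ uppI j I ∨ m = l =>
        h1 (h2.imp (fun h3 => (mem_uppI.1 h3).1) fun h3 => by rw [h3]), Submodule.map_bot]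

end Split

theorem Flag.allRel_split (hj : 0 < j) (hl : 0 < l) (h : Flag n (j + l) (Finset.Ioo 0 (j + l)) F) :
    AllRel n (j + l) F ↔ AllRel n j (low j F) ∧ AllRel n l (upp n j F) := by
  refine ⟨fun hr => ⟨fun i hi => ?_, fun m hm => ?_⟩, fun ⟨h1, h2⟩ i hi => ?_⟩
  · rw [low_of_le hi]
    exact hr i (by omega)
  · exact (hr (j + m) (by omega)).rel_map (hr j (by omega)) (h.le_full (by omega) (by omega))
  · have h3 : ∀ a ≤ j, TRel n a (F a) := fun a ha => by simpa only [low_of_le ha] using h1 a ha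
    by_cases h4 : i ≤ j
    · exact h3 i h4
    · obtain ⟨m, rfl⟩ := Nat.exists_eq_add_of_le (not_le.1 h4).le
      have h5 := (h2 m (by omega)).rel_comap (h3 j le_rfl)
      unfold upp at h5
      rwa [(h3 j le_rfl).comap_map (h.le_full (by omega) hi)] at h5

theorem Flag.jmap_split (hj : 0 < j) (hl : 0 < l) (h : Flag n (j + l) (Finset.Ioo 0 (j + l)) F)
    (hr : AllRel n (j + l) F) :
    (∀ a, jmap n j (low j F) a = jmap n (j + l) F (Fin.castAdd l a)) ∧
      ∀ b, jmap n l (upp n j F) b = jmap n (j + l) F (Fin.natAdd j b) := by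
  obtain ⟨h1, h2⟩ := (h.allRel_split hj hl).1 hr
  have h3 : ∀ m ≤ l, ∀ i, dU n (j + m) (F (j + m)) i = dU n j (F j) i * dU n m (upp n j F m) i :=
    fun m hm => ((hr j (by omega)).dU_map (hr (j + m) (by omega)).1
      (h.le_full (by omega) (by omega))).2
  refine ⟨fun a => funext fun i => ?_, fun b => funext fun i => ?_⟩
  · unfold jmap
    rw [if_pos h1, if_pos hr, low_of_le a.2.le, low_of_le (Nat.succ_le_of_lt a.2)]
    rfl
  · unfold jmap
    rw [if_pos h2, if_pos hr, Fin.val_natAdd, add_assoc, h3 b b.2.le,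
      h3 (b + 1) (Nat.succ_le_of_lt b.2), mul_div_mul_left _ _ ((hr j (by omega)).2 _)]

section Full
variable [NeZero n] {x : Fin w → Fin n → K}

open Fin.CommRing in
theorem intCast_succ (i : ℤ) : (Fin.intCast (i + 1) : Fin n) = Fin.intCast i + 1 := by
  change ((i + 1 : ℤ) : Fin n) = (i : Fin n) + 1
  rw [Int.cast_add, Int.cast_one]

omit [NeZero n] in
theorem dA_succ {m : ℕ} (hm : m < w) (i : Fin n) :
    dA x (m + 1) i = (1 - x ⟨m, hm⟩ i) * dA x m i := by
  rw [dA, filter_succ hm, Finset.prod_insert (by simp), dA]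

omit [NeZero n] in
theorem dA_ne (hx : ∀ a i, x a i ≠ 1) (m : ℕ) (i : Fin n) : dA x m i ≠ 0 :=
  Finset.prod_ne_zero_iff.2 fun a _ => sub_ne_zero.2 (hx a i).symm

theorem ung_ne (hx : ∀ a i, x a i ≠ 0 ∧ x a i ≠ 1) (a : Fin w) (i : Fin n) : ung x a i ≠ 0 :=
  div_ne_zero (mul_ne_zero (hx a i).1 (dA_ne (fun a i => (hx a i).2) _ _))
    (dA_ne (fun a i => (hx a i).2) _ _)

theorem chiA_ung (hx : ∀ a i, x a i ≠ 1) (m : ℕ) : chiA (ung x) m = chiA x m := by
  refine Finset.prod_congr rfl fun a _ => ?_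
  simp only [ung, Finset.prod_div_distrib, Finset.prod_mul_distrib]
  rw [show ∏ i, dA x a (i + 1) = _ from Equiv.prod_comp (Equiv.addRight 1) (dA x a),
    mul_div_cancel_right₀ _
    (Finset.prod_ne_zero_iff.2 fun i _ => dA_ne hx _ i)]

omit [NeZero n] in
theorem op_one {g : ℤ → ℕ → K} (h : Band n 1 g) (y : Sq K) (i : ℤ) :
    op 1 g y i = y i + g i 1 * y (i + 1) := by
  simp [op_apply, Finset.sum_range_succ, h.one]

theorem dU_flagOf (hx : ∀ a i, x a i ≠ 0 ∧ x a i ≠ 1) {m : ℕ} (hm : m ≤ w) (i : ℤ) :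
    dU n m (flagOf x m) i = dA x m (Fin.intCast i) := by
  have h0 := ung_ne hx
  induction m generalizing i with
  | zero => rw [flagOf, dU_zero (rel_flagOf h0 hm)]; simp [dA]
  | succ m ih =>
    simp only [dU, flagOf, coef_flagOf h0 (Nat.le_of_succ_le hm)] at ih
    rw [dU, flagOf, coef_flagOf h0 hm, whs_succ hm,
      (band_whs h0 (Nat.le_of_succ_le hm)).op_conv (band_wh (h0 _)), LinearMap.comp_apply,
      op_one (band_wh (h0 _)), ih (Nat.le_of_succ_le hm), ih (Nat.le_of_succ_le hm), wh_one,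
      intCast_succ, dA_succ hm, ung, neg_mul,
      div_mul_cancel₀ _ (dA_ne (fun a i => (hx a i).2) _ _)]
    ring

theorem trel_flagOf (hx : ∀ a i, x a i ≠ 0 ∧ x a i ≠ 1) {m : ℕ} (hm : m ≤ w) :
    TRel n m (flagOf x m) :=
  ⟨rel_flagOf (ung_ne hx) hm, fun i => by
    rw [dU_flagOf hx hm]
    exact dA_ne (fun a i => (hx a i).2) _ _⟩

theorem flagOf_flag (hx : ∀ a i, x a i ≠ 0 ∧ x a i ≠ 1) :
    Flag n w (Finset.Ioo 0 w) (flagOf x) ∧ AllRel n w (flagOf x) ∧ jmap n w (flagOf x) = x := by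
  have h1 : AllRel n w (flagOf x) := fun i hi => trel_flagOf hx hi
  refine ⟨.ofK (MP_fc2ced_ag.K.flagOf_flag (ung_ne hx)).1 (h1 w le_rfl), h1,
    funext fun a => funext fun i => ?_⟩
  unfold jmap
  rw [if_pos h1, dU_flagOf hx a.2.le, dU_flagOf hx (Nat.succ_le_of_lt a.2), dA_succ a.2,
    intCast_val, mul_div_cancel_right₀ _ (dA_ne (fun a i => (hx a i).2) _ _), sub_sub_cancel]

theorem Flag.jmap_spec (h : Flag n w (Finset.Ioo 0 w) F) (hr : AllRel n w F) :
    (∀ a i, jmap n w F a i ≠ 0 ∧ jmap n w F a i ≠ 1) ∧ flagOf (jmap n w F) = F := by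
  obtain ⟨h1, h2⟩ := h.toK.jmap_spec hr.toK
  have h3 : ∀ m ≤ w, ∀ i : Fin n, dA (jmap n w F) m i = dU n m (F m) (i : ℕ) := by
    intro m hm i
    induction m with
    | zero => rw [dU_zero (hr 0 hm).1]; simp [dA]
    | succ m ih =>
      rw [dA_succ hm, ih (by omega), jmap, if_pos hr, sub_sub_cancel,
        div_mul_cancel₀ _ ((hr m (by omega)).2 _)]
  have h4 : ung (jmap n w F) = MP_fc2ced_ag.K.jmap n w F := by
    funext a i
    have ha := hr a a.2.le
    obtain ⟨h5, h6⟩ := (hr (a + 1) (Nat.succ_le_of_lt a.2)).1.rel_map ha.1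
      (h.le_full (Nat.le_succ _) (Nat.succ_le_of_lt a.2))
    have h7 := op_one h5.band (dU n a (F a)) (i : ℕ)
    rw [dU, ← LinearMap.comp_apply, ← ha.1.band.op_conv h5.band, ← h6, ← dU, ← dU] at h7
    rw [ung, h3 a a.2.le, h3 a a.2.le, jmap, MP_fc2ced_ag.K.jmap, if_pos hr, if_pos hr.toK, h7, h6,
      ha.1.band.conv_one h5.band, ← intCast_val (i + 1), ← intCast_val i, ← intCast_succ,
      intCast_val, intCast_val, dU_intCast ha.1]
    have := ha.2 (i : ℕ)
    have := ha.2 ((i : ℕ) + 1)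
    field_simp
    ring
  refine ⟨fun a i => ⟨fun e => h1 a i ?_, ?_⟩, by rw [flagOf, h4, h2]⟩
  · rw [← h4, ung, e, zero_mul, zero_div]
  · rw [jmap, if_pos hr, Ne, sub_eq_self]
    exact div_ne_zero ((hr _ (Nat.succ_le_of_lt a.2)).2 _) ((hr _ a.2.le).2 _)

theorem chi_flagOf (hx : ∀ a i, x a i ≠ 0 ∧ x a i ≠ 1) {m : ℕ} (hm : m ≤ w) :
    chi n (flagOf x m) = chiA x m := by
  rw [flagOf, MP_fc2ced_ag.K.chi_flagOf (ung_ne hx) hm, chiA_ung fun a i => (hx a i).2]

end Full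

theorem fU_flagOf [Ex n] {x : Fin w → Fin n → K} (hx : ∀ a i, x a i ≠ 0 ∧ x a i ≠ 1) :
    fU n w (flagOf x w) = ∏ a, ∏ i, (1 - x a i) ^ (-Ex.b i) := by
  rw [fU, Finset.prod_comm]
  refine Finset.prod_congr rfl fun i _ => ?_
  rw [dU_flagOf hx le_rfl, intCast_val, dA, Finset.filter_true_of_mem fun a _ => a.2,
    Finset.prod_zpow]

end Pool.Agent.Lib.MP_fc2ced_ag.T
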