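import Pool.Agent.Lib.MP_fc2ced_ag.T.Pt

/-! Constructions of varieties: locally closed subsets, products, affine spaces, polynomials. -/

open CategoryTheory Function Polynomial

namespace Pool.Agent.Lib.MP_fc2ced_ag.T

open K

noncomputable section

variable {k : Type} [Field k] {F : Type} [Field F]

namespace Pt

variable (S S' : Pt k) {K K' K'' : Fld k}

/-- Closed conditions: stable under specialization. -/
def Closed (T : S.Cond) : Prop :=
  ∀ ⦃K K'⦄ (φ : Place K K') (x : S.X K) (y : S.X K'), S.L x → S.L y → S.R φ x y → T x → T y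

/-- Open conditions: stable under generization. -/
def Open (T : S.Cond) : Prop :=
  ∀ ⦃K K'⦄ (φ : Place K K') (x : S.X K) (y : S.X K'), S.L x → S.L y → S.R φ x y → T y → T x

/-- Locally closed conditions. -/
def Conv (T : S.Cond) : Prop :=
  ∀ ⦃K K' K''⦄ (φ : Place K K') (φ' : Place K' K'') (x : S.X K) (y : S.X K') (z : S.X K''),
    S.L x → S.L y → S.L z → S.R φ x y → S.R φ' y z → T x → T z → T y

/-- Regular functions. -/
def RegF (g : ∀ ⦃K⦄, S.X K → K) : Prop :=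
  ∀ ⦃K K'⦄ (φ : Place K K') (x : S.X K) (y : S.X K'), S.L x → S.L y → S.R φ x y → φ (g x) (g y)

/-- Regular families of polynomials. -/
def RegP (g : ∀ ⦃K⦄, S.X K → K[X]) : Prop :=
  ∀ ⦃K K'⦄ (φ : Place K K') (x : S.X K) (y : S.X K'), S.L x → S.L y → S.R φ x y →
    φ.PR (g x) (g y)

/-- Regular maps. -/
structure Reg (e : ∀ ⦃K⦄, S.X K → S'.X K) : Prop where
  live : ∀ ⦃K⦄ (x : S.X K), S.L x → S'.L (e x)
  reg : ∀ ⦃K K'⦄ (φ : Place K K') (x : S.X K) (y : S.X K'), S.L x → S.L y → S.R φ x y →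
    S'.R φ (e x) (e y)

variable {S S'} {T T' : S.Cond}

theorem Closed.conv (h : S.Closed T) : S.Conv T :=
  fun _ _ _ φ _ x y _ hx hy _ h1 _ h2 _ => h φ x y hx hy h1 h2
theorem Open.conv (h : S.Open T) : S.Conv T :=
  fun _ _ _ _ φ' _ y z _ hy hz _ h1 _ h2 => h φ' y z hy hz h1 h2
theorem Conv.and (h : S.Conv T) (h' : S.Conv T') : S.Conv fun _ x => T x ∧ T' x :=
  fun _ _ _ φ φ' x y z a b c d e h1 h2 =>
    ⟨h φ φ' x y z a b c d e h1.1 h2.1, h' φ φ' x y z a b c d e h1.2 h2.2⟩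
theorem Closed.and (h : S.Closed T) (h' : S.Closed T') : S.Closed fun _ x => T x ∧ T' x :=
  fun _ _ φ x y a b c h1 => ⟨h φ x y a b c h1.1, h' φ x y a b c h1.2⟩
theorem Closed.or (h : S.Closed T) (h' : S.Closed T') : S.Closed fun _ x => T x ∨ T' x :=
  fun _ _ φ x y a b c h1 => h1.imp (h φ x y a b c) (h' φ x y a b c)
theorem Open.and (h : S.Open T) (h' : S.Open T') : S.Open fun _ x => T x ∧ T' x :=
  fun _ _ φ x y a b c h1 => ⟨h φ x y a b c h1.1, h' φ x y a b c h1.2⟩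
theorem Closed.not (h : S.Closed T) : S.Open fun _ x => ¬ T x :=
  fun _ _ φ x y a b c h1 h2 => h1 (h φ x y a b c h2)
theorem Open.not (h : S.Open T) : S.Closed fun _ x => ¬ T x :=
  fun _ _ φ x y a b c h1 h2 => h1 (h φ x y a b c h2)

section RegF
variable {g g' : ∀ ⦃K⦄, S.X K → K}
theorem RegF.eq (h : S.RegF g) (h' : S.RegF g') : S.Closed fun _ x => g x = g' x :=
  fun _ _ φ x y a b c e => (h φ x y a b c).eq_of (h' φ x y a b c) e
theorem RegF.ne (h : S.RegF g) (h' : S.RegF g') : S.Open fun _ x => g x ≠ g' x := (h.eq h').not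
theorem regF_f : S.RegF S.f := S.reg
theorem regF_const (c : k) : S.RegF fun K _ => algebraMap k K c := fun _ _ φ _ _ _ _ _ => φ.alg c
theorem regF_zero : S.RegF fun _ _ => 0 := fun _ _ φ _ _ _ _ _ => φ.zero
theorem regF_one : S.RegF fun _ _ => 1 := fun _ _ φ _ _ _ _ _ => φ.one
theorem RegF.add (h : S.RegF g) (h' : S.RegF g') : S.RegF fun _ x => g x + g' x :=
  fun _ _ φ x y a b c => (h φ x y a b c).add (h' φ x y a b c)
theorem RegF.sub (h : S.RegF g) (h' : S.RegF g') : S.RegF fun _ x => g x - g' x :=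
  fun _ _ φ x y a b c => (h φ x y a b c).sub (h' φ x y a b c)
theorem RegF.mul (h : S.RegF g) (h' : S.RegF g') : S.RegF fun _ x => g x * g' x :=
  fun _ _ φ x y a b c => (h φ x y a b c).mul (h' φ x y a b c)
theorem RegF.neg (h : S.RegF g) : S.RegF fun _ x => -g x := fun _ _ φ x y a b c => (h φ x y a b c).neg
theorem RegF.pow (h : S.RegF g) (m : ℕ) : S.RegF fun _ x => g x ^ m :=
  fun _ _ φ x y a b c => (h φ x y a b c).pow m
theorem RegF.zpow (h : S.RegF g) (h0 : ∀ ⦃K⦄ (x : S.X K), S.L x → g x ≠ 0) (m : ℤ) :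
    S.RegF fun _ x => g x ^ m := fun _ _ φ x y a b c => rel_zpow (h φ x y a b c) (h0 y b) m
theorem RegF.div (h : S.RegF g) (h' : S.RegF g') (h0 : ∀ ⦃K⦄ (x : S.X K), S.L x → g' x ≠ 0) :
    S.RegF fun _ x => g x / g' x :=
  fun _ _ φ x y a b c => (h φ x y a b c).div (h' φ x y a b c) (h0 y b)
end RegF

theorem RegP.eq {g g' : ∀ ⦃K⦄, S.X K → K[X]} (h : S.RegP g) (h' : S.RegP g') :
    S.Closed fun _ x => g x = g' x :=
  fun _ _ φ x y a b c e => (h φ x y a b c).func (e ▸ h' φ x y a b c)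

variable (S) in
/-- A locally closed subset. -/
@[reducible] def restr (T : S.Cond) (h : S.Conv T) : Pt k where
  X := S.X
  L _ x := S.L x ∧ T x
  R := S.R
  f := S.f
  func _ _ φ x y y' a b c := S.func φ x y y' a.1 b.1 c.1
  id _ x y a b := S.id x y a.1 b.1
  comp _ _ _ φ φ' x z a b := (S.comp φ φ' x z a.1 b.1).trans
    ⟨fun ⟨y, h1, h2, h3⟩ => ⟨y, ⟨h1, h φ φ' x y z a.1 h1 b.1 h2 h3 a.2 b.2⟩, h2, h3⟩,
      fun ⟨y, h1, h2⟩ => ⟨y, h1.1, h2⟩⟩
  reg _ _ φ x y a b := S.reg φ x y a.1 b.1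
  ne _ x a := S.ne x a.1
  fin _ x a := (S.fin x a.1).imp fun _ hS K' φ φ' e y b => hS K' φ φ' e y b.1

variable (S) in
/-- The same variety with another function. -/
@[reducible] def withF (g : ∀ ⦃K⦄, S.X K → K) (h : S.RegF g)
    (h0 : ∀ ⦃K⦄ (x : S.X K), S.L x → g x ≠ 0) : Pt k :=
  { S with f := g, reg := h, ne := h0 }

variable (S S') in
/-- The product, with the product of the functions. -/
@[reducible] def prod : Pt k where
  X K := S.X K × S'.X K
  L _ x := S.L x.1 ∧ S'.L x.2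
  R _ _ φ x y := S.R φ x.1 y.1 ∧ S'.R φ x.2 y.2
  f _ x := S.f x.1 * S'.f x.2
  func _ _ φ x y y' a b c d e := Prod.ext (S.func φ _ _ _ a.1 b.1 c.1 d.1 e.1)
    (S'.func φ _ _ _ a.2 b.2 c.2 d.2 e.2)
  id _ x y a b := by rw [S.id _ _ a.1 b.1, S'.id _ _ a.2 b.2, Prod.ext_iff]
  comp _ _ _ φ φ' x z a b := by
    rw [S.comp φ φ' _ _ a.1 b.1, S'.comp φ φ' _ _ a.2 b.2]
    exact ⟨fun ⟨⟨y, h⟩, y', h'⟩ => ⟨(y, y'), ⟨h.1, h'.1⟩, ⟨h.2.1, h'.2.1⟩, h.2.2, h'.2.2⟩,
      fun ⟨y, h1, h2, h3⟩ => ⟨⟨y.1, h1.1, h2.1, h3.1⟩, y.2, h1.2, h2.2, h3.2⟩⟩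
  reg _ _ φ x y a b c := (S.reg φ _ _ a.1 b.1 c.1).mul (S'.reg φ _ _ a.2 b.2 c.2)
  ne _ _ a := mul_ne_zero (S.ne _ a.1) (S'.ne _ a.2)
  fin _ x a := by
    classical
    obtain ⟨A, hA⟩ := S.fin x.1 a.1
    obtain ⟨B, hB⟩ := S'.fin x.2 a.2
    exact ⟨A ∪ B, fun K' φ φ' e y b c => ⟨hA K' φ φ' (fun s hs => e s (by simp [hs])) _ b.1 c.1,
      hB K' φ φ' (fun s hs => e s (by simp [hs])) _ b.2 c.2⟩⟩

variable (S) in
/-- A finite power, with the product of the functions. -/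
@[reducible] def pi (α : Type) [Fintype α] : Pt k where
  X K := α → S.X K
  L _ x := ∀ a, S.L (x a)
  R _ _ φ x y := ∀ a, S.R φ (x a) (y a)
  f _ x := ∏ a, S.f (x a)
  func _ _ φ x y y' a b c d e := funext fun i => S.func φ _ _ _ (a i) (b i) (c i) (d i) (e i)
  id _ x y a b := by rw [funext_iff]; exact forall_congr' fun i => S.id _ _ (a i) (b i)
  comp _ _ _ φ φ' x z a b := by
    simp only [fun i => S.comp φ φ' _ _ (a i) (b i)]
    exact ⟨fun h => by
      choose y h1 h2 h3 using h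
      exact ⟨y, h1, h2, h3⟩, fun ⟨y, h1, h2, h3⟩ i => ⟨y i, h1 i, h2 i, h3 i⟩⟩
  reg _ _ φ x y a b c := Place.prod fun i _ => S.reg φ _ _ (a i) (b i) (c i)
  ne _ _ a := Finset.prod_ne_zero_iff.2 fun i _ => S.ne _ (a i)
  fin _ x a := by
    classical
    choose A hA using fun i => S.fin (x i) (a i)
    exact ⟨Finset.univ.biUnion A, fun K' φ φ' e y b c i => hA i K' φ φ'
      (fun s hs => e s (Finset.mem_biUnion.2 ⟨i, Finset.mem_univ _, hs⟩)) _ (b i) (c i)⟩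

variable (k) in
/-- The affine line with the function one. -/
@[reducible] def line : Pt k where
  X K := K
  L _ _ := True
  R _ _ φ x y := φ x y
  f _ _ := 1
  func _ _ φ _ _ _ _ _ _ := φ.func
  id _ _ _ _ _ := Iff.rfl
  comp _ _ _ _ _ _ _ _ _ := by simp
  reg _ _ φ _ _ _ _ _ := φ.one
  ne _ _ _ := one_ne_zero
  fin _ x _ := ⟨{x}, fun _ _ _ e _ _ h => e x (by simp) ▸ h⟩

variable (k) in
/-- The multiplicative group with the function one. -/
@[reducible] def gm : Pt k :=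
  (line k).restr (fun _ x => x ≠ 0) (Open.conv fun _ _ _ _ _ _ _ h => h.ne_zero)

theorem ne_one_of {φ : Place K K'} {a : K} {b : K'} (h : φ a b) (hb : b ≠ 1) : a ≠ 1 :=
  fun e => hb (h.eq_of φ.one e)

variable (k) in
/-- Vectors with entries different from zero and one, with the function
`∏ (1 - x i) ^ (-b i)`. -/
@[reducible] def box {α : Type} [Fintype α] (b : α → ℤ) : Pt k :=
  (((line k).pi α).restr (fun _ x => ∀ i, x i ≠ 0 ∧ x i ≠ 1) (Open.conv fun _ _ _ _ _ _ _ r h i =>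
    ⟨(r i).ne_zero (h i).1, ne_one_of (r i) (h i).2⟩)).withF
    (fun _ x => ∏ i, (1 - x i) ^ (-b i))
    (fun _ _ φ _ _ _ h r => Place.prod fun i _ =>
      rel_zpow (φ.one.sub (r i)) (sub_ne_zero.2 (h.2 i).2.symm) _)
    fun _ _ h => Finset.prod_ne_zero_iff.2 fun i _ =>
      zpow_ne_zero _ (sub_ne_zero.2 (h.2 i).2.symm)

variable (k) in
/-- The point. -/
@[reducible] def unit : Pt k where
  X _ := Unit
  L _ _ := True
  R _ _ _ _ _ := True
  f _ _ := 1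
  func _ _ _ _ _ _ _ _ _ _ _ := rfl
  id _ _ _ _ _ := by simp
  comp _ _ _ _ _ _ _ _ _ := by simp
  reg _ _ φ _ _ _ _ _ := φ.one
  ne _ _ _ := one_ne_zero
  fin _ _ _ := ⟨∅, fun _ _ _ _ _ _ h => h⟩

variable (k) in
/-- The space of polynomials with the function one. -/
@[reducible] def poly : Pt k where
  X K := K[X]
  L _ _ := True
  R _ _ φ := φ.PR
  f _ _ := 1
  func _ _ _ _ _ _ _ _ _ := Place.PR.func
  id _ _ _ _ _ := Polynomial.ext_iff.symm
  comp _ _ _ φ φ' x z _ _ := by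
    classical
    refine ⟨fun h => ?_, fun ⟨y, _, h1, h2⟩ i => ⟨_, h1 i, h2 i⟩⟩
    choose y h1 h2 using h
    refine ⟨⟨.ofCoeff (Finsupp.onFinset x.support y fun i hi => ?_)⟩, trivial, h1, h2⟩
    exact mem_support_iff.2 ((h1 i).ne_zero hi)
  reg _ _ φ _ _ _ _ _ := φ.one
  ne _ _ _ := one_ne_zero
  fin _ x _ := by
    classical
    refine ⟨insert 0 x.coeffs, fun _ _ _ e _ _ h i => e (x.coeff i) ?_ ▸ h i⟩
    by_cases h0 : x.coeff i = 0
    · simp [h0]
    · exact Finset.mem_insert_of_mem (coeff_mem_coeffs h0)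

section Pull
variable {e : ∀ ⦃K⦄, S.X K → S'.X K} {T : S'.Cond}
theorem Reg.closed (h : S.Reg S' e) (hT : S'.Closed T) : S.Closed fun _ x => T (e x) :=
  fun _ _ φ x y a b c => hT φ _ _ (h.live x a) (h.live y b) (h.reg φ x y a b c)
theorem Reg.open (h : S.Reg S' e) (hT : S'.Open T) : S.Open fun _ x => T (e x) :=
  fun _ _ φ x y a b c => hT φ _ _ (h.live x a) (h.live y b) (h.reg φ x y a b c)
theorem Reg.conv (h : S.Reg S' e) (hT : S'.Conv T) : S.Conv fun _ x => T (e x) :=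
  fun _ _ _ φ φ' x y z a b c d d' => hT φ φ' _ _ _ (h.live x a) (h.live y b) (h.live z c)
    (h.reg φ x y a b d) (h.reg φ' y z b c d')
theorem Reg.regF (h : S.Reg S' e) {g : ∀ ⦃K⦄, S'.X K → K} (hg : S'.RegF g) :
    S.RegF fun _ x => g (e x) :=
  fun _ _ φ x y a b c => hg φ _ _ (h.live x a) (h.live y b) (h.reg φ x y a b c)
theorem Reg.regP (h : S.Reg S' e) {g : ∀ ⦃K⦄, S'.X K → K[X]} (hg : S'.RegP g) :
    S.RegP fun _ x => g (e x) :=
  fun _ _ φ x y a b c => hg φ _ _ (h.live x a) (h.live y b) (h.reg φ x y a b c)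
theorem Reg.comp {S'' : Pt k} {e' : ∀ ⦃K⦄, S'.X K → S''.X K} (h : S.Reg S' e)
    (h' : S'.Reg S'' e') : S.Reg S'' fun _ x => e' (e x) :=
  ⟨fun _ x a => h'.live _ (h.live x a), fun _ _ φ x y a b c =>
    h'.reg φ _ _ (h.live x a) (h.live y b) (h.reg φ x y a b c)⟩
end Pull

theorem reg_fst : (S.prod S').Reg S fun _ x => x.1 := ⟨fun _ _ h => h.1, fun _ _ _ _ _ _ _ h => h.1⟩
theorem reg_snd : (S.prod S').Reg S' fun _ x => x.2 := ⟨fun _ _ h => h.2, fun _ _ _ _ _ _ _ h => h.2⟩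
theorem reg_restr (h : S.Conv T) : (S.restr T h).Reg S fun _ x => x :=
  ⟨fun _ _ h => h.1, fun _ _ _ _ _ _ _ h => h⟩

variable (S S') in
/-- The fibre product over the space of polynomials. -/
@[reducible] def fib (c : ∀ ⦃K⦄, S.X K → K[X]) (hc : S.RegP c) (c' : ∀ ⦃K⦄, S'.X K → K[X])
    (hc' : S'.RegP c') : Pt k :=
  (S.prod S').restr (fun _ x => c x.1 = c' x.2)
    ((reg_fst.regP hc).eq (reg_snd.regP hc')).conv

end Pt

end

end Pool.Agent.Lib.MP_fc2ced_ag.T
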