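import Pool.Agent.Lib.MP_fc2ced_ag.K.GeoR
import Pool.Agent.Lib.MP_fc2ced_ag.T.SeqC
import Pool.Agent.Lib.MP_fc2ced_ag.T.SeqD
import Pool.Agent.Lib.MP_fc2ced_ag.T.Var

/-! Specialization of tamely relevant spaces and of their flags. -/

open Module Polynomial

namespace Pool.Agent.Lib.MP_fc2ced_ag.T

open K K.Place

variable {k : Type} [Field k] {K K' : Fld k} {φ : Place K K'} {n w : ℕ} {U W : Sp K}
  {U' W' : Sp K'} {y : Sq K} {y' : Sq K'}

theorem gr_dU (h : φ.GR U U') (hU : Rel n w U) (hU' : Rel n w U') :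
    φ.VR (dU n w U) (dU n w U') := VR.op (fun _ => φ.one) (h.coef hU hU')

theorem gr_fU [Ex n] (h : φ.GR U U') (hU : TRel n w U) (hU' : TRel n w U') :
    φ (fU n w U) (fU n w U') :=
  Place.prod fun _ _ => rel_zpow (gr_dU h hU.1 hU'.1 _) (hU'.2 _) _

/-- Tame relevance is an open condition. -/
theorem gr_trel (h : φ.GR U U') (hU : Stab n U) (hU' : TRel n w U') : TRel n w U :=
  ⟨h.rel hU hU'.1, fun i => (gr_dU h (h.rel hU hU'.1) hU'.1 i).ne_zero (hU'.2 i)⟩

theorem vr_nop (h : φ.GR W W') (hW : TRel n w W) (hW' : TRel n w W') (e : φ.VR y y') :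
    φ.VR (nop n w W y) (nop n w W' y') := fun i =>
  ((gr_dU h hW.1 hW'.1 i).inv (hW'.2 i)).mul (e.op (h.coef hW.1 hW'.1) i)

theorem gr_map_nop (h : φ.GR U U') (h₁ : φ.GR W W') (e : W ≤ U) (hW : TRel n w W)
    (hW' : TRel n w W') : φ.GR (U.map (nop n w W)) (U'.map (nop n w W')) :=
  h.map h₁ e _ _ (fun _ _ => vr_nop h₁ hW hW') hW.ker_nop.ge (inf_le_right.trans hW'.ker_nop.le)

theorem gr_comap_nop (h : φ.GR U U') (h₁ : φ.GR W W') (hW : TRel n w W) (hW' : TRel n w W') :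
    φ.GR (U.comap (nop n w W)) (U'.comap (nop n w W')) := by
  refine h.comap _ _ (by rwa [hW.ker_nop, hW'.ker_nop]) fun z z' e => ?_
  obtain ⟨y, y', h1, h2, h3⟩ := (h₁.coef hW.1 hW'.1).exists_sol hW.1.band hW'.1.band
    (z := dU n w W * z) (z' := dU n w W' * z') fun i => (gr_dU h₁ hW.1 hW'.1 i).mul (e i)
  refine ⟨y, y', h1, funext fun i => ?_, funext fun i => ?_⟩
  · rw [nop_apply, h2, Pi.mul_apply, inv_mul_cancel_left₀ (hW.2 i)]
  · rw [nop_apply, h3, Pi.mul_apply, inv_mul_cancel_left₀ (hW'.2 i)]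

theorem gr_flagOf [NeZero n] {x : Fin w → Fin n → K} {x' : Fin w → Fin n → K'}
    (h : ∀ a i, φ (x a i) (x' a i)) (h' : ∀ a i, x' a i ≠ 0 ∧ x' a i ≠ 1) (m : ℕ) :
    φ.GR (flagOf x m) (flagOf x' m) := by
  have k (m : ℕ) (i : Fin n) : φ (dA x m i) (dA x' m i) :=
    Place.prod fun a _ => φ.one.sub (h a i)
  exact GR.flagOf (fun a i => ((h a i).mul (k _ _)).div (k _ _)
    (dA_ne (fun a i => (h' a i).2) _ _)) (ung_ne h') m

open SeqC in
theorem vr_psi {a e : ℤ} {c : ℤ → K} {c' : ℤ → K'} {μ : Sq K} {μ' : Sq K'} (D : Desc n W a e c μ)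
    (D' : Desc n W' a e c' μ') (hc : ∀ l, a + 2 ≤ l → l ≤ e → φ (c l) (c' l)) (hμ : φ.VR μ μ')
    {r : K} {r' : K'} (hr : φ r r') (h : φ.VR y y') : φ.VR (D.psi r y) (D'.psi r' y') := by
  have th : ∀ {y y'}, φ.VR y y' → φ (theta a e c y) (theta a e c' y') := fun k =>
    (k _).add (Place.sum fun l hl =>
      (hc l (Finset.mem_Icc.1 hl).1 (Finset.mem_Icc.1 hl).2).mul (k l))
  have key : ∀ (q : ℤ) (y y'), φ.VR y y' → φ.VR ((st D r ^ q) y) ((st D' r' ^ q) y') := fun q => by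
    induction q using Int.induction_on with
    | zero => exact fun _ _ k => k
    | succ q ih =>
      intro y y' k
      rw [zpow_add_one, zpow_add_one, LinearEquiv.mul_apply, LinearEquiv.mul_apply]
      refine ih _ _ ?_
      rw [st_apply, st_apply]
      exact fun t => (k (t + n)).add (((φ.one.sub hr).mul (th fun s => k (s + n))).mul (hμ t))
    | pred q ih =>
      intro y y' k
      rw [zpow_sub_one, zpow_sub_one, LinearEquiv.mul_apply, LinearEquiv.mul_apply]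
      refine ih _ _ ?_
      rw [st_inv, st_inv]
      exact VR.sh fun t => (k t).sub (((φ.one.sub hr).mul (th k)).mul (hμ t))
  intro t
  obtain ⟨s, q, h1, h2, rfl⟩ := exists_res D.pos (a + 1) t
  rw [psi_eq D r _ q h1 h2, psi_eq D' r' _ q h1 h2]
  exact key q y y' h s

/-- The specialization of a flag is determined by finitely many elements. -/
theorem flag_fin (hn : 0 < n) {I : Finset ℕ} {x : ℕ → Sp K} (hx : Flag n w I x) : ∃ S : Finset K,
    ∀ (K' : Fld k) (φ φ' : Place K K'), (∀ s ∈ S, φ s = φ' s) → ∀ y, Flag n w I y →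
      (∀ i, φ.GR (x i) (y i)) → ∀ i, φ'.GR (x i) (y i) :=
  (Place.flag_fin hn hx.toK).imp fun _ h K' φ φ' e y hy => h K' φ φ' e y hy.toK

/-- A specialization of a flag with tamely relevant top is a flag. -/
theorem flag_of_gr {I : Finset ℕ} {x : ℕ → Sp K} {y : ℕ → Sp K'} (hx : Flag n w I x)
    (h : ∀ i, φ.GR (x i) (y i)) (hy : TRel n w (y w)) : Flag n w I y :=
  .ofK (Place.flag_of_gr hx.toK h hy.1) hy

theorem Flag.stab' {K : Type} [Field K] {I : Finset ℕ} {x : ℕ → Sp K}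
    (hx : Flag n w I x) (i : ℕ) : Stab n (x i) ∧ x i ≤ x w := hx.toK.stab' i

theorem Flag.finite {K : Type} [Field K] {I : Finset ℕ} {x : ℕ → Sp K}
    (hx : Flag n w I x) (i : ℕ) : FiniteDimensional K (x i) := hx.toK.finite i

end Pool.Agent.Lib.MP_fc2ced_ag.T
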