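import Pool.Agent.Lib.MP_fc2ced_ag.T.Clean
import Pool.Agent.Lib.MP_fc2ced_ag.T.Ten

/-! The roofs of flags are compatible with products. -/

open CategoryTheory hiding forget
open Function Polynomial

namespace Pool.Agent.Lib.MP_fc2ced_ag.T

open K

noncomputable section

variable {k : Type} [Field k] {F : Type} [Field F] {χ : Chr k F} {n : ℕ} [Ex n] {w j l : ℕ}
  {I : Finset ℕ} {P : Pt k} {T : PC P}

open Pt Place

namespace ProdAux

/-- The product of two permutations. -/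
def pp (s : Equiv.Perm (Fin j)) (t : Equiv.Perm (Fin l)) : Equiv.Perm (Fin (j + l)) :=
  finSumFinEquiv.permCongr (Equiv.sumCongr s t)

variable {s s' : Equiv.Perm (Fin j)} {t t' : Equiv.Perm (Fin l)}

theorem pp_cast (a : Fin j) : pp s t (Fin.castAdd l a) = Fin.castAdd l (s a) := by simp [pp]

theorem pp_nat (b : Fin l) : pp s t (Fin.natAdd j b) = Fin.natAdd j (t b) := by simp [pp]

theorem pp_symm : (pp s t).symm = pp s.symm t.symm := rfl

theorem pp_inj (h : pp s t = pp s' t') : s = s' ∧ t = t' :=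
  ⟨Equiv.ext fun a => Fin.castAdd_injective _ l (by rw [← pp_cast (t := t), h, pp_cast]),
    Equiv.ext fun b => Fin.natAdd_injective _ j (by rw [← pp_nat (s := s), h, pp_nat])⟩

theorem pp_mem : pp s t ∈ Young (j + l) I ↔ s ∈ Young j (lowI j I) ∧ t ∈ Young l (uppI j I) := by
  refine ⟨fun h => ⟨fun i hi a => ?_, fun i hi b => ?_⟩, fun h i hi a => ?_⟩
  · simpa [pp_cast] using h i (mem_lowI.1 hi).1 (Fin.castAdd l a)
  · simpa [pp_nat] using h _ (mem_uppI.1 hi).1 (Fin.natAdd j b)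
  · refine Fin.addCases (fun a => ?_) (fun b => ?_) a
    · rw [pp_cast, Fin.val_castAdd, Fin.val_castAdd]
      by_cases hi' : i < j
      · exact h.1 i (mem_lowI.2 ⟨hi, hi'⟩) a
      · have := (s a).2
        have := a.2
        omega
    · rw [pp_nat, Fin.val_natAdd, Fin.val_natAdd]
      by_cases hi' : j < i
      · have := h.2 (i - j) (mem_uppI.2 ⟨by rwa [Nat.add_sub_cancel' hi'.le], by omega⟩) b
        omega
      · omega

theorem pp_surj (hj : j ∈ I) {σ : Equiv.Perm (Fin (j + l))} (h : σ ∈ Young (j + l) I) :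
    ∃ s t, pp s t = σ := by
  obtain ⟨g, hg⟩ := Equiv.Perm.mem_sumCongrHom_range_of_perm_mapsTo_inl
    (σ := finSumFinEquiv.symm.permCongr σ) (by
      rintro _ ⟨a, rfl⟩
      have h1 := (h j hj (Fin.castAdd l a)).2 a.2
      refine ⟨⟨_, h1⟩, ?_⟩
      rw [Equiv.permCongr_apply, Equiv.eq_symm_apply]
      rfl)
  refine ⟨g.1, g.2, ?_⟩
  have : Equiv.sumCongr g.1 g.2 = finSumFinEquiv.symm.permCongr σ := hg
  rw [pp, this]
  ext a
  simp

omit [Ex n] in
theorem eps_pp : eps F n (j + l) (pp s t) = eps F n j s * eps F n l t := by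
  have : Equiv.Perm.sign (pp s t) = Equiv.Perm.sign s * Equiv.Perm.sign t := by
    rw [pp, Equiv.Perm.sign_permCongr]
    exact Equiv.Perm.sign_sumCongr s t
  simp [eps, this, mul_pow]

theorem mem_yS {σ : Equiv.Perm (Fin w)} : σ ∈ yS w I ↔ σ ∈ Young w I := by simp [yS]

theorem swap_left (a b : Fin j) :
    Equiv.swap (Fin.castAdd l a) (Fin.castAdd l b) = pp (Equiv.swap a b) 1 := by
  refine Equiv.ext fun c => Fin.addCases (fun c => ?_) (fun c => ?_) c
  · rw [pp_cast, (Fin.castAdd_injective _ l).swap_apply]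
  · have := a.2
    have := b.2
    rw [pp_nat, Equiv.swap_apply_of_ne_of_ne, Equiv.Perm.one_apply] <;>
      exact Fin.ne_of_val_ne (by rw [Fin.val_natAdd, Fin.val_castAdd]; omega)

theorem swap_right (a b : Fin l) :
    Equiv.swap (Fin.natAdd j a) (Fin.natAdd j b) = pp 1 (Equiv.swap a b) := by
  refine Equiv.ext fun c => Fin.addCases (fun c => ?_) (fun c => ?_) c
  · have := c.2
    rw [pp_cast, Equiv.swap_apply_of_ne_of_ne, Equiv.Perm.one_apply] <;>
      exact Fin.ne_of_val_ne (by rw [Fin.val_natAdd, Fin.val_castAdd]; omega)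
  · rw [pp_nat, (Fin.natAdd_injective _ j).swap_apply]

theorem uiso_spA (T : PC P) : UIso (ov χ (Av k n (j + l)) ((Av k n j).ten j (Av k n l)) T
    fun _ x => (fun a => x (Fin.castAdd l a), fun b => x (Fin.natAdd j b))) := by
  refine (pmap_splitA.ov_bij (fun _ c c' p h => ?_) (fun _ x h => ⟨fun a => h _, fun b => h _⟩)
    (fun _ x x' _ _ e => funext fun a => ?_)
    fun _ y h => ⟨Fin.addCases y.1 y.2, fun a => ?_, ?_⟩).uiso
  · rw [show c = c' from funext fun m => h m trivial]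
    exact id
  · exact Fin.addCases (fun a => congrFun (congrArg Prod.fst e) a)
      (fun a => congrFun (congrArg Prod.snd e) a) a
  · refine Fin.addCases (fun a => ?_) (fun a => ?_) a
    · simp only [Fin.addCases_left]; exact h.1 a
    · simp only [Fin.addCases_right]; exact h.2 a
  · simp only [Fin.addCases_left, Fin.addCases_right]

section
variable (hI : I ⊆ Finset.Ioo 0 (j + l)) (hj : j ∈ I)
include hI hj

theorem pos : 0 < j ∧ 0 < l := by
  have := Finset.mem_Ioo.1 (hI hj)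
  omega

theorem pmap_sp : PMap (Zv k n (j + l) (Finset.Ioo 0 (j + l)))
    ((Zv k n j (Finset.Ioo 0 j)).ten j (Zv k n l (Finset.Ioo 0 l))) (JI (j + l) I)
    fun _ x => (low j x, upp n j x) := by
  have := pmap_split (k := k) (n := n) (Finset.Subset.refl _) (hI hj)
  rw [lowI_full (pos hI hj).2, uppI_full (pos hI hj).1] at this
  exact this.mono (JI_mono hI)

omit [Ex n] in
theorem live_sp {K : Fld k} {x : ℕ → Sp K} (h : Flag n (j + l) (Finset.Ioo 0 (j + l)) x) :
    (Flag n j (Finset.Ioo 0 j) (low j x) ∧ Flag n l (Finset.Ioo 0 l) (upp n j x)) ↔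
      TRel n j (x j) := by
  have h1 := h.low_iff (Finset.Subset.refl _) (hI hj)
  have h2 := h.upp_flag (Finset.Subset.refl _) (hI hj)
  rw [lowI_full (pos hI hj).2] at h1
  rw [uppI_full (pos hI hj).1] at h2
  exact ⟨fun a => h1.1 a.1, fun a => ⟨h1.2 a, h2 a⟩⟩

variable (hT : T.Dep (JI (j + l) I))
include hT

theorem sq₁ : ov χ (Zv k n (j + l) (Finset.Ioo 0 (j + l)))
      ((Zv k n j (Finset.Ioo 0 j)).ten j (Zv k n l (Finset.Ioo 0 l))) T
        (fun _ x => (low j x, upp n j x)) ≫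
      ov χ ((Zv k n j (Finset.Ioo 0 j)).ten j (Zv k n l (Finset.Ioo 0 l)))
        ((Av k n j).ten j (Av k n l)) T (fun _ x => (jmap n j x.1, jmap n l x.2)) =
    ov χ (Zv k n (j + l) (Finset.Ioo 0 (j + l))) (Av k n (j + l)) T (fun _ x => jmap n (j + l) x) ≫
      ov χ (Av k n (j + l)) ((Av k n j).ten j (Av k n l)) T
        fun _ x => (fun a => x (Fin.castAdd l a), fun b => x (Fin.natAdd j b)) := by
  obtain ⟨p1, p2⟩ := pos hI hj
  refine PMap.ov_comm (pmap_sp hI hj)
    (((pmap_jmap.mono (JI_mono (lowI_subset hI))).ten (pmap_jmap.mono (JI_mono (uppI_subset hI)))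
      (Or.inr rfl)).mono (JI_add hI hj)) (pmap_jmap.mono (JI_mono hI))
    (pmap_splitA.mono (Set.subset_univ _)) hT (fun K x hx => ⟨fun a => ?_, fun a => ?_⟩)
    fun K x hx _ a => ?_
  · have := (jmap_live_iff hx).2 ((Flag.allRel_split p1 p2 hx).2
      ⟨(jmap_live_iff a.1.1).1 a.2.1, (jmap_live_iff a.1.2).1 a.2.2⟩)
    exact ⟨this, fun a => this _, fun a => this _⟩
  · have h1 := (jmap_live_iff hx).1 a.1
    have h2 := (live_sp hI hj hx).2 (h1 j (Nat.le_add_right _ _))
    have h3 := (Flag.allRel_split p1 p2 hx).1 h1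
    exact ⟨h2, (jmap_live_iff h2.1).2 h3.1, (jmap_live_iff h2.2).2 h3.2⟩
  · have := Flag.jmap_split p1 p2 hx ((jmap_live_iff hx).1 a)
    exact Prod.ext (funext this.1) (funext this.2)

theorem sq₂ : ov χ (Zv k n (j + l) (Finset.Ioo 0 (j + l)))
      ((Zv k n j (Finset.Ioo 0 j)).ten j (Zv k n l (Finset.Ioo 0 l))) T
        (fun _ x => (low j x, upp n j x)) ≫
      ov χ ((Zv k n j (Finset.Ioo 0 j)).ten j (Zv k n l (Finset.Ioo 0 l)))
        ((Zv k n j (lowI j I)).ten j (Zv k n l (uppI j I))) T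
        (fun _ x => (forget j (lowI j I) x.1, forget l (uppI j I) x.2)) =
    ov χ (Zv k n (j + l) (Finset.Ioo 0 (j + l))) (Zv k n (j + l) I) T
        (fun _ x => forget (j + l) I x) ≫
      ov χ (Zv k n (j + l) I) ((Zv k n j (lowI j I)).ten j (Zv k n l (uppI j I))) T
        fun _ x => (low j x, upp n j x) := by
  have he : ∀ {K : Fld k} (x : ℕ → Sp K), (forget j (lowI j I) (low j x),
      forget l (uppI j I) (upp n j x)) =
      (low j (forget (j + l) I x), upp n j (forget (j + l) I x)) :=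
    fun x => Prod.ext (low_forget hI hj).symm (upp_forget hI hj).symm
  refine PMap.ov_comm (pmap_sp hI hj)
    (((pmap_forget (lowI_subset hI)).ten (pmap_forget (uppI_subset hI))
      (Or.inr rfl)).mono (JI_add hI hj)) (pmap_forget hI) (pmap_split hI hj) hT
    (fun K x hx => ⟨fun a => ⟨Flag.forget_flag hx hI, he x ▸ a.2⟩, fun a => ⟨?_, (he x).symm ▸ a.2⟩⟩)
    fun K x _ _ _ => he x
  have := (Flag.low_iff hI hj a.1).1 a.2.1
  rw [forget_of_mem hj] at this
  exact (live_sp hI hj hx).2 this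

theorem sq₃ (hs : s ∈ Young j (lowI j I)) (ht : t ∈ Young l (uppI j I)) :
    ov χ (Av k n (j + l)) (Av k n (j + l)) T (pm (pp s t)) ≫
      ov χ (Av k n (j + l)) ((Av k n j).ten j (Av k n l)) T
        (fun _ x => (fun a => x (Fin.castAdd l a), fun b => x (Fin.natAdd j b))) =
    ov χ (Av k n (j + l)) ((Av k n j).ten j (Av k n l)) T
        (fun _ x => (fun a => x (Fin.castAdd l a), fun b => x (Fin.natAdd j b))) ≫
      ov χ ((Av k n j).ten j (Av k n l)) ((Av k n j).ten j (Av k n l)) T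
        fun _ x => (pm s x.1, pm t x.2) := by
  refine PMap.ov_comm (pend_pm (pp_mem.2 ⟨hs, ht⟩)).toPMap (pmap_splitA.mono (Set.subset_univ _))
    (pmap_splitA.mono (Set.subset_univ _))
    (((pend_pm hs).toPMap.ten (pend_pm ht).toPMap (Or.inr rfl)).mono (JI_add hI hj)) hT
    (fun K x hx => iff_of_true ⟨fun _ => hx _, fun _ => hx _, fun _ => hx _⟩
      ⟨⟨fun _ => hx _, fun _ => hx _⟩, fun _ => hx _, fun _ => hx _⟩) fun K x _ _ _ => ?_
  refine Prod.ext (funext fun a => ?_) (funext fun a => ?_)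
  · simp only [pm, pp_symm, pp_cast]
  · simp only [pm, pp_symm, pp_nat]

end

theorem uu_full (hχ : χ.Gen n) : ∀ w ≤ n + 1, UU χ (Zv k n w (Finset.Ioo 0 w)) (Av k n w)
    (JI w (Finset.Ioo 0 w)) fun _ x => jmap n w x := by
  intro w
  induction w using Nat.strong_induction_on with
  | _ w ih =>
  intro hw P T hT
  by_cases h1 : w ≤ 1
  · have ar : ∀ {K : Fld k} {x : ℕ → Sp K}, Flag n w (Finset.Ioo 0 w) x → AllRel n w x := by
      intro K x h i hi
      by_cases e : i = w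
      · exact e ▸ h.trel
      · obtain rfl : i = 0 := by omega
        rw [h.bot 0 (by simp) e]
        exact trel_zero_iff.2 rfl
    refine (pmap_jmap.ov_bij hT (fun _ x h => (jmap_live_iff h).2 (ar h))
      (fun _ x x' h h' e => ?_) fun _ y h => ?_).uiso
    · rw [← (Flag.jmap_spec h (ar h)).2, ← (Flag.jmap_spec h' (ar h')).2]
      exact congrArg flagOf e
    · have := flagOf_flag (x := y) fun a => (h a).2
      exact ⟨flagOf y, this.1, this.2.2⟩
  · obtain ⟨l, rfl⟩ : ∃ l, w = 1 + l := ⟨w - 1, by omega⟩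
    have hj : 1 ∈ Finset.Ioo 0 (1 + l) := Finset.mem_Ioo.2 (by omega)
    refine (uiso_spA T).of_comp_right ?_
    rw [← sq₁ (Finset.Subset.refl _) hj hT]
    have h2 := uu_split (k := k) hχ (Finset.Subset.refl _) hj
    have h3 := hT.mono (JI_add (Finset.Subset.refl _) hj)
    rw [lowI_full (by omega), uppI_full one_pos] at h2 h3
    exact (h2 P T hT).comp (UU.ten pmap_jmap pmap_jmap (Or.inr rfl) (ih 1 (by omega) (by omega))
      (ih l (by omega) (by omega)) P T h3)

end ProdAux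

open ProdAux

theorem isRoof (hχ : χ.Gen n) (hw : w ≤ n + 1) (hI : I ⊆ Finset.Ioo 0 w) :
    IsRoof χ (JI w I) (Av k n w) (Zv k n w (Finset.Ioo 0 w)) (Zv k n w I) (fun _ x => jmap n w x)
      fun _ x => forget w I x :=
  ⟨pmap_jmap.mono (JI_mono hI), pmap_forget hI, fun _ _ h => Flag.forget_flag h hI,
    fun P T hT => uu_full hχ w hw P T (hT.mono (JI_mono hI))⟩

theorem Ha.mono (hχ : χ.Gen n) (hw : w ≤ n + 1) {I' : Finset ℕ} (hI : I ⊆ I')
    (hI' : I' ⊆ Finset.Ioo 0 w) {σ : Equiv.Perm (Fin w)} (h : Ha χ n w I' σ) : Ha χ n w I σ := by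
  intro P T hT
  rw [← ((pmap_forget hI').mono (JI_mono hI)).ov_comp (pmap_forget hI) hT
    (pmap_forget (hI.trans hI')) (fun _ _ h _ => Flag.forget_flag h hI')
    fun _ _ _ _ => forget_forget hI]
  exact (h P T (hT.mono (JI_mono hI))).postcomp ((isRoof hχ hw (hI.trans hI')).uiso P T hT) _

section
variable (hχ : χ.Gen n) (hw : j + l ≤ n + 1) (hI : I ⊆ Finset.Ioo 0 (j + l)) (hj : j ∈ I)
include hχ hw hI hj

theorem ProdAux.roof : IsRoof χ (addJ j (JI j (lowI j I)) (JI l (uppI j I)))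
    ((Av k n j).ten j (Av k n l)) ((Zv k n j (Finset.Ioo 0 j)).ten j (Zv k n l (Finset.Ioo 0 l)))
    ((Zv k n j (lowI j I)).ten j (Zv k n l (uppI j I))) (fun _ x => (jmap n j x.1, jmap n l x.2))
    fun _ x => (forget j (lowI j I) x.1, forget l (uppI j I) x.2) :=
  have _ := hj
  (isRoof hχ (by omega) (lowI_subset hI)).ten (isRoof hχ (by omega) (uppI_subset hI)) (Or.inr rfl)

theorem ProdAux.ha {s : Equiv.Perm (Fin j)} {t : Equiv.Perm (Fin l)} (hs : s ∈ Young j (lowI j I))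
    (ht : t ∈ Young l (uppI j I))
    (h : UKills χ (addJ j (JI j (lowI j I)) (JI l (uppI j I))) ((Av k n j).ten j (Av k n l))
      ((Zv k n j (Finset.Ioo 0 j)).ten j (Zv k n l (Finset.Ioo 0 l)))
      ((Zv k n j (lowI j I)).ten j (Zv k n l (uppI j I))) (fun _ x => (jmap n j x.1, jmap n l x.2))
      (fun _ x => (forget j (lowI j I) x.1, forget l (uppI j I) x.2))
      (fun _ x => (pm s x.1, pm t x.2)) (eps F n j s * eps F n l t)) :
    Ha χ n (j + l) I (pp s t) := by
  intro P T hT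
  have hT' := hT.mono (JI_add hI hj)
  refine Kills.of_postcomp (uu_split hχ hI hj P T hT) ?_
  rw [← Kills.of_map ((isRoof hχ hw hI).uiso P T hT) ((ProdAux.roof hχ hw hI hj).uiso P T hT')
    (sq₁ hI hj hT) (sq₂ hI hj hT), Preadditive.sub_comp, sq₃ hI hj hT hs ht, eps_pp,
    Linear.smul_comp, Category.id_comp]
  have := (h P T hT').precomp (ov χ (Av k n (j + l)) ((Av k n j).ten j (Av k n l)) T
    fun _ x => (fun a => x (Fin.castAdd l a), fun b => x (Fin.natAdd j b)))
  rwa [Preadditive.comp_sub, Linear.comp_smul, Category.comp_id] at this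

theorem Ha.left {a b : Fin j} (hab : a ≠ b) (hs : Equiv.swap a b ∈ Young j (lowI j I))
    (h : Ha χ n j (lowI j I) (Equiv.swap a b)) :
    Ha χ n (j + l) I (Equiv.swap (Fin.castAdd l a) (Fin.castAdd l b)) := by
  have _ := hab
  rw [swap_left]
  refine ProdAux.ha hχ hw hI hj hs (one_mem _) ?_
  rw [map_one, mul_one]
  exact UKills.ten_left (isRoof hχ (by omega) (lowI_subset hI))
    (isRoof hχ (by omega) (uppI_subset hI)) (Or.inr rfl) (pend_pm hs) h

theorem Ha.right {a b : Fin l} (hab : a ≠ b) (hs : Equiv.swap a b ∈ Young l (uppI j I))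
    (h : Ha χ n l (uppI j I) (Equiv.swap a b)) :
    Ha χ n (j + l) I (Equiv.swap (Fin.natAdd j a) (Fin.natAdd j b)) := by
  have _ := hab
  rw [swap_right]
  refine ProdAux.ha hχ hw hI hj (one_mem _) hs ?_
  rw [map_one, one_mul]
  exact UKills.ten_right (isRoof hχ (by omega) (lowI_subset hI))
    (isRoof hχ (by omega) (uppI_subset hI)) (Or.inr rfl) (pend_pm hs) h

theorem Hb.prod [CharZero F] (h : Hb χ n j (lowI j I)) (h' : Hb χ n l (uppI j I)) :
    Hb χ n (j + l) I := by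
  intro P T hT
  have hT' := hT.mono (JI_add hI hj)
  have m1 : ∀ g ∈ yS j (lowI j I) ×ˢ yS l (uppI j I), pp g.1 g.2 ∈ yS (j + l) I := fun g hg =>
    mem_yS.2 (pp_mem.2 ⟨mem_yS.1 (Finset.mem_product.1 hg).1, mem_yS.1 (Finset.mem_product.1 hg).2⟩)
  have m2 : ∀ g ∈ yS j (lowI j I) ×ˢ yS l (uppI j I), ∀ g' ∈ yS j (lowI j I) ×ˢ yS l (uppI j I),
      pp g.1 g.2 = pp g'.1 g'.2 → g = g' := fun g _ g' _ e => Prod.ext (pp_inj e).1 (pp_inj e).2
  have m3 : ∀ σ ∈ yS (j + l) I, ∃ g, ∃ _ : g ∈ yS j (lowI j I) ×ˢ yS l (uppI j I),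
      pp g.1 g.2 = σ := by
    intro σ hσ
    obtain ⟨s, t, rfl⟩ := pp_surj hj (mem_yS.1 hσ)
    have := pp_mem.1 (mem_yS.1 hσ)
    exact ⟨(s, t), Finset.mem_product.2 ⟨mem_yS.2 this.1, mem_yS.2 this.2⟩, rfl⟩
  have hc : Nat.card (Young (j + l) I) =
      Nat.card (Young j (lowI j I)) * Nat.card (Young l (uppI j I)) := by
    rw [Nat.subtype_card _ fun _ => mem_yS, Nat.subtype_card _ fun _ => mem_yS,
      Nat.subtype_card _ fun _ => mem_yS, ← Finset.card_product]
    exact (Finset.card_bij (fun g _ => pp g.1 g.2) m1 m2 m3).symm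
  refine (Quo.uiso_iff ((isRoof hχ hw hI).uiso P T hT) ((ProdAux.roof hχ hw hI hj).uiso P T hT')
    (sq₁ hI hj hT) (sq₂ hI hj hT) (uiso_spA T) (uu_split hχ hI hj P T hT) ?_).2
    (UQuo.ten (isRoof hχ (by omega) (lowI_subset hI)) (isRoof hχ (by omega) (uppI_subset hI))
      (Or.inr rfl) (fun _ hg => pend_pm (mem_yS.1 hg)) (fun _ hg => pend_pm (mem_yS.1 hg))
      h h' P T hT')
  rw [Preadditive.sum_comp, Preadditive.comp_sum]
  refine (Finset.sum_bij (fun g _ => pp g.1 g.2) m1 m2 m3 fun g hg => ?_).symm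
  rw [Linear.smul_comp, Linear.comp_smul, sq₃ hI hj hT (mem_yS.1 (Finset.mem_product.1 hg).1)
    (mem_yS.1 (Finset.mem_product.1 hg).2)]
  congr 1
  simp only [yR, hc, eps_pp, Nat.cast_mul, mul_inv]
  ring

end

end

end Pool.Agent.Lib.MP_fc2ced_ag.T
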