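import Pool.Agent.Lib.MP_fc2ced_ag.T.Van

/-! Blocks: families of invertible matrices `[[A, B], [-C, D]]` with determinant `e₁ e₂` and an
involution that exchanges `B` and `C`. -/

open CategoryTheory Function

namespace Pool.Agent.Lib.MP_fc2ced_ag.T

open K

noncomputable section

variable {k : Type} [Field k] {F : Type} [Field F]

open Pt

variable (k) in
/-- A block. -/
structure Blk where
  S : Pt k
  A : ∀ ⦃K⦄, S.X K → K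
  B : ∀ ⦃K⦄, S.X K → K
  C : ∀ ⦃K⦄, S.X K → K
  D : ∀ ⦃K⦄, S.X K → K
  e₁ : ∀ ⦃K⦄, S.X K → K
  e₂ : ∀ ⦃K⦄, S.X K → K
  ι : ∀ ⦃K⦄, S.X K → S.X K
  rA : S.RegF A
  rB : S.RegF B
  rC : S.RegF C
  rD : S.RegF D
  r₁ : S.RegF e₁
  r₂ : S.RegF e₂
  n₁ : ∀ ⦃K⦄ (x : S.X K), S.L x → e₁ x ≠ 0
  n₂ : ∀ ⦃K⦄ (x : S.X K), S.L x → e₂ x ≠ 0
  det : ∀ ⦃K⦄ (x : S.X K), S.L x → A x * D x + B x * C x = e₁ x * e₂ x
  reg : S.Reg S ι
  inv : ∀ ⦃K⦄ (x : S.X K), S.L x → ι (ι x) = x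
  fι : ∀ ⦃K⦄ (x : S.X K), S.L x → S.f (ι x) = S.f x
  Aι : ∀ ⦃K⦄ (x : S.X K), S.L x → A (ι x) = A x
  Bι : ∀ ⦃K⦄ (x : S.X K), S.L x → B (ι x) = C x
  Cι : ∀ ⦃K⦄ (x : S.X K), S.L x → C (ι x) = B x
  Dι : ∀ ⦃K⦄ (x : S.X K), S.L x → D (ι x) = D x
  ι₁ : ∀ ⦃K⦄ (x : S.X K), S.L x → e₁ (ι x) = e₁ x
  ι₂ : ∀ ⦃K⦄ (x : S.X K), S.L x → e₂ (ι x) = e₂ x

variable (k) in
/-- A space of parameters with two regular functions. -/
structure Par where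
  P : Pt k
  X : ∀ ⦃K⦄, P.X K → K
  Y : ∀ ⦃K⦄, P.X K → K
  rX : P.RegF X
  rY : P.RegF Y

namespace Blk

variable (b : Blk k) (s t : ℤ) (P : Par k)

/-- The fibre product over the invariants `A / e₁` and `D / e₂`, with the function twisted by
`(e₁ / e₂) ^ s`. -/
@[reducible] def tot : Pt k :=
  ((b.S.prod P.P).restr (fun _ m => b.A m.1 = P.X m.2 * b.e₁ m.1 ∧ b.D m.1 = P.Y m.2 * b.e₂ m.1)
    (((reg_fst.regF b.rA).eq ((reg_snd.regF P.rX).mul (reg_fst.regF b.r₁))).and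
      ((reg_fst.regF b.rD).eq ((reg_snd.regF P.rY).mul (reg_fst.regF b.r₂)))).conv).withF
    (fun _ m => b.S.f m.1 * (b.e₁ m.1 / b.e₂ m.1) ^ s * P.P.f m.2)
    (fun _ _ φ _ _ h h' r => ((b.S.reg φ _ _ h.1.1 h'.1.1 r.1).mul (rel_zpow
      ((b.r₁ φ _ _ h.1.1 h'.1.1 r.1).div (b.r₂ φ _ _ h.1.1 h'.1.1 r.1) (b.n₂ _ h'.1.1))
      (div_ne_zero (b.n₁ _ h'.1.1) (b.n₂ _ h'.1.1)) s)).mul (P.P.reg φ _ _ h.1.2 h'.1.2 r.2))
    fun _ _ h => mul_ne_zero (mul_ne_zero (b.S.ne _ h.1.1)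
      (zpow_ne_zero _ (div_ne_zero (b.n₁ _ h.1.1) (b.n₂ _ h.1.1)))) (P.P.ne _ h.1.2)

theorem tot_fst : (b.tot s P).Reg b.S fun _ m => m.1 :=
  ⟨fun _ _ h => h.1.1, fun _ _ _ _ _ _ _ r => r.1⟩

theorem tot_snd : (b.tot s P).Reg P.P fun _ m => m.2 :=
  ⟨fun _ _ h => h.1.2, fun _ _ _ _ _ _ _ r => r.2⟩

/-- The involution of the fibre product. -/
def totI ⦃K : Fld k⦄ (m : b.S.X K × P.P.X K) : b.S.X K × P.P.X K := (b.ι m.1, m.2)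

theorem totI_reg : (b.tot s P).Reg (b.tot s P) (b.totI P) :=
  ⟨fun _ _ h => ⟨⟨b.reg.live _ h.1.1, h.1.2⟩,
      (b.Aι _ h.1.1).trans (h.2.1.trans (congrArg _ (b.ι₁ _ h.1.1).symm)),
      (b.Dι _ h.1.1).trans (h.2.2.trans (congrArg _ (b.ι₂ _ h.1.1).symm))⟩,
    fun _ _ φ _ _ h h' r => ⟨b.reg.reg φ _ _ h.1.1 h'.1.1 r.1, r.2⟩⟩

theorem totI_inv ⦃K : Fld k⦄ (m : (b.tot s P).X K) (h : (b.tot s P).L m) :
    b.totI P (b.totI P m) = m := Prod.ext (b.inv _ h.1.1) rfl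

theorem totI_f ⦃K : Fld k⦄ (m : (b.tot s P).X K) (h : (b.tot s P).L m) :
    (b.tot s P).f (b.totI P m) = (b.tot s P).f m := by
  change b.S.f (b.ι m.1) * (b.e₁ (b.ι m.1) / b.e₂ (b.ι m.1)) ^ s * _ = _
  rw [b.fι _ h.1.1, b.ι₁ _ h.1.1, b.ι₂ _ h.1.1]
  rfl

theorem totI_map : IsMap (b.tot s P) (b.tot s P) (b.totI P) :=
  .of_inv (b.totI_reg s P) (b.totI_reg s P) (b.totI_f s P) (b.totI_inv s P)

theorem closedB : (b.tot s P).Closed fun _ m => b.B m.1 = 0 :=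
  ((b.tot_fst s P).regF b.rB).eq regF_zero

theorem closedBC : (b.tot s P).Closed fun _ m => b.B m.1 = 0 ∧ b.C m.1 = 0 :=
  (b.closedB s P).and (((b.tot_fst s P).regF b.rC).eq regF_zero)

/-- The involution acts as `c` on all fibre products. -/
def Claim (χ : Chr k F) (c : F) : Prop := ∀ P : Par k, (b.tot s P).Acts χ (b.totI P) c

/-- The involution acts as `c` on the part where `B = C = 0`. -/
def Small (χ : Chr k F) (c : F) : Prop :=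
  ∀ P : Par k, ((b.tot s P).restr _ (b.closedBC s P).conv).Acts χ (b.totI P) c

/-- The part where `B = 0` is negligible. -/
def Half (χ : Chr k F) : Prop :=
  ∀ P : Par k, UZero (((b.tot s P).restr _ (b.closedB s P).conv).E χ)

/-- The points `((u, v), x)` with `u, v` nonzero, and the function `(u v) ^ t * f`. -/
@[reducible] def stepS : Pt k :=
  (((gm k).prod (gm k)).prod b.S).withF (fun _ x => (x.1.1 * x.1.2) ^ t * b.S.f x.2)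
    (fun _ _ φ _ _ h h' r => (rel_zpow (r.1.1.mul r.1.2) (mul_ne_zero h'.1.1.2 h'.1.2.2) t).mul
      (b.S.reg φ _ _ h.2 h'.2 r.2))
    fun _ _ h => mul_ne_zero (zpow_ne_zero _ (mul_ne_zero h.1.1.2 h.1.2.2)) (b.S.ne _ h.2)

/-- The next block. -/
@[reducible] def step : Blk k where
  S := b.stepS t
  A _ x := b.A x.2 - b.C x.2 * x.1.1 - b.B x.2 * x.1.2 - b.D x.2 * (x.1.1 * x.1.2)
  B _ x := b.A x.2 - b.C x.2 * x.1.1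
  C _ x := b.A x.2 - b.B x.2 * x.1.2
  D _ x := -b.A x.2
  e₁ _ x := x.1.1 * x.1.2 * b.e₂ x.2
  e₂ _ x := b.e₁ x.2
  ι _ x := ((x.1.2, x.1.1), b.ι x.2)
  rA _ _ φ _ _ h h' r := (((b.rA φ _ _ h.2 h'.2 r.2).sub ((b.rC φ _ _ h.2 h'.2 r.2).mul r.1.1)).sub
    ((b.rB φ _ _ h.2 h'.2 r.2).mul r.1.2)).sub ((b.rD φ _ _ h.2 h'.2 r.2).mul (r.1.1.mul r.1.2))
  rB _ _ φ _ _ h h' r := (b.rA φ _ _ h.2 h'.2 r.2).sub ((b.rC φ _ _ h.2 h'.2 r.2).mul r.1.1)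
  rC _ _ φ _ _ h h' r := (b.rA φ _ _ h.2 h'.2 r.2).sub ((b.rB φ _ _ h.2 h'.2 r.2).mul r.1.2)
  rD _ _ φ _ _ h h' r := (b.rA φ _ _ h.2 h'.2 r.2).neg
  r₁ _ _ φ _ _ h h' r := (r.1.1.mul r.1.2).mul (b.r₂ φ _ _ h.2 h'.2 r.2)
  r₂ _ _ φ _ _ h h' r := b.r₁ φ _ _ h.2 h'.2 r.2
  n₁ _ _ h := mul_ne_zero (mul_ne_zero h.1.1.2 h.1.2.2) (b.n₂ _ h.2)
  n₂ _ _ h := b.n₁ _ h.2
  det _ x h := by linear_combination (x.1.1 * x.1.2) * b.det _ h.2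
  reg := ⟨fun _ _ h => ⟨⟨h.1.2, h.1.1⟩, b.reg.live _ h.2⟩,
    fun _ _ φ _ _ h h' r => ⟨⟨r.1.2, r.1.1⟩, b.reg.reg φ _ _ h.2 h'.2 r.2⟩⟩
  inv _ _ h := Prod.ext rfl (b.inv _ h.2)
  fι _ x h := by
    change (x.1.2 * x.1.1) ^ t * b.S.f (b.ι x.2) = (x.1.1 * x.1.2) ^ t * b.S.f x.2
    rw [b.fι _ h.2, mul_comm x.1.2]
  Aι _ x h := by
    dsimp only
    rw [b.Aι _ h.2, b.Bι _ h.2, b.Cι _ h.2, b.Dι _ h.2]
    ring
  Bι _ x h := by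
    dsimp only
    rw [b.Aι _ h.2, b.Cι _ h.2]
  Cι _ x h := by
    dsimp only
    rw [b.Aι _ h.2, b.Bι _ h.2]
  Dι _ x h := congrArg _ (b.Aι _ h.2)
  ι₁ _ x h := by
    dsimp only
    rw [b.ι₂ _ h.2, mul_comm x.1.2]
  ι₂ _ x h := b.ι₁ _ h.2

theorem closedM : ((b.step t).tot s P).Closed fun _ m => b.B m.1.2 * b.C m.1.2 = 0 :=
  fun _ _ φ _ _ h h' r e => ((b.rB φ _ _ h.1.1.2 h'.1.1.2 r.1.2).mul
    (b.rC φ _ _ h.1.1.2 h'.1.1.2 r.1.2)).eq_of φ.zero e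

/-- The part of the next block where `B C = 0` in the inner block. -/
@[reducible] def deg : Pt k := ((b.step t).tot s P).restr _ (b.closedM s t P).conv

theorem closedK : (b.deg s t P).Closed fun _ m => b.D m.1.2 + P.X m.2 * b.e₂ m.1.2 = 0 :=
  fun _ _ φ _ _ h h' r e => ((b.rD φ _ _ h.1.1.1.2 h'.1.1.1.2 r.1.2).add
    ((P.rX φ _ _ h.1.1.2 h'.1.1.2 r.2).mul (b.r₂ φ _ _ h.1.1.1.2 h'.1.1.1.2 r.1.2))).eq_of φ.zero e

end Blk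

/-- Transport of an action along an isomorphism. -/
theorem Pt.Acts.of_iso {χ : Chr k F} {S S' : Pt k} {e : ∀ ⦃K⦄, S.X K → S'.X K}
    {g : ∀ ⦃K⦄, S'.X K → S.X K} {a : ∀ ⦃K⦄, S.X K → S.X K} {a' : ∀ ⦃K⦄, S'.X K → S'.X K} {c : F}
    (he : S.Reg S' e) (hg : S'.Reg S g) (f : ∀ ⦃K⦄ (x : S.X K), S.L x → S'.f (e x) = S.f x)
    (l : ∀ ⦃K⦄ (x : S.X K), S.L x → g (e x) = x) (r : ∀ ⦃K⦄ (y : S'.X K), S'.L y → e (g y) = y)
    (ha : IsMap S S a) (la : ∀ ⦃K⦄ (x : S.X K), S.L x → S.L (a x))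
    (h : ∀ ⦃K⦄ (x : S.X K), S.L x → e (a x) = a' (e x)) (H : S'.Acts χ a' c) : S.Acts χ a c :=
  have m := IsMap.of_inv he hg f l
  .of_uiso m (m.bij he.live (fun _ x x' hx hx' q => by rw [← l x hx, q, l x' hx'])
    fun _ y hy => ⟨g y, hg.live y hy, r y hy⟩).uiso ha H la
    (fun _ x hx => iff_of_true (he.live _ (la x hx))
      ⟨he.live x hx, h x hx ▸ he.live _ (la x hx)⟩) fun _ x hx _ => h x hx

/-- Transport of vanishing along an isomorphism. -/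
theorem Pt.uzero_of_iso {χ : Chr k F} {S S' : Pt k} {e : ∀ ⦃K⦄, S.X K → S'.X K}
    {g : ∀ ⦃K⦄, S'.X K → S.X K} (he : S.Reg S' e) (hg : S'.Reg S g)
    (f : ∀ ⦃K⦄ (x : S.X K), S.L x → S'.f (e x) = S.f x)
    (l : ∀ ⦃K⦄ (x : S.X K), S.L x → g (e x) = x) (r : ∀ ⦃K⦄ (y : S'.X K), S'.L y → e (g y) = y)
    (H : UZero (S'.E χ)) : UZero (S.E χ) :=
  ((IsMap.of_inv he hg f l).bij he.live (fun _ x x' hx hx' q => by rw [← l x hx, q, l x' hx'])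
    fun _ y hy => ⟨g y, hg.live y hy, r y hy⟩).uiso.uzero_iff.2 H

/-- Transport along an isomorphism of blocks. -/
theorem Blk.of_iso {b b' : Blk k} {χ : Chr k F} {e : ∀ ⦃K⦄, b'.S.X K → b.S.X K}
    {e' : ∀ ⦃K⦄, b.S.X K → b'.S.X K} (h : b'.S.Reg b.S e) (h' : b.S.Reg b'.S e')
    (l : ∀ ⦃K⦄ (x : b'.S.X K), b'.S.L x → e' (e x) = x ∧ b.S.f (e x) = b'.S.f x ∧
      e (b'.ι x) = b.ι (e x) ∧ b.A (e x) = b'.A x ∧ b.B (e x) = b'.B x ∧ b.C (e x) = b'.C x ∧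
      b.D (e x) = b'.D x ∧ b.e₁ (e x) = b'.e₁ x ∧ b.e₂ (e x) = b'.e₂ x)
    (r : ∀ ⦃K⦄ (x : b.S.X K), b.S.L x → e (e' x) = x) (s : ℤ) (c c' : F) :
    b.Claim s χ c ∧ b.Small s χ c' ∧ b.Half s χ →
      b'.Claim s χ c ∧ b'.Small s χ c' ∧ b'.Half s χ := by
  rintro ⟨H₁, H₂, H₃⟩
  have g : ∀ ⦃K⦄ (x : b.S.X K), b.S.L x → b'.A (e' x) = b.A x ∧ b'.B (e' x) = b.B x ∧
      b'.C (e' x) = b.C x ∧ b'.D (e' x) = b.D x ∧ b'.e₁ (e' x) = b.e₁ x ∧ b'.e₂ (e' x) = b.e₂ x :=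
    fun _ x hx => by
      obtain ⟨-, -, -, a1, a2, a3, a4, a5, a6⟩ := l _ (h'.live x hx)
      rw [← a1, ← a2, ← a3, ← a4, ← a5, ← a6, r x hx]
      exact ⟨rfl, rfl, rfl, rfl, rfl, rfl⟩
  have p (P : Par k) : (b'.tot s P).Reg (b.tot s P) fun _ m => (e m.1, m.2) :=
    ⟨fun _ m hm => ⟨⟨h.live _ hm.1.1, hm.1.2⟩, by simpa only [l _ hm.1.1] using hm.2⟩,
      fun _ _ φ _ _ a a' q => ⟨h.reg φ _ _ a.1.1 a'.1.1 q.1, q.2⟩⟩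
  have p' (P : Par k) : (b.tot s P).Reg (b'.tot s P) fun _ m => (e' m.1, m.2) :=
    ⟨fun _ m hm => ⟨⟨h'.live _ hm.1.1, hm.1.2⟩, by simpa only [g _ hm.1.1] using hm.2⟩,
      fun _ _ φ _ _ a a' q => ⟨h'.reg φ _ _ a.1.1 a'.1.1 q.1, q.2⟩⟩
  have f (P : Par k) ⦃K : Fld k⦄ (m : (b'.tot s P).X K) (hm : (b'.tot s P).L m) :
      (b.tot s P).f (e m.1, m.2) = (b'.tot s P).f m := by simp only [l _ hm.1.1]
  refine ⟨fun P => Acts.of_iso (S' := b.tot s P) (a' := fun _ m => b.totI P m) (p P) (p' P) (f P) (fun _ m hm => Prod.ext (l _ hm.1.1).1 rfl)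
      (fun _ m hm => Prod.ext (r _ hm.1.1) rfl) (b'.totI_map s P) (b'.totI_reg s P).live
      (fun _ m hm => congrArg (·, m.2) (l _ hm.1.1).2.2.1) (H₁ P),
    fun P => .of_iso (S := (b'.tot s P).restr _ (b'.closedBC s P).conv)
      (S' := (b.tot s P).restr _ (b.closedBC s P).conv) (a' := b.totI P)
      (e := fun _ m => (e m.1, m.2)) (g := fun _ m => (e' m.1, m.2))
      ⟨fun _ m hm => ⟨(p P).live m hm.1, by simpa only [l _ hm.1.1.1] using hm.2⟩,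
        fun _ _ φ _ _ a a' => (p P).reg φ _ _ a.1 a'.1⟩
      ⟨fun _ m hm => ⟨(p' P).live m hm.1, by simpa only [g _ hm.1.1.1] using hm.2⟩,
        fun _ _ φ _ _ a a' => (p' P).reg φ _ _ a.1 a'.1⟩ (fun _ m hm => f P m hm.1)
      (fun _ m hm => Prod.ext (l _ hm.1.1.1).1 rfl) (fun _ m hm => Prod.ext (r _ hm.1.1.1) rfl)
      ((b'.totI_map s P).restr _ _ fun _ m hm _ => by
        simp only [totI, b'.Bι _ hm.1.1, b'.Cι _ hm.1.1, and_comm])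
      (fun _ m hm => ⟨(b'.totI_reg s P).live m hm.1, (b'.Bι _ hm.1.1.1).trans hm.2.2,
        (b'.Cι _ hm.1.1.1).trans hm.2.1⟩)
      (fun _ m hm => Prod.ext (l _ hm.1.1.1).2.2.1 rfl) (H₂ P),
    fun P => uzero_of_iso (S := (b'.tot s P).restr _ (b'.closedB s P).conv)
      (S' := (b.tot s P).restr _ (b.closedB s P).conv)
      (e := fun _ m => (e m.1, m.2)) (g := fun _ m => (e' m.1, m.2))
      ⟨fun _ m hm => ⟨(p P).live m hm.1, by simpa only [l _ hm.1.1.1] using hm.2⟩,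
        fun _ _ φ _ _ a a' => (p P).reg φ _ _ a.1 a'.1⟩
      ⟨fun _ m hm => ⟨(p' P).live m hm.1, by simpa only [g _ hm.1.1.1] using hm.2⟩,
        fun _ _ φ _ _ a a' => (p' P).reg φ _ _ a.1 a'.1⟩ (fun _ m hm => f P m hm.1)
      (fun _ m hm => Prod.ext (l _ hm.1.1.1).1 rfl) (fun _ m hm => Prod.ext (r _ hm.1.1.1) rfl)
      (H₃ P)⟩

end

end Pool.Agent.Lib.MP_fc2ced_ag.T
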