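import Pool.Agent.Lib.MP_fc2ced_ag.T.Blk

/-! The next block: the parts where `B' = 0`, where `B' = C' = 0` and where `B C` is nonzero. -/

open CategoryTheory Function

namespace Pool.Agent.Lib.MP_fc2ced_ag.T

open K

noncomputable section

variable {k : Type} [Field k] {F : Type} [Field F] {χ : Chr k F} {b : Blk k} {c : F} {s t : ℤ}

open Pt

namespace Blk

variable {P : Par k}

variable (b s P) in
theorem totI_mapBC : IsMap ((b.tot s P).restr _ (b.closedBC s P).conv)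
    ((b.tot s P).restr _ (b.closedBC s P).conv) (b.totI P) :=
  (b.totI_map s P).restr _ _ fun _ m hm _ => by
    simp only [totI, b.Bι _ hm.1.1, b.Cι _ hm.1.1, and_comm]

variable (b s P) in
theorem totI_liveBC ⦃K : Fld k⦄ (m : ((b.tot s P).restr _ (b.closedBC s P).conv).X K)
    (hm : ((b.tot s P).restr _ (b.closedBC s P).conv).L m) :
    ((b.tot s P).restr _ (b.closedBC s P).conv).L (b.totI P m) :=
  ⟨(b.totI_reg s P).live m hm.1, (b.Bι _ hm.1.1.1).trans hm.2.2, (b.Cι _ hm.1.1.1).trans hm.2.1⟩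

theorem step_f ⦃K : Fld k⦄ (m : ((b.step t).tot s P).X K) (h : ((b.step t).tot s P).L m) :
    ((b.step t).tot s P).f m = b.S.f m.1.2 * (b.e₁ m.1.2 / b.e₂ m.1.2) ^ t *
      ((m.1.1.1 * m.1.1.2 * b.e₂ m.1.2 / b.e₁ m.1.2) ^ (t + s) * P.P.f m.2) := by
  have h1 := b.n₁ _ h.1.1.2
  have h2 := b.n₂ _ h.1.1.2
  have e : m.1.1.1 * m.1.1.2 = b.e₁ m.1.2 / b.e₂ m.1.2 *
      (m.1.1.1 * m.1.1.2 * b.e₂ m.1.2 / b.e₁ m.1.2) := by field_simp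
  change (m.1.1.1 * m.1.1.2) ^ t * b.S.f m.1.2 *
    (m.1.1.1 * m.1.1.2 * b.e₂ m.1.2 / b.e₁ m.1.2) ^ s * P.P.f m.2 = _
  rw [zpow_add₀ (div_ne_zero (mul_ne_zero (mul_ne_zero h.1.1.1.1.2 h.1.1.1.2.2) h2) h1)]
  conv_lhs => rw [show (m.1.1.1 * m.1.1.2) ^ t = _ from congrArg (· ^ t) e, mul_zpow]
  ring

/-- The function is multiplied when the outer letters are. -/
theorem step_f_mul ⦃K : Fld k⦄ (m : ((b.step t).tot s P).X K) {u v r : K} (hr : r ≠ 0)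
    (e : u * v = m.1.1.1 * m.1.1.2 * r) :
    ((b.step t).tot s P).f (((u, v), m.1.2), m.2) = ((b.step t).tot s P).f m * r ^ (t + s) := by
  change (u * v) ^ t * b.S.f m.1.2 * (u * v * b.e₂ m.1.2 / b.e₁ m.1.2) ^ s * P.P.f m.2 =
    (m.1.1.1 * m.1.1.2) ^ t * b.S.f m.1.2 *
      (m.1.1.1 * m.1.1.2 * b.e₂ m.1.2 / b.e₁ m.1.2) ^ s * P.P.f m.2 * _
  rw [e, zpow_add₀ hr, mul_zpow _ r, show m.1.1.1 * m.1.1.2 * r * b.e₂ m.1.2 / b.e₁ m.1.2 =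
    m.1.1.1 * m.1.1.2 * b.e₂ m.1.2 / b.e₁ m.1.2 * r by ring, mul_zpow _ r]
  ring

theorem step_half (hχ : χ.ψ (t + s : ℤ) ≠ 1) : (b.step t).Half s χ := fun P =>
  Flow.uzero (τ := fun _ r m => (((m.1.1.1, m.1.1.2 * r), m.1.2), m.2)) hχ
    ⟨fun _ r m hr h => ⟨⟨⟨⟨⟨h.1.1.1.1.1, trivial, mul_ne_zero h.1.1.1.1.2.2 hr⟩, h.1.1.1.2⟩,
        h.1.1.2⟩, by
          have h1 := h.1.2.1
          have h2 := h.2
          dsimp only at h1 h2 ⊢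
          linear_combination r * h1 + (1 - r) * h2, h.1.2.2⟩, h.2⟩,
      fun _ m _ => by simp, fun _ r m hr _ => by simp [hr],
      fun _ r m hr _ => step_f_mul m hr (mul_assoc _ _ _).symm,
      fun _ _ _ _ _ _ _ hr _ _ _ q => ⟨⟨⟨q.1.1.1, q.1.1.2.mul hr⟩, q.1.2⟩, q.2⟩⟩

end Blk

/-- Parameters for the part where `B' = C' = 0`. -/
@[reducible] def Par.sm (P : Par k) (r : ℤ) : Par k where
  P := (((line k).prod P.P).restr (fun _ q => 1 + P.Y q.2 * q.1 ≠ 0 ∧ P.X q.2 * P.Y q.2 = 1)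
    (Conv.and (Open.conv fun _ _ φ _ _ h h' q =>
      (φ.one.add ((P.rY φ _ _ h.2 h'.2 q.2).mul q.1)).ne_zero)
      (((reg_snd.regF P.rX).mul (reg_snd.regF P.rY)).eq regF_one).conv)).withF
    (fun _ q => (P.Y q.2 ^ 2 / (1 + P.Y q.2 * q.1)) ^ r * P.P.f q.2)
    (fun _ _ φ _ _ h h' q => (rel_zpow (((P.rY φ _ _ h.1.2 h'.1.2 q.2).pow 2).div
      (φ.one.add ((P.rY φ _ _ h.1.2 h'.1.2 q.2).mul q.1)) h'.2.1)
      (div_ne_zero (pow_ne_zero 2 (right_ne_zero_of_mul_eq_one h'.2.2)) h'.2.1) r).mul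
      (P.P.reg φ _ _ h.1.2 h'.1.2 q.2))
    fun _ _ h => mul_ne_zero (zpow_ne_zero _
      (div_ne_zero (pow_ne_zero 2 (right_ne_zero_of_mul_eq_one h.2.2)) h.2.1)) (P.P.ne _ h.1.2)
  X _ q := -P.Y q.2
  Y _ q := q.1
  rX _ _ φ _ _ h h' q := (P.rY φ _ _ h.1.2 h'.1.2 q.2).neg
  rY _ _ _ _ _ _ _ q := q.1

theorem BlkAux.sm₁ {K : Type} [Field K] {A B C D e₁ e₂ u v X Y : K} (det : A * D + B * C = e₁ * e₂)
    (h1 : e₁ ≠ 0) (h2 : e₂ ≠ 0) (hu : u ≠ 0) (hv : v ≠ 0)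
    (c1 : A - C * u - B * v - D * (u * v) = X * (u * v * e₂)) (c2 : -A = Y * e₁)
    (c3 : A - C * u = 0) (c4 : A - B * v = 0) :
    (B ≠ 0 ∧ C ≠ 0) ∧ (1 + Y * (D / e₂) ≠ 0 ∧ X * Y = 1) ∧
      Y ^ 2 / (1 + Y * (D / e₂)) = u * v * e₂ / e₁ := by
  have hA : A ≠ 0 := fun h => mul_ne_zero h1 h2 (by
    have hC : C = 0 := (mul_eq_zero.1 (by linear_combination h - c3 : C * u = 0)).resolve_right hu
    rw [← det, h, hC]
    ring)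
  have hB : B ≠ 0 := fun h => hA (by linear_combination c4 + v * h)
  have hC : C ≠ 0 := fun h => hA (by linear_combination c3 + u * h)
  have e : 1 + Y * (D / e₂) = B * C / (e₁ * e₂) := by
    field_simp
    linear_combination -det - D * c2
  have n : 1 + Y * (D / e₂) ≠ 0 := e ▸ div_ne_zero (mul_ne_zero hB hC) (mul_ne_zero h1 h2)
  refine ⟨⟨hB, hC⟩, ⟨n, ?_⟩, ?_⟩
  · refine mul_left_cancel₀ (mul_ne_zero (mul_ne_zero (mul_ne_zero hu hv) h1) h2) ?_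
    linear_combination (-(X * u * v * e₂)) * c2 + A * c1 + u * v * det - (A - B * v) * c3
  · rw [e]
    field_simp
    linear_combination (A - Y * e₁) * c2 + A * c3 + C * u * c4

theorem BlkAux.sm₂ {K : Type} [Field K] {A B C D e₁ e₂ y X Y : K} (det : A * D + B * C = e₁ * e₂)
    (h1 : e₁ ≠ 0) (h2 : e₂ ≠ 0) (n : 1 + Y * y ≠ 0) (e : X * Y = 1) (c1 : A = -Y * e₁)
    (c2 : D = y * e₂) : (B ≠ 0 ∧ C ≠ 0 ∧ A ≠ 0) ∧
      A - C * (A / C) - B * (A / B) - D * (A / C * (A / B)) = X * (A / C * (A / B) * e₂) := by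
  have h : B * C ≠ 0 := by
    rw [show B * C = e₁ * e₂ * (1 + Y * y) by rw [c1, c2] at det; linear_combination det]
    exact mul_ne_zero (mul_ne_zero h1 h2) n
  have hB := left_ne_zero_of_mul h
  have hC := right_ne_zero_of_mul h
  refine ⟨⟨hB, hC, c1 ▸ mul_ne_zero (neg_ne_zero.2 (right_ne_zero_of_mul_eq_one e)) h1⟩, ?_⟩
  field_simp
  linear_combination A * (-det - X * e₂ * c1 + e₁ * e₂ * e)

open BlkAux in
theorem Blk.step_small (H : b.Claim t χ c) : (b.step t).Small s χ c := fun P => by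
  have l ⦃K : Fld k⦄ (m : (((b.step t).tot s P).restr _ ((b.step t).closedBC s P).conv).X K)
      (h : (((b.step t).tot s P).restr _ ((b.step t).closedBC s P).conv).L m) :=
    sm₁ (b.det _ h.1.1.1.2) (b.n₁ _ h.1.1.1.2) (b.n₂ _ h.1.1.1.2) h.1.1.1.1.1.2 h.1.1.1.1.2.2
      h.1.2.1 h.1.2.2 h.2.1 h.2.2
  have l' ⦃K : Fld k⦄ (m : (b.tot t (P.sm (t + s))).X K) (h : (b.tot t (P.sm (t + s))).L m) :=
    sm₂ (b.det _ h.1.1) (b.n₁ _ h.1.1) (b.n₂ _ h.1.1) h.1.2.2.1 h.1.2.2.2 h.2.1 h.2.2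
  refine .of_iso (S := ((b.step t).tot s P).restr _ ((b.step t).closedBC s P).conv)
    (S' := b.tot t (P.sm (t + s))) (a' := fun _ m => b.totI _ m)
    (e := fun _ m => (m.1.2, b.D m.1.2 / b.e₂ m.1.2, m.2))
    (g := fun _ m => (((b.A m.1 / b.C m.1, b.A m.1 / b.B m.1), m.1), m.2.2))
    ⟨fun _ m h => ⟨⟨h.1.1.1.2, ⟨trivial, h.1.1.2⟩, (l m h).2.1⟩, ?_,
        (div_mul_cancel₀ _ (b.n₂ _ h.1.1.1.2)).symm⟩,
      fun _ _ φ _ _ h h' q => ⟨q.1.2, (b.rD φ _ _ h.1.1.1.2 h'.1.1.1.2 q.1.2).div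
        (b.r₂ φ _ _ h.1.1.1.2 h'.1.1.1.2 q.1.2) (b.n₂ _ h'.1.1.1.2), q.2⟩⟩
    ⟨fun _ m h => ⟨⟨⟨⟨⟨⟨trivial, div_ne_zero (l' m h).1.2.2 (l' m h).1.2.1⟩, trivial,
        div_ne_zero (l' m h).1.2.2 (l' m h).1.1⟩, h.1.1⟩, h.1.2.1.2⟩, (l' m h).2, ?_⟩,
        sub_eq_zero.2 (mul_div_cancel₀ _ (l' m h).1.2.1).symm,
        sub_eq_zero.2 (mul_div_cancel₀ _ (l' m h).1.1).symm⟩,
      fun _ _ φ _ m h h' q => ⟨⟨⟨(b.rA φ _ _ h.1.1 h'.1.1 q.1).div (b.rC φ _ _ h.1.1 h'.1.1 q.1)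
        (l' m h').1.2.1, (b.rA φ _ _ h.1.1 h'.1.1 q.1).div (b.rB φ _ _ h.1.1 h'.1.1 q.1)
        (l' m h').1.1⟩, q.1⟩, q.2.2⟩⟩
    (fun _ m h => ?_) (fun _ m h => ?_) (fun _ m h => ?_)
    ((b.step t).totI_mapBC s P) ((b.step t).totI_liveBC s P)
    (fun _ m h => ?_) (H _)
  · have := h.1.2.2
    dsimp only at this ⊢
    linear_combination -this
  · have := h.2.1
    dsimp only at this ⊢
    linear_combination -this
  · exact (step_f m h.1).trans (by rw [← (l m h).2.2]) |>.symm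
  · have h1 := h.2.1
    have h2 := h.2.2
    dsimp only at h1 h2 ⊢
    rw [sub_eq_zero.1 h1, mul_div_cancel_left₀ _ (l m h).1.2, ← sub_eq_zero.1 h1, sub_eq_zero.1 h2,
      mul_div_cancel_left₀ _ (l m h).1.1]
  · refine Prod.ext rfl (Prod.ext ?_ rfl)
    have := h.2.2
    dsimp only at this ⊢
    rw [this, mul_div_cancel_right₀ _ (b.n₂ _ h.1.1)]
  · simp only [totI, b.Dι _ h.1.1.1.2, b.ι₂ _ h.1.1.1.2]

/-- Parameters for the part where `B C` is nonzero. -/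
@[reducible] def Par.big (P : Par k) (r : ℤ) : Par k where
  P := ((((gm k).prod (gm k)).prod ((line k).prod P.P)).restr
    (fun _ q => 1 + P.Y q.2.2 * q.2.1 ≠ 0 ∧ q.1.1 + q.1.2 +
      (q.2.1 + P.X q.2.2) / (1 + P.Y q.2.2 * q.2.1) * (q.1.1 * q.1.2) = -P.Y q.2.2)
    fun _ _ _ φ φ' _ y _ h h' h'' q q' a b =>
      have n : 1 + P.Y y.2.2 * y.2.1 ≠ 0 :=
        (φ'.one.add ((P.rY φ' _ _ h'.2.2 h''.2.2 q'.2.2).mul q'.2.1)).ne_zero b.1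
      ⟨n, ((q.1.1.add q.1.2).add (((q.2.1.add (P.rX φ _ _ h.2.2 h'.2.2 q.2.2)).div
        (φ.one.add ((P.rY φ _ _ h.2.2 h'.2.2 q.2.2).mul q.2.1)) n).mul (q.1.1.mul q.1.2))).eq_of
        (P.rY φ _ _ h.2.2 h'.2.2 q.2.2).neg a.2⟩).withF
    (fun _ q => (q.1.1 * q.1.2 / (1 + P.Y q.2.2 * q.2.1)) ^ r * P.P.f q.2.2)
    (fun _ _ φ _ _ h h' q => (rel_zpow ((q.1.1.mul q.1.2).div
      (φ.one.add ((P.rY φ _ _ h.1.2.2 h'.1.2.2 q.2.2).mul q.2.1)) h'.2.1)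
      (div_ne_zero (mul_ne_zero h'.1.1.1.2 h'.1.1.2.2) h'.2.1) r).mul
      (P.P.reg φ _ _ h.1.2.2 h'.1.2.2 q.2.2))
    fun _ _ h => mul_ne_zero (zpow_ne_zero _
      (div_ne_zero (mul_ne_zero h.1.1.1.2 h.1.1.2.2) h.2.1)) (P.P.ne _ h.1.2.2)
  X _ q := -P.Y q.2.2
  Y _ q := q.2.1
  rX _ _ φ _ _ h h' q := (P.rY φ _ _ h.1.2.2 h'.1.2.2 q.2.2).neg
  rY _ _ _ _ _ _ _ q := q.2.1

theorem Blk.big_swap (P : Par k) (r : ℤ) : (b.tot t (P.big r)).Swap r (fun _ m => m.2.1.1)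
    (fun _ m => m.2.1.2)
    (fun _ m => (m.2.2.1 + P.X m.2.2.2) / (1 + P.Y m.2.2.2 * m.2.2.1))
    fun _ m u v => (m.1, (u, v), m.2.2) := by
  refine ⟨fun _ _ _ _ _ _ _ q => q.2.1.1, fun _ _ _ _ _ _ _ q => q.2.1.2,
    fun _ _ φ _ _ h h' q => (q.2.2.1.add (P.rX φ _ _ h.1.2.1.2.2 h'.1.2.1.2.2 q.2.2.2)).div
      (φ.one.add ((P.rY φ _ _ h.1.2.1.2.2 h'.1.2.1.2.2 q.2.2.2).mul q.2.2.1)) h'.1.2.2.1,
    fun _ _ h => mul_ne_zero h.1.2.1.1.1.2 h.1.2.1.1.2.2, fun _ _ _ => rfl,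
    fun _ m u v h n e => ⟨⟨⟨h.1.1, ⟨⟨⟨trivial, left_ne_zero_of_mul n⟩, trivial,
      right_ne_zero_of_mul n⟩, h.1.2.1.2⟩, h.1.2.2.1, e.trans h.1.2.2.2⟩, h.2⟩, rfl, rfl, rfl, ?_,
      rfl⟩, fun _ _ _ _ _ _ _ _ _ _ _ q hu hv _ _ => ⟨q.1, ⟨hu, hv⟩, q.2.2⟩⟩
  have n' := mul_ne_zero h.1.2.1.1.1.2 h.1.2.1.1.2.2
  dsimp only at n' ⊢
  rw [show u * v / (1 + P.Y m.2.2.2 * m.2.2.1) = m.2.1.1 * m.2.1.2 /
    (1 + P.Y m.2.2.2 * m.2.2.1) * (u * v / (m.2.1.1 * m.2.1.2)) by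
      rw [div_mul_div_comm, mul_comm (1 + _), mul_div_mul_left _ _ n'], mul_zpow]
  ring

theorem BlkAux.big₁ {K : Type} [Field K] {A B C D e₁ e₂ u v X Y : K}
    (det : A * D + B * C = e₁ * e₂) (h1 : e₁ ≠ 0) (h2 : e₂ ≠ 0) (n : ¬ B * C = 0)
    (c1 : A - C * u - B * v - D * (u * v) = X * (u * v * e₂)) (c2 : -A = Y * e₁) :
    (1 + Y * (D / e₂) ≠ 0 ∧ C * u / e₁ + B * v / e₁ +
      (D / e₂ + X) / (1 + Y * (D / e₂)) * (C * u / e₁ * (B * v / e₁)) = -Y) ∧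
      C * u / e₁ * (B * v / e₁) / (1 + Y * (D / e₂)) = u * v * e₂ / e₁ := by
  have e : 1 + Y * (D / e₂) = B * C / (e₁ * e₂) := by
    field_simp
    linear_combination -det - D * c2
  have hB := left_ne_zero_of_mul n
  have hC := right_ne_zero_of_mul n
  rw [e]
  refine ⟨⟨div_ne_zero n (mul_ne_zero h1 h2), ?_⟩, ?_⟩ <;> field_simp
  linear_combination -c1 - c2

theorem BlkAux.big₂ {K : Type} [Field K] {A B C D e₁ e₂ u v y X Y : K}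
    (det : A * D + B * C = e₁ * e₂) (h1 : e₁ ≠ 0) (h2 : e₂ ≠ 0) (n : 1 + Y * y ≠ 0)
    (e : u + v + (y + X) / (1 + Y * y) * (u * v) = -Y) (c1 : A = -Y * e₁) (c2 : D = y * e₂) :
    ¬ B * C = 0 ∧ A - C * (u * e₁ / C) - B * (v * e₁ / B) - D * (u * e₁ / C * (v * e₁ / B)) =
      X * (u * e₁ / C * (v * e₁ / B) * e₂) := by
  have e' : B * C = e₁ * e₂ * (1 + Y * y) := by
    rw [c1, c2] at det
    linear_combination det
  have h : B * C ≠ 0 := e' ▸ mul_ne_zero (mul_ne_zero h1 h2) n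
  have hB := left_ne_zero_of_mul h
  have hC := right_ne_zero_of_mul h
  refine ⟨h, ?_⟩
  have e₀ : (u + v) * (1 + Y * y) + (y + X) * (u * v) = -Y * (1 + Y * y) := by
    rw [← e, add_mul _ (_ * _), mul_right_comm, div_mul_cancel₀ _ n]
  field_simp
  rw [c1, c2]
  linear_combination (-Y - u - v) * e₁ * e' - e₁ ^ 2 * e₂ * e₀

open BlkAux in
theorem Blk.step_big (hχ : χ.ψ (t + s : ℤ) ≠ 1) (H : b.Claim t χ c) (P : Par k) :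
    (((b.step t).tot s P).restr _ (b.closedM s t P).not.conv).Acts χ ((b.step t).totI P) (-c) := by
  have l ⦃K : Fld k⦄ (m : (((b.step t).tot s P).restr _ (b.closedM s t P).not.conv).X K)
      (h : (((b.step t).tot s P).restr _ (b.closedM s t P).not.conv).L m) :=
    big₁ (b.det _ h.1.1.1.2) (b.n₁ _ h.1.1.1.2) (b.n₂ _ h.1.1.1.2) h.2 h.1.2.1 h.1.2.2
  have l' ⦃K : Fld k⦄ (m : (b.tot t (P.big (t + s))).X K) (h : (b.tot t (P.big (t + s))).L m) :=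
    big₂ (b.det _ h.1.1) (b.n₁ _ h.1.1) (b.n₂ _ h.1.1) h.1.2.2.1 h.1.2.2.2 h.2.1 h.2.2
  have st ⦃K : Fld k⦄ (m : ((b.step t).tot s P).X K) (h : ((b.step t).tot s P).L m) :
      ¬ b.B m.1.2 * b.C m.1.2 = 0 ↔ ¬ b.B (b.ι m.1.2) * b.C (b.ι m.1.2) = 0 := by
    rw [b.Bι _ h.1.1.2, b.Cι _ h.1.1.2, mul_comm]
  refine .of_iso (S := ((b.step t).tot s P).restr _ (b.closedM s t P).not.conv)
    (S' := b.tot t (P.big (t + s))) (a' := fun _ m => (b.ι m.1, (m.2.1.2, m.2.1.1), m.2.2))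
    (e := fun _ m => (m.1.2, (b.C m.1.2 * m.1.1.1 / b.e₁ m.1.2, b.B m.1.2 * m.1.1.2 / b.e₁ m.1.2),
      b.D m.1.2 / b.e₂ m.1.2, m.2))
    (g := fun _ m => (((m.2.1.1 * b.e₁ m.1 / b.C m.1, m.2.1.2 * b.e₁ m.1 / b.B m.1), m.1), m.2.2.2))
    ⟨fun _ m h => ⟨⟨h.1.1.1.2, ⟨⟨⟨trivial, div_ne_zero (mul_ne_zero (right_ne_zero_of_mul h.2)
        h.1.1.1.1.1.2) (b.n₁ _ h.1.1.1.2)⟩, trivial, div_ne_zero (mul_ne_zero
        (left_ne_zero_of_mul h.2) h.1.1.1.1.2.2) (b.n₁ _ h.1.1.1.2)⟩, trivial, h.1.1.2⟩,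
        (l m h).1⟩, ?_, (div_mul_cancel₀ _ (b.n₂ _ h.1.1.1.2)).symm⟩,
      fun _ _ φ _ _ h h' q => ⟨q.1.2, ⟨((b.rC φ _ _ h.1.1.1.2 h'.1.1.1.2 q.1.2).mul q.1.1.1).div
        (b.r₁ φ _ _ h.1.1.1.2 h'.1.1.1.2 q.1.2) (b.n₁ _ h'.1.1.1.2),
        ((b.rB φ _ _ h.1.1.1.2 h'.1.1.1.2 q.1.2).mul q.1.1.2).div
        (b.r₁ φ _ _ h.1.1.1.2 h'.1.1.1.2 q.1.2) (b.n₁ _ h'.1.1.1.2)⟩,
        (b.rD φ _ _ h.1.1.1.2 h'.1.1.1.2 q.1.2).div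
        (b.r₂ φ _ _ h.1.1.1.2 h'.1.1.1.2 q.1.2) (b.n₂ _ h'.1.1.1.2), q.2⟩⟩
    ⟨fun _ m h => ⟨⟨⟨⟨⟨⟨trivial, div_ne_zero (mul_ne_zero h.1.2.1.1.1.2 (b.n₁ _ h.1.1))
        (right_ne_zero_of_mul (l' m h).1)⟩, trivial, div_ne_zero (mul_ne_zero h.1.2.1.1.2.2
        (b.n₁ _ h.1.1)) (left_ne_zero_of_mul (l' m h).1)⟩, h.1.1⟩, h.1.2.1.2.2⟩, (l' m h).2, ?_⟩,
        (l' m h).1⟩,
      fun _ _ φ _ m h h' q => ⟨⟨⟨(q.2.1.1.mul (b.r₁ φ _ _ h.1.1 h'.1.1 q.1)).div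
        (b.rC φ _ _ h.1.1 h'.1.1 q.1) (right_ne_zero_of_mul (l' m h').1),
        (q.2.1.2.mul (b.r₁ φ _ _ h.1.1 h'.1.1 q.1)).div (b.rB φ _ _ h.1.1 h'.1.1 q.1)
        (left_ne_zero_of_mul (l' m h').1)⟩, q.1⟩, q.2.2.2⟩⟩
    (fun _ m h => ?_) (fun _ m h => ?_) (fun _ m h => ?_)
    (((b.step t).totI_map s P).restr _ _ fun _ m hm _ => st m hm)
    (fun _ m hm => ⟨((b.step t).totI_reg s P).live m hm.1, (st m hm.1).1 hm.2⟩)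
    (fun _ m h => ?_) ((H _).comp ((big_swap P (t + s)).acts hχ) (b.totI_reg t _).live
      (fun _ _ _ => rfl) (mul_neg_one c).symm)
  · have := h.1.2.2
    dsimp only at this ⊢
    linear_combination -this
  · have := h.2.1
    dsimp only at this ⊢
    linear_combination -this
  · exact (step_f m h.1).trans (by rw [← (l m h).2]) |>.symm
  · have h1 := b.n₁ _ h.1.1.1.2
    dsimp only
    rw [div_mul_cancel₀ _ h1, div_mul_cancel₀ _ h1,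
      mul_div_cancel_left₀ _ (right_ne_zero_of_mul h.2),
      mul_div_cancel_left₀ _ (left_ne_zero_of_mul h.2)]
  · have h1 := b.n₁ _ h.1.1
    have := h.2.2
    dsimp only at this ⊢
    rw [this, mul_div_cancel_right₀ _ (b.n₂ _ h.1.1),
      mul_div_cancel₀ _ (right_ne_zero_of_mul (l' m h).1),
      mul_div_cancel₀ _ (left_ne_zero_of_mul (l' m h).1), mul_div_cancel_right₀ _ h1,
      mul_div_cancel_right₀ _ h1]
  · simp only [totI, b.Dι _ h.1.1.1.2, b.ι₂ _ h.1.1.1.2, b.ι₁ _ h.1.1.1.2, b.Bι _ h.1.1.1.2,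
      b.Cι _ h.1.1.1.2]

end

end Pool.Agent.Lib.MP_fc2ced_ag.T
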