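import Pool.Agent.Lib.MP_fc2ced_ag.T.OmegaAux

/-! The involution on a family of degenerate conics. -/

open CategoryTheory Function Polynomial

namespace Pool.Agent.Lib.MP_fc2ced_ag.T

open K

noncomputable section

variable {k : Type} [Field k] {F : Type} [Field F] {χ : Chr k F}

open Pt

variable (k) in
/-- A base with an involution, an invariant invertible function `w` and a function `γ` whose
product with its conjugate vanishes. -/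
structure Om where
  N : Pt k
  γ : ∀ ⦃K⦄, N.X K → K
  w : ∀ ⦃K⦄, N.X K → K
  ι : ∀ ⦃K⦄, N.X K → N.X K
  rγ : N.RegF γ
  rw : N.RegF w
  nw : ∀ ⦃K⦄ (x : N.X K), N.L x → w x ≠ 0
  reg : N.Reg N ι
  inv : ∀ ⦃K⦄ (x : N.X K), N.L x → ι (ι x) = x
  fι : ∀ ⦃K⦄ (x : N.X K), N.L x → N.f (ι x) = N.f x
  wι : ∀ ⦃K⦄ (x : N.X K), N.L x → w (ι x) = w x
  mul : ∀ ⦃K⦄ (x : N.X K), N.L x → γ x * γ (ι x) = 0

theorem quad_ex {K : Fld k} (t : K) {c : K} (hc : c ≠ 0) : ∃ s : K, s ≠ 0 ∧ s + c / s = t := by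
  obtain ⟨s, hs⟩ := IsAlgClosed.exists_root (quad t c) (by
    rw [show (quad t c).degree = 2 by unfold quad; compute_degree!]; decide)
  have e := quad_root.1 hs
  have h0 : s ≠ 0 := by rintro rfl; exact hc (by simpa using e.symm)
  exact ⟨s, h0, by field_simp; linear_combination -e⟩

theorem cls_pair {S : Pt k} {K : Fld k} (s s' : K) (e : K → S.X K) :
    S.cls F (({s, s'} : Multiset K).map e) = S.cl F (e s) + S.cl F (e s') := by simp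

namespace Om

variable (o : Om k) (r : ℤ)

/-- The family of conics. -/
@[reducible] def Ω : Pt k :=
  ((o.N.prod ((gm k).prod (gm k))).restr
    (fun _ z => 1 - o.γ z.1 * z.2.1 - o.γ (o.ι z.1) * z.2.2 = z.2.1 * z.2.2 / o.w z.1)
    (Closed.conv fun _ _ φ _ _ h h' q e => ((φ.one.sub ((o.rγ φ _ _ h.1 h'.1 q.1).mul q.2.1)).sub
      (((o.reg.regF o.rγ) φ _ _ h.1 h'.1 q.1).mul q.2.2)).eq_of
      ((q.2.1.mul q.2.2).div (o.rw φ _ _ h.1 h'.1 q.1) (o.nw _ h'.1)) e)).withF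
    (fun _ z => o.N.f z.1 * (z.2.1 * z.2.2 / o.w z.1) ^ r)
    (fun _ _ φ _ _ h h' q => (o.N.reg φ _ _ h.1.1 h'.1.1 q.1).mul (rel_zpow
      ((q.2.1.mul q.2.2).div (o.rw φ _ _ h.1.1 h'.1.1 q.1) (o.nw _ h'.1.1))
      (div_ne_zero (mul_ne_zero h'.1.2.1.2 h'.1.2.2.2) (o.nw _ h'.1.1)) r))
    fun _ _ h => mul_ne_zero (o.N.ne _ h.1.1)
      (zpow_ne_zero _ (div_ne_zero (mul_ne_zero h.1.2.1.2 h.1.2.2.2) (o.nw _ h.1.1)))

/-- The involution. -/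
def a ⦃K : Fld k⦄ (z : o.N.X K × K × K) : o.N.X K × K × K := (o.ι z.1, z.2.2, z.2.1)

theorem a_reg : (o.Ω r).Reg (o.Ω r) o.a :=
  ⟨fun _ z h => ⟨⟨o.reg.live _ h.1.1, h.1.2.2, h.1.2.1⟩, by
      have := h.2
      simp only [a, o.inv _ h.1.1, o.wι _ h.1.1] at this ⊢
      linear_combination this⟩,
    fun _ _ φ _ _ h h' q => ⟨o.reg.reg φ _ _ h.1.1 h'.1.1 q.1, q.2.2, q.2.1⟩⟩

theorem a_inv ⦃K : Fld k⦄ (z : (o.Ω r).X K) (h : (o.Ω r).L z) : o.a (o.a z) = z :=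
  Prod.ext (o.inv _ h.1.1) rfl

theorem a_map : IsMap (o.Ω r) (o.Ω r) o.a :=
  .of_inv (o.a_reg r) (o.a_reg r)
    (fun _ z h => by simp only [a, o.fι _ h.1.1, o.wι _ h.1.1, mul_comm z.2.2]) (o.a_inv r)

/-- One half of the base. -/
@[reducible] def B : Pt k :=
  o.N.restr (fun _ x => o.γ (o.ι x) = 0) ((o.reg.regF o.rγ).eq regF_zero).conv

/-- The punctured lines over the half. -/
@[reducible] def V : Pt k :=
  ((o.B.prod (line k)).restr (fun _ z => 1 - o.γ z.1 * z.2 ≠ 0)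
    (Open.conv fun _ _ φ _ _ h h' q =>
      (φ.one.sub ((o.rγ φ _ _ h.1.1 h'.1.1 q.1).mul q.2)).ne_zero)).withF
    (fun _ z => o.N.f z.1 * (1 - o.γ z.1 * z.2) ^ r)
    (fun _ _ φ _ _ h h' q => (o.N.reg φ _ _ h.1.1.1 h'.1.1.1 q.1).mul (rel_zpow
      (φ.one.sub ((o.rγ φ _ _ h.1.1.1 h'.1.1.1 q.1).mul q.2)) h'.2 r))
    fun _ _ h => mul_ne_zero (o.N.ne _ h.1.1.1) (zpow_ne_zero _ h.2)

theorem cγ : (o.V r).Closed fun _ z => o.γ z.1 = 0 :=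
  fun _ _ φ _ _ h h' q e => (o.rγ φ _ _ h.1.1.1 h'.1.1.1 q.1).eq_of φ.zero e

theorem cu : (o.V r).Closed fun _ z => z.2 = 0 := fun _ _ φ _ _ _ _ q e => q.2.eq_of φ.zero e

/-- The lines over the intersection. -/
@[reducible] def P : Pt k := (o.V r).restr _ (o.cγ r).conv

/-- One half of the family. -/
@[reducible] def U : Pt k := (o.V r).restr _ (o.cu r).not.conv

theorem cγ' : (o.U r).Closed fun _ z => o.γ z.1 = 0 :=
  fun _ _ φ x y h h' => o.cγ r φ x y h.1 h'.1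

/-- The intersection of the two halves. -/
@[reducible] def T₀ : Pt k := (o.U r).restr _ (o.cγ' r).conv

theorem uiso_j (hχ : χ.ψ r ≠ 1) (hB : UZero (o.B.E χ)) :
    UIso ((isMap_closed (o.cγ r)).hom χ ≫ (isMap_open (o.cu r).not).hom χ) := by
  refine ((ses_closed (o.cγ r)).uzero₃_iff.1 (Flow.uzero hχ
    (τ := fun _ ρ z => (z.1, (1 - (1 - o.γ z.1 * z.2) * ρ) / o.γ z.1))
    ⟨fun _ ρ z h0 h => ⟨⟨h.1.1, ?_⟩, h.2⟩, fun _ z h => ?_, fun _ ρ z h0 h => ?_,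
      fun _ ρ z h0 h => ?_, fun _ _ φ _ _ x y hρ _ h h' q => ⟨q.1, (φ.one.sub ((φ.one.sub
        ((o.rγ φ _ _ h.1.1.1.1 h'.1.1.1.1 q.1).mul q.2)).mul hρ)).div
        (o.rγ φ _ _ h.1.1.1.1 h'.1.1.1.1 q.1) h'.2⟩⟩)).comp
    ((ses_closed (o.cu r)).uzero₁_iff.1 (uzero_of_iso (S := (o.V r).restr _ (o.cu r).conv)
      (S' := o.B) (e := fun _ z => z.1) (g := fun _ x => (x, 0))
      ⟨fun _ _ h => h.1.1.1, fun _ _ _ _ _ _ _ q => q.1⟩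
      ⟨fun _ _ h => ⟨⟨⟨h, trivial⟩, by simp⟩, rfl⟩, fun _ _ φ _ _ _ _ q => ⟨q, φ.zero⟩⟩
      (fun _ z h => by simp [show z.2 = 0 from h.2]) (fun _ _ h => Prod.ext rfl h.2.symm)
      (fun _ _ _ => rfl) hB))
  · simpa only [mul_div_cancel₀ _ h.2, sub_sub_cancel] using mul_ne_zero h.1.2 h0
  · simp only [mul_one, sub_sub_cancel, mul_div_cancel_left₀ _ h.2]
  · simp only [mul_div_cancel₀ _ h.2, sub_sub_cancel, mul_inv_cancel_right₀ h0,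
      mul_div_cancel_left₀ _ h.2]
  · simp only [mul_div_cancel₀ _ h.2, sub_sub_cancel, mul_zpow, mul_assoc]

theorem liveT {K : Fld k} {x : o.N.X K} {t s : K} (h : (o.P r).L (x, t)) (hs : s ≠ 0) :
    (o.T₀ r).L (x, s) := ⟨⟨⟨⟨h.1.1.1, trivial⟩, by simp [show o.γ x = 0 from h.2]⟩, hs⟩, h.2⟩

theorem liveP {K : Fld k} {x : o.N.X K} {s : K} (h : (o.T₀ r).L (x, s)) (t : K) :
    (o.P r).L (x, t) := ⟨⟨⟨h.1.1.1.1, trivial⟩, by simp [show o.γ x = 0 from h.2]⟩, h.2⟩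

/-- The family of transfers. -/
def m ⦃K : Fld k⦄ (ρ : K) (z : o.N.X K × K) : Multiset (o.N.X K × K) :=
  (quad z.2 (ρ * o.w z.1)).roots.map fun s => (z.1, s)

theorem isFam : IsFam (o.P r) (o.T₀ r) o.m where
  f K ρ x h z hz _ := by
    obtain ⟨s, -, rfl⟩ := Multiset.mem_map.1 hz
    simp [show o.γ x.1 = 0 from h.2]
  sp K K' φ ρ ρ' x y h a b c :=
    Multiset.rel_map.2 (((quad_PR c.2 (h.mul (o.rw φ _ _ a.1.1.1.1 b.1.1.1.1 c.1))).roots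
      (quad_monic _ _)).mono fun s _ s' _ e =>
      ⟨fun l => ⟨o.liveT r a (e.ne_zero l.1.2), c.1, e⟩,
        fun l _ z l' c' => l (o.liveT r b fun e' => l'.1.2 ((c'.2.func e).trans e'))⟩)
  dead K K' φ ρ ρ' x h a d z hz := by
    obtain ⟨s, hs, rfl⟩ := Multiset.mem_map.1 hz
    intro l y l' c
    refine d a (y.1, y.2 + ρ' * o.w y.1 / y.2) (o.liveP r l' _) ⟨c.1, ?_⟩
    refine (c.2.add ((h.mul (o.rw φ _ _ a.1.1.1.1 l'.1.1.1.1.1 c.1)).div c.2 l'.1.2)).congr ?_ rfl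
    have : s ≠ 0 := l.1.2
    field_simp
    linear_combination -quad_mem hs

theorem isCor : IsCor (o.P r) (o.T₀ r) fun _ z => o.m 1 z :=
  ⟨fun _ x h z hz l => (o.isFam r).f 1 x h z hz l,
    fun _ _ φ x y => (o.isFam r).sp φ 1 1 x y φ.one,
    fun _ _ φ x => (o.isFam r).dead φ 1 1 x φ.one⟩

theorem isCor₀ : IsCor (o.P r) (o.T₀ r) fun _ z => o.m 0 z :=
  ⟨fun _ x h z hz l => (o.isFam r).f 0 x h z hz l,
    fun _ _ φ x y => (o.isFam r).sp φ 0 0 x y φ.zero,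
    fun _ _ φ x => (o.isFam r).dead φ 0 0 x φ.zero⟩

theorem uiso_k (hχ : χ.ψ r ≠ 1) (hB : UZero (o.B.E χ)) :
    UIso ((o.isCor r).hom χ ≫ (isMap_closed (o.cγ' r)).hom χ) := by
  refine .of_null_sub (g := (o.isCor₀ r).hom χ ≫ (isMap_closed (o.cγ' r)).hom χ) ?_ ?_
  · rw [← Preadditive.sub_comp]
    exact ((o.isFam r).null_sub (fun K x h => IsCor.hom_cl _ h)
      fun K x h => IsCor.hom_cl _ h).symm.comp _
  · convert o.uiso_j r hχ hB using 1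
    refine Pt.hom_ext fun K x h => ?_
    rw [Ob.comp_apply, Ob.comp_apply, IsCor.hom_cl _ h, IsMap.hom_cl _ h, IsMap.hom_cl _ h.1, m,
      quad_roots (a := 0) (b := x.2) (zero_add _).symm (by simp)]
    rw [cls_pair (S := o.T₀ r), cl_dead (S := o.T₀ r) (x := (x.1, 0)) fun l => l.1.2 rfl, zero_add]
    by_cases e : x.2 = 0
    · rw [cl_dead (S := o.T₀ r) fun l => l.1.2 e, cl_dead (S := o.U r) fun l => l.2 e, map_zero]
    · exact IsMap.hom_cl _ (o.liveT r h e)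

theorem k_cl {K : Fld k} {x : o.N.X K} {s : K} (h : (o.T₀ r).L (x, s)) :
    ((o.isCor r).hom χ).1 K ((o.P r).cl F (x, s + o.w x / s)) =
      (o.T₀ r).cl F (x, s) + (o.T₀ r).cl F (x, o.w x / s) := by
  rw [(o.isCor r).hom_cl (o.liveP r h _), m, quad_roots (a := s) (b := o.w x / s) rfl
    (by rw [one_mul, mul_div_cancel₀ _ h.1.2]), cls_pair (S := o.T₀ r)]

theorem r_map : IsMap (o.T₀ r) (o.P r) fun _ z => (z.1, z.2 + o.w z.1 / z.2) := by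
  refine .of_proper ⟨fun _ _ h => o.liveP r h _, fun _ _ φ _ _ h h' q => ⟨q.1, q.2.add
    ((o.rw φ _ _ h.1.1.1.1.1 h'.1.1.1.1.1 q.1).div q.2 h'.1.2)⟩⟩
    (fun _ z h => by simp [show o.γ z.1 = 0 from h.2]) fun _ _ φ x z h h' q => ?_
  have hw := o.rw φ _ _ h.1.1.1.1.1 h'.1.1.1.1 q.1
  have e : x.2 * (x.2 + o.w x.1 / x.2 - x.2) = o.w x.1 := by
    rw [add_sub_cancel_left, mul_div_cancel₀ _ h.1.2]
  obtain ⟨s, hs⟩ := quad_fin q.2 hw e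
  exact ⟨(z.1, s), o.liveT r h' (left_ne_zero_of_mul
    (((hs.mul (q.2.sub hs)).eq_of hw e).trans_ne (o.nw _ h'.1.1.1.1))), q.1, hs⟩

theorem τ_reg : (o.T₀ r).Reg (o.T₀ r) fun _ z => (z.1, o.w z.1 / z.2) :=
  ⟨fun _ _ h => o.liveT r (o.liveP r h 0) (div_ne_zero (o.nw _ h.1.1.1.1.1) h.1.2),
    fun _ _ φ _ _ h h' q => ⟨q.1, (o.rw φ _ _ h.1.1.1.1.1 h'.1.1.1.1.1 q.1).div q.2 h'.1.2⟩⟩

theorem τ_map : IsMap (o.T₀ r) (o.T₀ r) fun _ z => (z.1, o.w z.1 / z.2) :=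
  .of_inv (o.τ_reg r) (o.τ_reg r) (fun _ z h => by simp [show o.γ z.1 = 0 from h.2])
    fun _ _ h => Prod.ext rfl (div_div_cancel₀ (o.nw _ h.1.1.1.1.1))

/-- The embedding of one half. -/
def i ⦃K : Fld k⦄ (z : o.N.X K × K) : o.N.X K × K × K :=
  (z.1, z.2, o.w z.1 * (1 - o.γ z.1 * z.2) / z.2)

theorem i_eq {K : Fld k} {z : o.N.X K × K} (h : (o.U r).L z) :
    z.2 * (o.w z.1 * (1 - o.γ z.1 * z.2) / z.2) / o.w z.1 = 1 - o.γ z.1 * z.2 := by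
  rw [mul_div_cancel₀ _ h.2, mul_div_cancel_left₀ _ (o.nw _ h.1.1.1.1)]

theorem i_live ⦃K : Fld k⦄ (z : o.N.X K × K) (h : (o.U r).L z) : (o.Ω r).L (o.i z) :=
  ⟨⟨h.1.1.1.1, ⟨trivial, h.2⟩, trivial,
    div_ne_zero (mul_ne_zero (o.nw _ h.1.1.1.1) h.1.2) h.2⟩, by
      simp only [i, o.i_eq r h, show o.γ (o.ι z.1) = 0 from h.1.1.1.2, zero_mul, sub_zero]⟩

theorem i_surj {K : Fld k} {z : o.N.X K × K × K} (h : (o.Ω r).L z) (e : o.γ (o.ι z.1) = 0) :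
    (o.U r).L (z.1, z.2.1) ∧ o.i (z.1, z.2.1) = z := by
  have q : 1 - o.γ z.1 * z.2.1 = z.2.1 * z.2.2 / o.w z.1 := by simpa [e] using h.2
  refine ⟨⟨⟨⟨⟨h.1.1, e⟩, trivial⟩, q.trans_ne
    (div_ne_zero (mul_ne_zero h.1.2.1.2 h.1.2.2.2) (o.nw _ h.1.1))⟩, h.1.2.1.2⟩, ?_⟩
  simp only [i, q, mul_div_cancel₀ _ (o.nw _ h.1.1), mul_div_cancel_left₀ _ h.1.2.1.2]

theorem i_map : IsMap (o.U r) (o.Ω r) o.i :=
  .of_proper ⟨o.i_live r, fun _ _ φ _ _ h h' q => ⟨q.1, q.2,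
      ((o.rw φ _ _ h.1.1.1.1 h'.1.1.1.1 q.1).mul (φ.one.sub
        ((o.rγ φ _ _ h.1.1.1.1 h'.1.1.1.1 q.1).mul q.2))).div q.2 h'.2⟩⟩
    (fun _ z h => by simp only [i, o.i_eq r h]) fun _ _ φ x z h h' q =>
      ⟨_, (o.i_surj r h' (((o.reg.regF o.rγ) φ _ _ h.1.1.1.1 h'.1.1 q.1).eq_of φ.zero
        h.1.1.1.2)).1, q.1, q.2.1⟩

theorem cΩ : (o.Ω r).Closed fun _ z => o.γ z.1 = 0 :=
  fun _ _ φ _ _ h h' q e => (o.rγ φ _ _ h.1.1 h'.1.1 q.1).eq_of φ.zero e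

theorem acts [CharZero F] (hχ : χ.ψ r ≠ 1) (hB : UZero (o.B.E χ)) {σ : F} (hσ : σ * σ = 1)
    (hT : (o.T₀ r).Acts χ (fun _ z => (o.ι z.1, z.2)) σ) : (o.Ω r).Acts χ o.a σ := by
  obtain ⟨mι, n⟩ := hT
  have lι ⦃K : Fld k⦄ (z : (o.T₀ r).X K) (h : (o.T₀ r).L z) : (o.T₀ r).L (o.ι z.1, z.2) :=
    ⟨⟨⟨⟨⟨o.reg.live _ h.1.1.1.1.1, (congrArg _ (o.inv _ h.1.1.1.1.1)).trans h.2⟩, trivial⟩,
      by simp [show o.γ (o.ι z.1) = 0 from h.1.1.1.1.2]⟩, h.1.2⟩, h.1.1.1.1.2⟩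
  have ia := (o.i_map r).comp (o.a_map r) fun _ z h _ => o.i_live r z h
  have ip := (o.i_map r).comp (isMap_open (o.cΩ r).not) fun _ z h _ => o.i_live r z h
  refine ⟨o.a_map r, null_of_mv (i₀ := (isMap_closed (o.cγ' r)).hom χ) (i := (o.i_map r).hom χ)
    (p := (isMap_open (o.cΩ r).not).hom χ) (a₀ := mι.hom χ ≫ (o.τ_map r).hom χ)
    (τ := (o.τ_map r).hom χ) (u := (o.isCor r).hom χ) (r := (o.r_map r).hom χ) ?_ ?_ hσ ?_ ?_ ?_ ?_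
    (by simpa using n.comp ((o.τ_map r).hom χ)) (o.uiso_k r hχ hB)⟩
  · rw [IsMap.hom_comp _ _ ia (fun _ z h _ => o.i_live r z h) fun _ _ _ _ => rfl]
    refine ses ia _ (fun _ z h => (o.a_reg r).live _ (o.i_live r z h)) (fun _ x x' h h' e => ?_)
      (fun _ y h => ⟨fun e => ?_, ?_⟩) (fun _ _ _ _ _ _ e => e) fun _ z h => ⟨z, h.1, rfl⟩
    · refine Prod.ext ?_ (congrArg (·.2.2) e)
      rw [← o.inv _ h.1.1.1.1, ← o.inv _ h'.1.1.1.1]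
      exact congrArg (fun z => o.ι z.1) e
    · have q := o.i_surj r ((o.a_reg r).live y h)
        ((congrArg _ (o.inv _ h.1.1)).trans (not_not.1 fun l => e ⟨h, l⟩))
      exact ⟨_, q.1, by rw [q.2, o.a_inv r y h]⟩
    · rintro ⟨x, hx, rfl⟩ l
      exact l.2 hx.1.1.1.2
  · rw [IsMap.hom_comp _ _ ip (fun _ z h _ => o.i_live r z h) fun _ _ _ _ => rfl]
    refine ses _ ip (fun _ _ h => h.1) (fun _ _ _ _ _ e => e)
      (fun _ y h => ⟨fun e => ⟨y, ⟨h, not_not.1 fun l => e ⟨o.i_live r y h, l⟩⟩, rfl⟩, ?_⟩)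
      (fun _ _ _ _ _ _ e => Prod.ext (congrArg (·.1) e) (congrArg (·.2.1) e)) fun _ z h =>
        ⟨_, o.i_surj r h.1 ((mul_eq_zero.1 (o.mul _ h.1.1.1)).resolve_left h.2)⟩
    rintro ⟨x, hx, rfl⟩ l
    exact l.2 hx.2
  · exact (IsMap.hom_comp _ _ isMap_id (fun _ z h _ => (o.a_reg r).live z h)
      fun _ z h _ => o.a_inv r z h).trans (IsMap.hom_id _ fun _ _ _ => rfl)
  · refine Pt.hom_ext fun K z h => ?_
    have l := (o.τ_reg r).live _ (lι z h)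
    rw [Ob.comp_apply, Ob.comp_apply, Ob.comp_apply, Ob.comp_apply, Ob.comp_apply,
      IsMap.hom_cl _ h, IsMap.hom_cl _ h.1, IsMap.hom_cl _ (o.i_live r z h.1), IsMap.hom_cl _ h,
      IsMap.hom_cl _ (lι z h), IsMap.hom_cl _ l, IsMap.hom_cl _ l.1]
    simp only [a, i, show o.γ z.1 = 0 from h.2, show o.γ (o.ι z.1) = 0 from h.1.1.1.1.2,
      o.wι _ h.1.1.1.1.1, zero_mul, sub_zero, mul_one, div_div_cancel₀ (o.nw _ h.1.1.1.1.1)]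
  · refine Pt.hom_ext fun K ⟨x, t⟩ h => ?_
    obtain ⟨s, hs, rfl⟩ := quad_ex t (o.nw x h.1.1.1.1)
    have l := o.liveT r h hs
    rw [Ob.comp_apply, o.k_cl r l, map_add, IsMap.hom_cl _ l,
      IsMap.hom_cl _ ((o.τ_reg r).live _ l), div_div_cancel₀ (o.nw x h.1.1.1.1),
      add_comm (o.w x / s), ← two_smul F]
    rfl
  · refine Pt.hom_ext fun K ⟨x, s⟩ h => ?_
    rw [Ob.comp_apply, IsMap.hom_cl _ h, o.k_cl r h, Ob.add_app, LinearMap.add_apply,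
      IsMap.hom_cl _ h]
    rfl

end Om

end

end Pool.Agent.Lib.MP_fc2ced_ag.T
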