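import Pool.Agent.Lib.MP_fc2ced_ag.T.BlkA
import Pool.Agent.Lib.MP_fc2ced_ag.T.Omega

/-! The next block: the part where `B C = 0`. -/

open CategoryTheory Function

namespace Pool.Agent.Lib.MP_fc2ced_ag.T

open K

noncomputable section

variable {k : Type} [Field k] {F : Type} [Field F] {χ : Chr k F} {b : Blk k} {c : F} {s t : ℤ}

open Pt

theorem Blk.deg_zero (hχ : χ.ψ (t + s : ℤ) ≠ 1) (P : Par k) :
    UZero (((b.deg s t P).restr _ (b.closedK s t P).conv).E χ) := by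
  have cl : ((b.deg s t P).restr _ (b.closedK s t P).conv).Closed fun _ m => b.B m.1.2 = 0 :=
    fun _ _ φ _ _ h h' q e => (b.rB φ _ _ h.1.1.1.1.2 h'.1.1.1.1.2 q.1.2).eq_of φ.zero e
  refine uzero_of_closed cl
    (Flow.uzero (τ := fun _ r m => (((m.1.1.1, m.1.1.2 * r), m.1.2), m.2)) hχ
      ⟨fun _ r m hr h => ⟨⟨⟨⟨⟨⟨⟨h.1.1.1.1.1.1.1, trivial, mul_ne_zero h.1.1.1.1.1.1.2.2 hr⟩,
        h.1.1.1.1.1.2⟩, h.1.1.1.1.2⟩, ?_, h.1.1.1.2.2⟩, h.1.1.2⟩, h.1.2⟩, h.2⟩,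
      fun _ m _ => by simp, fun _ r m hr _ => by simp [hr],
      fun _ r m hr _ => step_f_mul m hr (mul_assoc _ _ _).symm,
      fun _ _ _ _ _ _ _ hr _ _ _ q => ⟨⟨⟨q.1.1.1, q.1.1.2.mul hr⟩, q.1.2⟩, q.2⟩⟩)
    (Flow.uzero (τ := fun _ r m => (((m.1.1.1 * r, m.1.1.2), m.1.2), m.2)) hχ
      ⟨fun _ r m hr h => ⟨⟨⟨⟨⟨⟨⟨⟨trivial, mul_ne_zero h.1.1.1.1.1.1.1.2 hr⟩, h.1.1.1.1.1.1.2⟩,
        h.1.1.1.1.1.2⟩, h.1.1.1.1.2⟩, ?_, h.1.1.1.2.2⟩, h.1.1.2⟩, h.1.2⟩, h.2⟩,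
      fun _ m _ => by simp, fun _ r m hr _ => by simp [hr],
      fun _ r m hr _ => step_f_mul m hr (mul_right_comm _ _ _),
      fun _ _ _ _ _ _ _ hr _ _ _ q => ⟨⟨⟨q.1.1.1.mul hr, q.1.1.2⟩, q.1.2⟩, q.2⟩⟩)
  · have h1 := h.1.1.1.2.1
    have h2 := h.1.2
    have h3 := h.2
    dsimp only at h1 h2 h3 ⊢
    linear_combination h1 + (1 - r) * m.1.1.2 * h3 + (1 - r) * m.1.1.1 * m.1.1.2 * h2
  · have h1 := h.1.1.1.2.1
    have h2 := h.1.2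
    have h3 := (mul_eq_zero.1 h.1.1.2).resolve_left h.2
    dsimp only at h1 h2 h3 ⊢
    linear_combination h1 + (1 - r) * m.1.1.1 * h3 + (1 - r) * m.1.1.1 * m.1.1.2 * h2

/-- Parameters for the part where `B C = 0`. -/
@[reducible] def Par.om (P : Par k) (r : ℤ) : Par k where
  P := (P.P.restr (fun _ p => P.Y p ≠ 0 ∧ 1 - P.X p * P.Y p ≠ 0)
    ((P.rY.ne regF_zero).and ((regF_one.sub (P.rX.mul P.rY)).ne regF_zero)).conv).withF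
    (fun _ p => (P.Y p ^ 2 / (1 - P.X p * P.Y p)) ^ r * P.P.f p)
    (fun _ _ φ _ _ h h' q => (rel_zpow (((P.rY φ _ _ h.1 h'.1 q).pow 2).div
      (φ.one.sub ((P.rX φ _ _ h.1 h'.1 q).mul (P.rY φ _ _ h.1 h'.1 q))) h'.2.2)
      (div_ne_zero (pow_ne_zero 2 h'.2.1) h'.2.2) r).mul (P.P.reg φ _ _ h.1 h'.1 q))
    fun _ _ h => mul_ne_zero (zpow_ne_zero _ (div_ne_zero (pow_ne_zero 2 h.2.1) h.2.2))
      (P.P.ne _ h.1)
  X _ p := -P.Y p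
  Y _ p := -1 / P.Y p
  rX _ _ φ _ _ h h' q := (P.rY φ _ _ h.1 h'.1 q).neg
  rY _ _ φ _ _ h h' q := φ.one.neg.div (P.rY φ _ _ h.1 h'.1 q) h'.2.1

/-- One more invertible parameter. -/
@[reducible] def Par.gm (P : Par k) : Par k where
  P := P.P.prod (Pt.gm k)
  X _ q := P.X q.1
  Y _ q := P.Y q.1
  rX := reg_fst.regF P.rX
  rY := reg_fst.regF P.rY

theorem BlkAux.om₁ {K : Type} [Field K] {A B C D e₁ e₂ X Y : K} (det : A * D + B * C = e₁ * e₂)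
    (h1 : e₁ ≠ 0) (h2 : e₂ ≠ 0) (n : Y ≠ 0 ∧ 1 - X * Y ≠ 0) (c : A = -Y * e₁ ∧ D = -1 / Y * e₂) :
    A ≠ 0 ∧ D + X * e₂ ≠ 0 ∧ B * C = 0 ∧ ∀ z,
      Y ^ 2 / (1 - X * Y) * (z / (A / (D + X * e₂))) = z * e₂ / e₁ := by
  obtain ⟨rfl, rfl⟩ := c
  obtain ⟨hY, n⟩ := n
  have e : -1 / Y * e₂ + X * e₂ = -(1 - X * Y) * e₂ / Y := by
    field_simp
    ring
  refine ⟨mul_ne_zero (neg_ne_zero.2 hY) h1, ?_, ?_, fun z => ?_⟩
  · rw [e]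
    exact div_ne_zero (mul_ne_zero (neg_ne_zero.2 n) h2) hY
  · field_simp at det
    linear_combination det
  · rw [e]
    generalize 1 - X * Y = w at n
    field_simp

theorem BlkAux.om₂ {K : Type} [Field K] {A B C D e₁ e₂ X Y : K} (det : A * D + B * C = e₁ * e₂)
    (h1 : e₁ ≠ 0) (h2 : e₂ ≠ 0) (z : B * C = 0) (n : ¬ D + X * e₂ = 0) (c : -A = Y * e₁) :
    (Y ≠ 0 ∧ 1 - X * Y ≠ 0) ∧ A = -Y * e₁ ∧ D = -1 / Y * e₂ := by
  have e : -Y * D = e₂ := mul_left_cancel₀ h1 (by linear_combination det - z + D * c)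
  have hY : Y ≠ 0 := fun h => h2 (by rw [← e, h, neg_zero, zero_mul])
  refine ⟨⟨hY, fun h => n (mul_left_cancel₀ hY ?_)⟩, by linear_combination -c, ?_⟩
  · linear_combination -e - e₂ * h
  · field_simp
    linear_combination -e

open BlkAux

variable (b t) in
/-- The base of the family of conics. -/
@[reducible] def Blk.om (P : Par k) (r : ℤ) : Om k :=
  have l := fun ⦃K : Fld k⦄ (m : (b.tot t (P.om r)).X K) (h : (b.tot t (P.om r)).L m) =>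
    om₁ (b.det _ h.1.1) (b.n₁ _ h.1.1) (b.n₂ _ h.1.1) h.1.2.2 h.2
  { N := b.tot t (P.om r)
    γ _ m := b.C m.1 / b.A m.1
    w _ m := b.A m.1 / (b.D m.1 + P.X m.2 * b.e₂ m.1)
    ι _ m := b.totI _ m
    rγ _ _ φ _ m h h' q := (b.rC φ _ _ h.1.1 h'.1.1 q.1).div (b.rA φ _ _ h.1.1 h'.1.1 q.1) (l m h').1
    rw _ _ φ _ m h h' q := (b.rA φ _ _ h.1.1 h'.1.1 q.1).div ((b.rD φ _ _ h.1.1 h'.1.1 q.1).add
      ((P.rX φ _ _ h.1.2.1 h'.1.2.1 q.2).mul (b.r₂ φ _ _ h.1.1 h'.1.1 q.1))) (l m h').2.1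
    nw _ m h := div_ne_zero (l m h).1 (l m h).2.1
    reg := b.totI_reg t _
    inv := b.totI_inv t _
    fι := b.totI_f t _
    wι _ m h := by simp only [Blk.totI, b.Aι _ h.1.1, b.Dι _ h.1.1, b.ι₂ _ h.1.1]
    mul _ m h := by
      simp only [Blk.totI, b.Aι _ h.1.1, b.Cι _ h.1.1]
      rw [div_mul_div_comm, mul_comm (b.C _), (l m h).2.2.1, zero_div] }

theorem Blk.om_acts [CharZero F] (P : Par k) {r : ℤ} (hχ : χ.ψ r ≠ 1) (hc : c * c = 1)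
    (H₁ : b.Small t χ c) (H₂ : b.Half t χ) : ((b.om t P r).Ω r).Acts χ (b.om t P r).a c := by
  have l ⦃K : Fld k⦄ (m : (b.tot t (P.om r)).X K) (h : (b.tot t (P.om r)).L m) :=
    (om₁ (b.det _ h.1.1) (b.n₁ _ h.1.1) (b.n₂ _ h.1.1) h.1.2.2 h.2).1
  have eC ⦃K : Fld k⦄ (m : (b.tot t (P.om r)).X K) (h : (b.tot t (P.om r)).L m) :
      (b.om t P r).γ m = 0 ↔ b.C m.1 = 0 := by simp [l m h]
  have eB ⦃K : Fld k⦄ (m : (b.tot t (P.om r)).X K) (h : (b.tot t (P.om r)).L m) :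
      (b.om t P r).γ (b.totI _ m) = 0 ↔ b.B m.1 = 0 :=
    (eC _ ((b.totI_reg t _).live m h)).trans (by rw [totI, b.Cι _ h.1.1])
  refine (b.om t P r).acts r hχ
    (uzero_of_iso (S := (b.om t P r).B) (S' := (b.tot t (P.om r)).restr _ (b.closedB t _).conv)
      (e := fun _ m => m) (g := fun _ m => m)
      ⟨fun _ m h => ⟨h.1, (eB m h.1).1 h.2⟩, fun _ _ _ _ _ _ _ q => q⟩
      ⟨fun _ m h => ⟨h.1, (eB m h.1).2 h.2⟩, fun _ _ _ _ _ _ _ q => q⟩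
      (fun _ _ _ => rfl) (fun _ _ _ => rfl) (fun _ _ _ => rfl) (H₂ _)) hc ?_
  have p : ((b.om t P r).T₀ r).Reg ((b.tot t (P.om r).gm).restr _ (b.closedBC t _).conv)
      fun _ z => (z.1.1, z.1.2, z.2) :=
    ⟨fun _ z h => ⟨⟨⟨h.1.1.1.1.1.1.1, h.1.1.1.1.1.1.2, trivial, h.1.2⟩, h.1.1.1.1.1.2⟩,
      (eB _ h.1.1.1.1.1).1 h.1.1.1.1.2, (eC _ h.1.1.1.1.1).1 h.2⟩,
      fun _ _ _ _ _ _ _ q => ⟨q.1.1, q.1.2, q.2⟩⟩
  have p' : ((b.tot t (P.om r).gm).restr _ (b.closedBC t _).conv).Reg ((b.om t P r).T₀ r)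
      fun _ z => ((z.1, z.2.1), z.2.2) :=
    ⟨fun _ z h => have n : (b.tot t (P.om r)).L (z.1, z.2.1) := ⟨⟨h.1.1.1, h.1.1.2.1⟩, h.1.2⟩
      ⟨⟨⟨⟨⟨n, (eB _ n).2 h.2.1⟩, trivial⟩, by simp [show b.C z.1 = 0 from h.2.2]⟩,
        h.1.1.2.2.2⟩, (eC _ n).2 h.2.2⟩, fun _ _ _ _ _ _ _ q => ⟨⟨q.1, q.2.1⟩, q.2.2⟩⟩
  have f ⦃K : Fld k⦄ (z : ((b.om t P r).T₀ r).X K) (h : ((b.om t P r).T₀ r).L z) :
      (b.tot t (P.om r).gm).f (z.1.1, z.1.2, z.2) = ((b.om t P r).T₀ r).f z := by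
    simp [(p.live z h).2.2]
  have g := (p.comp (S'' := (b.tot t (P.om r).gm).restr _ (b.closedBC t _).conv)
    ⟨b.totI_liveBC t _, fun _ _ φ x y h h' => (b.totI_reg t _).reg φ x y h.1 h'.1⟩).comp p'
  exact .of_iso (S := (b.om t P r).T₀ r)
    (S' := (b.tot t (P.om r).gm).restr _ (b.closedBC t _).conv) (a' := fun _ m => b.totI _ m) p p' f
    (fun _ _ _ => rfl) (fun _ _ _ => rfl)
    (.of_inv g g (fun _ z h => (f _ (g.live z h)).symm.trans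
      ((b.totI_f t (P.om r).gm _ (p.live z h).1).trans (f z h)))
      fun _ z h => Prod.ext (b.totI_inv t _ _ h.1.1.1.1.1) rfl) g.live (fun _ _ _ => rfl) (H₁ _)

theorem Blk.deg_om [CharZero F] (hχ : χ.ψ (t + s : ℤ) ≠ 1) (hc : c * c = 1) (H₁ : b.Small t χ c)
    (H₂ : b.Half t χ) (P : Par k) :
    (b.deg s t P).Acts χ ((b.step t).totI P) c := by
  have l ⦃K : Fld k⦄ (m : (b.tot t (P.om (t + s))).X K) (h : (b.tot t (P.om (t + s))).L m) :=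
    om₁ (b.det _ h.1.1) (b.n₁ _ h.1.1) (b.n₂ _ h.1.1) h.1.2.2 h.2
  have l' ⦃K : Fld k⦄ (m : ((b.deg s t P).restr _ (b.closedK s t P).not.conv).X K)
      (h : ((b.deg s t P).restr _ (b.closedK s t P).not.conv).L m) :=
    om₂ (b.det _ h.1.1.1.1.2) (b.n₁ _ h.1.1.1.1.2) (b.n₂ _ h.1.1.1.1.2) h.1.2 h.2 h.1.1.2.2
  have n ⦃K : Fld k⦄ (m : ((b.deg s t P).restr _ (b.closedK s t P).not.conv).X K)
      (h : ((b.deg s t P).restr _ (b.closedK s t P).not.conv).L m) :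
      (b.tot t (P.om (t + s))).L (m.1.2, m.2) :=
    ⟨⟨h.1.1.1.1.2, h.1.1.1.2, (l' m h).1⟩, (l' m h).2⟩
  have st ⦃K : Fld k⦄ (m : ((b.step t).tot s P).X K) (h : ((b.step t).tot s P).L m) :
      b.B m.1.2 * b.C m.1.2 = 0 ↔ b.B (b.ι m.1.2) * b.C (b.ι m.1.2) = 0 := by
    rw [b.Bι _ h.1.1.2, b.Cι _ h.1.1.2, mul_comm]
  have st' ⦃K : Fld k⦄ (m : (b.deg s t P).X K) (h : (b.deg s t P).L m) :
      b.D m.1.2 + P.X m.2 * b.e₂ m.1.2 = 0 ↔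
        b.D (b.ι m.1.2) + P.X m.2 * b.e₂ (b.ι m.1.2) = 0 := by
    rw [b.Dι _ h.1.1.1.2, b.ι₂ _ h.1.1.1.2]
  have ha : IsMap (b.deg s t P) (b.deg s t P) ((b.step t).totI P) :=
    ((b.step t).totI_map s P).restr _ _ fun _ m hm _ => st m hm
  have la ⦃K : Fld k⦄ (m : (b.deg s t P).X K) (h : (b.deg s t P).L m) :
      (b.deg s t P).L ((b.step t).totI P m) :=
    ⟨((b.step t).totI_reg s P).live m h.1, (st m h.1).1 h.2⟩
  have eq {K : Fld k} {x : b.S.X K} {p : P.P.X K} (h : (b.tot t (P.om (t + s))).L (x, p))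
      (u v : K) : 1 - b.C x / b.A x * u - b.C (b.ι x) / b.A (b.ι x) * v =
        u * v / (b.A x / (b.D x + P.X p * b.e₂ x)) ↔
      b.A x - b.C x * u - b.B x * v - b.D x * (u * v) = P.X p * (u * v * b.e₂ x) := by
    have h1 : b.A x ≠ 0 := (l _ h).1
    have h2 : b.D x + P.X p * b.e₂ x ≠ 0 := (l _ h).2.1
    rw [b.Cι _ h.1.1, b.Aι _ h.1.1]
    field_simp
    constructor <;> intro e <;> linear_combination e
  refine .of_closed ha la (fun _ m h => (b.step t).totI_inv s P m h.1) hc (b.closedK s t P)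
    (.of_uzero (ha.restr _ _ fun _ m hm _ => st' m hm) (deg_zero hχ P))
    (.of_iso (S := (b.deg s t P).restr _ (b.closedK s t P).not.conv)
      (S' := (b.om t P (t + s)).Ω (t + s)) (a' := fun _ z => (b.om t P (t + s)).a z)
      (e := fun _ m => ((m.1.2, m.2), m.1.1)) (g := fun _ z => ((z.2, z.1.1), z.1.2))
      ⟨fun _ m h => ⟨⟨n m h, h.1.1.1.1.1⟩, (eq (n m h) _ _).2 h.1.1.2.1⟩,
        fun _ _ _ _ _ _ _ q => ⟨⟨q.1.2, q.2⟩, q.1.1⟩⟩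
      ⟨fun _ z h => ⟨⟨⟨⟨⟨h.1.2, h.1.1.1.1⟩, h.1.1.1.2.1⟩, (eq h.1.1 _ _).1 h.2, ?_⟩,
        (l _ h.1.1).2.2.1⟩, (l _ h.1.1).2.1⟩, fun _ _ _ _ _ _ _ q => ⟨⟨q.2, q.1.1⟩, q.1.2⟩⟩
      (fun _ m h => ?_) (fun _ _ _ => rfl) (fun _ _ _ => rfl)
      (ha.restr _ _ fun _ m hm _ => (st' m hm).not)
      (fun _ m h => ⟨la m h.1, (st' m h.1).not.1 h.2⟩) (fun _ _ _ => rfl)
      (om_acts P hχ hc H₁ H₂)) fun _ m h => (st' m h).1
  · have := h.1.1.2.1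
    dsimp only at this ⊢
    linear_combination -this
  · rw [show ((b.deg s t P).restr _ (b.closedK s t P).not.conv).f m = _ from step_f m h.1.1,
      ← (l _ (n m h)).2.2.2, mul_zpow]
    dsimp only
    ring

theorem Blk.step_claim [CharZero F] (hχ : χ.ψ (t + s : ℤ) ≠ 1) (hc : c * c = 1)
    (H : b.Claim t χ c) (H₁ : b.Small t χ (-c)) (H₂ : b.Half t χ) :
    (b.step t).Claim s χ (-c) := fun P =>
  .of_closed ((b.step t).totI_map s P) ((b.step t).totI_reg s P).live ((b.step t).totI_inv s P)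
    (by rwa [neg_mul_neg]) (b.closedM s t P) (deg_om hχ (by rwa [neg_mul_neg]) H₁ H₂ P)
    (step_big hχ H P) fun _ m h e => by
      change b.B (b.ι m.1.2) * b.C (b.ι m.1.2) = 0
      rwa [b.Bι _ h.1.1.2, b.Cι _ h.1.1.2, mul_comm]

end

end Pool.Agent.Lib.MP_fc2ced_ag.T
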