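import Pool.Agent.Lib.MP_fc2ced_ag.T.Word
import Pool.Agent.Lib.MP_fc2ced_ag.T.BlkB

/-! The reversal of a word acts by a sign. -/

open CategoryTheory Function

namespace Pool.Agent.Lib.MP_fc2ced_ag.T

open K

noncomputable section

variable {k : Type} [Field k] {F : Type} [Field F] [CharZero F] {χ : Chr k F}

open Pt

omit [CharZero F] in
theorem wb_step (m : ℕ) (β : ℕ → ℤ) (s : ℤ) (c c' : F) :
    ((wb k m β).step (β (m + 1))).Claim s χ c ∧ ((wb k m β).step (β (m + 1))).Small s χ c' ∧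
      ((wb k m β).step (β (m + 1))).Half s χ → (wb k (m + 1) β).Claim s χ c ∧
      (wb k (m + 1) β).Small s χ c' ∧ (wb k (m + 1) β).Half s χ := by
  refine Blk.of_iso (b := (wb k m β).step (β (m + 1))) (b' := wb k (m + 1) β)
    (e := fun _ z => ((z (-(m + 1)), z (m + 1)), fun j => if j.natAbs ≤ m then z j else 0))
    (e' := fun _ x j => if j = -(m + 1) then x.1.1 else if j = m + 1 then x.1.2 else x.2 j)
    ⟨fun _ z h => ⟨⟨⟨trivial, h.1 _ (by omega)⟩, trivial, h.1 _ (by omega)⟩,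
      fun j hj => (if_pos hj).trans_ne (h.1 j (by omega)), fun j hj => if_neg (by omega)⟩,
      fun _ _ φ _ _ _ _ q => ⟨⟨q _, q _⟩, fun j => ?_⟩⟩
    ⟨fun _ x h => ⟨fun j hj => ?_, fun j hj => ?_⟩, fun _ _ φ _ _ _ _ q j => ?_⟩
    (fun K z h => ?_) (fun K x h => ?_) s c c'
  · dsimp only
    split_ifs
    exacts [q j, φ.zero]
  · dsimp only
    split_ifs
    exacts [h.1.1.2, h.1.2.2, h.2.1 j (by omega)]
  · dsimp only
    rw [if_neg (by omega), if_neg (by omega)]
    exact h.2.2 j (by omega)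
  · dsimp only
    split_ifs
    exacts [q.1.1, q.1.2, q.2 j]
  · obtain ⟨h1, h2, h3, h4⟩ := w_congr (β := β) (z := z)
      (z' := fun j => if j.natAbs ≤ m then z j else 0) fun j hj => if_pos hj
    refine ⟨funext fun j => ?_, ?_, Prod.ext (Prod.ext (by simp) (by simp)) (funext fun j => ?_),
      ?_⟩
    · dsimp only
      split_ifs with a b c
      exacts [a ▸ rfl, b ▸ rfl, rfl, (h.2 j (by omega)).symm]
    · simp only [h4, wF_succ]
    · simp only [Int.natAbs_neg]
    · simp only [h1, h2, h3, wG_succ, w₁_succ, w₂_succ, Matrix.of_apply, Matrix.cons_val',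
        Matrix.cons_val_zero, Matrix.cons_val_one, Matrix.cons_val_fin_one, and_true]
      refine ⟨?_, ?_, ?_⟩ <;> ring
  · refine Prod.ext (Prod.ext (if_pos rfl) ?_) (funext fun j => ?_) <;> dsimp only
    · rw [if_neg (by omega), if_pos rfl]
    · split_ifs with a b c
      exacts [by omega, by omega, rfl, (h.2.2 j (by omega)).symm]

theorem wb_all (m : ℕ) (β : ℕ → ℤ) (s : ℤ) (hs : 0 < m → χ.ψ (β m + s : ℤ) ≠ 1)
    (hβ : ∀ j, 0 < j → j < m → χ.ψ (β j + β (j + 1) : ℤ) ≠ 1) :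
    (wb k m β).Claim s χ ((-1) ^ m) ∧ (wb k m β).Small s χ (-(-1) ^ m) ∧ (wb k m β).Half s χ := by
  induction m generalizing s with
  | zero =>
    have e {K : Fld k} (z : ℤ → K) : wG 0 z 0 1 ≠ 0 := by simp [wG_zero]
    refine ⟨fun P => ?_, fun P => .of_uzero (Blk.totI_mapBC _ s P)
      (uzero_empty fun _ _ h => e _ h.2.1), fun P => uzero_empty fun _ _ h => e _ h.2⟩
    rw [pow_zero]
    refine .of_fix fun _ x h => Prod.ext (funext fun j => ?_) rfl
    by_cases hj : j = 0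
    · simp [Blk.totI, hj]
    · exact (h.1.1.2 _ (by omega)).trans (h.1.1.2 _ (by omega)).symm
  | succ m ih =>
    obtain ⟨H, H₁, H₂⟩ := ih (β (m + 1)) (fun h => hβ m h m.lt_succ_self)
      fun j h h' => hβ j h (by omega)
    refine wb_step m β s _ _ ⟨?_, ?_, Blk.step_half (hs m.succ_pos)⟩
    · rw [pow_succ, mul_neg_one]
      exact Blk.step_claim (hs m.succ_pos) (by rw [← mul_pow]; simp) H H₁ H₂
    · rw [pow_succ, mul_neg_one, neg_neg]
      exact Blk.step_small H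

theorem wb_claim (m : ℕ) (β : ℕ → ℤ) (s : ℤ) (hs : 0 < m → χ.ψ (β m + s : ℤ) ≠ 1)
    (hβ : ∀ j, 0 < j → j < m → χ.ψ (β j + β (j + 1) : ℤ) ≠ 1) :
    (wb k m β).Claim s χ ((-1) ^ m) := (wb_all m β s hs hβ).1

end

end Pool.Agent.Lib.MP_fc2ced_ag.T
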