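import Pool.Agent.Lib.MP_fc2ced_ag.T.Geo

/-! Permutations of the coordinates, and the vanishing statements of the norm trick. -/

open CategoryTheory hiding forget
open Function Polynomial

namespace Pool.Agent.Lib.MP_fc2ced_ag.T

open K

noncomputable section

section Aux
open Pt hiding X

theorem prod_two {α M : Type} [Fintype α] [CommMonoid M] {u v : α → M} {a b : α} (hab : a ≠ b)
    (h : ∀ c, c ≠ a → c ≠ b → v c = u c) (e : v a * v b = u a * u b) : ∏ c, v c = ∏ c, u c := by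
  classical
  have h1 (u : α → M) : ∏ c, u c = u a * u b * ∏ c ∈ (Finset.univ.erase a).erase b, u c := by
    rw [mul_assoc, Finset.mul_prod_erase _ _ (by simp [hab.symm]),
      Finset.mul_prod_erase _ _ (by simp)]
  rw [h1 u, h1 v, e, Finset.prod_congr rfl fun c hc => h c (by simp_all) (by simp_all)]

theorem perm_ind {α β : Type} [Fintype α] [DecidableEq α] (b : α → β) {p : Equiv.Perm α → Prop}
    (one : p 1) (step : ∀ σ i j, i ≠ j → b i = b j → p σ → p (Equiv.swap i j * σ))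
    (σ : Equiv.Perm α) (h : ∀ i, b (σ i) = b i) : p σ := by
  induction hm : σ.support.card using Nat.strong_induction_on generalizing σ with
  | _ m ih =>
    by_cases h1 : σ = 1
    · exact h1 ▸ one
    obtain ⟨i, hi⟩ : ∃ i, σ i ≠ i := by
      by_contra! hc
      exact h1 (Equiv.ext hc)
    have h2 := step _ i (σ i) hi.symm (h i).symm (ih _ (hm ▸ Equiv.Perm.card_support_swap_mul hi)
      (Equiv.swap i (σ i) * σ) (fun c => ?_) rfl)
    · rwa [Equiv.swap_mul_self_mul] at h2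
    · rw [Equiv.Perm.mul_apply, ← h c, Equiv.swap_apply_def]
      split_ifs with h3 h4
      · rw [h, h3]
      · rw [h4, h]
      · rfl

theorem chiA_top {K : Type} [Field K] {n w : ℕ} (x : Fin w → Fin n → K) :
    chiA x w = ∏ a, (X - C (∏ i, x a i)) := by simp [chiA]

theorem chiA_coeff {K : Type} [Field K] {n w : ℕ} (x : Fin w → Fin n → K) :
    (chiA x w).coeff 0 = (-1) ^ w * ∏ y : Fin w × Fin n, x y.1 y.2 := by
  rw [chiA_top, coeff_zero_eq_eval_zero, eval_prod, Fintype.prod_prod_type]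
  simp only [eval_sub, eval_X, eval_C, zero_sub, Finset.prod_neg, Finset.card_univ,
    Fintype.card_fin]

section Bump
variable {K : Type} [Field K] {n w : ℕ} {g : ℤ → ℕ → K}

/-- One coefficient of the recurrence is changed. -/
def bump (n w : ℕ) (r : K) (g : ℤ → ℕ → K) (i : ℤ) (l : ℕ) : K :=
  if l = 1 ∧ (n : ℤ) ∣ i then g i l + (r - 1) * ∑ m ∈ Finset.range (w + 1), g i m else g i l

theorem bump_of_ne (r : K) (i : ℤ) {l : ℕ} (h : l ≠ 1) : bump n w r g i l = g i l :=
  if_neg fun e => h e.1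

theorem bump_band (h : Band n w g) (hw : 2 ≤ w) (r : K) : Band n w (bump n w r g) where
  per i l := by simp only [bump, h.per, dvd_add_self_right]
  one i := (bump_of_ne r i zero_ne_one).trans (h.one i)
  top i := (bump_of_ne r i (by omega)).trans_ne (h.top i)
  zero i l hl := (bump_of_ne r i (by omega)).trans (h.zero i l hl)

theorem bump_one : bump n w 1 g = g := by funext i l; simp [bump]

theorem sum_bump (hw : 2 ≤ w) (r : K) (i : ℤ) : ∑ m ∈ Finset.range (w + 1), bump n w r g i m =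
    (if (n : ℤ) ∣ i then r else 1) * ∑ m ∈ Finset.range (w + 1), g i m := by
  have h1 : 1 ∈ Finset.range (w + 1) := Finset.mem_range.2 (by omega)
  split_ifs with h
  · rw [← Finset.add_sum_erase _ _ h1, Finset.sum_congr rfl fun m hm =>
      bump_of_ne r i (Finset.ne_of_mem_erase hm), bump, if_pos ⟨rfl, h⟩,
      add_right_comm, Finset.add_sum_erase _ _ h1]
    ring
  · simp [bump, h]

theorem bump_inv (hw : 2 ≤ w) {r : K} (hr : r ≠ 0) : bump n w r⁻¹ (bump n w r g) = g := by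
  funext i l
  rw [bump, sum_bump hw, bump]
  split_ifs with h1 h2
  · field_simp
    ring
  · exact absurd h1.2 h2
  · rfl

/-- The change of one coefficient, on flags with only one member. -/
def bumpF (n w : ℕ) (r : K) (x : ℕ → Sp K) (i : ℕ) : Sp K :=
  if i = w then Sol w (bump n w r (coef n w (x w))) else ⊥

variable {x : ℕ → Sp K} {r : K}

theorem bumpF_top (r : K) : bumpF n w r x w = Sol w (bump n w r (coef n w (x w))) := if_pos rfl

theorem Flag.dU_bumpF (h : Flag n w ∅ x) (hw : 2 ≤ w) (r : K) (i : ℤ) :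
    dU n w (bumpF n w r x w) i = (if (n : ℤ) ∣ i then r else 1) * dU n w (x w) i := by
  rw [bumpF_top, dU_apply, dU_apply, (bump_band h.rel.band hw r).coef_sol, sum_bump hw]

theorem Flag.bumpF_flag (h : Flag n w ∅ x) (hw : 2 ≤ w) (hr : r ≠ 0) :
    Flag n w ∅ (bumpF n w r x) :=
  ⟨⟨bumpF_top r ▸ (bump_band h.rel.band hw r).rel, fun i => by
    rw [h.dU_bumpF hw]
    exact mul_ne_zero (by split_ifs; exacts [hr, one_ne_zero]) (h.trel.2 i)⟩,
    by simp, by simp, by simp, by simp, fun _ _ e => if_neg e⟩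

theorem Flag.bumpF_one (h : Flag n w ∅ x) : bumpF n w 1 x = x := by
  funext i
  rw [bumpF, bump_one, ← h.rel.eq_sol]
  split_ifs with e
  · rw [e]
  · exact (h.bot i (by simp) e).symm

theorem Flag.bumpF_inv (h : Flag n w ∅ x) (hw : 2 ≤ w) (hr : r ≠ 0) :
    bumpF n w r⁻¹ (bumpF n w r x) = x := by
  funext i
  rw [bumpF, bumpF_top, (bump_band h.rel.band hw r).coef_sol, bump_inv hw hr, ← h.rel.eq_sol]
  split_ifs with e
  · rw [e]
  · exact (h.bot i (by simp) e).symm

theorem Flag.fU_bumpF [Ex n] (h : Flag n w ∅ x) (hw : 2 ≤ w) (r : K) :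
    fU n w (bumpF n w r x w) = fU n w (x w) * r ^ (-Ex.b (0 : Fin n)) := by
  simp only [fU, h.dU_bumpF hw, mul_zpow, Finset.prod_mul_distrib]
  rw [Finset.prod_eq_single 0 (fun i _ hi => by
    rw [if_neg fun e => hi (Fin.ext (Nat.eq_zero_of_dvd_of_lt (Int.natCast_dvd_natCast.1 e) i.2)),
      one_zpow]) (by simp), if_pos (by simp), mul_comm]

theorem Flag.chi_bumpF (h : Flag n w ∅ x) (hw : 2 ≤ w) (r : K) :
    (chi n (bumpF n w r x w)).coeff 0 = (chi n (x w)).coeff 0 := by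
  rw [bumpF_top, (bump_band h.rel.band hw r).chi_sol_coeff]
  conv_rhs => rw [h.rel.eq_sol, h.rel.band.chi_sol_coeff]
  simp only [bump_of_ne r _ (show w ≠ 1 by omega)]

end Bump

theorem gr_bumpF {k : Type} [Field k] {K K' : Fld k} {φ : Place K K'} {n w : ℕ} {x : ℕ → Sp K}
    {y : ℕ → Sp K'} (hx : Flag n w ∅ x) (hy : Flag n w ∅ y) (hw : 2 ≤ w) (h : φ.GR (x w) (y w))
    {r : K} {r' : K'} (hr : φ r r') (i : ℕ) : φ.GR (bumpF n w r x i) (bumpF n w r' y i) := by
  simp only [bumpF]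
  split_ifs
  · refine Place.CR.sol (fun i l => ?_) (bump_band hx.rel.band hw r) (bump_band hy.rel.band hw r')
    simp only [bump]
    split_ifs
    exacts [(h.coef hx.rel hy.rel i l).add ((hr.sub φ.one).mul
      (Place.sum fun m _ => h.coef hx.rel hy.rel i m)), h.coef hx.rel hy.rel i l]
  · exact .bot

end Aux

variable {k : Type} [Field k] {F : Type} [Field F] {χ : Chr k F} {n : ℕ} [Ex n] {w j l : ℕ}
  {I : Finset ℕ} {P : Pt k} {T : PC P}

open Pt Place

/-- The entries at `u` and `v` are replaced. -/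
def rep2 {K : Type} (u v : Fin w × Fin n) (x : Fin w → Fin n → K) (s t : K) (c : Fin w)
    (i : Fin n) : K := if (c, i) = u then s else if (c, i) = v then t else x c i

theorem swap_coord {u v : Fin w × Fin n} (ne : u ≠ v) (hb : Ex.b u.2 = Ex.b v.2)
    (hT : ∀ ⦃K : Fld k⦄ (x : Fin w → Fin n → K) (s t : K) (p : P.X K),
      s * t = x u.1 u.2 * x v.1 v.2 → T.T (chiA x) p → T.T (chiA (rep2 u v x s t)) p) :
    ((Av k n w).over T).Swap (-Ex.b u.2) (fun _ x => 1 - x.1 u.1 u.2) (fun _ x => 1 - x.1 v.1 v.2)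
      (fun _ _ => -1) fun _ x s t => (rep2 u v x.1 (1 - s) (1 - t), x.2) := by
  have ea {K : Fld k} (x : Fin w → Fin n → K) (s t : K) : rep2 u v x s t u.1 u.2 = s := by
    simp [rep2]
  have eb {K : Fld k} (x : Fin w → Fin n → K) (s t : K) : rep2 u v x s t v.1 v.2 = t := by
    simp [rep2, ne.symm]
  have ec {K : Fld k} (x : Fin w → Fin n → K) (s t : K) (y : Fin w × Fin n) (h : y ≠ u)
      (h' : y ≠ v) : rep2 u v x s t y.1 y.2 = x y.1 y.2 := by
    rw [rep2, if_neg h, if_neg h']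
  have self {K : Fld k} (x y : Fin w → Fin n → K)
      (h : ∀ z : Fin w × Fin n, z ≠ u → z ≠ v → y z.1 z.2 = x z.1 z.2) :
      rep2 u v y (x u.1 u.2) (x v.1 v.2) = x := by
    funext c j
    simp only [rep2]
    split_ifs with h1 h2
    · rw [← h1]
    · rw [← h2]
    · exact h (c, j) h1 h2
  have ne1 {K : Fld k} (x : ((Av k n w).over T).X K) (h : ((Av k n w).over T).L x)
      (y : Fin w × Fin n) : 1 - x.1 y.1 y.2 ≠ 0 := sub_ne_zero.2 ((h.1.1 _).2 _).2.symm
  refine ⟨fun _ _ φ _ _ _ _ r => φ.one.sub (r.1 _ _), fun _ _ φ _ _ _ _ r => φ.one.sub (r.1 _ _),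
    regF_one.neg, fun _ x h => mul_ne_zero (ne1 x h u) (ne1 x h v),
    fun K x _ => Prod.ext ?_ rfl, fun K x s t h h1 e => ?_,
    fun K K' φ x y s t s' t' _ _ r hs ht _ _ => ⟨fun c j => ?_, r.2⟩⟩
  · simp only [sub_sub_cancel]
    exact self x.1 x.1 fun _ _ _ => rfl
  · have e' : (1 - s) * (1 - t) = x.1 u.1 u.2 * x.1 v.1 v.2 := by linear_combination -e
    have h0 : (1 - s) * (1 - t) ≠ 0 := e' ▸ mul_ne_zero ((h.1.1 _).2 _).1 ((h.1.1 _).2 _).1
    refine ⟨⟨⟨fun c => ⟨fun _ => trivial, fun j => ?_⟩, h.1.2⟩, hT _ _ _ _ e' h.2⟩, ?_, ?_, rfl, ?_,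
      Prod.ext ?_ rfl⟩
    · simp only [rep2]
      split_ifs
      exacts [⟨left_ne_zero_of_mul h0, by simpa using left_ne_zero_of_mul h1⟩,
        ⟨right_ne_zero_of_mul h0, by simpa using right_ne_zero_of_mul h1⟩, (h.1.1 c).2 j]
    · simp only [ea, sub_sub_cancel]
    · simp only [eb, sub_sub_cancel]
    · change (∏ c, ∏ j, (1 - rep2 u v x.1 (1 - s) (1 - t) c j) ^ (-Ex.b j)) * P.f x.2 =
        (∏ c, ∏ j, (1 - x.1 c j) ^ (-Ex.b j)) * P.f x.2 * _
      rw [← Fintype.prod_prod_type', ← Fintype.prod_prod_type', mul_right_comm]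
      congr 1
      have h2 := prod_two (u := fun y : Fin w × Fin n => (1 - x.1 y.1 y.2) ^ (-Ex.b y.2) *
          if y = u then (s * t / ((1 - x.1 u.1 u.2) * (1 - x.1 v.1 v.2))) ^ (-Ex.b u.2) else 1)
        (v := fun y => (1 - rep2 u v x.1 (1 - s) (1 - t) y.1 y.2) ^ (-Ex.b y.2)) ne
        (fun y h2 h3 => by rw [ec _ _ _ y h2 h3, if_neg h2, mul_one]) (by
          rw [ea, eb, if_pos rfl, if_neg ne.symm, ← hb, mul_one, ← mul_zpow, ← mul_zpow,
            ← mul_zpow, sub_sub_cancel, sub_sub_cancel, mul_right_comm,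
            mul_div_cancel₀ _ (mul_ne_zero (ne1 x h u) (ne1 x h v))])
      rw [h2, Finset.prod_mul_distrib, Finset.prod_ite_eq', if_pos (Finset.mem_univ _)]
    · simp only [sub_sub_cancel]
      exact self x.1 _ (ec x.1 _ _)
  · simp only [rep2]
    split_ifs
    exacts [φ.one.sub hs, φ.one.sub ht, r.1 c j]

variable (χ T) in
/-- The permutations of the coordinates that act by their signs. -/
def sgnActs : Submonoid (Equiv.Perm (Fin w × Fin n)) where
  carrier := {π | (∀ ⦃K⦄ (x : ((Av k n w).over T).X K), ((Av k n w).over T).L x →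
      ((Av k n w).over T).L (K := K) (fun c i => x.1 (π (c, i)).1 (π (c, i)).2, x.2)) ∧
    ((Av k n w).over T).Acts χ (fun _ x => (fun c i => x.1 (π (c, i)).1 (π (c, i)).2, x.2))
      ((Equiv.Perm.sign π : ℤ) : F)}
  one_mem' := ⟨fun _ _ h => h, by simpa using Acts.of_fix fun _ _ _ => rfl⟩
  mul_mem' h h' := ⟨fun _ x a => h'.1 _ (h.1 x a),
    h.2.comp h'.2 h.1 (fun _ _ _ => rfl) (by simp)⟩

theorem swap_mem (hχ : χ.Gen n) {u v : Fin w × Fin n} (ne : u ≠ v) (hb : Ex.b u.2 = Ex.b v.2)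
    (hT : ∀ ⦃K : Fld k⦄ (x : Fin w → Fin n → K) (s t : K) (p : P.X K),
      s * t = x u.1 u.2 * x v.1 v.2 → T.T (chiA x) p → T.T (chiA (rep2 u v x s t)) p) :
    Equiv.swap u v ∈ sgnActs χ T := by
  have e {K : Fld k} (x : Fin w → Fin n → K) : (fun c i => x (Equiv.swap u v (c, i)).1
      (Equiv.swap u v (c, i)).2) = rep2 u v x (x v.1 v.2) (x u.1 u.2) := by
    funext c i
    simp only [rep2, Equiv.swap_apply_def]
    split_ifs <;> rfl
  refine ⟨fun K x h => ?_, ?_⟩
  · rw [e]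
    have := ((swap_coord ne hb hT).spec x _ _ h
      (mul_comm (1 - x.1 u.1 u.2) _ ▸ (swap_coord ne hb hT).ne x h) (by ring)).1
    rwa [sub_sub_cancel, sub_sub_cancel] at this
  · simp only [e, Equiv.Perm.sign_swap ne]
    simpa using (swap_coord ne hb hT).acts (hχ.neg _)

theorem extend_mem (hχ : χ.Gen n) (a : Fin w) (σ : Equiv.Perm (Fin n))
    (hσ : ∀ i, Ex.b (σ i) = Ex.b i) : Equiv.Perm.prodExtendRight a σ ∈ sgnActs χ T := by
  refine perm_ind (Ex.b (n := n)) (p := fun σ => Equiv.Perm.prodExtendRight a σ ∈ sgnActs χ T) ?_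
    (fun σ i j hij hb ih => ?_) σ hσ
  · rw [show Equiv.Perm.prodExtendRight a (1 : Equiv.Perm (Fin n)) = 1 from
      Equiv.ext fun ⟨c, l⟩ => by simp +contextual [Equiv.Perm.prodExtendRight, eq_comm]]
    exact one_mem _
  · have e : Equiv.Perm.prodExtendRight a (Equiv.swap i j * σ) =
        Equiv.swap (a, i) (a, j) * Equiv.Perm.prodExtendRight a σ := Equiv.ext fun ⟨c, l⟩ => by
      by_cases h : c = a
      · subst h
        simp only [Equiv.Perm.prodExtendRight_apply_eq, Equiv.Perm.mul_apply, Equiv.swap_apply_def,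
          Prod.mk.injEq, true_and]
        split_ifs <;> rfl
      · simp [Equiv.Perm.prodExtendRight_apply_ne _ h, Equiv.swap_apply_def, h]
    rw [e]
    refine mul_mem (swap_mem hχ (by simpa using hij) hb fun K x s t p h => ?_) ih
    suffices ∀ c, ∏ l, rep2 (a, i) (a, j) x s t c l = ∏ l, x c l by
      rw [show chiA (rep2 (a, i) (a, j) x s t) = chiA x from funext fun m => by
        simp only [chiA, this]]
      exact id
    intro c
    by_cases hc : c = a
    · subst hc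
      exact prod_two hij (fun l h1 h2 => by simp [rep2, h1, h2]) (by simpa [rep2, hij.symm] using h)
    · simp [rep2, hc]

/-- The same permutation of the coordinates of all operators. -/
theorem acts_diag (hχ : χ.Gen n) (T : PC P) (σ : Equiv.Perm (Fin n))
    (hσ : ∀ i, Ex.b (σ i) = Ex.b i) :
    ((Av k n w).over T).Acts χ (fun _ x => (fun a i => x.1 a (σ i), x.2))
      (((Equiv.Perm.sign σ : ℤ) : F) ^ w) := by
  have : Equiv.prodCongrRight (fun _ : Fin w => σ) ∈ sgnActs χ T := by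
    rw [← Equiv.Perm.prod_prodExtendRight _ (Finset.nodup_toList Finset.univ) (by simp)]
    refine list_prod_mem fun π hπ => ?_
    obtain ⟨a, -, rfl⟩ := List.mem_map.1 hπ
    exact extend_mem hχ a σ hσ
  simpa [Equiv.Perm.sign_prodCongrRight] using this.2

section
variable (hχ : χ.Gen n) (hT : ∀ ⦃K : Fld k⦄ (c c' : ℕ → K[X]) (p : P.X K),
  (c w).coeff 0 = (c' w).coeff 0 → T.T c p → T.T c' p)
include hχ hT

theorem all_mem (π : Equiv.Perm (Fin w × Fin n)) (hπ : ∀ y, Ex.b (π y).2 = Ex.b y.2) :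
    π ∈ sgnActs χ T := by
  refine perm_ind (fun y : Fin w × Fin n => Ex.b y.2) (p := (· ∈ sgnActs χ T)) (one_mem _)
    (fun π u v ne hb ih => ?_) π hπ
  · refine mul_mem (swap_mem hχ ne hb fun K x s t p h => hT _ _ p ?_) ih
    rw [chiA_coeff, chiA_coeff, prod_two (u := fun y : Fin w × Fin n => x y.1 y.2)
      (v := fun y => rep2 u v x s t y.1 y.2) ne (fun y h1 h2 => by simp [rep2, h1, h2])
      (by simpa [rep2, ne.symm] using h)]

theorem acts_swap {a b : Fin w} (h : a ≠ b) :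
    ((Av k n w).over T).Acts χ (fun _ x => (pm (Equiv.swap a b) x.1, x.2)) ((-1) ^ n) := by
  have := (all_mem hχ hT (Equiv.prodCongrLeft fun _ : Fin n => Equiv.swap a b) fun _ => rfl).2
  rw [show (((Equiv.Perm.sign (Equiv.prodCongrLeft fun _ : Fin n => Equiv.swap a b) : ℤˣ) : ℤ) : F) =
    (-1) ^ n by simp [Equiv.Perm.sign_prodCongrLeft, Equiv.Perm.sign_swap h]] at this
  exact this

theorem null_eI [CharZero F] (hw : 2 ≤ w) : Null (eI χ n w ∅ T) := by
  have d : T.Dep (JI w ∅) := fun _ c c' p e => hT c c' p (by rw [e w (.inr rfl)])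
  have ne : (⟨0, by omega⟩ : Fin w) ≠ ⟨1, by omega⟩ := by simp
  obtain ⟨h1, h2⟩ := acts_swap (n := n) hχ hT ne
  have h3 := h2.comp (eI χ n w ∅ T)
  rw [← h1.hm_eq, Preadditive.sub_comp, Linear.smul_comp, Category.id_comp] at h3
  erw [pm_eI d (young_empty w ▸ Subgroup.mem_top _)] at h3
  rw [eps_swap ne, ← sub_smul] at h3
  have h4 : ((-1 : F) ^ (n + 1) - (-1) ^ n) ≠ 0 := by
    rw [pow_succ, ← mul_sub_one]
    exact mul_ne_zero (pow_ne_zero _ (by norm_num)) (by norm_num)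
  simpa [smul_smul, h4] using h3.smul ((-1 : F) ^ (n + 1) - (-1) ^ n)⁻¹

theorem uzero_norm (hw : 2 ≤ w) : UZero (((Zv k n w ∅).over T).E χ) :=
  Flow.uzero (hχ.neg 0) (τ := fun _ r x => (bumpF n w r x.1, x.2))
    ⟨fun _ r x hr h => ⟨⟨h.1.1.bumpF_flag hw hr, h.1.2⟩,
        hT _ _ _ (h.1.1.chi_bumpF hw r).symm h.2⟩,
      fun _ _ h => Prod.ext h.1.1.bumpF_one rfl,
      fun _ r _ hr h => Prod.ext (h.1.1.bumpF_inv hw hr) rfl,
      fun _ r x _ h => (congrArg (· * P.f x.2) (h.1.1.fU_bumpF hw r)).trans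
        (mul_right_comm _ _ _),
      fun _ _ _ _ _ _ _ hr _ a b h => ⟨gr_bumpF a.1.1 b.1.1 hw (h.1 w) hr, h.2⟩⟩

end

end

end Pool.Agent.Lib.MP_fc2ced_ag.T
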