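import Pool.Agent.Lib.MP_fc2ced_ag.T.StarA
import Pool.Agent.Lib.MP_fc2ced_ag.T.BlkC
import Pool.Agent.Lib.MP_fc2ced_ag.T.Coord
import Pool.Agent.Lib.MP_fc2ced_ag.T.Prod

/-! The roofs of flags are eigenvectors for the Young subgroups. -/

open CategoryTheory hiding forget
open Function Polynomial

namespace Pool.Agent.Lib.MP_fc2ced_ag.T

open K

noncomputable section

variable {k : Type} [Field k] {F : Type} [Field F] {χ : Chr k F} {n : ℕ} [Ex n] {w j l : ℕ}
  {I : Finset ℕ} {P : Pt k} {T : PC P}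

open Pt Place

namespace HaAux

theorem pend_comp {V : PV k} {J : Set ℕ} {a b : ∀ ⦃K⦄, V.S.X K → V.S.X K} (h : PEnd V J a)
    (h' : PEnd V J b) : PEnd V J fun _ x => b (a x) :=
  ⟨⟨h.map.comp h'.map fun _ x hx _ => h.live x hx, fun _ x hx l m hm =>
    (h'.c _ (h.live x hx) l m hm).trans (h.c x hx (h.live x hx) m hm)⟩,
    fun _ x hx => h'.live _ (h.live x hx)⟩

theorem pend_mono {V : PV k} {J J' : Set ℕ} {a : ∀ ⦃K⦄, V.S.X K → V.S.X K} (h : PEnd V J' a)
    (e : J ⊆ J') : PEnd V J a := ⟨h.toPMap.mono e, h.live⟩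

theorem pend_neg (J : Set ℕ) :
    PEnd (Av k n w) J fun _ x a i => x a (Equiv.neg (Fin n) i) :=
  ⟨⟨.of_inv (g := fun _ x a i => x a (-i))
      ⟨fun _ _ h a => ⟨fun _ => trivial, fun _ => (h a).2 _⟩, fun _ _ _ _ _ _ _ h _ _ => h _ _⟩
      ⟨fun _ _ h a => ⟨fun _ => trivial, fun _ => (h a).2 _⟩, fun _ _ _ _ _ _ _ h _ _ => h _ _⟩
      (fun _ x _ => show ∏ a, ∏ i, (1 - x a (-i)) ^ (-Ex.b i) = ∏ a, ∏ i, (1 - x a i) ^ (-Ex.b i) from
        Finset.prod_congr rfl fun a _ => Eq.trans (by simp only [Equiv.neg_apply, Ex.pal])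
          (Equiv.prod_comp (Equiv.neg (Fin n)) fun i => (1 - x a i) ^ (-Ex.b i)))
      fun _ x _ => funext fun a => funext fun i => congrArg (x a) (neg_neg i),
    fun _ x _ _ m _ => show chiA (fun a i => x a (Equiv.neg (Fin n) i)) m = chiA x m by
      simp only [chiA, fun a => Equiv.prod_comp (Equiv.neg (Fin n)) (x a)]⟩,
    fun _ _ h a => ⟨fun _ => trivial, fun _ => (h a).2 _⟩⟩

omit [Ex n] in
theorem JI_empty : JI w ∅ = {w} := Set.ext fun m => by simp [JI]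

theorem swap_rev : ∀ a : Fin 2, (Equiv.swap (0 : Fin 2) 1).symm a = a.rev := by decide

end HaAux

open HaAux

variable [CharZero F]

theorem star_acts (hχ : χ.Gen n) (hT : T.Dep {2}) :
    ((Zv k n 2 ∅).over T).Acts χ (fun _ x => (star n x.1, x.2)) ((-1) ^ (n + 1)) := by
  obtain ⟨m, rfl⟩ := Nat.exists_eq_add_one_of_ne_zero (NeZero.ne n)
  have h (j : ℕ) : χ.ψ (StarAux.bt (m + 1) j + StarAux.bt (m + 1) (j + 1) : ℤ) ≠ 1 := by
    obtain ⟨i, e⟩ := StarAux.bt_add (m + 1) j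
    exact e ▸ hχ i
  rw [pow_succ, pow_succ, mul_assoc, neg_mul_neg, mul_one, mul_one]
  exact star_acts_of (wb_claim m _ _ (fun _ => StarAux.bt_top (m + 1) ▸ h m) fun j _ _ => h j) hT

theorem ha_two (hχ : χ.Gen n) : Ha χ n 2 ∅ (Equiv.swap 0 1) := by
  intro P T hT
  have R := isRoof (n := n) (w := 2) hχ (Nat.succ_le_succ (NeZero.pos n)) (Finset.empty_subset _)
  have pS := pend_pm (k := k) (n := n) (I := ∅) (σ := Equiv.swap (0 : Fin 2) 1)
    (young_empty 2 ▸ Subgroup.mem_top _)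
  rw [JI_empty] at hT R pS
  obtain ⟨m₁, n₁⟩ := star_acts (n := n) hχ hT
  obtain ⟨m₂, n₂⟩ := acts_diag (n := n) (w := 2) hχ T (Equiv.neg (Fin n)) Ex.pal
  have pZ := pend_star (k := k) (n := n) (I := Finset.Ioo 0 2)
  have pB := pend_star (k := k) (n := n) (I := ∅)
  have pD := pend_neg (k := k) (n := n) (w := 2) {2}
  have pA := pend_comp pD pS
  have e {K : Fld k} {x : ℕ → Sp K} (hx : Flag n 2 (Finset.Ioo 0 2) x) : jmap n 2 (star n x) =
      pm (Equiv.swap 0 1) fun a i => jmap n 2 x a (Equiv.neg (Fin n) i) := by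
    rw [hx.jmap_star]
    funext a i
    rw [pm, swap_rev]
    rfl
  have h1 := pZ.toPMap.ov_comm (χ := χ) R.pj R.pj pA.toPMap hT
    (fun K x hx => ⟨fun h => ⟨fun a => ⟨fun _ => trivial, fun i => ?_⟩, e hx ▸ h.2⟩,
      fun h => ⟨pZ.live x hx, e hx ▸ h.2⟩⟩)
    fun K x hx _ _ => e hx
  swap
  · have h2 := (h.2 a.rev).2 (-i)
    rw [hx.jmap_star] at h2
    simpa only [Fin.rev_rev, neg_neg] using h2
  have h2 := pZ.toPMap.ov_comm (χ := χ) R.pq R.pq pB.toPMap hT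
    (fun K x hx => iff_of_true ⟨pZ.live x hx, R.live _ (pZ.live x hx)⟩
      ⟨R.live x hx, pB.live _ (R.live x hx)⟩) fun K x _ _ _ => forget_star
  rw [← m₁.hm_eq] at n₁
  rw [← m₂.hm_eq] at n₂
  have h3 := Kills.of_aut (R.uiso P T hT) h1 h2 n₁
  rw [← pD.toPMap.ov_comp pS.toPMap hT pA.toPMap (fun _ x hx _ => pD.live x hx)
    fun _ _ _ _ => rfl] at h3
  have h4 : (((Equiv.Perm.sign (Equiv.neg (Fin n)) : ℤˣ) : ℤ) : F) ^ 2 = 1 := by
    rw [← Int.cast_pow, ← Units.val_pow_eq_pow_val, Int.units_sq, Units.val_one, Int.cast_one]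
  rw [h4, one_smul] at n₂
  have h5 := h3.add (.of_null (n₂.comp (ov χ _ _ T (pm (Equiv.swap 0 1)))).neg)
  rw [eps_swap (by decide)]
  convert h5 using 1
  rw [Preadditive.sub_comp, Category.id_comp, neg_sub]
  exact (sub_add_sub_cancel' _ _ _).symm

theorem ha_simple (hχ : χ.Gen n) (hw : w ≤ n + 1) (a b : Fin w) (h : (b : ℕ) = a + 1) :
    Ha χ n w ((Finset.Ioo 0 w).erase b) (Equiv.swap a b) := by
  induction w using Nat.strong_induction_on with
  | _ w ih =>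
  have hb := b.2
  by_cases h1 : (b : ℕ) + 1 < w
  · obtain ⟨j, rfl⟩ : ∃ j, w = j + 1 := ⟨w - 1, by omega⟩
    have e : lowI j ((Finset.Ioo 0 (j + 1)).erase b) = (Finset.Ioo 0 j).erase b := by
      ext i
      simp only [mem_lowI, Finset.mem_erase, Finset.mem_Ioo]
      omega
    refine Ha.left (j := j) (l := 1) (a := ⟨a, by omega⟩) (b := ⟨b, by omega⟩) hχ hw
      (Finset.erase_subset _ _) (by simp only [Finset.mem_erase, Finset.mem_Ioo]; omega)
      (Fin.ne_of_val_ne (by simp only; omega)) ?_ ?_ <;> rw [e]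
    · exact swap_mem_young h (Finset.notMem_erase _ _)
    · exact ih j j.lt_succ_self (by omega) ⟨a, by omega⟩ ⟨b, by omega⟩ h
  by_cases h2 : 2 < w
  · obtain ⟨l, rfl⟩ : ∃ l, w = 1 + l := ⟨w - 1, by omega⟩
    obtain ⟨a', rfl⟩ : ∃ a' : Fin l, a = Fin.natAdd 1 a' :=
      ⟨⟨a - 1, by omega⟩, Fin.ext (by simp only [Fin.val_natAdd]; omega)⟩
    obtain ⟨b', rfl⟩ : ∃ b' : Fin l, b = Fin.natAdd 1 b' :=
      ⟨⟨b - 1, by omega⟩, Fin.ext (by simp only [Fin.val_natAdd]; omega)⟩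
    simp only [Fin.val_natAdd] at h h1 hb ⊢
    have e : uppI 1 ((Finset.Ioo 0 (1 + l)).erase (1 + b')) = (Finset.Ioo 0 l).erase b' := by
      ext i
      simp only [mem_uppI, Finset.mem_erase, Finset.mem_Ioo]
      omega
    refine Ha.right (j := 1) hχ hw (Finset.erase_subset _ _)
      (by simp only [Finset.mem_erase, Finset.mem_Ioo]; omega)
      (Fin.ne_of_val_ne (by omega)) ?_ ?_ <;> rw [e]
    · exact swap_mem_young (by omega) (Finset.notMem_erase _ _)
    · exact ih l (by omega) (by omega) _ _ (by omega)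
  obtain rfl : w = 2 := by omega
  obtain rfl : a = 0 := Fin.ext (by simp only [Fin.val_zero]; omega)
  obtain rfl : b = 1 := Fin.ext (by simp only [Fin.val_one]; omega)
  rw [show (Finset.Ioo 0 2).erase ((1 : Fin 2) : ℕ) = ∅ by decide]
  exact ha_two hχ

theorem ha (hχ : χ.Gen n) (hw : w ≤ n + 1) (hI : I ⊆ Finset.Ioo 0 w) :
    ∀ σ ∈ Young w I, Ha χ n w I σ := by
  refine young_induction (p := fun σ => Ha χ n w I σ) (fun P T _ => ?_)
    fun a b σ h hb hσ ih P T hT => ?_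
  · rw [ov_pm_one, map_one, one_smul, sub_self]
    exact .of_null .zero
  · have h1 := Ha.mono hχ hw (Finset.subset_erase.2 ⟨hI, hb⟩) (Finset.erase_subset _ _)
      (ha_simple hχ hw a b h) P T hT
    have h2 := (h1.precomp (ov χ _ _ T (pm σ))).add ((ih P T hT).smul (eps F n w (Equiv.swap a b)))
    rw [ov_pm_mul hT (swap_mem_young h hb) hσ, map_mul]
    convert h2 using 1
    rw [Preadditive.comp_sub, Linear.comp_smul, Category.comp_id, smul_sub, smul_smul,
      sub_add_sub_cancel]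

end

end Pool.Agent.Lib.MP_fc2ced_ag.T
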