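import Pool.Agent.Lib.MP_fc2ced_ag.T.Blk

/-! An involution that exchanges two closed subsets. -/

open CategoryTheory Function

namespace Pool.Agent.Lib.MP_fc2ced_ag.T

open K

noncomputable section

variable {k : Type} [Field k] {F : Type} [Field F] [CharZero F]

open Ob

omit [CharZero F] in
theorem uiso_of_two {M M' : Ob k F} {f : M ⟶ M'} {g : M' ⟶ M} (h : UIso (f ≫ g))
    (h' : UIso (g ≫ f)) : UIso f := fun Θ => by
  have := h Θ
  have := h' Θ
  rw [Functor.map_comp] at *
  have : Epi (Θ.Φ.map f) := epi_of_epi (Θ.Φ.map g) _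
  exact ⟨Θ.Φ.map g ≫ inv (Θ.Φ.map f ≫ Θ.Φ.map g), by rw [← Category.assoc, IsIso.hom_inv_id], by
    rw [← cancel_epi (Θ.Φ.map f), ← Category.assoc, ← Category.assoc,
      IsIso.hom_inv_id, Category.id_comp, Category.comp_id]⟩

theorem null_of_mv {E₀ E₁ E E₂ M : Ob k F} {i₀ : E₀ ⟶ E₁} {i : E₁ ⟶ E} {p : E ⟶ E₂} {a : E ⟶ E}
    {a₀ τ : E₀ ⟶ E₀} {u : M ⟶ E₀} {r : E₀ ⟶ M} {σ : F} (T : Ses (i ≫ a) p) (T₀ : Ses i₀ (i ≫ p))
    (hσ : σ * σ = 1) (aa : a ≫ a = 𝟙 _) (e : i₀ ≫ i ≫ a = a₀ ≫ i₀ ≫ i)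
    (ur : u ≫ r = (2 : F) • 𝟙 _) (ru : r ≫ u = 𝟙 _ + τ) (n : Null (a₀ - σ • τ))
    (h : UIso (u ≫ i₀)) : Null (a - σ • 𝟙 _) := by
  have h0 : σ ≠ 0 := left_ne_zero_of_mul_eq_one hσ
  have hi : Inj (i₀ ≫ i) := fun O => (Injective.of_comp (f := a.1 O) (T.inj O)).comp (T₀.inj O)
  have a0 : a₀ ≫ a₀ = 𝟙 _ := hi.cancel (by
    rw [Category.assoc, ← e, ← Category.assoc i₀, ← Category.assoc, ← e]
    simp [aa])
  set g : E₀ ⟶ E₀ := a₀ + σ • 𝟙 _ with hg
  set D : E ⟶ E := a - σ • 𝟙 _ with hD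
  have gg : g ≫ g = (2 * σ) • g := by
    simp only [hg, Preadditive.add_comp, Preadditive.comp_add, a0, Linear.smul_comp,
      Linear.comp_smul, Category.id_comp, Category.comp_id, smul_add, smul_smul, mul_assoc, hσ]
    module
  have gD : g ≫ i₀ ≫ i ≫ D = 0 := by
    simp only [hg, hD, Preadditive.add_comp, Preadditive.comp_sub, e, Linear.smul_comp,
      Linear.comp_smul, Category.id_comp, Category.comp_id]
    rw [← Category.assoc a₀ a₀, a0]
    simp [smul_smul, hσ, add_comm]
  have aD : a ≫ D = (-σ) • D := by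
    simp only [hD, Preadditive.comp_sub, aa, Linear.comp_smul, Category.comp_id, smul_sub,
      smul_smul, neg_mul, hσ]
    module
  let π : E₀ ⟶ (range g).ob := (range g).lift g fun _ w => ⟨w, rfl⟩
  have π1 : π ≫ (range g).incl = g := rfl
  have π2 : (range g).incl ≫ g = (2 * σ) • (range g).incl :=
    Surj.cancel (q := π) (fun O ⟨_, w, rfl⟩ => ⟨w, rfl⟩) (by
      rw [← Category.assoc, π1, gg, Linear.comp_smul, π1])
  have π3 : (range g).incl ≫ π = (2 * σ) • 𝟙 _ :=
    Inj.cancel (q := (range g).incl) (fun O => Subtype.val_injective) (by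
      rw [Category.assoc, π1, π2, Linear.smul_comp, Category.id_comp])
  have S : Ses ((range g).incl ≫ i₀) ((range D).lift (i ≫ D) fun _ _ => ⟨_, rfl⟩) := by
    refine ⟨fun O => (T₀.inj O).comp Subtype.val_injective, fun O y => ⟨fun q => ?_, ?_⟩,
      fun O ⟨_, z, rfl⟩ => ?_⟩
    · have q1 : a.1 O (i.1 O y) = σ • i.1 O y := sub_eq_zero.1 (congrArg Subtype.val q)
      have q2 : p.1 O (a.1 O (i.1 O y)) = 0 := congr(($(T.zero)).1 O y)
      rw [q1, map_smul, smul_eq_zero, or_iff_right h0] at q2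
      obtain ⟨y, rfl⟩ := (T₀.exact O y).1 q2
      have q3 : a₀.1 O y = σ • y := hi O ((congr(($e).1 O y) :).symm.trans (q1.trans (by simp)))
      refine ⟨⟨y, (2 * σ)⁻¹ • y, ?_⟩, rfl⟩
      rw [map_smul, hg, add_app, LinearMap.add_apply, q3, smul_app, LinearMap.smul_apply, id_app,
        LinearMap.id_apply, ← add_smul, smul_smul, ← two_mul,
        inv_mul_cancel₀ (mul_ne_zero two_ne_zero h0), one_smul]
    · rintro ⟨⟨_, w, rfl⟩, rfl⟩
      exact Subtype.ext congr(($gD).1 O w)
    · obtain ⟨y, hy⟩ := T₀.surj O (p.1 O z)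
      obtain ⟨y', hy'⟩ := (T.exact O (z - i.1 O y)).1 (by rw [map_sub, ← hy]; exact sub_self _)
      refine ⟨y - σ • y', Subtype.ext ?_⟩
      have q : D.1 O (a.1 O (i.1 O y')) = -σ • D.1 O (i.1 O y') := congr(($aD).1 O (i.1 O y'))
      change D.1 O (i.1 O (y - σ • y')) = D.1 O z
      rw [← sub_add_cancel z (i.1 O y), ← hy', map_add, map_sub, map_sub, map_smul, map_smul,
        Ob.comp_apply, q]
      module
  have uτ : u ≫ τ = u := by
    have := congrArg (u ≫ ·) ru
    simp only [← Category.assoc, ur, Linear.smul_comp, Category.id_comp, Preadditive.comp_add,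
      Category.comp_id] at this
    rw [two_smul] at this
    exact (add_left_cancel this).symm
  have n1 : Null (u ≫ g - (2 * σ) • u) := by
    convert n.precomp u using 1
    simp only [hg, Preadditive.comp_add, Preadditive.comp_sub, Linear.comp_smul, Category.comp_id,
      uτ]
    module
  have b : UIso (u ≫ π) := by
    refine uiso_of_two (g := (range g).incl ≫ r)
      (.of_null_sub (g := (2 * σ * 2) • 𝟙 _) ?_ (UIso.id.smul (by simpa)))
      (.of_null_sub (g := (2 * σ * 2) • 𝟙 _) ?_ (UIso.id.smul (by simpa)))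
    · convert n1.comp r using 1
      rw [Category.assoc, ← Category.assoc π, π1, Preadditive.sub_comp, Linear.smul_comp, ur,
        smul_smul, Category.assoc]
    · convert ((n.precomp (range g).incl).comp π).smul (-σ) using 1
      have q : (range g).incl ≫ a₀ = σ • (range g).incl := by
        rw [hg, Preadditive.comp_add, Linear.comp_smul, Category.comp_id] at π2
        rw [eq_sub_of_add_eq π2]
        module
      rw [Category.assoc, ← Category.assoc r, ru]
      simp only [Preadditive.add_comp, Preadditive.comp_add, Preadditive.comp_sub,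
        Preadditive.sub_comp, Category.id_comp, q, Linear.smul_comp, Linear.comp_smul, π3,
        smul_sub, smul_smul, neg_mul, hσ, ← mul_assoc, Category.assoc]
      module
  have c : UIso ((range g).incl ≫ i₀) := b.of_comp_left
    (.of_null_sub (g := (2 * σ) • u ≫ i₀) (by
      convert n1.comp i₀ using 1
      rw [Category.assoc, ← Category.assoc π, π1, Preadditive.sub_comp, Linear.smul_comp,
        Category.assoc]) (h.smul (mul_ne_zero two_ne_zero h0)))
  exact ((S.uzero₃_iff.2 c).null_left (range D).incl).precomp ((range D).lift D fun _ w => ⟨w, rfl⟩)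

end

end Pool.Agent.Lib.MP_fc2ced_ag.T
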