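import Pool.Agent.Lib.MP_fc2ced_ag.K.SeqD

/-! Periodic recurrences together with the constant sequence one: definitions. -/

open Module Polynomial

namespace Pool.Agent.Lib.MP_fc2ced_ag.T

open K

noncomputable section

variable {K : Type} [Field K]

/-- A period with a palindromic family of exponents. -/
class Ex (n : ℕ) extends NeZero n where
  b : Fin n → ℤ
  pal : ∀ i, b (-i) = b i

/-- The value of the normalized operator of a relevant space on the constant sequence one. -/
def dU (n w : ℕ) (U : Sp K) : Sq K := op w (coef n w U) 1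

/-- Relevant spaces whose operator sends the constant sequence one to a sequence without zeros. -/
def TRel (n w : ℕ) (U : Sp K) : Prop := Rel n w U ∧ ∀ i, dU n w U i ≠ 0

/-- The function on tamely relevant spaces whose character sums are studied. -/
def fU (n w : ℕ) [Ex n] (U : Sp K) : K := ∏ i : Fin n, dU n w U (i : ℕ) ^ (-Ex.b i)

/-- Multiplication by a sequence. -/
def ga (v : Sq K) : Sq K →ₗ[K] Sq K := LinearMap.mulLeft K v

/-- The operator of a tamely relevant space, normalized so that it fixes the sequence one. -/
def nop (n j : ℕ) (W : Sp K) : Sq K →ₗ[K] Sq K := ga (dU n j W)⁻¹ ∘ₗ op j (coef n j W)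

/-- Incomplete flags of invariant subspaces, of type `I`, of a tamely relevant space of dimension
`w`. -/
structure Flag (n w : ℕ) (I : Finset ℕ) (F : ℕ → Sp K) : Prop where
  trel : TRel n w (F w)
  stab : ∀ i ∈ I, Stab n (F i)
  rank : ∀ i ∈ I, finrank K (F i) = i
  le_top : ∀ i ∈ I, F i ≤ F w
  mono : ∀ i ∈ I, ∀ j ∈ I, i ≤ j → F i ≤ F j
  bot : ∀ i, i ∉ I → i ≠ w → F i = ⊥

/-- All members of a full flag are tamely relevant. -/
def AllRel (n w : ℕ) (F : ℕ → Sp K) : Prop := ∀ i ≤ w, TRel n i (F i)

open Classical in
/-- The operators of order one attached to a full flag of tamely relevant spaces. -/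
def jmap (n w : ℕ) (F : ℕ → Sp K) (a : Fin w) (i : Fin n) : K :=
  if AllRel n w F then 1 - dU n (a + 1) (F (a + 1)) (i : ℕ) / dU n a (F a) (i : ℕ) else 0

/-- The value on the sequence one of the composition of the first `m` operators of order one. -/
def dA {n w : ℕ} (x : Fin w → Fin n → K) (m : ℕ) (i : Fin n) : K :=
  ∏ a ∈ Finset.univ.filter fun a : Fin w => (a : ℕ) < m, (1 - x a i)

/-- The operators of order one without the normalization. -/
def ung {n w : ℕ} [NeZero n] (x : Fin w → Fin n → K) (a : Fin w) (i : Fin n) : K :=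
  x a i * dA x a i / dA x a (i + 1)

/-- The full flag attached to operators of order one. -/
def flagOf {n w : ℕ} [NeZero n] (x : Fin w → Fin n → K) : ℕ → Sp K :=
  MP_fc2ced_ag.K.flagOf (ung x)

/-- The upper part of a flag, divided by the member of dimension `j`. -/
def upp (n j : ℕ) (F : ℕ → Sp K) (m : ℕ) : Sp K := (F (j + m)).map (nop n j (F j))

/-- The flag of type `I` with given lower and upper parts. -/
def glue (n j l : ℕ) (I : Finset ℕ) (F G : ℕ → Sp K) (i : ℕ) : Sp K :=
  if i ≤ j then F i else if i ∈ I ∨ i = j + l then (G (i - j)).comap (nop n j (F j)) else ⊥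

end

end Pool.Agent.Lib.MP_fc2ced_ag.T
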