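import Pool.Agent.Lib.MP_fc2ced_ag.T.Seq

/-! Multiplication by periodic sequences, and division by tamely relevant subspaces. -/

open Module Polynomial

namespace Pool.Agent.Lib.MP_fc2ced_ag.T

open K

variable {K : Type} [Field K] {n w j l : ℕ} {U V W : Sp K} {g : ℤ → ℕ → K} {v : Sq K}

@[simp] theorem ga_apply (v y : Sq K) (i : ℤ) : ga v y i = v i * y i := rfl

theorem nop_apply (W : Sp K) (y : Sq K) (i : ℤ) :
    nop n j W y i = (dU n j W i)⁻¹ * op j (coef n j W) y i := rfl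

theorem TRel.rel (h : TRel n w U) : Rel n w U := h.1

theorem TRel.ne (h : TRel n w U) (i : ℤ) : dU n w U i ≠ 0 := h.2 i

theorem TRel.stab (h : TRel n w U) : Stab n U := h.1.stab

theorem TRel.finrank_eq (h : TRel n w U) : finrank K U = w := h.1.finrank_eq

theorem dU_apply (U : Sp K) (i : ℤ) :
    dU n w U i = ∑ l ∈ Finset.range (w + 1), coef n w U i l := by
  simp [dU, op_apply]

theorem dU_per (hU : Rel n w U) (i q : ℤ) : dU n w U (i + q * n) = dU n w U i := by
  simp only [dU_apply, mul_comm q, hU.band.per_mul]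

theorem dU_add (hU : Rel n w U) (i : ℤ) : dU n w U (i + n) = dU n w U i := by
  simp only [dU_apply, hU.band.per]

theorem dU_intCast [NeZero n] (hU : Rel n w U) (i : ℤ) :
    dU n w U ((Fin.intCast i : Fin n) : ℕ) = dU n w U i := by
  rw [val_intCast', ← dU_per hU _ (i / n), Int.emod_add_ediv_mul]

theorem dU_zero (h : Rel n 0 U) (i : ℤ) : dU n 0 U i = 1 := by
  simp [dU_apply, h.band.one]

theorem trel_zero_iff : TRel n 0 U ↔ U = ⊥ :=
  ⟨fun h => rel_zero_iff.1 h.1, fun h => ⟨rel_zero_iff.2 h, fun i => by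
    rw [dU_zero (rel_zero_iff.2 h)]
    exact one_ne_zero⟩⟩

/-- Periodic sequences without zeros. -/
structure Per (n : ℕ) (v : Sq K) : Prop where
  per : ∀ i, v (i + n) = v i
  ne : ∀ i, v i ≠ 0

theorem Per.inv (h : Per n v) : Per n v⁻¹ :=
  ⟨fun i => congrArg (·⁻¹) (h.per i), fun i => inv_ne_zero (h.ne i)⟩

theorem TRel.per (h : TRel n w U) : Per n (dU n w U) := ⟨dU_add h.1, h.2⟩

/-- Multiplication by a sequence without zeros, as an isomorphism. -/
noncomputable def gaE (h : ∀ i, v i ≠ 0) : Sq K ≃ₗ[K] Sq K :=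
  LinearEquiv.ofLinearMap (ga v) (ga v⁻¹) (LinearMap.ext fun y => funext fun i => by simp [h i])
    (LinearMap.ext fun y => funext fun i => by simp [h i])

theorem Per.sh (h : Per n v) (y : Sq K) : ga v (sh K n y) = sh K n (ga v y) :=
  funext fun i => by rw [sh_apply, ga_apply, ga_apply, sh_apply, ← h.per (i - n), sub_add_cancel]

theorem Per.stab (h : Per n v) (hU : Stab n U) : Stab n (U.map (ga v)) ∧
    finrank K (U.map (ga v)) = finrank K U ∧ chi n (U.map (ga v)) = chi n U := by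
  have := hU.fin
  have h1 : Stab n (U.map (ga v)) := ⟨inferInstance, by
    rintro _ ⟨y, hy, rfl⟩
    exact ⟨_, hU.mem y hy, h.sh y⟩⟩
  refine ⟨h1, (gaE h.ne).finrank_map_eq U, ?_⟩
  rw [hU.chi_eq, h1.chi_eq]
  exact charpoly_equiv ((gaE h.ne).submoduleMap U) _ _ fun y => Subtype.ext (h.sh y).symm

theorem comap_ga (h : ∀ i, v i ≠ 0) (U : Sp K) : U.comap (ga v⁻¹) = U.map (ga v) :=
  (Submodule.map_equiv_eq_comap_symm (gaE h) U).symm

theorem map_ga_ga (h : ∀ i, v i ≠ 0) (U : Sp K) : (U.map (ga v)).map (ga v⁻¹) = U := by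
  rw [← comap_ga h]
  exact Submodule.map_comap_eq_of_surjective (gaE h).symm.surjective U

/-- The coefficients of the conjugate of an operator by a multiplication. -/
def gg (v : Sq K) (g : ℤ → ℕ → K) (i : ℤ) (l : ℕ) : K := v i * g i l / v (i + l)

theorem op_gg (h : ∀ i, v i ≠ 0) (y : Sq K) : op w (gg v g) (ga v y) = ga v (op w g y) :=
  funext fun i => by
    simp only [ga_apply, op_apply, gg, Finset.mul_sum]
    exact Finset.sum_congr rfl fun l _ => by rw [div_mul_eq_mul_div, ← mul_assoc,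
      mul_right_comm _ (v _), mul_div_cancel_right₀ _ (h _), mul_assoc]

theorem Per.band (h : Per n v) (hg : Band n w g) : Band n w (gg v g) :=
  ⟨fun i l => by rw [gg, gg, hg.per, h.per, add_right_comm, h.per],
    fun i => by simp [gg, hg.one, h.ne], fun i =>
      div_ne_zero (mul_ne_zero (h.ne _) (hg.top _)) (h.ne _),
    fun i l hl => by simp [gg, hg.zero i l hl]⟩

theorem Per.rel (h : Per n v) (hU : Rel n w U) :
    Rel n w (U.map (ga v)) ∧ coef n w (U.map (ga v)) = gg v (coef n w U) := by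
  have h1 := h.stab hU.stab
  have := h1.1.fin
  have h2 := (h.band hU.band).eq_sol (h1.2.1.trans hU.finrank_eq) (by
    rintro _ ⟨y, hy, rfl⟩
    rw [Sol, LinearMap.mem_ker, op_gg h.ne, LinearMap.mem_ker.1 (hU.eq_sol.le hy), map_zero])
  rw [h2]
  exact ⟨(h.band hU.band).rel, (h.band hU.band).coef_sol⟩

theorem map_nop (U W : Sp K) :
    U.map (nop n j W) = (U.map (op j (coef n j W))).map (ga (dU n j W)⁻¹) :=
  Submodule.map_comp _ _ _

theorem TRel.comap_nop (h : TRel n j W) (V : Sp K) :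
    V.comap (nop n j W) = (V.map (ga (dU n j W))).comap (op j (coef n j W)) := by
  rw [nop, Submodule.comap_comp, comap_ga h.2]

theorem map_nop_self (U : Sp K) : U.map (nop n j U) = ⊥ := by
  rw [map_nop, map_op_self, Submodule.map_bot]

theorem TRel.nop_one (h : TRel n j W) : nop n j W 1 = 1 :=
  funext fun i => inv_mul_cancel₀ (h.2 i)

theorem TRel.ker_nop (h : TRel n j W) : LinearMap.ker (nop n j W) = W := by
  rw [← Submodule.comap_bot, h.comap_nop, Submodule.map_bot]
  exact h.1.eq_sol.symm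

theorem TRel.stab_map (h' : TRel n j W) (h : Stab n U) (e : W ≤ U) :
    Stab n (U.map (nop n j W)) ∧ finrank K U = j + finrank K (U.map (nop n j W)) := by
  obtain ⟨h1, h2⟩ := h'.1.stab_map h e
  obtain ⟨h3, h4, -⟩ := h'.per.inv.stab h1
  rw [map_nop, h4]
  exact ⟨h3, h2⟩

theorem TRel.chi_map (h' : TRel n j W) (h : Stab n U) (e : W ≤ U) :
    chi n U = chi n W * chi n (U.map (nop n j W)) := by
  rw [map_nop, (h'.per.inv.stab (h'.1.stab_map h e).1).2.2, h'.1.chi_map h e]

theorem TRel.dU_map (h' : TRel n j W) (h : Rel n (j + l) U) (e : W ≤ U) :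
    Rel n l (U.map (nop n j W)) ∧
      ∀ i, dU n (j + l) U i = dU n j W i * dU n l (U.map (nop n j W)) i := by
  obtain ⟨h1, h2⟩ := h.rel_map h'.1 e
  obtain ⟨h3, h4⟩ := h'.per.inv.rel h1
  rw [map_nop]
  refine ⟨h3, fun i => ?_⟩
  have h5 : ga (dU n j W)⁻¹ (dU n j W) = 1 := h'.nop_one
  have h6 := congrFun (op_gg (w := l) (g := coef n l (U.map (op j (coef n j W)))) h'.per.inv.ne
    (dU n j W)) i
  rw [h5, ← h4, ga_apply, Pi.inv_apply, eq_inv_mul_iff_mul_eq₀ (h'.2 i)] at h6
  rw [dU, h2, h'.1.band.op_conv h1.band]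
  exact h6.symm

/-- Division of a tamely relevant space by a tamely relevant subspace. -/
theorem TRel.rel_map (h : TRel n (j + l) U) (h' : TRel n j W) (e : W ≤ U) :
    TRel n l (U.map (nop n j W)) :=
  ⟨(h'.dU_map h.1 e).1, fun i => right_ne_zero_of_mul ((h'.dU_map h.1 e).2 i ▸ h.2 i)⟩

theorem TRel.fU_map [Ex n] (h : TRel n (j + l) U) (h' : TRel n j W) (e : W ≤ U) :
    fU n (j + l) U = fU n j W * fU n l (U.map (nop n j W)) := by
  simp only [fU, (h'.dU_map h.1 e).2, mul_zpow, Finset.prod_mul_distrib]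

theorem TRel.stab_comap (h' : TRel n j W) (h : Stab n V) :
    Stab n (V.comap (nop n j W)) ∧ W ≤ V.comap (nop n j W) ∧
      (V.comap (nop n j W)).map (nop n j W) = V := by
  obtain ⟨h1, h2, h3⟩ := h'.1.stab_comap (h'.per.stab h).1
  rw [map_nop, h'.comap_nop, h3, map_ga_ga h'.2]
  exact ⟨h1, h2, rfl⟩

theorem TRel.rel_comap (h : TRel n l V) (h' : TRel n j W) :
    TRel n (j + l) (V.comap (nop n j W)) := by
  have h1 : Rel n (j + l) (V.comap (nop n j W)) := by
    rw [h'.comap_nop]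
    exact (h'.per.rel h.1).1.rel_comap h'.1
  obtain ⟨-, h2, h3⟩ := h'.stab_comap h.stab
  refine ⟨h1, fun i => ?_⟩
  rw [(h'.dU_map h1 h2).2, h3]
  exact mul_ne_zero (h'.2 i) (h.2 i)

theorem TRel.comap_map (h' : TRel n j W) (e : W ≤ U) :
    (U.map (nop n j W)).comap (nop n j W) = U :=
  Submodule.comap_map_eq_self (h'.ker_nop.le.trans e)

theorem TRel.fU_ne [Ex n] (h : TRel n w U) : fU n w U ≠ 0 :=
  Finset.prod_ne_zero_iff.2 fun _ _ => zpow_ne_zero _ (h.2 _)

end Pool.Agent.Lib.MP_fc2ced_ag.T
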