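import Pool.Agent.Lib.MP_fc2ced_ag.T.StarF

/-! Coordinates on the space of recurrences of order two. -/

open Function Polynomial

namespace Pool.Agent.Lib.MP_fc2ced_ag.T

open K

noncomputable section

variable {K : Type} [Field K] {n : ℕ} {z z' : ℕ → K} {x : ℕ → Sp K}

/-- The product of the matrices `diag (1, z j) * !![1, 1; -1, 0]` for `j < m`. -/
def wm (z : ℕ → K) : ℕ → Matrix (Fin 2) (Fin 2) K
  | 0 => 1
  | m + 1 => wm z m * !![1, 1; -z m, 0]

theorem wm_succ' (z : ℕ → K) (m : ℕ) :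
    wm z (m + 1) = !![1, 1; -z 0, 0] * wm (fun j => z (j + 1)) m := by
  induction m with
  | zero => simp [wm]
  | succ m ih => rw [wm, ih, wm, Matrix.mul_assoc]

theorem wm_congr {m : ℕ} (h : ∀ j < m, z j = z' j) : wm z m = wm z' m := by
  induction m with
  | zero => rfl
  | succ m ih => rw [wm, wm, ih fun j e => h j (by omega), h m (by omega)]

theorem det_wm (z : ℕ → K) (m : ℕ) : (wm z m).det = ∏ j ∈ Finset.range m, z j := by
  induction m with
  | zero => simp [wm]
  | succ m ih => simp [wm, ih, Finset.prod_range_succ, Matrix.det_fin_two_of]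

namespace StarAux

variable (n) in
/-- The periodic recurrence `p y i + (1 - p - q) y (i + 1) + q y (i + 2) = 0`, where `p` and `q` are
the letters of the word `z` at `2 i` and `2 i + 1`. -/
def per (z : ℕ → K) (i : ℤ) (l : ℕ) : K :=
  if l = 0 then 1 else if l = 1 then
    (1 - z (2 * (i % n).toNat) - z (2 * (i % n).toNat + 1)) / z (2 * (i % n).toNat)
  else if l = 2 then z (2 * (i % n).toNat + 1) / z (2 * (i % n).toNat) else 0

variable (n) in
/-- The flag given by the solutions of the recurrence. -/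
def fl (z : ℕ → K) (m : ℕ) : Sp K := if m = 2 then Sol 2 (per n z) else ⊥

variable (n) in
/-- The word of a recurrence. -/
def wrd (x : ℕ → Sp K) (j : ℕ) : K :=
  (if j % 2 = 0 then 1 else coef n 2 (x 2) (j / 2 : ℕ) 2) / dU n 2 (x 2) (j / 2 : ℕ)

theorem per_nat {i : ℕ} (hi : i < n) :
    per n z i 1 = (1 - z (2 * i) - z (2 * i + 1)) / z (2 * i) ∧
      per n z i 2 = z (2 * i + 1) / z (2 * i) := by
  have e : (i : ℤ) % n = i := Int.emod_eq_of_lt (by omega) (by omega)
  simp [per, e]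

theorem wrd_ne (h : Flag n 2 ∅ x) (j : ℕ) : wrd n x j ≠ 0 := by
  refine div_ne_zero ?_ (h.trel.ne _)
  split_ifs
  exacts [one_ne_zero, h.rel.band.top _]

theorem wrd_even (i : ℕ) : wrd n x (2 * i) = 1 / dU n 2 (x 2) i := by
  rw [wrd, if_pos (by omega), show 2 * i / 2 = i by omega]

theorem wrd_odd (i : ℕ) : wrd n x (2 * i + 1) = coef n 2 (x 2) i 2 / dU n 2 (x 2) i := by
  rw [wrd, if_neg (by omega), show (2 * i + 1) / 2 = i by omega]

theorem wrd_star (h : Flag n 2 ∅ x) :
    wrd n (star n x) 0 = wrd n x 0 ∧ ∀ j, 0 < j → j ≤ 2 * n →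
      wrd n (star n x) j = wrd n x (2 * n - j) := by
  refine ⟨by rw [← mul_zero 2, wrd_even, wrd_even, h.dU_star, Nat.cast_zero, neg_zero],
    fun j h0 hj => ?_⟩
  obtain ⟨i, rfl | rfl⟩ := Nat.even_or_odd' j
  · rw [← mul_tsub, wrd_even, wrd_even, h.dU_star, ← dU_add h.rel, Nat.cast_sub (by omega),
      neg_add_eq_sub]
  · rw [show 2 * n - (2 * i + 1) = 2 * (n - 1 - i) + 1 by omega, wrd_odd, wrd_odd, h.dU_star,
      h.top_star, show ((n - 1 - i : ℕ) : ℤ) = -i - 1 + n by omega, dU_add h.rel, h.rel.band.per]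
    have := h.trel.ne (-i)
    field_simp

theorem rel_wrd {k : Type} [Field k] {K K' : Fld k} {φ : Place K K'} {x : ℕ → Sp K}
    {x' : ℕ → Sp K'} (h : Flag n 2 ∅ x) (h' : Flag n 2 ∅ x') (r : φ.GR (x 2) (x' 2)) (j : ℕ) :
    φ (wrd n x j) (wrd n x' j) := by
  have c := r.coef h.rel h'.rel
  refine Place.R.div ?_ (Place.VR.op (fun _ => φ.one) c _) (h'.trel.ne _)
  split_ifs
  exacts [φ.one, c _ _]

variable [NeZero n]

theorem mod_lt (i : ℤ) : 0 ≤ i % n ∧ i % n < n :=
  have : (0 : ℤ) < n := Int.natCast_pos.2 (NeZero.pos n)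
  ⟨Int.emod_nonneg _ this.ne', Int.emod_lt_of_pos _ this⟩

theorem band_per (h : ∀ j < 2 * n, z j ≠ 0) : Band n 2 (per n z) where
  per i l := by simp only [per, Int.add_emod_right]
  one _ := rfl
  top i := have := mod_lt (n := n) i; div_ne_zero (h _ (by omega)) (h _ (by omega))
  zero i l hl := by rw [per, if_neg (by omega), if_neg (by omega), if_neg (by omega)]

theorem coef_fl (h : ∀ j < 2 * n, z j ≠ 0) : coef n 2 (fl n z 2) = per n z := (band_per h).coef_sol

theorem dU_fl (h : ∀ j < 2 * n, z j ≠ 0) (i : ℤ) :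
    dU n 2 (fl n z 2) i = 1 / z (2 * (i % n).toNat) := by
  have := mod_lt (n := n) i
  have := h (2 * (i % n).toNat) (by omega)
  rw [dU, coef_fl h, d_two (band_per h)]
  change 1 + (1 - _ - _) / _ + _ / _ = _
  field_simp
  ring

theorem dU_fl' (h : ∀ j < 2 * n, z j ≠ 0) {i : ℕ} (hi : i < n) :
    dU n 2 (fl n z 2) i = 1 / z (2 * i) := by
  rw [dU_fl h, Int.emod_eq_of_lt (by omega) (by omega), Int.toNat_natCast]

theorem flag_fl (h : ∀ j < 2 * n, z j ≠ 0) : Flag n 2 ∅ (fl n z) :=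
  ⟨⟨(band_per h).rel, fun i => have := mod_lt (n := n) i
    (dU_fl h i).trans_ne (one_div_ne_zero (h _ (by omega)))⟩,
    by simp, by simp, by simp, by simp, fun _ _ e => if_neg e⟩

theorem wrd_fl (h : ∀ j < 2 * n, z j ≠ 0) {j : ℕ} (hj : j < 2 * n) : wrd n (fl n z) j = z j := by
  obtain ⟨i, rfl | rfl⟩ := Nat.even_or_odd' j
  · rw [wrd_even, dU_fl' h (by omega), one_div_one_div]
  · have := h (2 * i) (by omega)
    rw [wrd_odd, dU_fl' h (by omega), coef_fl h, (per_nat (by omega)).2]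
    field_simp

theorem fl_wrd (h : Flag n 2 ∅ x) (e : ∀ j < 2 * n, z j = wrd n x j) : fl n z = x := by
  have b := h.rel.band
  have e : per n z = coef n 2 (x 2) := by
    funext i l
    obtain ⟨h0, h1⟩ := mod_lt (n := n) i
    have e' := b.per_mul (i % n) l (i / n)
    rw [Int.emod_add_mul_ediv] at e'
    rw [e']
    obtain ⟨m, hm⟩ := Int.eq_ofNat_of_zero_le h0
    have d := h.trel.ne m
    simp only [per, hm, Int.toNat_natCast]
    rw [e _ (by omega), e _ (by omega), wrd_even, wrd_odd]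
    rcases l with _ | _ | _ | l
    · exact (b.one _).symm
    · rw [if_neg (by omega), if_pos (by omega)]
      field_simp
      rw [dU, d_two b]
      ring
    · rw [if_neg (by omega), if_neg (by omega), if_pos (by omega)]
      field_simp
    · simp [b.zero _ (l + 1 + 1 + 1) (by omega)]
  funext i
  rw [fl, e, ← h.rel.eq_sol]
  split_ifs with e
  · rw [e]
  · exact (h.bot i (by simp) e).symm

theorem gr_fl {k : Type} [Field k] {K K' : Fld k} {φ : Place K K'} {z : ℕ → K} {z' : ℕ → K'}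
    (h' : ∀ j < 2 * n, z' j ≠ 0) (r : ∀ j < 2 * n, φ (z j) (z' j)) (i : ℕ) :
    φ.GR (fl n z i) (fl n z' i) := by
  simp only [fl]
  split_ifs
  · refine Place.CR.sol (fun i l => ?_) (band_per fun j e => (r j e).ne_zero (h' j e)) (band_per h')
    have := mod_lt (n := n) i
    have a := r (2 * (i % n).toNat) (by omega)
    have b := r (2 * (i % n).toNat + 1) (by omega)
    have c := h' (2 * (i % n).toNat) (by omega)
    simp only [per]
    split_ifs
    exacts [φ.one, ((φ.one.sub a).sub b).div a c, b.div a c, φ.zero]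
  · exact .bot

omit [NeZero n] in
theorem mono_per (h : ∀ j < 2 * n, z j ≠ 0) {m : ℕ} (hm : m ≤ n) :
    mono (fun i => -per n z i 1) (fun i => -per n z i 2) m * !![1, 1; 0, 1] =
      !![1, 1; 0, 1] * (∏ i ∈ Finset.range m, -(z (2 * i))⁻¹) • wm z (2 * m) := by
  induction m with
  | zero => simp [mono, wm]
  | succ m ih =>
    have a := h (2 * m) (by omega)
    have e : !![-per n z m 1, -per n z m 2; 1, 0] * !![1, 1; 0, 1] = !![1, 1; 0, 1] *
        (-(z (2 * m))⁻¹) • (!![1, 1; -z (2 * m), 0] * !![1, 1; -z (2 * m + 1), 0]) := by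
      rw [(per_nat hm).1, (per_nat hm).2]
      ext i j
      fin_cases i <;> fin_cases j <;> simp [Matrix.mul_apply, Fin.sum_univ_two] <;> field_simp <;>
        ring
    rw [mono, Matrix.mul_assoc, e, ← Matrix.mul_assoc, ih (by omega), Finset.prod_range_succ,
      show 2 * (m + 1) = 2 * m + 1 + 1 from rfl, wm, wm]
    simp only [Matrix.mul_smul, Matrix.smul_mul, Matrix.mul_assoc, smul_smul, mul_comm]

theorem chi_fl (h : ∀ j < 2 * n, z j ≠ 0) : chi n (fl n z 2) = Polynomial.X ^ 2 -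
    C ((∏ i ∈ Finset.range n, -(z (2 * i))⁻¹) * (wm z (2 * n)).trace) * Polynomial.X +
      C ((∏ i ∈ Finset.range n, -(z (2 * i))⁻¹) ^ 2 * ∏ j ∈ Finset.range (2 * n), z j) := by
  have e := mono_per h le_rfl
  have u : (!![1, 1; 0, 1] : Matrix (Fin 2) (Fin 2) K) * !![1, -1; 0, 1] = 1 := by
    simp [Matrix.one_fin_two]
  have e1 := congrArg (fun M => Matrix.trace (M * !![1, -1; 0, 1])) e
  have e2 := congrArg Matrix.det e
  simp only [Matrix.det_mul, Matrix.det_fin_two_of, Matrix.det_smul, det_wm, Fintype.card_fin,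
    mul_one, mul_zero, sub_zero, one_mul] at e2
  rw [Matrix.mul_assoc, u, Matrix.mul_one, Matrix.trace_mul_cycle, mul_eq_one_comm.1 u,
    Matrix.one_mul, Matrix.trace_smul, smul_eq_mul] at e1
  change chi n (Sol 2 _) = _
  rw [(band_per h).chi_two, Matrix.charpoly_fin_two, e1, e2]

omit [NeZero n] in
theorem fU_fl [Ex n] (h : ∀ j < 2 * n, z j ≠ 0) :
    fU n 2 (fl n z 2) = ∏ i : Fin n, z (2 * i) ^ Ex.b i :=
  Finset.prod_congr rfl fun i _ => by rw [dU_fl' h i.2, one_div, inv_zpow', neg_neg]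

end StarAux

end

end Pool.Agent.Lib.MP_fc2ced_ag.T
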