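import Pool.Agent.Lib.MP_fc2ced_ag.T.Geo
import Pool.Agent.Lib.MP_fc2ced_ag.T.StarB

/-! The involution on flags as a map of varieties. -/

open CategoryTheory hiding forget
open Function Polynomial

namespace Pool.Agent.Lib.MP_fc2ced_ag.T

open K

noncomputable section

variable {k : Type} [Field k] {n : ℕ} [Ex n] {I : Finset ℕ}

open Pt Place

theorem pend_star : PEnd (Zv k n 2 I) {2} fun _ x => star n x := by
  have r : (Zs k n 2 I).Reg (Zs k n 2 I) fun _ x => star n x :=
    ⟨fun _ _ h => h.star_flag, fun _ _ _ _ _ a b h => gr_star a b h⟩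
  exact ⟨⟨.of_inv r r (fun _ _ h => h.fU_star) fun _ _ h => h.star_star,
    fun _ _ h _ _ e => e ▸ h.chi_star⟩, r.live⟩

end

end Pool.Agent.Lib.MP_fc2ced_ag.T
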