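import Pool.Agent.Lib.MP_fc2ced_ag.T.Blk

/-! The blocks of words of odd length in the matrices `W d(z)`, indexed symmetrically. -/

namespace Pool.Agent.Lib.MP_fc2ced_ag.T

open K

noncomputable section

section
variable {K : Type} [Field K]

/-- The matrix `W d(z)`, where `W = wd 1`. -/
def wd (z : K) : Matrix (Fin 2) (Fin 2) K := !![1, z; -1, 0]

/-- The product `wd (z a) * ... * wd (z (a + l - 1))`. -/
def wP (z : ℤ → K) (a : ℤ) : ℕ → Matrix (Fin 2) (Fin 2) K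
  | 0 => 1
  | l + 1 => wP z a l * wd (z (a + l))

/-- The matrix of the word `z (-m), ..., z m`. -/
def wG (m : ℕ) (z : ℤ → K) : Matrix (Fin 2) (Fin 2) K := wP z (-m) (2 * m + 1) * wd 1

/-- The product of the letters `z (-m), z (-m + 2), ..., z m`. -/
def w₁ (m : ℕ) (z : ℤ → K) : K := ∏ i ∈ Finset.range (m + 1), z (2 * i - m)

/-- The product of the other letters. -/
def w₂ (m : ℕ) (z : ℤ → K) : K := ∏ i ∈ Finset.range m, z (2 * i + 1 - m)

/-- The monomial with symmetric exponents. -/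
def wF (m : ℕ) (β : ℕ → ℤ) (z : ℤ → K) : K :=
  ∏ i ∈ Finset.range (2 * m + 1), z (i - m) ^ β ((i : ℤ) - m).natAbs

variable {m : ℕ} {β : ℕ → ℤ} {z z' : ℤ → K}

theorem wP_succ' (z : ℤ → K) (a : ℤ) (l : ℕ) : wP z a (l + 1) = wd (z a) * wP z (a + 1) l := by
  induction l with
  | zero => simp [wP]
  | succ l ih =>
    rw [wP, ih, wP, Matrix.mul_assoc]
    congr 4
    push_cast
    ring

theorem wG_zero (z : ℤ → K) : wG 0 z = !![1 - z 0, 1; -1, -1] := by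
  simp [wG, wP, wd, sub_eq_add_neg]

theorem wG_succ (m : ℕ) (z : ℤ → K) : wG (m + 1) z =
    !![wG m z 0 0 + wG m z 1 0 * z (-(m + 1)) - wG m z 0 1 * z (m + 1) -
        wG m z 1 1 * (z (-(m + 1)) * z (m + 1)), wG m z 0 0 + wG m z 1 0 * z (-(m + 1));
      wG m z 0 1 * z (m + 1) - wG m z 0 0, -wG m z 0 0] := by
  rw [wG, show 2 * (m + 1) + 1 = 2 * m + 1 + 1 + 1 by ring, wP, wP_succ', wG,
    show (-((m + 1 : ℕ) : ℤ) + 1) = -m by push_cast; ring,
    show (-((m + 1 : ℕ) : ℤ) + ((2 * m + 1 + 1 : ℕ) : ℤ)) = m + 1 by push_cast; ring, Nat.cast_succ]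
  generalize wP z (-m) (2 * m + 1) = A
  rw [Matrix.eta_fin_two A]
  simp only [wd, Matrix.mul_fin_two]
  ext i j
  fin_cases i <;> fin_cases j <;> simp <;> ring

theorem w₁_succ (m : ℕ) (z : ℤ → K) : w₁ (m + 1) z = z (-(m + 1)) * z (m + 1) * w₂ m z := by
  rw [w₁, Finset.prod_range_succ, Finset.prod_range_succ', w₂,
    Finset.prod_congr rfl fun i _ => show z (2 * ((i + 1 : ℕ) : ℤ) - (m + 1 : ℕ)) =
      z (2 * i + 1 - m) from congrArg z (by push_cast; ring),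
    show 2 * ((m + 1 : ℕ) : ℤ) - (m + 1 : ℕ) = m + 1 by push_cast; ring,
    show 2 * ((0 : ℕ) : ℤ) - (m + 1 : ℕ) = -(m + 1) by push_cast; ring]
  ring

theorem w₂_succ (m : ℕ) (z : ℤ → K) : w₂ (m + 1) z = w₁ m z :=
  Finset.prod_congr rfl fun i _ => congrArg z (by push_cast; ring)

theorem wF_succ (m : ℕ) (β : ℕ → ℤ) (z : ℤ → K) :
    wF (m + 1) β z = (z (-(m + 1)) * z (m + 1)) ^ β (m + 1) * wF m β z := by
  rw [wF, show 2 * (m + 1) + 1 = 2 * m + 1 + 1 + 1 by ring, Finset.prod_range_succ,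
    Finset.prod_range_succ', wF]
  simp only [show ∀ i : ℕ, ((i + 1 : ℕ) : ℤ) - (m + 1 : ℕ) = i - m from fun i => by push_cast; ring]
  rw [show ((2 * m + 1 : ℕ) : ℤ) - m = (m + 1 : ℕ) by push_cast; ring,
    show ((0 : ℕ) : ℤ) - (m + 1 : ℕ) = -(m + 1 : ℕ) by simp, Int.natAbs_neg, Int.natAbs_natCast,
    mul_zpow, Nat.cast_succ]
  ring

theorem w_congr (h : ∀ j : ℤ, j.natAbs ≤ m → z' j = z j) : wG m z' = wG m z ∧ w₁ m z' = w₁ m z ∧
    w₂ m z' = w₂ m z ∧ wF m β z' = wF m β z := by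
  induction m with
  | zero => simp [wG_zero, w₁, w₂, wF, h 0 le_rfl]
  | succ m ih =>
    obtain ⟨h1, h2, h3, h4⟩ := ih fun j hj => h j (by omega)
    simp only [wG_succ, w₁_succ, w₂_succ, wF_succ, h1, h2, h3, h4, h (m + 1) (by omega),
      h (-(m + 1)) (by omega), and_self]

theorem w_rev (m : ℕ) (β : ℕ → ℤ) (z : ℤ → K) : wG m (fun j => z (-j)) =
    !![wG m z 0 0, -wG m z 1 0; -wG m z 0 1, wG m z 1 1] ∧ w₁ m (fun j => z (-j)) = w₁ m z ∧
    w₂ m (fun j => z (-j)) = w₂ m z ∧ wF m β (fun j => z (-j)) = wF m β z := by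
  induction m with
  | zero => simp [wG_zero, w₁, w₂, wF]
  | succ m ih =>
    obtain ⟨h1, h2, h3, h4⟩ := ih
    simp only [wG_succ, w₁_succ, w₂_succ, wF_succ, h1, h2, h3, h4, neg_neg]
    refine ⟨?_, by rw [mul_comm (z _)], trivial, by rw [mul_comm (z _)]⟩
    ext i j
    fin_cases i <;> fin_cases j <;> simp <;> ring

theorem w_det (m : ℕ) (z : ℤ → K) :
    wG m z 0 0 * wG m z 1 1 + wG m z 0 1 * -wG m z 1 0 = w₁ m z * w₂ m z := by
  induction m with
  | zero => simp [wG_zero, w₁, w₂]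
  | succ m ih =>
    simp only [wG_succ, w₁_succ, w₂_succ, Matrix.of_apply, Matrix.cons_val', Matrix.cons_val_zero,
      Matrix.cons_val_one]
    linear_combination (z (-(m + 1)) * z (m + 1)) * ih

end

variable {k : Type} [Field k]

open Pt

theorem rel_wP {K K' : Fld k} {φ : Place K K'} {z : ℤ → K} {z' : ℤ → K'}
    (h : ∀ i, φ (z i) (z' i)) (a : ℤ) (l : ℕ) (i j : Fin 2) : φ (wP z a l i j) (wP z' a l i j) := by
  induction l generalizing i j with
  | zero => fin_cases i <;> fin_cases j <;> simp [wP, φ.one, φ.zero]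
  | succ l ih =>
    simp only [wP, wd, Matrix.mul_apply, Fin.sum_univ_two]
    refine φ.add (φ.mul (ih _ _) ?_) (φ.mul (ih _ _) ?_) <;> fin_cases j
    exacts [φ.one, h _, φ.one.neg, φ.zero]

theorem rel_wG {K K' : Fld k} {φ : Place K K'} {z : ℤ → K} {z' : ℤ → K'}
    (h : ∀ i, φ (z i) (z' i)) (m : ℕ) (i j : Fin 2) : φ (wG m z i j) (wG m z' i j) := by
  simp only [wG, wd, Matrix.mul_apply, Fin.sum_univ_two]
  refine φ.add (φ.mul (rel_wP h _ _ _ _) ?_) (φ.mul (rel_wP h _ _ _ _) ?_) <;> fin_cases j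
  exacts [φ.one, φ.one, φ.one.neg, φ.zero]

variable (k) in
/-- The words `z (-m), ..., z m` with nonzero letters. -/
@[reducible] def words (m : ℕ) (β : ℕ → ℤ) : Pt k where
  X K := ℤ → K
  L _ z := (∀ j : ℤ, j.natAbs ≤ m → z j ≠ 0) ∧ ∀ j : ℤ, m < j.natAbs → z j = 0
  R _ _ φ z z' := ∀ j, φ (z j) (z' j)
  f _ z := wF m β z
  func _ _ φ _ _ _ _ _ _ h h' := funext fun i => φ.func (h i) (h' i)
  id _ _ _ _ _ := by simp [funext_iff]
  comp _ _ _ φ φ' x z a b := by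
    refine ⟨fun h => ?_, fun ⟨y, _, h, h'⟩ i => ⟨_, h i, h' i⟩⟩
    choose s h1 h2 using h
    exact ⟨s, ⟨fun j hj => (h2 j).ne_zero (b.1 j hj), fun j hj => (h1 j).eq_of φ.zero (a.2 j hj)⟩,
      h1, h2⟩
  reg _ _ _ _ _ _ b h := Place.prod fun i hi =>
    rel_zpow (h _) (b.1 _ (by have := Finset.mem_range.1 hi; omega)) _
  ne _ _ a := Finset.prod_ne_zero_iff.2 fun i hi =>
    zpow_ne_zero _ (a.1 _ (by have := Finset.mem_range.1 hi; omega))
  fin _ x a := by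
    classical
    refine ⟨insert 0 ((Finset.Icc (-(m : ℤ)) m).image x), fun _ _ _ e _ _ h i => e (x i) ?_ ▸ h i⟩
    by_cases hi : i.natAbs ≤ m
    · exact Finset.mem_insert_of_mem (Finset.mem_image_of_mem _ (Finset.mem_Icc.2 (by omega)))
    · simp [a.2 i (not_le.1 hi)]

variable (k) in
/-- The block of words. -/
@[reducible] def wb (m : ℕ) (β : ℕ → ℤ) : Blk k where
  S := words k m β
  A _ z := wG m z 0 0
  B _ z := wG m z 0 1
  C _ z := -wG m z 1 0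
  D _ z := wG m z 1 1
  e₁ _ z := w₁ m z
  e₂ _ z := w₂ m z
  ι _ z j := z (-j)
  rA _ _ _ _ _ _ _ h := rel_wG h m 0 0
  rB _ _ _ _ _ _ _ h := rel_wG h m 0 1
  rC _ _ _ _ _ _ _ h := (rel_wG h m 1 0).neg
  rD _ _ _ _ _ _ _ h := rel_wG h m 1 1
  r₁ _ _ _ _ _ _ _ h := Place.prod fun _ _ => h _
  r₂ _ _ _ _ _ _ _ h := Place.prod fun _ _ => h _
  n₁ _ _ a := Finset.prod_ne_zero_iff.2 fun i hi =>
    a.1 _ (by have := Finset.mem_range.1 hi; omega)
  n₂ _ _ a := Finset.prod_ne_zero_iff.2 fun i hi =>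
    a.1 _ (by have := Finset.mem_range.1 hi; omega)
  det _ z _ := w_det m z
  reg := ⟨fun _ _ a => ⟨fun j hj => a.1 _ (by omega), fun j hj => a.2 _ (by omega)⟩,
    fun _ _ _ _ _ _ _ h _ => h _⟩
  inv _ z _ := funext fun j => congrArg z (neg_neg j)
  fι _ z _ := (w_rev m β z).2.2.2
  Aι _ z _ := by rw [(w_rev m β z).1]; rfl
  Bι _ z _ := by rw [(w_rev m β z).1]; rfl
  Cι _ z _ := by rw [(w_rev m β z).1]; exact neg_neg _
  Dι _ z _ := by rw [(w_rev m β z).1]; rfl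
  ι₁ _ z _ := (w_rev m β z).2.1
  ι₂ _ z _ := (w_rev m β z).2.2.1

end

end Pool.Agent.Lib.MP_fc2ced_ag.T
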