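import Pool.Agent.Lib.MP_fc2ced_ag.T.Star
import Pool.Agent.Lib.MP_fc2ced_ag.T.Word

/-! The space of recurrences of order two as a fibre product of a block of words. -/

open CategoryTheory hiding forget
open Function Polynomial

namespace Pool.Agent.Lib.MP_fc2ced_ag.T

open K

noncomputable section

namespace StarAux

section
variable {K : Type} [Field K] {m : ℕ} {z : ℤ → K} {p : K} {x : ℕ → Sp K}

variable (m) in
/-- The word with first letter `p`, followed by `z (-m), ..., z m`. -/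
def ful (z : ℤ → K) (p : K) (j : ℕ) : K := if j = 0 then p else z (j - (m + 1))

variable (m) in
/-- The letters of the word of a recurrence, but the first. -/
def lt (x : ℕ → Sp K) (j : ℤ) : K :=
  if j.natAbs ≤ m then wrd (m + 1) x (j + (m + 1)).toNat else 0

omit [Field K] in
theorem ful_succ (j : ℕ) : ful m z p (j + 1) = z (j - m) := by
  rw [ful, if_neg j.succ_ne_zero]
  congr 1
  push_cast
  ring

theorem ful_ne (h : ∀ j : ℤ, j.natAbs ≤ m → z j ≠ 0) (hp : p ≠ 0) :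
    ∀ j < 2 * (m + 1), ful m z p j ≠ 0 := by
  rintro (_ | j) hj
  exacts [hp, (ful_succ j).trans_ne (h _ (by omega))]

theorem wm_ful (l : ℕ) : wm (ful m z p) (l + 1) = !![1, 0; 0, p] * wP z (-m) l * wd 1 := by
  induction l with
  | zero => simp [wm, wP, wd, ful]
  | succ l ih =>
    have e : (wd 1 : Matrix (Fin 2) (Fin 2) K) * !![1, 1; -z (l - m), 0] =
        wd (z (-m + l)) * wd 1 := by simp [wd, neg_add_eq_sub]
    rw [wm, ih, ful_succ, wP, Matrix.mul_assoc, e]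
    simp only [Matrix.mul_assoc]

theorem chi_ful (h : ∀ j : ℤ, j.natAbs ≤ m → z j ≠ 0) (hp : p ≠ 0) :
    chi (m + 1) (fl (m + 1) (ful m z p) 2) =
      quad ((-1) ^ (m + 1) * ((wG m z 0 0 + p * wG m z 1 1) / (p * w₂ m z)))
        (w₁ m z / (p * w₂ m z)) := by
  have e : wm (ful m z p) (2 * (m + 1)) = !![1, 0; 0, p] * wG m z := by
    rw [wG, ← Matrix.mul_assoc]
    exact wm_ful (2 * m + 1)
  have e1 : ∏ i ∈ Finset.range (m + 1), -(ful m z p (2 * i))⁻¹ =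
      (-1) ^ (m + 1) * (p * w₂ m z)⁻¹ := by
    rw [Finset.prod_neg, Finset.card_range, Finset.prod_inv_distrib, Finset.prod_range_succ', w₂,
      mul_comm p]
    congr 3
    refine Finset.prod_congr rfl fun i _ => (ful_succ (2 * i + 1)).trans ?_
    push_cast
    rfl
  have e2 : w₂ m z ≠ 0 := Finset.prod_ne_zero_iff.2 fun i hi =>
    h _ (by have := Finset.mem_range.1 hi; omega)
  have e3 : ((-1 : K) ^ (m + 1)) ^ 2 = 1 := by rw [← pow_mul, mul_comm, pow_mul]; simp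
  have e4 := w_det m z
  rw [chi_fl (ful_ne h hp), ← det_wm (ful m z p), e, e1, quad, Matrix.det_mul, Matrix.det_fin_two (wG m z),
    mul_pow, e3]
  refine congrArg₂ (fun a b => Polynomial.X ^ 2 - C a * Polynomial.X + C b) ?_ ?_
  · simp only [Matrix.trace_fin_two, Matrix.mul_apply, Fin.sum_univ_two, Matrix.of_apply,
      Matrix.cons_val', Matrix.cons_val_zero, Matrix.cons_val_one]
    ring
  · rw [Matrix.det_fin_two_of]
    field_simp
    linear_combination p * e4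

theorem lt_live (h : Flag (m + 1) 2 ∅ x) :
    (∀ j : ℤ, j.natAbs ≤ m → lt m x j ≠ 0) ∧ ∀ j : ℤ, m < j.natAbs → lt m x j = 0 :=
  ⟨fun _ e => (if_pos e).trans_ne (wrd_ne h _), fun _ e => if_neg (by omega)⟩

theorem fl_lt (h : Flag (m + 1) 2 ∅ x) :
    fl (m + 1) (ful m (lt m x) (wrd (m + 1) x 0)) = x := by
  refine fl_wrd h ?_
  rintro (_ | j) hj
  · rfl
  · rw [ful_succ, lt, if_pos (by omega)]
    congr 1
    omega

theorem lt_fl (h : ∀ j : ℤ, j.natAbs ≤ m → z j ≠ 0) (h' : ∀ j : ℤ, m < j.natAbs → z j = 0)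
    (hp : p ≠ 0) :
    lt m (fl (m + 1) (ful m z p)) = z ∧ wrd (m + 1) (fl (m + 1) (ful m z p)) 0 = p := by
  refine ⟨funext fun j => ?_, wrd_fl (ful_ne h hp) (by omega)⟩
  rw [lt]
  split_ifs with e
  · rw [wrd_fl (ful_ne h hp) (by omega), ful, if_neg (by omega)]
    congr 1
    omega
  · exact (h' j (by omega)).symm

theorem lt_star (h : Flag (m + 1) 2 ∅ x) : lt m (star (m + 1) x) = fun j => lt m x (-j) := by
  funext j
  rw [lt, lt, Int.natAbs_neg]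
  split_ifs with e
  · rw [(wrd_star h).2 _ (by omega) (by omega)]
    congr 1
    omega
  · rfl

theorem prod_par {M : Type} [CommMonoid M] (u : ℕ → M) (m : ℕ) :
    ∏ i ∈ Finset.range (2 * m + 1), u i =
      (∏ i ∈ Finset.range (m + 1), u (2 * i)) * ∏ i ∈ Finset.range m, u (2 * i + 1) := by
  induction m with
  | zero => simp
  | succ m ih =>
    rw [show 2 * (m + 1) + 1 = 2 * m + 1 + 1 + 1 from rfl, Finset.prod_range_succ,
      Finset.prod_range_succ, ih, Finset.prod_range_succ _ (m + 1),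
      Finset.prod_range_succ (fun i => u (2 * i + 1)) m, show 2 * (m + 1) = 2 * m + 1 + 1 from rfl,
      mul_mul_mul_comm, mul_assoc, mul_comm (u _)]

end

/-- The exponents of the letters. -/
def bt (n : ℕ) [Ex n] (j : ℕ) : ℤ :=
  if (n + j) % 2 = 0 then Ex.b (Fin.ofNat n ((n + j) / 2)) else 0

theorem bt_top (n : ℕ) [Ex n] : bt n n = Ex.b (0 : Fin n) := by
  rw [bt, if_pos (by omega), show (n + n) / 2 = n by omega]
  congr 1
  exact Fin.ext (by simp)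

theorem bt_add (n : ℕ) [Ex n] (j : ℕ) : ∃ i : Fin n, bt n j + bt n (j + 1) = Ex.b i := by
  rw [bt, bt]
  split_ifs
  exacts [by omega, ⟨_, add_zero _⟩, ⟨_, zero_add _⟩, by omega]

theorem fU_ful {K : Type} [Field K] {m : ℕ} [Ex (m + 1)] {z : ℤ → K} {p : K}
    (h : ∀ j : ℤ, j.natAbs ≤ m → z j ≠ 0) (hp : p ≠ 0) :
    fU (m + 1) 2 (fl (m + 1) (ful m z p) 2) =
      p ^ Ex.b (0 : Fin (m + 1)) * wF m (bt (m + 1)) z := by
  rw [fU_fl (ful_ne h hp), Fin.prod_univ_succ, wF, prod_par,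
    Finset.prod_eq_one (s := Finset.range (m + 1)), one_mul, Finset.prod_range]
  · refine congrArg₂ _ rfl (Finset.prod_congr rfl fun i _ => congrArg₂ _ (ful_succ (2 * i + 1)) ?_)
    have := i.2
    rw [bt, if_pos (by omega)]
    by_cases e : m ≤ 2 * i + 1
    · congr 1
      refine Fin.ext ?_
      rw [Fin.val_ofNat, Nat.mod_eq_of_lt (by omega), Fin.val_succ]
      omega
    · rw [← Ex.pal]
      congr 1
      refine Fin.ext ?_
      rw [Fin.val_ofNat, Nat.mod_eq_of_lt (by omega), Fin.val_neg, if_neg (Fin.succ_ne_zero i),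
        Fin.val_succ]
      omega
  · intro i _
    rw [bt, if_neg (by omega), zpow_zero]

variable {k : Type} [Field k] {P : Pt k}

open Pt Place

/-- The parameters: the two invariants of the block, the determinant of the shift and a point of
`P`. -/
@[reducible] def par (T : PC P) (n : ℕ) (s : ℤ) : Par k where
  P := (((((line k).prod (line k)).prod (gm k)).prod P).restr
    (fun _ y => T.T (fun _ => quad ((-1) ^ n * (y.1.1.1 * y.1.2 + y.1.1.2)) y.1.2) y.2)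
    fun _ _ _ φ φ' _ _ _ a b c r r' => T.conv φ φ' _ _ _ _ _ _ a.2 b.2 c.2
      (fun _ => quad_PR ((φ.one.neg.pow n).mul ((r.1.1.1.mul r.1.2).add r.1.1.2)) r.1.2)
      (fun _ => quad_PR ((φ'.one.neg.pow n).mul ((r'.1.1.1.mul r'.1.2).add r'.1.1.2)) r'.1.2)
      r.2 r'.2).withF (fun _ y => y.1.2 ^ (-s) * P.f y.2)
    (fun _ _ φ _ _ a b r => (rel_zpow r.1.2 b.1.1.2.2 _).mul (P.reg φ _ _ a.1.2 b.1.2 r.2))
    fun _ _ a => mul_ne_zero (zpow_ne_zero _ a.1.1.2.2) (P.ne _ a.1.2)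
  X _ y := y.1.1.1
  Y _ y := y.1.1.2
  rX _ _ _ _ _ _ _ r := r.1.1.1
  rY _ _ _ _ _ _ _ r := r.1.1.2

end StarAux

variable {k : Type} [Field k] {F : Type} [Field F] {χ : Chr k F} {P : Pt k} {T : PC P}

open Pt Place StarAux

theorem star_acts_of {m : ℕ} [Ex (m + 1)] {c : F}
    (H : (wb k m (bt (m + 1))).Claim (Ex.b (0 : Fin (m + 1))) χ c) (hT : T.Dep {2}) :
    ((Zv k (m + 1) 2 ∅).over T).Acts χ (fun _ x => (star (m + 1) x.1, x.2)) c := by
  have n₁ := (wb k m (bt (m + 1))).n₁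
  have n₂ := (wb k m (bt (m + 1))).n₂
  have hp : ((Zv k (m + 1) 2 ∅).over T).Reg (words k m (bt (m + 1))) fun _ x => lt m x.1 :=
    ⟨fun _ _ h => lt_live h.1.1, fun _ _ φ x y h h' r j => by
      simp only [lt]
      split_ifs
      exacts [rel_wrd h.1.1 h'.1.1 (r.1 2) _, φ.zero]⟩
  have q : ∀ ⦃K : Fld k⦄ (z : ℤ → K) (p X Y δ : K), (words k m (bt (m + 1))).L z → δ ≠ 0 →
      wG m z 0 0 = X * w₁ m z → wG m z 1 1 = Y * w₂ m z → p = w₁ m z / (δ * w₂ m z) →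
      chi (m + 1) (fl (m + 1) (ful m z p) 2) = quad ((-1) ^ (m + 1) * (X * δ + Y)) δ := by
    rintro K z _ X Y δ h hδ a b rfl
    have a₁ : w₁ m z ≠ 0 := n₁ z h
    have a₂ : w₂ m z ≠ 0 := n₂ z h
    rw [chi_ful h.1 (div_ne_zero a₁ (mul_ne_zero hδ a₂)), a, b]
    congr 2 <;> field_simp
  refine Acts.of_iso (S := (Zv k (m + 1) 2 ∅).over T) (S' := (wb k m (bt (m + 1))).tot (Ex.b (0 : Fin (m + 1)))
      (par T (m + 1) (Ex.b (0 : Fin (m + 1)))))
    (a' := fun _ y => (wb k m (bt (m + 1))).totI _ y)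
    (e := fun _ x => (lt m x.1, (((wG m (lt m x.1) 0 0 / w₁ m (lt m x.1),
      wG m (lt m x.1) 1 1 / w₂ m (lt m x.1)),
      w₁ m (lt m x.1) / (wrd (m + 1) x.1 0 * w₂ m (lt m x.1))), x.2)))
    (g := fun _ y => (fl (m + 1) (ful m y.1 (w₁ m y.1 / (y.2.1.2 * w₂ m y.1))), y.2.2))
    ⟨fun _ x h => ?_, fun _ _ φ x y h h' r => ?_⟩ ⟨fun _ y h => ?_, fun _ _ φ x y h h' r => ?_⟩
    (fun _ x h => ?_) (fun _ x h => ?_) (fun _ y h => ?_) (pend_star.toPMap.over hT)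
    (fun _ x h => ⟨⟨h.1.1.star_flag, h.1.2⟩,
      hT _ _ _ (fun j hj => by rw [show j = 2 from hj]; exact h.1.1.chi_star.symm) h.2⟩)
    (fun _ x h => ?_) (H _)
  · have l := hp.live x h
    have a₁ : w₁ m (lt m x.1) ≠ 0 := n₁ _ l
    have a₂ : w₂ m (lt m x.1) ≠ 0 := n₂ _ l
    have a₃ := wrd_ne h.1.1 0
    have d := div_ne_zero a₁ (mul_ne_zero a₃ a₂)
    refine ⟨⟨l, ⟨⟨⟨trivial, trivial⟩, trivial, d⟩, h.1.2⟩, hT _ _ _ (fun j hj => ?_) h.2⟩,
      (div_mul_cancel₀ _ a₁).symm, (div_mul_cancel₀ _ a₂).symm⟩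
    rw [show j = 2 from hj, ← q _ (wrd (m + 1) x.1 0) _ _ _ l d (div_mul_cancel₀ _ a₁).symm
      (div_mul_cancel₀ _ a₂).symm (by field_simp), fl_lt h.1.1]
  · have l := hp.live y h'
    have s := hp.reg φ x y h h' r
    have s₁ : φ (w₁ m (lt m x.1)) (w₁ m (lt m y.1)) := Place.prod fun _ _ => s _
    have s₂ : φ (w₂ m (lt m x.1)) (w₂ m (lt m y.1)) := Place.prod fun _ _ => s _
    exact ⟨s, ⟨⟨(rel_wG s m 0 0).div s₁ (n₁ _ l), (rel_wG s m 1 1).div s₂ (n₂ _ l)⟩,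
      s₁.div ((rel_wrd h.1.1 h'.1.1 (r.1 2) 0).mul s₂) (mul_ne_zero (wrd_ne h'.1.1 0) (n₂ _ l))⟩,
      r.2⟩
  · have d := div_ne_zero (n₁ _ h.1.1) (mul_ne_zero h.1.2.1.1.2.2 (n₂ _ h.1.1))
    refine ⟨⟨flag_fl (ful_ne h.1.1.1 d), h.1.2.1.2⟩, hT _ _ _ (fun j hj => ?_) h.1.2.2⟩
    rw [show j = 2 from hj]
    exact (q _ _ _ _ _ h.1.1 h.1.2.1.1.2.2 h.2.1 h.2.2 rfl).symm
  · have d := mul_ne_zero h'.1.2.1.1.2.2 (n₂ _ h'.1.1)
    refine ⟨gr_fl (ful_ne h'.1.1.1 (div_ne_zero (n₁ _ h'.1.1) d)) fun j _ => ?_, r.2.2⟩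
    simp only [ful]
    split_ifs
    exacts [(Place.prod fun _ _ => r.1 _).div (r.2.1.2.mul (Place.prod fun _ _ => r.1 _)) d, r.1 _]
  · have l := hp.live x h
    have a₁ : w₁ m (lt m x.1) ≠ 0 := n₁ _ l
    have a₂ : w₂ m (lt m x.1) ≠ 0 := n₂ _ l
    have a₃ := wrd_ne h.1.1 0
    have e := fU_ful l.1 a₃
    rw [fl_lt h.1.1] at e
    change wF m (bt (m + 1)) (lt m x.1) *
      (w₁ m (lt m x.1) / w₂ m (lt m x.1)) ^ Ex.b (0 : Fin (m + 1)) *
      ((w₁ m (lt m x.1) / (wrd (m + 1) x.1 0 * w₂ m (lt m x.1))) ^ (-Ex.b (0 : Fin (m + 1))) *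
        P.f x.2) =
        fU (m + 1) 2 (x.1 2) * P.f x.2
    rw [e, ← mul_assoc, mul_assoc (wF _ _ _), ← inv_zpow', ← mul_zpow, mul_comm (wF _ _ _)]
    congr 3
    field_simp
  · have l := hp.live x h
    have a₁ : w₁ m (lt m x.1) ≠ 0 := n₁ _ l
    have a₂ : w₂ m (lt m x.1) ≠ 0 := n₂ _ l
    have a₃ := wrd_ne h.1.1 0
    refine Prod.ext ((congrArg (fun p => fl (m + 1) (ful m (lt m x.1) p)) ?_).trans (fl_lt h.1.1)) rfl
    field_simp
  · have a₁ : w₁ m y.1 ≠ 0 := n₁ _ h.1.1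
    have a₂ : w₂ m y.1 ≠ 0 := n₂ _ h.1.1
    have a₃ : y.2.1.2 ≠ 0 := h.1.2.1.1.2.2
    obtain ⟨e₁, e₂⟩ := lt_fl h.1.1.1 h.1.1.2 (div_ne_zero a₁ (mul_ne_zero a₃ a₂))
    dsimp only
    rw [e₁, e₂]
    refine Prod.ext rfl (Prod.ext (Prod.ext (Prod.ext ((div_eq_iff a₁).2 h.2.1)
      ((div_eq_iff a₂).2 h.2.2)) ?_) rfl)
    dsimp only
    field_simp
  · obtain ⟨e₁, e₂, e₃, -⟩ := w_rev m (bt (m + 1)) (lt m x.1)
    dsimp only
    rw [lt_star h.1.1, e₁, e₂, e₃, (wrd_star h.1.1).1]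
    rfl

end

end Pool.Agent.Lib.MP_fc2ced_ag.T
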