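import Pool.Agent.Lib.MP_fc2ced_ag.T.StarS
import Pool.Agent.Lib.MP_fc2ced_ag.T.SeqD
import Pool.Agent.Lib.MP_fc2ced_ag.K.GeoR

/-! The involution on flags of spaces of solutions of recurrences of order two. -/

open Function Polynomial

namespace Pool.Agent.Lib.MP_fc2ced_ag.T

open K

noncomputable section

variable {K : Type} [Field K] {n : ℕ} {I : Finset ℕ} {x : ℕ → Sp K}

variable (n) in
/-- The involution on flags. -/
def star (x : ℕ → Sp K) (m : ℕ) : Sp K := (x m).map (thT (coef n 2 (x 2)))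

open StarAux

theorem Flag.le_sol (h : Flag n 2 I x) (i : ℕ) : x i ≤ Sol 2 (coef n 2 (x 2)) :=
  h.rel.eq_sol ▸ (h.toK.stab' i).2

theorem Flag.star_top (h : Flag n 2 I x) : star n x 2 = Sol 2 (gs (coef n 2 (x 2))) :=
  (congrArg (Submodule.map _) h.rel.eq_sol).trans (map_sol h.rel.band h.trel.ne)

theorem Flag.coef_star (h : Flag n 2 I x) : coef n 2 (star n x 2) = gs (coef n 2 (x 2)) := by
  rw [h.star_top, (band_gs h.rel.band h.trel.ne).coef_sol]

theorem Flag.dU_star (h : Flag n 2 I x) (i : ℤ) :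
    dU n 2 (star n x 2) i = dU n 2 (x 2) (-i) := by
  rw [dU, h.coef_star, d_gs, dU]

theorem Flag.top_star (h : Flag n 2 I x) (i : ℤ) : coef n 2 (star n x 2) i 2 =
    coef n 2 (x 2) (-i - 1) 2 * dU n 2 (x 2) (-i) / dU n 2 (x 2) (-i - 1) := by
  rw [h.coef_star, gs_two, dU]

theorem Flag.star_flag (h : Flag n 2 I x) : Flag n 2 I (star n x) :=
  ⟨⟨h.star_top ▸ (band_gs h.rel.band h.trel.ne).rel, fun i => h.dU_star i ▸ h.trel.ne _⟩,
    fun i hi => stab_th h.rel.band (h.stab i hi),
    fun i hi => (rank_th h.rel.band h.trel.ne (h.le_sol i)).trans (h.rank i hi),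
    fun i hi => Submodule.map_mono (h.le_top i hi),
    fun i hi j hj e => Submodule.map_mono (h.mono i hi j hj e),
    fun i hi e => by rw [star, h.bot i hi e, Submodule.map_bot]⟩

theorem Flag.star_star (h : Flag n 2 I x) : star n (star n x) = x :=
  funext fun m => by rw [star, h.coef_star, star, map_map h.rel.band h.trel.ne (h.le_sol m)]

theorem Flag.fU_star [Ex n] (h : Flag n 2 I x) : fU n 2 (star n x 2) = fU n 2 (x 2) := by
  simp only [fU, h.dU_star, ← per_neg (dU_add h.rel)]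
  refine Eq.trans ?_
    (Equiv.prod_comp (Equiv.neg (Fin n)) fun a => dU n 2 (x 2) (a : ℕ) ^ (-Ex.b a))
  simp only [Equiv.neg_apply, Ex.pal]

theorem Flag.chi_star (h : Flag n 2 I x) : chi n (star n x 2) = chi n (x 2) := by
  have e := chi_th h.rel.band h.trel.ne
  rwa [← h.rel.eq_sol] at e

theorem forget_star : forget 2 I (star n x) = star n (forget 2 I x) := funext fun i => by
  rw [star, forget_top, forget, forget]
  split_ifs
  exacts [rfl, (Submodule.map_bot _).symm]

theorem Flag.star_one (h : Flag n 2 I x) (hr : TRel n 1 (x 1)) : TRel n 1 (star n x 1) ∧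
    ∀ i, dU n 1 (star n x 1) i = dU n 2 (x 2) (-i) / dU n 1 (x 1) (-i) := by
  obtain ⟨h1, h2⟩ := map_one h.rel.band h.trel.ne hr.rel hr.ne (h.le_sol 1)
  exact ⟨⟨h1, fun i => (h2 i).trans_ne (div_ne_zero (h.trel.ne _) (hr.ne _))⟩, h2⟩

theorem Flag.allRel_star (h : Flag n 2 (Finset.Ioo 0 2) x) (hr : AllRel n 2 x) :
    AllRel n 2 (star n x) := fun i hi => by
  have h' := h.star_flag
  interval_cases i
  · exact trel_zero_iff.2 (h'.bot 0 (by decide) (by decide))
  · exact (h.star_one (hr 1 hi)).1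
  · exact h'.trel

theorem Flag.jmap_star [NeZero n] (h : Flag n 2 (Finset.Ioo 0 2) x) :
    jmap n 2 (star n x) = fun a i => jmap n 2 x a.rev (-i) := by
  funext a i
  by_cases hr : AllRel n 2 x
  · have h1 := hr 1 one_le_two
    have hs := h.allRel_star hr
    have e := (h.star_one h1).2 (i : ℕ)
    rw [jmap, jmap, if_pos hr, if_pos hs]
    fin_cases a
    · change 1 - dU n 1 (star n x 1) _ / dU n 0 (star n x 0) _ = 1 - dU n 2 (x 2) _ / dU n 1 (x 1) _
      rw [dU_zero (hs 0 zero_le_two).rel, per_neg (dU_add h1.rel), per_neg (dU_add h.rel), e,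
        div_one]
    · change 1 - dU n 2 (star n x 2) _ / dU n 1 (star n x 1) _ = 1 - dU n 1 (x 1) _ / dU n 0 (x 0) _
      rw [dU_zero (hr 0 zero_le_two).rel, per_neg (dU_add h1.rel), h.dU_star, e, div_one,
        div_div_cancel₀ (h.trel.ne _)]
  · rw [jmap, jmap, if_neg hr, if_neg fun e => hr (h.star_star ▸ h.star_flag.allRel_star e)]

theorem gr_star {k : Type} [Field k] {K K' : Fld k} {φ : Place K K'} {x : ℕ → Sp K}
    {y : ℕ → Sp K'} (a : Flag n 2 I x) (b : Flag n 2 I y) (h : ∀ i, φ.GR (x i) (y i)) (i : ℕ) :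
    φ.GR (star n x i) (star n y i) := by
  have c := (h 2).coef a.rel b.rel
  exact (h i).map Place.GR.bot bot_le _ _ (fun z z' e t => ((e _).sub (e _)).mul (Place.R.mul
    (Place.prod fun _ _ => c _ _) ((Place.prod fun _ _ => c _ _).inv
      (Finset.prod_ne_zero_iff.2 fun _ _ => b.rel.band.top _)))) bot_le
    (ker_th b.rel.band b.trel.ne (b.le_sol i))

end

end Pool.Agent.Lib.MP_fc2ced_ag.T
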