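import Pool.Agent.Lib.MP_fc2ced_ag.K.SeqD

/-! The reversed adjoint of a recurrence of order two, conjugated by the difference operator:
statements about sequences. -/

open Function Polynomial

namespace Pool.Agent.Lib.MP_fc2ced_ag.T

open K

noncomputable section

variable {K : Type} [Field K] {n w : ℕ}

/-- The solution of `ω i = g (-i) 2 * ω (i + 1)` with `ω 0 = 1`. -/
def wt (g : ℤ → ℕ → K) (i : ℤ) : K :=
  (∏ t ∈ Finset.Ico i 0, g (-t) 2) * (∏ t ∈ Finset.Ico 0 i, g (-t) 2)⁻¹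

/-- The reversal of the differences of a sequence, with weights. -/
def thT (g : ℤ → ℕ → K) : Sq K →ₗ[K] Sq K where
  toFun y i := (y (1 - i) - y (2 - i)) * wt g i
  map_add' y z := funext fun i => by simp only [Pi.add_apply]; ring
  map_smul' c y := funext fun i => by simp only [Pi.smul_apply, smul_eq_mul, RingHom.id_apply]; ring

namespace StarAux

variable {g g₁ : ℤ → ℕ → K} {U : Sp K}

theorem thT_apply (y : Sq K) (i : ℤ) : thT g y i = (y (1 - i) - y (2 - i)) * wt g i := rfl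

theorem const {α : Type} {f : ℤ → α} (h : ∀ i, f i = f (i + 1)) (i j : ℤ) : f i = f j := by
  have k : ∀ i, f i = f 0 := fun i => by
    induction i using Int.induction_on with
    | zero => rfl
    | succ m ih => rw [← h, ih]
    | pred m ih => rw [h, sub_add_cancel, ih]
  rw [k i, k j]

theorem wt_ne (h : ∀ i, g i 2 ≠ 0) (i : ℤ) : wt g i ≠ 0 :=
  mul_ne_zero (Finset.prod_ne_zero_iff.2 fun _ _ => h _)
    (inv_ne_zero (Finset.prod_ne_zero_iff.2 fun _ _ => h _))

theorem wt_step (h : ∀ i, g i 2 ≠ 0) (i : ℤ) : wt g i = g (-i) 2 * wt g (i + 1) := by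
  unfold wt
  rcases lt_or_ge i 0 with e | e
  · rw [← Finset.insert_Ico_add_one_left_eq_Ico e, Finset.prod_insert (by simp),
      Finset.Ico_eq_empty_of_le e.le, Finset.Ico_eq_empty_of_le (show i + 1 ≤ 0 from e), mul_assoc]
  · rw [← Finset.insert_Ico_right_eq_Ico_add_one e, Finset.prod_insert (by simp),
      Finset.Ico_eq_empty_of_le e, Finset.Ico_eq_empty_of_le (show 0 ≤ i + 1 by omega), mul_inv,
      mul_left_comm, mul_inv_cancel_left₀ (h _)]

theorem wt_sub (h : Band n 2 g) (i : ℤ) :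
    wt g (i - n) = (∏ t ∈ Finset.range n, g t 2) * wt g i := by
  have k : ∀ m : ℕ, wt g (1 - m) = (∏ t ∈ Finset.range m, g t 2) * wt g 1 := fun m => by
    induction m with
    | zero => simp
    | succ m ih =>
      rw [wt_step h.top, Finset.prod_range_succ, show 1 - ((m + 1 : ℕ) : ℤ) + 1 = 1 - m by omega,
        show -(1 - ((m + 1 : ℕ) : ℤ)) = m by omega, ih, mul_left_comm, mul_assoc]
  rw [← div_eq_iff (wt_ne h.top i), const (f := fun i => wt g (i - n) / wt g i) (fun i => ?_) i 1,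
    k, mul_div_cancel_right₀ _ (wt_ne h.top 1)]
  rw [wt_step h.top i, wt_step h.top (i - n), neg_sub', sub_neg_eq_add, h.per,
    mul_div_mul_left _ _ (h.top _), sub_add_eq_add_sub]

theorem op_one (y : Sq K) (i : ℤ) : op 1 g y i = g i 0 * y i + g i 1 * y (i + 1) := by
  simp [op_apply, Finset.sum_range_succ]

theorem op_two (y : Sq K) (i : ℤ) :
    op 2 g y i = g i 0 * y i + g i 1 * y (i + 1) + g i 2 * y (i + 2) := by
  simp [op_apply, Finset.sum_range_succ]

theorem d_one (h : Band n 1 g) (i : ℤ) : op 1 g 1 i = 1 + g i 1 := by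
  simp [op_one, h.one]

theorem d_two (h : Band n 2 g) (i : ℤ) : op 2 g 1 i = 1 + g i 1 + g i 2 := by
  simp [op_two, h.one]

theorem d_per (h : Band n w g) (i : ℤ) : op w g 1 (i + n) = op w g 1 i := by
  simp [op_apply, h.per]

theorem per_neg [NeZero n] {α : Type} {u : ℤ → α} (h : ∀ i, u (i + n) = u i) (a : Fin n) :
    u ((-a : Fin n) : ℕ) = u (-(a : ℕ)) := by
  rw [Fin.val_neg]
  split_ifs with e
  · simp [e]
  · rw [Nat.cast_sub a.2.le, sub_eq_neg_add, h]

/-- The recurrence in terms of differences. -/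
theorem diff (h : Band n 2 g) {y : Sq K} (hy : y ∈ Sol 2 g) (i : ℤ) :
    g i 2 * (y (i + 1) - y (i + 2)) = y i - y (i + 1) + op 2 g 1 i * y (i + 1) := by
  have e := mem_Sol.1 hy i
  rw [op_two, h.one] at e
  rw [d_two h]
  linear_combination -e

theorem inj (h : Band n 2 g) (hd : ∀ i, op 2 g 1 i ≠ 0) {y : Sq K} (hy : y ∈ Sol 2 g)
    (e : thT g y = 0) : y = 0 := by
  have e1 : ∀ i, y i - y (i + 1) = 0 := fun i => by
    have := (mul_eq_zero.1 (congrFun e (1 - i))).resolve_right (wt_ne h.top _)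
    rwa [sub_sub_cancel, show 2 - (1 - i) = i + 1 by ring] at this
  funext i
  have e2 := diff h hy (i - 1)
  have e3 := e1 (i - 1 + 1)
  rw [add_assoc, one_add_one_eq_two] at e3
  rw [e3, e1, mul_zero, zero_add, sub_add_cancel] at e2
  exact (mul_eq_zero.1 e2.symm).resolve_left (hd _)

theorem ker_th (h : Band n 2 g) (hd : ∀ i, op 2 g 1 i ≠ 0) (e : U ≤ Sol 2 g) :
    U ⊓ LinearMap.ker (thT g) ≤ ⊥ := fun _ hy => inj h hd (e hy.1) hy.2

/-- The restriction to a space of solutions as an isomorphism onto the image. -/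
def thE (h : Band n 2 g) (hd : ∀ i, op 2 g 1 i ≠ 0) (e : U ≤ Sol 2 g) : U ≃ₗ[K] U.map (thT g) :=
  .ofBijective ((thT g).submoduleMap U) ⟨(injective_iff_map_eq_zero _).2 fun y hy =>
    Subtype.ext (inj h hd (e y.2) (congrArg Subtype.val hy)), (thT g).submoduleMap_surjective U⟩

theorem rank_th (h : Band n 2 g) (hd : ∀ i, op 2 g 1 i ≠ 0) (e : U ≤ Sol 2 g) :
    Module.finrank K (U.map (thT g)) = Module.finrank K U := (thE h hd e).finrank_eq.symm

theorem sh_th (h : Band n 2 g) (y : Sq K) :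
    sh K n (thT g y) = (∏ t ∈ Finset.range n, g t 2) • thT g ((sh K n).symm y) := funext fun i => by
  change (y (1 - (i - n)) - y (2 - (i - n))) * wt g (i - n) =
    _ * ((y (1 - i + n) - y (2 - i + n)) * wt g i)
  rw [wt_sub h, mul_left_comm, sub_sub_eq_add_sub, sub_add_eq_add_sub, sub_sub_eq_add_sub,
    sub_add_eq_add_sub]

theorem stab_th (h : Band n 2 g) (hU : Stab n U) : Stab n (U.map (thT g)) := by
  have := hU.fin
  refine ⟨inferInstance, ?_⟩
  rintro _ ⟨y, hy, rfl⟩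
  exact ⟨_, U.smul_mem _ (hU.symm_mem hy), ((thT g).map_smul _ _).trans (sh_th h y).symm⟩

theorem chi_th (h : Band n 2 g) (hd : ∀ i, op 2 g 1 i ≠ 0) :
    chi n ((Sol 2 g).map (thT g)) = chi n (Sol 2 g) := by
  have hU := h.stab
  have := hU.fin
  have h3 : (chi n (Sol 2 g)).coeff 0 = ∏ t ∈ Finset.range n, g t 2 := by
    simpa only [neg_one_sq, one_mul] using h.chi_sol_coeff
  rw [hU.chi_eq] at h3 ⊢
  rw [(stab_th h hU).chi_eq, ← charpoly_two h.finrank_sol _
    ((∏ t ∈ Finset.range n, g t 2) • (sh K n).symm.toLinearMap.restrict fun y hy => hU.symm_mem hy)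
    (Finset.prod_ne_zero_iff.2 fun _ _ => h.top _) h3 (LinearMap.ext fun y => Subtype.ext (by simp))]
  exact charpoly_equiv (thE h hd le_rfl) _ _ fun y =>
    Subtype.ext ((sh_th h y).trans ((thT g).map_smul _ _).symm)

/-- The adjoint coefficients. -/
def gs (g : ℤ → ℕ → K) (i : ℤ) (l : ℕ) : K :=
  if l = 0 then 1 else
    if l = 1 then op 2 g 1 (-i) - 1 - g (-i - 1) 2 * op 2 g 1 (-i) / op 2 g 1 (-i - 1) else
      if l = 2 then g (-i - 1) 2 * op 2 g 1 (-i) / op 2 g 1 (-i - 1) else 0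

theorem gs_two (i : ℤ) : gs g i 2 = g (-i - 1) 2 * op 2 g 1 (-i) / op 2 g 1 (-i - 1) := rfl

theorem band_gs (h : Band n 2 g) (hd : ∀ i, op 2 g 1 i ≠ 0) : Band n 2 (gs g) where
  per i l := by
    rw [gs, gs, ← h.per (-(i + n) - 1), ← d_per h (-(i + n)), ← d_per h (-(i + n) - 1),
      show -(i + n) + n = -i by ring, show -(i + n) - 1 + n = -i - 1 by ring]
  one _ := rfl
  top i := div_ne_zero (mul_ne_zero (h.top _) (hd _)) (hd _)
  zero i l hl := by rw [gs, if_neg (by omega), if_neg (by omega), if_neg (by omega)]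

theorem d_gs (i : ℤ) : op 2 (gs g) 1 i = op 2 g 1 (-i) := by
  rw [op_two]
  simp only [gs, Pi.one_apply, mul_one, if_true, one_ne_zero, if_false, OfNat.ofNat_ne_zero,
    OfNat.ofNat_ne_one]
  ring

theorem map_sol (h : Band n 2 g) (hd : ∀ i, op 2 g 1 i ≠ 0) :
    (Sol 2 g).map (thT g) = Sol 2 (gs g) := by
  have := (stab_th h h.stab).fin
  refine (band_gs h hd).eq_sol ((rank_th h hd le_rfl).trans h.finrank_sol) ?_
  rintro _ ⟨y, hy, rfl⟩
  refine mem_Sol.2 fun i => ?_
  have e := diff h hy (-i)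
  have e' := diff h hy (-i - 1)
  have a := hd (-i - 1)
  rw [op_two]
  change 1 * ((y (1 - i) - y (2 - i)) * _) +
    (op 2 g 1 (-i) - 1 - g (-i - 1) 2 * op 2 g 1 (-i) / op 2 g 1 (-i - 1)) *
      ((y (1 - (i + 1)) - y (2 - (i + 1))) * _) +
    g (-i - 1) 2 * op 2 g 1 (-i) / op 2 g 1 (-i - 1) * ((y (1 - (i + 2)) - y (2 - (i + 2))) * _) = 0
  rw [wt_step h.top i, wt_step h.top (i + 1), show 2 - i = -i + 2 by ring,
    show 1 - i = -i + 1 by ring, show 2 - (i + 1) = -i + 1 by ring, show 1 - (i + 1) = -i by ring,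
    show 2 - (i + 2) = -i by ring, show 1 - (i + 2) = -i - 1 by ring, neg_add', add_assoc i,
    one_add_one_eq_two]
  rw [sub_add_cancel, show -i - 1 + 2 = -i + 1 by ring] at e'
  generalize op 2 g 1 (-i - 1) = d' at *
  generalize op 2 g 1 (-i) = d at *
  field_simp
  linear_combination g (-i - 1) 2 * wt g (i + 2) * (d' * e - d * e')

theorem map_one (h : Band n 2 g) (hd : ∀ i, op 2 g 1 i ≠ 0) (hU : Rel n 1 U)
    (hd' : ∀ i, op 1 (coef n 1 U) 1 i ≠ 0) (e : U ≤ Sol 2 g) : Rel n 1 (U.map (thT g)) ∧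
    ∀ i, op 1 (coef n 1 (U.map (thT g))) 1 i = op 2 g 1 (-i) / op 1 (coef n 1 U) 1 (-i) := by
  have b := hU.band
  have e2 : ∀ y ∈ U, ∀ i, y i - y (i + 1) = -(op 1 (coef n 1 U) 1 i * y (i + 1)) := fun y hy i => by
    have e2 := mem_Sol.1 (hU.eq_sol ▸ hy :) i
    rw [op_one, b.one] at e2
    rw [d_one b]
    linear_combination e2
  have ne : ∀ i, op 2 g 1 i / op 1 (coef n 1 U) 1 i - 1 ≠ 0 := fun i hi => by
    obtain ⟨y, hy, h1⟩ := b.su 1 (i + 2)
    rw [← hU.eq_sol] at hy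
    have e3 := diff h (e hy) i
    have e4 := e2 y hy (i + 1)
    rw [add_assoc, one_add_one_eq_two] at e4
    rw [e4, e2 y hy i, (div_eq_one_iff_eq (hd' i)).1 (sub_eq_zero.1 hi), neg_add_cancel,
      h1 (i + 2) le_rfl (by omega)] at e3
    simp [h.top, hd'] at e3
  have b' : Band n 1 fun i l => if l = 0 then 1 else
      if l = 1 then op 2 g 1 (-i) / op 1 (coef n 1 U) 1 (-i) - 1 else 0 :=
    ⟨fun i l => by
      rw [← d_per h (-(i + n)), ← d_per b (-(i + n)), show -(i + n) + n = -i by ring],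
    fun _ => rfl, fun _ => ne _, fun i l hl => by rw [if_neg (by omega), if_neg (by omega)]⟩
  have := (stab_th h hU.stab).fin
  have h4 := b'.eq_sol ((rank_th h hd e).trans hU.finrank_eq) (by
    rintro _ ⟨y, hy, rfl⟩
    refine mem_Sol.2 fun i => ?_
    have e3 := diff h (e hy) (-i)
    have e4 := e2 y hy (-i)
    have a := hd' (-i)
    rw [op_one]
    change 1 * ((y (1 - i) - y (2 - i)) * _) + (op 2 g 1 (-i) / op 1 (coef n 1 U) 1 (-i) - 1) *
      ((y (1 - (i + 1)) - y (2 - (i + 1))) * _) = 0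
    rw [wt_step h.top i, show 2 - i = -i + 2 by ring, show 1 - i = -i + 1 by ring,
      show 2 - (i + 1) = -i + 1 by ring, show 1 - (i + 1) = -i by ring]
    generalize op 1 (coef n 1 U) 1 (-i) = d' at *
    field_simp
    linear_combination wt g (i + 1) * (d' * e3 + op 2 g 1 (-i) * e4))
  rw [h4, b'.coef_sol]
  exact ⟨b'.rel, fun i => by rw [d_one b']; simp⟩

theorem map_map (h : Band n 2 g) (hd : ∀ i, op 2 g 1 i ≠ 0) (e : U ≤ Sol 2 g) :
    (U.map (thT g)).map (thT (gs g)) = U := by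
  have h' := (band_gs h hd).top
  have c : ∀ y ∈ U, thT (gs g) (thT g y) =
      (op 2 g 1 (0 - 1) * wt g (2 - 0) * wt (gs g) 0) • y := fun y hy => funext fun i => by
    have e1 := diff h (e hy) (i - 1)
    rw [sub_add_cancel, show i - 1 + 2 = i + 1 by ring] at e1
    rw [Pi.smul_apply, smul_eq_mul,
      ← const (f := fun i => op 2 g 1 (i - 1) * wt g (2 - i) * wt (gs g) i) (fun i => ?_) i 0]
    · change ((y (1 - (1 - i)) - y (2 - (1 - i))) * wt g (1 - i) -
        (y (1 - (2 - i)) - y (2 - (2 - i))) * wt g (2 - i)) * wt (gs g) i = _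
      rw [wt_step h.top (1 - i), show 1 - (1 - i) = i by ring, show 2 - (1 - i) = i + 1 by ring,
        show 1 - (2 - i) = i - 1 by ring, show 2 - (2 - i) = i by ring,
        show -(1 - i) = i - 1 by ring, show 1 - i + 1 = 2 - i by ring]
      linear_combination wt g (2 - i) * wt (gs g) i * e1
    · have a := hd (i - 1)
      rw [wt_step h' i, wt_step h.top (2 - (i + 1)), show 2 - (i + 1) + 1 = 2 - i by ring,
        show -(2 - (i + 1)) = i - 1 by ring, gs_two, neg_neg, add_sub_cancel_right]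
      field_simp
  have c0 := mul_ne_zero (mul_ne_zero (hd (0 - 1)) (wt_ne h.top (2 - 0))) (wt_ne h' 0)
  refine le_antisymm ?_ fun y hy => ?_
  · rintro _ ⟨_, ⟨y, hy, rfl⟩, rfl⟩
    exact c y hy ▸ U.smul_mem _ hy
  · exact ⟨_, ⟨_, U.smul_mem _⁻¹ hy, rfl⟩, by
      rw [c _ (U.smul_mem _ hy), smul_smul, mul_inv_cancel₀ c0, one_smul]⟩

end StarAux

end

end Pool.Agent.Lib.MP_fc2ced_ag.T
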