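import Pool.Agent.Lib.MP_fc2ced_ag.T.Map

/-! Homotopies and the basic vanishing statements. -/

open CategoryTheory Function Polynomial

namespace Pool.Agent.Lib.MP_fc2ced_ag.T

open K

noncomputable section

variable {k : Type} [Field k] {F : Type} [Field F] {χ : Chr k F}

open Ob

/-- The monic quadratic polynomial with sum `σ` and product `π` of the roots. -/
def quad {K : Type} [Field K] (σ π : K) : K[X] := X ^ 2 - C σ * X + C π

theorem quad_monic {K : Type} [Field K] (σ π : K) : (quad σ π).Monic := by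
  unfold quad; monicity!

theorem quad_root {K : Type} [Field K] {σ π s : K} : (quad σ π).IsRoot s ↔ s * (σ - s) = π := by
  simp only [quad, IsRoot.def, eval_add, eval_sub, eval_pow, eval_X, eval_mul, eval_C]
  constructor <;> intro h <;> linear_combination -h

theorem quad_mem {K : Type} [Field K] {σ π s : K} (h : s ∈ (quad σ π).roots) :
    s * (σ - s) = π := quad_root.1 (isRoot_of_mem_roots h)

theorem quad_roots {K : Type} [Field K] {σ π a b : K} (h : σ = a + b) (h' : π = a * b) :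
    (quad σ π).roots = {a, b} := by
  have e : quad σ π = (X - C a) * (X - C b) := by
    rw [quad, h, h', C_add, C_mul]; ring
  rw [e, roots_mul (mul_ne_zero (X_sub_C_ne_zero a) (X_sub_C_ne_zero b)), roots_X_sub_C,
    roots_X_sub_C]
  rfl

theorem quad_PR {K K' : Fld k} {φ : Place K K'} {σ π : K} {σ' π' : K'} (h : φ σ σ')
    (h' : φ π π') : φ.PR (quad σ π) (quad σ' π') :=
  ((Place.PR.X.pow 2).sub ((Place.PR.C h).mul Place.PR.X)).add (Place.PR.C h')

theorem quad_fin {K K' : Fld k} {φ : Place K K'} {σ π s : K} {σ' π' : K'} (h : φ σ σ')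
    (h' : φ π π') (e : s * (σ - s) = π) : ∃ s', φ s s' :=
  (quad_PR h h').exists_root (quad_monic _ _) (quad_root.2 e)

theorem Chr.mul_rt (χ : Chr k F) {K : Fld k} {y b : K} (h : y ^ χ.N = b) (r : K) (t : ℤ) :
    (y * r ^ t) ^ χ.N = b * (r ^ χ.N) ^ t := by
  rw [mul_pow, h, ← zpow_natCast, ← zpow_natCast, zpow_comm]

/-- A family of monic polynomials with invertible constant term. -/
def Chr.bp (χ : Chr k F) {K : Fld k} (s : K) : K[X] :=
  C (1 - s) * (X - C 1) ^ χ.N + C s * (X - C (algebraMap k K χ.ζ)) ^ χ.N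

theorem Chr.bp_monic (χ : Chr k F) {K : Fld k} (s : K) : (χ.bp s).Monic := by
  have h (a : K) : ((X - C a) ^ χ.N).natDegree = χ.N := by
    rw [(monic_X_sub_C a).natDegree_pow, natDegree_X_sub_C, mul_one]
  have h' (a : K) : ((X - C a) ^ χ.N).coeff χ.N = 1 := by
    have := ((monic_X_sub_C a).pow χ.N).coeff_natDegree
    rwa [h] at this
  refine monic_of_natDegree_le_of_coeff_eq_one χ.N ((natDegree_add_le _ _).trans (max_le
    ((natDegree_C_mul_le _ _).trans (h _).le) ((natDegree_C_mul_le _ _).trans (h _).le))) ?_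
  rw [Chr.bp, coeff_add, coeff_C_mul, coeff_C_mul, h', h']
  ring

theorem Chr.bp_ne (χ : Chr k F) {K : Fld k} {s r : K} (h : r ∈ (χ.bp s).roots) : r ≠ 0 := by
  rintro rfl
  have e := isRoot_of_mem_roots h
  simp only [Chr.bp, IsRoot.def, eval_add, eval_mul, eval_C, eval_pow, eval_sub, eval_X,
    zero_sub] at e
  rw [neg_pow (algebraMap k K χ.ζ), (χ.primK K).pow_eq_one] at e
  exact pow_ne_zero χ.N (neg_ne_zero.2 (one_ne_zero (α := K))) (by linear_combination e)

/-- A family of maps over the multiplicative group has the same value at the roots of unity. -/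
theorem Chr.null_gm (χ : Chr k F) {M N : Ob k F} (h : ∀ O : Fld k, O → M.V O →ₗ[F] N.V O)
    (nat : ∀ ⦃O O' : Fld k⦄ (g : Place O O') (r : O) (r' : O'), g r r' → r' ≠ 0 →
      h O' r' ∘ₗ M.map g = N.map g ∘ₗ h O r) {u v : M ⟶ N} (hu : ∀ O, h O 1 = u.1 O)
    (hv : ∀ O, h O (algebraMap k O χ.ζ) = v.1 O) : Null (u - v) := by
  let H : Htpy M N :=
    { h := fun O s => ((χ.bp s).roots.map (h O)).sum
      nat := fun O O' g s s' hs => by
        have key : ∀ (a : Multiset O) (b : Multiset O'), Multiset.Rel g.R a b →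
            (∀ r ∈ b, r ≠ 0) → (b.map (h O')).sum ∘ₗ M.map g = N.map g ∘ₗ (a.map (h O)).sum := by
          intro a b hab
          induction hab with
          | zero => simp
          | cons h1 _ ih =>
            intro h0
            rw [Multiset.map_cons, Multiset.map_cons, Multiset.sum_cons, Multiset.sum_cons,
              LinearMap.add_comp, LinearMap.comp_add, nat g _ _ h1 (h0 _ (by simp)),
              ih fun r hr => h0 r (by simp [hr])]
        exact key _ _ ((((Place.PR.C (g.one.sub hs)).mul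
          ((Place.PR.X.sub (Place.PR.C g.one)).pow _)).add ((Place.PR.C hs).mul
          ((Place.PR.X.sub (Place.PR.C (g.alg _))).pow _))).roots (χ.bp_monic s))
          fun r hr => χ.bp_ne hr }
  have e0 : H.val 0 = (χ.N : F) • u := Ob.hom_ext fun O => by
    change ((χ.bp (algebraMap k O 0)).roots.map (h O)).sum = (χ.N : F) • u.1 O
    simp [Chr.bp, roots_pow, Multiset.nsmul_singleton, hu, Nat.cast_smul_eq_nsmul, -map_one]
  have e1 : H.val 1 = (χ.N : F) • v := Ob.hom_ext fun O => by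
    change ((χ.bp (algebraMap k O 1)).roots.map (h O)).sum = (χ.N : F) • v.1 O
    simp [Chr.bp, roots_pow, Multiset.nsmul_singleton, hv, Nat.cast_smul_eq_nsmul]
  have := H.null.smul (χ.N : F)⁻¹
  rwa [e0, e1, ← smul_sub, smul_smul, inv_mul_cancel₀ χ.ne, one_smul] at this

namespace Pt

variable {S S' : Pt k}

variable (S S') in
/-- A family of multivalued maps over the affine line. -/
structure IsFam (m : ∀ ⦃K : Fld k⦄, K → S.X K → Multiset (S'.X K)) : Prop where
  f : ∀ ⦃K : Fld k⦄ (r : K) (x : S.X K), S.L x → ∀ z ∈ m r x, S'.L z → S'.f z = S.f x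
  sp : ∀ ⦃K K'⦄ (φ : Place K K') (r : K) (r' : K') (x : S.X K) (y : S.X K'), φ r r' → S.L x →
    S.L y → S.R φ x y → Multiset.Rel (S'.Sp φ) (m r x) (m r' y)
  dead : ∀ ⦃K K'⦄ (φ : Place K K') (r : K) (r' : K') (x : S.X K), φ r r' → S.L x → S.Dd φ x →
    ∀ z ∈ m r x, S'.Dd φ z

variable {m : ∀ ⦃K : Fld k⦄, K → S.X K → Multiset (S'.X K)}

/-- Homotopic maps agree. -/
theorem IsFam.null_sub (h : IsFam S S' m) {u v : S.E χ ⟶ S'.E χ}
    (hu : ∀ ⦃K⦄ (x : S.X K), S.L x → u.1 K (S.cl F x) = S'.cls F (m 0 x))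
    (hv : ∀ ⦃K⦄ (x : S.X K), S.L x → v.1 K (S.cl F x) = S'.cls F (m 1 x)) : Null (u - v) := by
  let H : Htpy (S.E χ) (S'.E χ) :=
    { h := fun O r => S.lf fun x => S'.cls F (m r x)
      nat := fun O O' φ r r' hr => lin_ext fun x hx => by
        rw [LinearMap.comp_apply, LinearMap.comp_apply,
          lf_cl (c := fun x => S'.cls F (m r x)) hx]
        rcases R_or_Dd φ x with ⟨y, hy, h1⟩ | h1
        · rw [map_cl (.of_R hx hy h1), map_smul, lf_cl hy,
            map_cls (b := S.f x) (h.f r x hx)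
              (h.sp φ r r' x y hr hx hy h1)]
        · rw [map_cl_Dd h1, map_zero, map_cls_Dd (h.dead φ r r' x hr hx h1)] }
  have e0 : H.val 0 = u := hom_ext fun K x hx => by
    rw [hu x hx, Htpy.val_app, map_zero]; exact lf_cl hx
  have e1 : H.val 1 = v := hom_ext fun K x hx => by
    rw [hv x hx, Htpy.val_app, map_one]; exact lf_cl hx
  exact e0 ▸ e1 ▸ H.null

variable (S S') in
/-- A family of multivalued maps over the multiplicative group that multiplies the function by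
the power `t` of the parameter. -/
structure IsGam (t : ℤ) (m : ∀ ⦃K : Fld k⦄, K → S.X K → Multiset (S'.X K)) : Prop where
  f : ∀ ⦃K : Fld k⦄ (r : K) (x : S.X K), r ≠ 0 → S.L x → ∀ z ∈ m r x, S'.L z →
    S'.f z = S.f x * r ^ t
  sp : ∀ ⦃K K'⦄ (φ : Place K K') (r : K) (r' : K') (x : S.X K) (y : S.X K'), φ r r' → r' ≠ 0 →
    S.L x → S.L y → S.R φ x y → Multiset.Rel (S'.Sp φ) (m r x) (m r' y)
  dead : ∀ ⦃K K'⦄ (φ : Place K K') (r : K) (r' : K') (x : S.X K), φ r r' → r' ≠ 0 → S.L x →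
    S.Dd φ x → ∀ z ∈ m r x, S'.Dd φ z

/-- A map that moves in a family that scales the function vanishes. -/
theorem IsGam.null {t : ℤ} (hχ : χ.ψ t ≠ 1) (h : IsGam S S' t m) {u : S.E χ ⟶ S'.E χ}
    (hu : ∀ ⦃K⦄ (x : S.X K), S.L x → u.1 K (S.cl F x) = S'.cls F (m 1 x)) : Null u := by
  have := (χ.null_gm (M := S.E χ) (N := S'.E χ) (fun O r => S.lf fun x =>
      χ.ev (χ.rt (S.f x) * r ^ t / χ.rt (S.f x * (r ^ χ.N) ^ t)) • S'.cls F (m (r ^ χ.N) x))
    (fun O O' φ r r' hr h0 => lin_ext fun x hx => ?_) (u := u) (v := χ.ψ t • u)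
    (fun O => lin_ext fun x hx => ?_) fun O => lin_ext fun x hx => ?_).smul (1 - χ.ψ t)⁻¹
  · rwa [← one_smul F u, smul_smul, ← sub_smul, smul_smul, mul_one,
      inv_mul_cancel₀ (sub_ne_zero.2 hχ.symm), one_smul] at this
  · have hs := hr.pow χ.N
    have h0' := pow_ne_zero χ.N h0
    rw [LinearMap.comp_apply, LinearMap.comp_apply, lf_cl (c := fun x =>
      χ.ev (χ.rt (S.f x) * r ^ t / χ.rt (S.f x * (r ^ χ.N) ^ t)) •
        S'.cls F (m (r ^ χ.N) x)) hx, map_smul]
    rcases R_or_Dd φ x with ⟨y, hy, h1⟩ | h1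
    · have hb := S.reg φ x y hx hy h1
      have hc := hb.mul (rel_zpow hs h0' t)
      have n1 := S.ne y hy
      have n2 := mul_ne_zero n1 (zpow_ne_zero t h0')
      obtain ⟨y1, a1, a2⟩ := Chr.exists_rel (χ.rt_spec (S.f x)) hb
      obtain ⟨y2, b1, b2⟩ := Chr.exists_rel (χ.rt_spec (S.f x * (r ^ χ.N) ^ t)) hc
      rw [map_cl (.of_R hx hy h1), map_smul, lf_cl hy,
        map_cls (b := S.f x * (r ^ χ.N) ^ t) (h.f _ x (hs.ne_zero h0') hx)
          (h.sp φ _ _ x y hs h0' hx hy h1), smul_smul, smul_smul, Chr.cf_eq hb a1,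
        Chr.cf_eq hc b1,
        ← Chr.ev_rel (Chr.div_fix (χ.mul_rt (χ.rt_spec _) r t) (χ.rt_spec _) (hc.ne_zero n2))
          ((a1.mul (rel_zpow hr h0 t)).div b1 (Chr.ne_of_pow b2 n2)),
        ← Chr.ev_mul (Chr.div_fix a2 (χ.rt_spec _) n1)
          (Chr.div_fix (χ.mul_rt (χ.rt_spec _) r' t) (χ.rt_spec _) n2),
        ← Chr.ev_mul (Chr.div_fix (χ.mul_rt a2 r' t) b2 n2) (Chr.div_fix b2 (χ.rt_spec _) n2)]
      congr 2
      have := χ.rt_ne n1
      have := Chr.ne_of_pow b2 n2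
      field_simp
    · rw [map_cl_Dd h1, map_zero, map_cls_Dd (h.dead φ _ _ x hs h0' hx h1), smul_zero]
  · rw [hu x hx, lf_cl hx]
    simp [χ.rt_ne (S.ne x hx)]
  · change _ = χ.ψ t • u.1 O (S.cl F x)
    rw [hu x hx, lf_cl hx, (χ.primK O).pow_eq_one, one_zpow, mul_one,
      mul_div_cancel_left₀ _ (χ.rt_ne (S.ne x hx)), Chr.ev_zeta]

variable (S) in
/-- An action of the multiplicative group that scales the function. -/
structure Flow (t : ℤ) (τ : ∀ ⦃K : Fld k⦄, K → S.X K → S.X K) : Prop where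
  live : ∀ ⦃K : Fld k⦄ (r : K) (x : S.X K), r ≠ 0 → S.L x → S.L (τ r x)
  one : ∀ ⦃K⦄ (x : S.X K), S.L x → τ 1 x = x
  inv : ∀ ⦃K : Fld k⦄ (r : K) (x : S.X K), r ≠ 0 → S.L x → τ r⁻¹ (τ r x) = x
  f : ∀ ⦃K : Fld k⦄ (r : K) (x : S.X K), r ≠ 0 → S.L x → S.f (τ r x) = S.f x * r ^ t
  reg : ∀ ⦃K K'⦄ (φ : Place K K') (r : K) (r' : K') (x : S.X K) (y : S.X K'), φ r r' → r' ≠ 0 →
    S.L x → S.L y → S.R φ x y → S.R φ (τ r x) (τ r' y)

theorem Flow.uzero {t : ℤ} (hχ : χ.ψ t ≠ 1) {τ : ∀ ⦃K : Fld k⦄, K → S.X K → S.X K}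
    (h : S.Flow t τ) : UZero (S.E χ) := by
  have fam : IsGam S S t fun _ r x => {τ r x} :=
    { f := fun K r x hr hx z hz _ => by rw [Multiset.mem_singleton.1 hz, h.f r x hr hx]
      sp := fun K K' φ r r' x y hr h0 hx hy h1 => .cons
        (.of_R (h.live r x (hr.ne_zero h0) hx) (h.live r' y h0 hy)
          (h.reg φ r r' x y hr h0 hx hy h1)) .zero
      dead := fun K K' φ r r' x hr h0 hx h1 z hz hl w hw h2 => by
        rw [Multiset.mem_singleton.1 hz] at h2 hl
        have := h.reg φ _ _ _ w (hr.inv h0) (inv_ne_zero h0) hl hw h2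
        rw [h.inv r x (hr.ne_zero h0) hx] at this
        exact h1 hx _ (h.live _ w (inv_ne_zero h0) hw) this }
  refine UZero.iff_null.2 (fam.null hχ fun K x hx => ?_)
  rw [cls_singleton, h.one x hx]
  rfl

variable (S) in
/-- Two invertible coordinates `a, b` that can be moved by `mv` keeping `a + b + κ a b`, and that
enter the function through `(a b) ^ t`. -/
structure Swap (t : ℤ) (a b κ : ∀ ⦃K⦄, S.X K → K) (mv : ∀ ⦃K⦄, S.X K → K → K → S.X K) : Prop where
  ra : S.RegF a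
  rb : S.RegF b
  rκ : S.RegF κ
  ne : ∀ ⦃K⦄ (x : S.X K), S.L x → a x * b x ≠ 0
  self : ∀ ⦃K⦄ (x : S.X K), S.L x → mv x (a x) (b x) = x
  spec : ∀ ⦃K : Fld k⦄ (x : S.X K) (s u : K), S.L x → s * u ≠ 0 →
    s + u + κ x * (s * u) = a x + b x + κ x * (a x * b x) → S.L (mv x s u) ∧
    a (mv x s u) = s ∧ b (mv x s u) = u ∧ κ (mv x s u) = κ x ∧
    S.f (mv x s u) = S.f x * (s * u / (a x * b x)) ^ t ∧ mv (mv x s u) (a x) (b x) = x
  reg : ∀ ⦃K K'⦄ (φ : Place K K') (x : S.X K) (y : S.X K') (s u : K) (s' u' : K'), S.L x → S.L y →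
    S.R φ x y → φ s s' → φ u u' → s' * u' ≠ 0 →
    s + u + κ x * (s * u) = a x + b x + κ x * (a x * b x) → S.R φ (mv x s u) (mv y s' u')

theorem Swap.acts {t : ℤ} (hχ : χ.ψ t ≠ 1) {a b κ : ∀ ⦃K⦄, S.X K → K}
    {mv : ∀ ⦃K⦄, S.X K → K → K → S.X K} (h : S.Swap t a b κ mv) :
    S.Acts χ (fun _ x => mv x (b x) (a x)) (-1) := by
  have back : ∀ ⦃K K'⦄ (φ : Place K K') (x : S.X K) (s u : K) (w : S.X K') (a' b' : K'), S.L x →
      s * u ≠ 0 → s + u + κ x * (s * u) = a x + b x + κ x * (a x * b x) → S.L w →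
      S.R φ (mv x s u) w → φ (a x) a' → φ (b x) b' → a' * b' ≠ 0 → ¬ S.Dd φ x := by
    intro K K' φ x s u w a' b' hx n e hw h2 ha hb n' h1
    obtain ⟨l, e1, e2, e3, -, e5⟩ := h.spec x s u hx n e
    have r1 := h.ra φ _ w l hw h2
    have r2 := h.rb φ _ w l hw h2
    have r3 := h.rκ φ _ w l hw h2
    have := h.reg φ _ w (a x) (b x) a' b' l hw h2 ha hb n' (by rw [e1, e2, e3, e])
    rw [e5] at this
    exact h1 hx _ (h.spec w a' b' hw n' (((ha.add hb).add (r3.mul (ha.mul hb))).eq_of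
      ((r1.add r2).add (r3.mul (r1.mul r2))) (by rw [e1, e2, e3, e]))).1 this
  have sw : ∀ ⦃K⦄ (x : S.X K), S.L x → _ := fun K x hx =>
    h.spec x (b x) (a x) hx (mul_comm (a x) _ ▸ h.ne x hx) (by ring)
  have im : IsMap S S fun _ x => mv x (b x) (a x) :=
    { f := fun K x hx _ => by
        rw [(sw x hx).2.2.2.2.1, mul_comm (b x), div_self (h.ne x hx), one_zpow, mul_one]
      sp := fun K K' φ x y hx hy h1 => .of_R (sw x hx).1 (sw y hy).1
        (h.reg φ x y _ _ _ _ hx hy h1 (h.rb φ x y hx hy h1) (h.ra φ x y hx hy h1)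
          (mul_comm (a y) _ ▸ h.ne y hy) (by ring))
      dead := fun K K' φ x hx h1 l w hw h2 => by
        obtain ⟨-, e1, e2, -⟩ := sw x hx
        exact back φ x _ _ w _ _ hx (mul_comm (a x) _ ▸ h.ne x hx) (by ring) hw h2
          (e2 ▸ h.rb φ _ w l hw h2) (e1 ▸ h.ra φ _ w l hw h2)
          (mul_comm (a w) _ ▸ h.ne w hw) h1 }
  have key : ∀ ⦃K : Fld k⦄ {r s : K} {x : S.X K}, r ≠ 0 → S.L x →
      s ∈ (quad (a x + b x + κ x * (1 - r) * (a x * b x)) (r * (a x * b x))).roots →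
      s * (a x + b x + κ x * (1 - r) * (a x * b x) - s) ≠ 0 ∧
      s + (a x + b x + κ x * (1 - r) * (a x * b x) - s) +
        κ x * (s * (a x + b x + κ x * (1 - r) * (a x * b x) - s)) =
        a x + b x + κ x * (a x * b x) := fun K r s x hr hx hs => by
    rw [quad_mem hs]
    exact ⟨mul_ne_zero hr (h.ne x hx), by ring⟩
  have fam : IsGam S S t fun _ r x =>
      (quad (a x + b x + κ x * (1 - r) * (a x * b x)) (r * (a x * b x))).roots.map
        fun s => mv x s (a x + b x + κ x * (1 - r) * (a x * b x) - s) :=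
    { f := fun K r x hr hx z hz _ => by
        obtain ⟨s, hs, rfl⟩ := Multiset.mem_map.1 hz
        rw [(h.spec x _ _ hx (key hr hx hs).1 (key hr hx hs).2).2.2.2.2.1, quad_mem hs,
          mul_div_cancel_right₀ _ (h.ne x hx)]
      sp := fun K K' φ r r' x y hr h0 hx hy h1 => by
        have r1 := h.ra φ x y hx hy h1
        have r2 := h.rb φ x y hx hy h1
        have r3 := (r1.add r2).add (((h.rκ φ x y hx hy h1).mul (φ.one.sub hr)).mul (r1.mul r2))
        refine Multiset.rel_map.2 (((quad_PR r3 (hr.mul (r1.mul r2))).roots (quad_monic _ _)).mono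
          fun s hs s' hs' r4 => ?_)
        have k1 := key (hr.ne_zero h0) hx hs
        have k2 := key h0 hy hs'
        exact .of_R (h.spec x _ _ hx k1.1 k1.2).1 (h.spec y _ _ hy k2.1 k2.2).1
          (h.reg φ x y _ _ _ _ hx hy h1 r4 (r3.sub r4) k2.1 k1.2)
      dead := fun K K' φ r r' x hr h0 hx h1 z hz l w hw h2 => by
        obtain ⟨s, hs, rfl⟩ := Multiset.mem_map.1 hz
        have e := quad_mem hs
        have k1 := key (hr.ne_zero h0) hx hs
        obtain ⟨-, e1, e2, e3, -⟩ := h.spec x _ _ hx k1.1 k1.2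
        have r1 := h.ra φ _ w l hw h2
        have r2 := h.rb φ _ w l hw h2
        have r3 := h.rκ φ _ w l hw h2
        rw [e1] at r1
        rw [e2] at r2
        rw [e3] at r3
        have r5 : φ (a x * b x) _ := ((r1.mul r2).div hr h0).congr
          (by rw [e, mul_div_cancel_left₀ _ (hr.ne_zero h0)]) rfl
        have r4 : φ (a x + b x) _ :=
          ((r1.add r2).sub ((r3.mul (φ.one.sub hr)).mul r5)).congr (by ring) rfl
        obtain ⟨a', ha⟩ := quad_fin r4 r5 (s := a x) (by ring)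
        obtain ⟨b', hb⟩ := quad_fin r4 r5 (s := b x) (by ring)
        exact back φ x _ _ w a' b' hx k1.1 k1.2 hw h2 ha hb
          (((ha.mul hb).func r5).trans_ne (div_ne_zero (h.ne w hw) h0)) h1 }
  refine ⟨im, fam.null hχ fun K x hx => ?_⟩
  rw [neg_smul, one_smul, sub_neg_eq_add, quad_roots (a := b x) (b := a x) (by ring) (by ring)]
  change (im.hom χ).1 K (S.cl F x) + S.cl F x = _
  rw [im.hom_cl hx, Multiset.insert_eq_cons, Multiset.map_cons, Multiset.map_singleton, cls_cons,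
    cls_singleton, sub_self, mul_zero, zero_mul, add_zero, add_sub_cancel_right,
    add_sub_cancel_left, h.self x hx]

variable (S) in
/-- A coordinate `s` that can be moved freely by `mv`, keeping the functions `f` and `c`. -/
structure Free (s c : ∀ ⦃K⦄, S.X K → K) (mv : ∀ ⦃K⦄, S.X K → K → S.X K) : Prop where
  rs : S.RegF s
  rc : S.RegF c
  self : ∀ ⦃K⦄ (x : S.X K), S.L x → mv x (s x) = x
  spec : ∀ ⦃K : Fld k⦄ (x : S.X K) (t : K), S.L x → S.L (mv x t) ∧ s (mv x t) = t ∧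
    c (mv x t) = c x ∧ S.f (mv x t) = S.f x ∧ mv (mv x t) (s x) = x
  reg : ∀ ⦃K K'⦄ (φ : Place K K') (x : S.X K) (y : S.X K') (t : K) (t' : K'), S.L x → S.L y →
    S.R φ x y → φ t t' → S.R φ (mv x t) (mv y t')

theorem Free.acts [CharZero F] {s c : ∀ ⦃K⦄, S.X K → K} {mv : ∀ ⦃K⦄, S.X K → K → S.X K}
    (h : S.Free s c mv) : S.Acts χ (fun _ x => mv x (c x - s x)) 1 := by
  have back : ∀ ⦃K K'⦄ (φ : Place K K') (x : S.X K) (t : K) (w : S.X K') (s' : K'), S.L x →
      S.L w → S.R φ (mv x t) w → φ (s x) s' → ¬ S.Dd φ x := by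
    intro K K' φ x t w s' hx hw h2 hs h1
    obtain ⟨l, -, -, -, e⟩ := h.spec x t hx
    have := h.reg φ _ w (s x) s' l hw h2 hs
    rw [e] at this
    exact h1 hx _ (h.spec w s' hw).1 this
  have im : IsMap S S fun _ x => mv x (c x - s x) :=
    { f := fun K x hx _ => (h.spec x _ hx).2.2.2.1
      sp := fun K K' φ x y hx hy h1 => .of_R (h.spec x _ hx).1 (h.spec y _ hy).1
        (h.reg φ x y _ _ hx hy h1 ((h.rc φ x y hx hy h1).sub (h.rs φ x y hx hy h1)))
      dead := fun K K' φ x hx h1 l w hw h2 => by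
        obtain ⟨-, e1, e2, -⟩ := h.spec x (c x - s x) hx
        have r1 := h.rs φ _ w l hw h2
        have r2 := h.rc φ _ w l hw h2
        rw [e1] at r1
        rw [e2] at r2
        exact back φ x _ w _ hx hw h2 ((r2.sub r1).congr (by ring) rfl) h1 }
  have two : ∀ ⦃K K' : Fld k⦄ (φ : Place K K'), φ 2 2 := fun K K' φ => by
    simpa using φ.natCast 2
  have fam : IsFam S S fun _ r x => (quad (2 * ((1 - r) * s x + r * (c x - s x)))
      ((1 - r) * s x ^ 2 + r * (c x - s x) ^ 2)).roots.map (mv x) :=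
    { f := fun K r x hx z hz _ => by
        obtain ⟨t, -, rfl⟩ := Multiset.mem_map.1 hz
        rw [(h.spec x t hx).2.2.2.1]
      sp := fun K K' φ r r' x y hr hx hy h1 => by
        have r1 := h.rs φ x y hx hy h1
        have r2 := (h.rc φ x y hx hy h1).sub r1
        have r3 := φ.one.sub hr
        refine Multiset.rel_map.2 (((quad_PR ((two φ).mul ((r3.mul r1).add (hr.mul r2)))
          ((r3.mul (r1.pow 2)).add (hr.mul (r2.pow 2)))).roots (quad_monic _ _)).mono
          fun t _ t' _ r4 => ?_)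
        exact .of_R (h.spec x _ hx).1 (h.spec y _ hy).1 (h.reg φ x y _ _ hx hy h1 r4)
      dead := fun K K' φ r r' x hr hx h1 z hz l w hw h2 => by
        obtain ⟨t, ht, rfl⟩ := Multiset.mem_map.1 hz
        have e := quad_mem ht
        obtain ⟨-, e1, e2, -⟩ := h.spec x t hx
        have r1 := h.rs φ _ w l hw h2
        have r2 := h.rc φ _ w l hw h2
        rw [e1] at r1
        rw [e2] at r2
        have r3 := φ.one.sub hr
        have r4 := r2.sub r1
        obtain ⟨s', hs⟩ := quad_fin ((two φ).mul ((r3.mul r1).add (hr.mul r4)))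
          ((r3.mul (r1.pow 2)).add (hr.mul (r4.pow 2))) (s := s x) (by linear_combination e)
        exact back φ x t w s' hx hw h2 hs h1 }
  have key : Null ((𝟙 _ + 𝟙 _) - (im.hom χ + im.hom χ)) := by
    refine fam.null_sub (fun K x hx => ?_) fun K x hx => ?_
    · rw [quad_roots (a := s x) (b := s x) (by ring) (by ring)]
      change S.cl F x + S.cl F x = _
      rw [Multiset.insert_eq_cons, Multiset.map_cons, Multiset.map_singleton, cls_cons,
        cls_singleton, h.self x hx]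
    · rw [quad_roots (a := c x - s x) (b := c x - s x) (by ring) (by ring)]
      change (im.hom χ).1 K (S.cl F x) + (im.hom χ).1 K (S.cl F x) = _
      rw [im.hom_cl hx, Multiset.insert_eq_cons, Multiset.map_cons, Multiset.map_singleton,
        cls_cons, cls_singleton]
  refine ⟨im, ?_⟩
  have := key.smul (-(2 : F)⁻¹)
  convert this using 1
  module

variable (S) in
/-- A root of a monic polynomial is added. -/
@[reducible] def root (c : ∀ ⦃K⦄, S.X K → K[X]) (hc : S.RegP c) : Pt k :=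
  (S.prod (line k)).restr (fun _ x => (c x.1).IsRoot x.2) (Closed.conv fun _ _ φ _ _ a b h e =>
    ((hc φ _ _ a.1 b.1 h.1).eval h.2).eq_of φ.zero e)

/-- The transfer along the roots, for any variety `S'` of pairs of a point and a root. -/
theorem isCor_root {c : ∀ ⦃K⦄, S.X K → K[X]} (hc : S.RegP c)
    (mo : ∀ ⦃K⦄ (x : S.X K), S.L x → (c x).Monic) {e : ∀ ⦃K⦄, S.X K → K → S'.X K}
    (he : IsMap (S.root c hc) S' fun _ x => e x.1 x.2) :
    IsCor S S' fun _ x => (c x).roots.map (e x) where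
  f K x hx z hz l := by
    obtain ⟨s, hs, rfl⟩ := Multiset.mem_map.1 hz
    exact (he.f (x, s) ⟨⟨hx, trivial⟩, isRoot_of_mem_roots hs⟩ l).trans (mul_one _)
  sp K K' φ x y hx hy h1 := Multiset.rel_map.2 (((hc φ x y hx hy h1).roots (mo x hx)).mono
    fun s hs s' hs' r => he.sp φ (x, s) (y, s') ⟨⟨hx, trivial⟩, isRoot_of_mem_roots hs⟩
      ⟨⟨hy, trivial⟩, isRoot_of_mem_roots hs'⟩ ⟨h1, r⟩)
  dead K K' φ x hx h1 z hz := by
    obtain ⟨s, hs, rfl⟩ := Multiset.mem_map.1 hz
    exact he.dead φ (x, s) ⟨⟨hx, trivial⟩, isRoot_of_mem_roots hs⟩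
      fun _ y hy h2 => h1 hx y.1 hy.1.1 h2.1

theorem isMap_root {c : ∀ ⦃K⦄, S.X K → K[X]} (hc : S.RegP c)
    (mo : ∀ ⦃K⦄ (x : S.X K), S.L x → (c x).Monic) : IsMap (S.root c hc) S fun _ x => x.1 := by
  refine IsMap.of_proper ⟨fun _ _ h => h.1.1, fun _ _ _ _ _ _ _ h => h.1⟩
    (fun _ x _ => (mul_one _).symm) fun K K' φ x z hx hz h1 => ?_
  have r := hc φ x.1 z hx.1.1 hz h1
  obtain ⟨s', hs⟩ := r.exists_root (mo x.1 hx.1.1) hx.2
  exact ⟨(z, s'), ⟨⟨hz, trivial⟩, (r.eval hs).eq_of φ.zero hx.2⟩, h1, hs⟩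

end Pt

end

end Pool.Agent.Lib.MP_fc2ced_ag.T
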